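import Pool.Agent.Lib.MP_aafd8a_gt_A2.Spec

/-!
# MP_aafd8a_gt, block (A-ii), module A2: the final statement
-/

set_option autoImplicit false

open Topology RealInnerProductSpace Quaternion

namespace Pool.Agent.MPaafd8a.A2

/-- The spheres of dimension at most `15` have fine partitions of unity with at most `16` positive functions. -/
theorem fineP_cSph (hK : SKuhn) (i : ℕ) (hi : i ≤ 15) : FineP 16 (CSph (i + 1)) := by
  intro η hη
  obtain ⟨A, hA, ψ, h1, h2, h3, h4, h5⟩ := hK (i + 1) η hη
  exact ⟨A, hA, ψ, h1, h2, h3, h4, fun z => (h5 z).trans (by omega)⟩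

theorem pA2 (hAs : TAs) (hK : SKuhn) : TA2 := by
  intro K _ k J hJ i hi D g f hf hk
  have : CompactSpace (CSph (i + 1)) := isCompact_iff_compactSpace.1 (isCompact_sphere _ _)
  exact hAs K k J hJ (CSph (i + 1)) (fineP_cSph hK i hi) D g f hf hk

end Pool.Agent.MPaafd8a.A2
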