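import Pool.Agent.Lib.MP_aafd8a_gt_A2.Spec

/-!
# MP_aafd8a_gt, block (A-ii): null-homotopy of the map `z ↦ Jt (g z, D z)`

Four homotopies: deformation of `D` to the approximation `κ⁻¹ D'`, factorization of `g` through the nerve near the zeros of
`D'`, null-homotopy on the nerve, and contraction of the second argument.
-/

set_option autoImplicit false

open Topology

namespace Pool.Agent.MPaafd8a.A2

namespace AsAux

/-- The map to the mapping space. -/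
def mkJ {K X : Type} [TopologicalSpace K] [TopologicalSpace X] (k : K) (Jt : C(X × (Fin 13 → ℝ), K))
    (h : ∀ x d, 1 ≤ ‖d‖ → Jt (x, d) = k) : C(X, LY K k) :=
  ⟨fun x => ⟨Jt.curry x, h x⟩, Continuous.subtype_mk Jt.curry.continuous _⟩

/-- Evaluation is continuous. -/
theorem ev {K W : Type} [TopologicalSpace K] [TopologicalSpace W] (k : K) (p : W → LY K k) (hp : Continuous p)
    (d : W → Fin 13 → ℝ) (hd : Continuous d) : Continuous fun w => (p w).1 (d w) := by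
  have h1 : Continuous fun w => ((p w).1 : C(Fin 13 → ℝ, K)) := continuous_subtype_val.comp hp
  exact h1.eval hd

/-- Gluing, with a norm. -/
theorem glu (hG : TGlu) {Z K : Type} [TopologicalSpace Z] [TopologicalSpace K] (k : K) (D : C(Z, Fin 13 → ℝ)) (κ : ℝ)
    (G : C(unitInterval × {z // ‖D z‖ ≤ κ}, K))
    (h : ∀ s (z : {z // ‖D z‖ ≤ κ}), ‖D z‖ = κ → G (s, z) = k) :
    ∃ F : C(unitInterval × Z, K), (∀ s z (h : ‖D z‖ ≤ κ), F (s, z) = G (s, ⟨z, h⟩)) ∧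
      ∀ s z, κ ≤ ‖D z‖ → F (s, z) = k :=
  hG Z K k ⟨fun z => ‖D z‖, D.continuous.norm⟩ κ G h

/-- Composition of four homotopies. -/
theorem chain4 {Z K : Type} [TopologicalSpace Z] [TopologicalSpace K] (F₁ F₂ F₃ F₄ : C(unitInterval × Z, K))
    (f : C(Z, K)) (y : K) (h0 : ∀ z, F₁ (0, z) = f z) (h1 : ∀ z, F₁ (1, z) = F₂ (0, z))
    (h2 : ∀ z, F₂ (1, z) = F₃ (0, z)) (h3 : ∀ z, F₃ (1, z) = F₄ (0, z)) (h4 : ∀ z, F₄ (1, z) = y) :
    f.Homotopic (ContinuousMap.const _ y) := by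
  let e : C(Z, unitInterval × Z) := ⟨fun z => (0, z), by fun_prop⟩
  have a1 : f.Homotopic (F₂.comp e) := ⟨⟨F₁, h0, h1⟩⟩
  have a2 : (F₂.comp e).Homotopic (F₃.comp e) := ⟨⟨F₂, fun z => rfl, h2⟩⟩
  have a3 : (F₃.comp e).Homotopic (F₄.comp e) := ⟨⟨F₃, fun z => rfl, h3⟩⟩
  have a4 : (F₄.comp e).Homotopic (ContinuousMap.const _ y) := ⟨⟨F₄, fun z => rfl, h4⟩⟩
  exact ((a1.trans a2).trans a3).trans a4

theorem mem_nrv {B U : Type} [Fintype B] (β : B → U → ℝ) (σ : Finset B) :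
    σ ∈ nrv β ↔ σ.Nonempty ∧ ∃ x, ∀ b ∈ σ, 0 < β b x := by
  unfold nrv
  simp

theorem downC {B U : Type} [Fintype B] (β : B → U → ℝ) : DownC (nrv β) := by
  intro σ hσ τ hτ hne
  rw [mem_nrv] at hσ ⊢
  obtain ⟨_, x, hx⟩ := hσ
  exact ⟨hne, x, fun b hb => hx b (hτ hb)⟩

theorem mem_body {B U : Type} [Fintype B] (β : B → U → ℝ) (h0 : ∀ b x, 0 ≤ β b x) (h1 : ∀ x, ∑ b, β b x = 1) (x : U) :
    (fun b => β b x) ∈ body (nrv β) := by
  classical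
  refine ⟨Finset.univ.filter (fun b => 0 < β b x), (mem_nrv β _).2 ⟨?_, x, fun b hb => (Finset.mem_filter.1 hb).2⟩,
    fun b => h0 b x, h1 x, fun b hb => ?_⟩
  · by_contra hne
    rw [Finset.not_nonempty_iff_eq_empty] at hne
    have h2 : ∑ b, β b x = 0 := by
      refine Finset.sum_eq_zero fun b _ => ?_
      have h3 : b ∉ Finset.univ.filter (fun b => 0 < β b x) := by rw [hne]; exact Finset.notMem_empty b
      have h4 : ¬ 0 < β b x := fun h => h3 (Finset.mem_filter.2 ⟨Finset.mem_univ b, h⟩)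
      exact le_antisymm (not_lt.1 h4) (h0 b x)
    rw [h1 x] at h2
    exact one_ne_zero h2
  · have h4 : ¬ 0 < β b x := fun h => hb (Finset.mem_filter.2 ⟨Finset.mem_univ b, h⟩)
    exact le_antisymm (not_lt.1 h4) (h0 b x)

/-- The norm estimate for the first homotopy. -/
theorem norm_est (a a' : Fin 13 → ℝ) (κ s : ℝ) (hκ : 0 < κ) (hκ4 : κ ≤ 1 / 4) (hs0 : 0 ≤ s) (hs1 : s ≤ 1) (ha : ‖a‖ = 1)
    (haa : ‖a' - a‖ < 1 / 4) : 1 ≤ ‖(1 - s) • a + (s * κ⁻¹) • a'‖ := by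
  have h4 : 4 ≤ κ⁻¹ := by
    rw [le_inv_comm₀ (by norm_num) hκ]
    linarith
  have hc : 0 ≤ s * κ⁻¹ := mul_nonneg hs0 (by linarith)
  have e : (1 - s) • a + (s * κ⁻¹) • a' = ((1 - s) + s * κ⁻¹) • a - (-(s * κ⁻¹)) • (a' - a) := by
    rw [neg_smul, sub_neg_eq_add, smul_sub, add_smul]
    abel
  rw [e]
  have h1 := norm_sub_norm_le (((1 - s) + s * κ⁻¹) • a) ((-(s * κ⁻¹)) • (a' - a))
  rw [norm_smul, norm_smul, ha, Real.norm_eq_abs, Real.norm_eq_abs, abs_neg, abs_of_nonneg hc,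
    abs_of_nonneg (by linarith : 0 ≤ (1 - s) + s * κ⁻¹)] at h1
  have h2 : s * κ⁻¹ * ‖a' - a‖ ≤ s * κ⁻¹ * (1 / 4) := mul_le_mul_of_nonneg_left haa.le hc
  have h3 : s * 4 ≤ s * κ⁻¹ := mul_le_mul_of_nonneg_left h4 hs0
  linarith

theorem norm_inv (a : Fin 13 → ℝ) (κ : ℝ) (hκ : 0 < κ) (ha : κ ≤ ‖a‖) : 1 ≤ ‖κ⁻¹ • a‖ := by
  rw [norm_smul, Real.norm_eq_abs, abs_of_pos (inv_pos.2 hκ), ← inv_mul_cancel₀ hκ.ne']
  exact mul_le_mul_of_nonneg_left ha (inv_pos.2 hκ).le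

end AsAux

open AsAux in
theorem pAs : TNV → TCom → TGrp → TPi2 → TNer → TRed → TGlu → TAs := by
  intro hNV hCom hGrp hPi2 hNer hRed hGlu K _ k Jt hJt Z _ _ hFine D g f hf1 hf2
  have : CompactSpace {z // ‖D z‖ ≤ 1} :=
    isCompact_iff_compactSpace.1 (isClosed_le D.continuous.norm continuous_const).isCompact
  obtain ⟨η, hη, hN⟩ := hNer {z // ‖D z‖ ≤ 1} g
  obtain ⟨D', κ, hκ, hκ4, hD', B, _, β, hβc, hβ0, hβ1, hβd, hβ3⟩ := hRed Z hFine D (1 / 4) η (by norm_num) hη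
  have hle (z : Z) (hz : ‖D' z‖ ≤ κ) : ‖D z‖ ≤ 1 / 2 := by
    have h1 : ‖D z‖ ≤ ‖D' z‖ + ‖D' z - D z‖ := by
      have h2 := norm_sub_norm_le (D z) (D' z)
      rw [norm_sub_rev] at h2
      linarith
    have h3 := hD' z
    linarith
  let ι : C({z // ‖D' z‖ ≤ κ}, {z // ‖D z‖ ≤ 1}) :=
    ⟨fun x => ⟨x.1, (hle x.1 x.2).trans (by norm_num)⟩, Continuous.subtype_mk continuous_subtype_val _⟩
  obtain ⟨g', H, hg', hH0, hH1⟩ := hN {z // ‖D' z‖ ≤ κ} ι B β hβc hβ0 hβ1 hβd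
  obtain ⟨hPC, hSP⟩ := hGrp
  obtain ⟨x₁⟩ := hPC.nonempty
  let J : C(RSq, LY K k) := mkJ k Jt hJt
  let q : HF J (J x₁) := ⟨(x₁, ContinuousMap.const _ (J x₁)), rfl, rfl⟩
  obtain ⟨Hn, hHnc, hHn⟩ := hNV RSq (LY K k) J (J x₁) (hCom K k (J x₁)) hPC hPi2 q (hSP _).1 (hSP _).2 B (nrv β)
    (downC β) hβ3 g' hg'
  have hbody := mem_body β hβ0 hβ1
  -- the four homotopies
  have hc1 : Continuous fun p : unitInterval × {z // ‖D z‖ ≤ 1} =>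
      Jt (g p.2, (1 - (p.1 : ℝ)) • D p.2 + ((p.1 : ℝ) * κ⁻¹) • D' p.2) := by fun_prop
  obtain ⟨F₁, hF₁, hF₁k⟩ := glu hGlu k D 1 ⟨_, hc1⟩ (fun s z hz => hJt _ _
    (norm_est (D z) (D' z) κ s hκ hκ4 s.2.1 s.2.2 hz (hD' z)))
  have hc2 : Continuous fun p : unitInterval × {z // ‖D' z‖ ≤ κ} => Jt (H p, κ⁻¹ • D' p.2) := by fun_prop
  obtain ⟨F₂, hF₂, hF₂k⟩ := glu hGlu k D' κ ⟨_, hc2⟩ (fun s z hz => hJt _ _ (norm_inv (D' z) κ hκ hz.ge))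
  have hc3 : Continuous fun p : unitInterval × {z // ‖D' z‖ ≤ κ} =>
      (Hn (p.1, fun b => β b p.2)).1 (κ⁻¹ • D' p.2) := by
    refine ev k (fun p : unitInterval × {z // ‖D' z‖ ≤ κ} => Hn (p.1, fun b => β b p.2)) ?_ _ (by fun_prop)
    refine hHnc.comp_continuous (f := fun p : unitInterval × {z // ‖D' z‖ ≤ κ} => (p.1, fun b => β b p.2)) ?_
      fun p => ⟨Set.mem_univ _, hbody p.2⟩
    exact continuous_fst.prodMk (continuous_pi fun b => (hβc b).comp continuous_snd)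
  obtain ⟨F₃, hF₃, hF₃k⟩ := glu hGlu k D' κ ⟨_, hc3⟩ (fun s z hz =>
    (Hn (s, fun b => β b z)).2 _ (norm_inv (D' z) κ hκ hz.ge))
  have hc4 : Continuous fun p : unitInterval × Z => Jt (x₁, ((1 - (p.1 : ℝ)) * κ⁻¹) • D' p.2) := by fun_prop
  refine ⟨Jt (x₁, 0), chain4 F₁ F₂ F₃ ⟨_, hc4⟩ f _ (fun z => ?_) (fun z => ?_) (fun z => ?_) (fun z => ?_) fun z => ?_⟩
  · by_cases hz : ‖D z‖ ≤ 1
    · rw [hF₁ 0 z hz, hf1 z hz]
      change Jt (g ⟨z, hz⟩, (1 - ((0 : unitInterval) : ℝ)) • D z + (((0 : unitInterval) : ℝ) * κ⁻¹) • D' z) = _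
      simp
    · have hz' := (not_le.1 hz).le
      rw [hF₁k 0 z hz', hf2 z hz']
  · by_cases hz' : ‖D' z‖ ≤ κ
    · have hz : ‖D z‖ ≤ 1 := (hle z hz').trans (by norm_num)
      rw [hF₁ 1 z hz, hF₂ 0 z hz']
      change Jt (g ⟨z, hz⟩, (1 - ((1 : unitInterval) : ℝ)) • D z + (((1 : unitInterval) : ℝ) * κ⁻¹) • D' z) =
        Jt (H (0, ⟨z, hz'⟩), κ⁻¹ • D' z)
      rw [hH0]
      simp
      rfl
    · have hk' := (not_le.1 hz').le
      rw [hF₂k 0 z hk']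
      by_cases hz : ‖D z‖ ≤ 1
      · rw [hF₁ 1 z hz]
        change Jt (g ⟨z, hz⟩, (1 - ((1 : unitInterval) : ℝ)) • D z + (((1 : unitInterval) : ℝ) * κ⁻¹) • D' z) = k
        refine hJt _ _ ?_
        have h1 : (1 - ((1 : unitInterval) : ℝ)) • D z + (((1 : unitInterval) : ℝ) * κ⁻¹) • D' z = κ⁻¹ • D' z := by
          simp
        rw [h1]
        exact norm_inv _ κ hκ hk'
      · exact hF₁k 1 z (not_le.1 hz).le
  · by_cases hz' : ‖D' z‖ ≤ κ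
    · rw [hF₂ 1 z hz', hF₃ 0 z hz']
      change Jt (H (1, ⟨z, hz'⟩), κ⁻¹ • D' z) = (Hn (0, fun b => β b ⟨z, hz'⟩)).1 (κ⁻¹ • D' z)
      rw [hH1, (hHn _ (hbody ⟨z, hz'⟩)).1]
      rfl
    · have hk' := (not_le.1 hz').le
      rw [hF₂k 1 z hk', hF₃k 0 z hk']
  · change _ = Jt (x₁, ((1 - ((0 : unitInterval) : ℝ)) * κ⁻¹) • D' z)
    have h1 : ((1 - ((0 : unitInterval) : ℝ)) * κ⁻¹) • D' z = κ⁻¹ • D' z := by simp
    rw [h1]
    by_cases hz' : ‖D' z‖ ≤ κ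
    · rw [hF₃ 1 z hz']
      change (Hn (1, fun b => β b ⟨z, hz'⟩)).1 (κ⁻¹ • D' z) = _
      rw [(hHn _ (hbody ⟨z, hz'⟩)).2]
      rfl
    · have hk' := (not_le.1 hz').le
      rw [hF₃k 1 z hk']
      exact (hJt _ _ (norm_inv _ κ hκ hk')).symm
  · change Jt (x₁, ((1 - ((1 : unitInterval) : ℝ)) * κ⁻¹) • D' z) = _
    simp

end Pool.Agent.MPaafd8a.A2
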