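import Pool.Agent.Lib.MP_aafd8a_gt_A2.Spec

/-!
# MP_aafd8a_gt, block (A-ii): the closed box
-/

set_option autoImplicit false

open Topology RealInnerProductSpace Quaternion

namespace Pool.Agent.MPaafd8a.A2

namespace BoxAux

/-- the backward transformation of one coordinate -/
noncomputable def bk (s : ℝ) : unitInterval := Set.projIcc 0 1 zero_le_one ((s + 1) / 2)

theorem bk_cont : Continuous bk := continuous_projIcc.comp (by fun_prop)

theorem bk_one : bk 1 = 1 := by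
  unfold bk
  rw [show ((1 : ℝ) + 1) / 2 = 1 by norm_num]
  exact Set.projIcc_of_right_le (zero_le_one (α := ℝ)) le_rfl

theorem bk_neg : bk (-1) = 0 := by
  unfold bk
  rw [show ((-1 : ℝ) + 1) / 2 = 0 by norm_num]
  exact Set.projIcc_of_le_left (zero_le_one (α := ℝ)) le_rfl

theorem bk_fw (a : unitInterval) : bk (2 * (a : ℝ) - 1) = a := by
  unfold bk
  rw [show (2 * (a : ℝ) - 1 + 1) / 2 = (a : ℝ) by ring]
  exact Set.projIcc_val _ a

theorem abs_fw (a : unitInterval) : |2 * (a : ℝ) - 1| ≤ 1 := by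
  have h0 := a.2.1
  have h1 := a.2.2
  rw [abs_le]
  constructor <;> linarith

theorem cases_of (s : ℝ) (h : 1 ≤ |s|) (h' : |s| ≤ 1) : bk s = 0 ∨ bk s = 1 := by
  have h1 : |s| = 1 := le_antisymm h' h
  rcases abs_eq (zero_le_one) |>.1 h1 with h2 | h2
  · exact Or.inr (by rw [h2, bk_one])
  · exact Or.inl (by rw [h2, bk_neg])

end BoxAux

open BoxAux in
theorem pBox : TBox := by
  intro X _ hE f hf
  have hbd : ∀ y : CSph 3, (bk (y.1 0), bk (y.1 1), bk (y.1 2)) ∈
      {x : unitInterval × unitInterval × unitInterval |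
        x.1 = 0 ∨ x.1 = 1 ∨ x.2.1 = 0 ∨ x.2.1 = 1 ∨ x.2.2 = 0 ∨ x.2.2 = 1} := by
    intro y
    have hy : ‖(y : Fin 3 → ℝ)‖ = 1 := by
      have h := y.2
      rwa [mem_sphere_zero_iff_norm] at h
    have hj : ∃ j, 1 ≤ |y.1 j| := by
      by_contra hcon
      push Not at hcon
      have h1 : ‖(y : Fin 3 → ℝ)‖ < 1 := (pi_norm_lt_iff zero_lt_one).2 fun j => by
        rw [Real.norm_eq_abs]
        exact hcon j
      linarith
    have hle : ∀ j, |y.1 j| ≤ 1 := fun j => by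
      have h1 := norm_le_pi_norm (y : Fin 3 → ℝ) j
      rw [hy, Real.norm_eq_abs] at h1
      exact h1
    obtain ⟨j, hj⟩ := hj
    have h2 := cases_of _ hj (hle j)
    show bk (y.1 0) = 0 ∨ bk (y.1 0) = 1 ∨ bk (y.1 1) = 0 ∨ bk (y.1 1) = 1 ∨
      bk (y.1 2) = 0 ∨ bk (y.1 2) = 1
    fin_cases j
    · rcases h2 with h2 | h2
      · exact Or.inl h2
      · exact Or.inr (Or.inl h2)
    · rcases h2 with h2 | h2
      · exact Or.inr (Or.inr (Or.inl h2))
      · exact Or.inr (Or.inr (Or.inr (Or.inl h2)))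
    · rcases h2 with h2 | h2
      · exact Or.inr (Or.inr (Or.inr (Or.inr (Or.inl h2))))
      · exact Or.inr (Or.inr (Or.inr (Or.inr (Or.inr h2))))
  have hco : ∀ j : Fin 3, Continuous fun y : CSph 3 => bk (y.1 j) := fun j =>
    bk_cont.comp ((continuous_apply j).comp continuous_subtype_val)
  have hc : Continuous fun y : CSph 3 => f (bk (y.1 0), bk (y.1 1), bk (y.1 2)) :=
    hf.comp_continuous ((hco 0).prodMk ((hco 1).prodMk (hco 2))) hbd
  obtain ⟨F, hF⟩ := hE ⟨_, hc⟩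
  have hG : Continuous fun x : unitInterval × unitInterval × unitInterval =>
      (![2 * (x.1 : ℝ) - 1, 2 * (x.2.1 : ℝ) - 1, 2 * (x.2.2 : ℝ) - 1] : Fin 3 → ℝ) := by
    refine continuous_pi fun j => ?_
    fin_cases j
    · show Continuous fun x : unitInterval × unitInterval × unitInterval => 2 * (x.1 : ℝ) - 1
      fun_prop
    · show Continuous fun x : unitInterval × unitInterval × unitInterval => 2 * (x.2.1 : ℝ) - 1
      fun_prop
    · show Continuous fun x : unitInterval × unitInterval × unitInterval => 2 * (x.2.2 : ℝ) - 1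
      fun_prop
  refine ⟨⟨_, F.continuous.comp hG⟩, fun x hx => ?_⟩
  have hn : ‖(![2 * (x.1 : ℝ) - 1, 2 * (x.2.1 : ℝ) - 1, 2 * (x.2.2 : ℝ) - 1] : Fin 3 → ℝ)‖ = 1 := by
    apply le_antisymm
    · refine (pi_norm_le_iff_of_nonneg zero_le_one).2 fun j => ?_
      rw [Real.norm_eq_abs]
      fin_cases j
      · exact abs_fw x.1
      · exact abs_fw x.2.1
      · exact abs_fw x.2.2
    · have key : ∀ j : Fin 3, |(![2 * (x.1 : ℝ) - 1, 2 * (x.2.1 : ℝ) - 1,
          2 * (x.2.2 : ℝ) - 1] : Fin 3 → ℝ) j| = 1 →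
          1 ≤ ‖(![2 * (x.1 : ℝ) - 1, 2 * (x.2.1 : ℝ) - 1,
            2 * (x.2.2 : ℝ) - 1] : Fin 3 → ℝ)‖ := fun j hj => by
        have h1 := norm_le_pi_norm (![2 * (x.1 : ℝ) - 1, 2 * (x.2.1 : ℝ) - 1,
          2 * (x.2.2 : ℝ) - 1] : Fin 3 → ℝ) j
        rw [Real.norm_eq_abs, hj] at h1
        exact h1
      have e0 : |2 * ((0 : unitInterval) : ℝ) - 1| = 1 := by norm_num
      have e1 : |2 * ((1 : unitInterval) : ℝ) - 1| = 1 := by norm_num
      rcases hx with h | h | h | h | h | h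
      · exact key 0 (by show |2 * (x.1 : ℝ) - 1| = 1; rw [h]; exact e0)
      · exact key 0 (by show |2 * (x.1 : ℝ) - 1| = 1; rw [h]; exact e1)
      · exact key 1 (by show |2 * (x.2.1 : ℝ) - 1| = 1; rw [h]; exact e0)
      · exact key 1 (by show |2 * (x.2.1 : ℝ) - 1| = 1; rw [h]; exact e1)
      · exact key 2 (by show |2 * (x.2.2 : ℝ) - 1| = 1; rw [h]; exact e0)
      · exact key 2 (by show |2 * (x.2.2 : ℝ) - 1| = 1; rw [h]; exact e1)
  have h1 := hF ⟨_, mem_sphere_zero_iff_norm.2 hn⟩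
  refine h1.trans ?_
  show f (bk (2 * (x.1 : ℝ) - 1), bk (2 * (x.2.1 : ℝ) - 1), bk (2 * (x.2.2 : ℝ) - 1)) = f x
  rw [bk_fw, bk_fw, bk_fw]

end Pool.Agent.MPaafd8a.A2
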