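import Pool.Agent.Lib.MP_aafd8a_gt_A2.Spec

/-! # MP_aafd8a_gt, A2: the kernel of `π_1 (HF) → π_1 (X)` is central -/

set_option autoImplicit false

open Topology RealInnerProductSpace Quaternion

namespace Pool.Agent.MPaafd8a.A2

namespace CenAux

/-- `min 1 ((1 + v) t)`. -/
noncomputable def cv (v t : unitInterval) : unitInterval :=
  Set.projIcc (0 : ℝ) 1 zero_le_one ((1 + (v : ℝ)) * t)

/-- `min 1 (2 - 2 t)`. -/
noncomputable def cm (t : unitInterval) : unitInterval :=
  Set.projIcc (0 : ℝ) 1 zero_le_one (2 - 2 * (t : ℝ))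

theorem cv_cont : Continuous fun x : unitInterval × unitInterval => cv x.1 x.2 := by
  unfold cv
  exact continuous_projIcc.comp (by fun_prop)

theorem cm_cont : Continuous cm := by
  unfold cm
  exact continuous_projIcc.comp (by fun_prop)

theorem cv_zero (t : unitInterval) : cv 0 t = t := by
  unfold cv
  have h : (1 + ((0 : unitInterval) : ℝ)) * t = (t : ℝ) := by simp
  rw [h]
  exact Set.projIcc_val zero_le_one t

theorem cv_at0 (v : unitInterval) : cv v 0 = 0 := by
  unfold cv
  have h : (1 + (v : ℝ)) * ((0 : unitInterval) : ℝ) = 0 := by simp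
  rw [h]
  exact Set.projIcc_of_le_left zero_le_one le_rfl

theorem cv_at1 (v : unitInterval) : cv v 1 = 1 := by
  unfold cv
  refine Set.projIcc_of_right_le zero_le_one ?_
  have := v.2.1
  simp only [Set.Icc.coe_one, mul_one]
  linarith

theorem cv_one_of (t : unitInterval) (h : (1 : ℝ) / 2 ≤ t) : cv 1 t = 1 := by
  unfold cv
  refine Set.projIcc_of_right_le zero_le_one ?_
  simp only [Set.Icc.coe_one]
  linarith

theorem cm_at1 : cm 1 = 0 := by
  unfold cm
  refine Set.projIcc_of_le_left zero_le_one ?_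
  simp only [Set.Icc.coe_one]
  linarith

theorem cm_of (t : unitInterval) (h : (t : ℝ) ≤ 1 / 2) : cm t = 1 := by
  unfold cm
  refine Set.projIcc_of_right_le zero_le_one ?_
  linarith

theorem cm_at0 : cm 0 = 1 := cm_of 0 (by simp)

variable {X Y : Type} [TopologicalSpace X] [TopologicalSpace Y] {J : C(X, Y)} {yc : Y}

theorem hext {p p' : HF J yc} (h1 : p.1.1 = p'.1.1) (h2 : ∀ t, p.1.2 t = p'.1.2 t) : p = p' :=
  Subtype.ext (Prod.ext h1 (ContinuousMap.ext h2))

/-- A continuous family of points of the homotopy fibre. -/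
def mkF {P : Type} [TopologicalSpace P] (f : P → X) (g : P × unitInterval → Y) (hf : Continuous f)
    (hg : Continuous g) (h0 : ∀ p, g (p, 0) = J (f p)) (h1 : ∀ p, g (p, 1) = yc) : C(P, HF J yc) :=
  ⟨fun p => ⟨(f p, (⟨g, hg⟩ : C(P × unitInterval, Y)).curry p), h0 p, h1 p⟩,
    (hf.prodMk (ContinuousMap.continuous _)).subtype_mk _⟩

theorem mkF_fst {P : Type} [TopologicalSpace P] (f : P → X) (g : P × unitInterval → Y)
    (hf : Continuous f) (hg : Continuous g) (h0 : ∀ p, g (p, 0) = J (f p)) (h1 : ∀ p, g (p, 1) = yc)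
    (p : P) : (mkF f g hf hg h0 h1 p).1.1 = f p := rfl

theorem mkF_snd {P : Type} [TopologicalSpace P] (f : P → X) (g : P × unitInterval → Y)
    (hf : Continuous f) (hg : Continuous g) (h0 : ∀ p, g (p, 0) = J (f p)) (h1 : ∀ p, g (p, 1) = yc)
    (p : P) (t : unitInterval) : (mkF f g hf hg h0 h1 p).1.2 t = g (p, t) := rfl

variable {q : HF J yc}

/-- The component in `Y`. -/
def gb (γ : Path q q) (x : unitInterval × unitInterval) : Y := (γ x.1).1.2 x.2

/-- The component in `X`. -/
def gx (γ : Path q q) (θ : unitInterval) : X := (γ θ).1.1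

theorem gx_cont (γ : Path q q) : Continuous (gx γ) :=
  continuous_fst.comp (continuous_subtype_val.comp γ.continuous)

theorem gb_cont (γ : Path q q) : Continuous (gb γ) := by
  have h1 : Continuous fun x : unitInterval × unitInterval => (γ x.1).1.2 :=
    continuous_snd.comp (continuous_subtype_val.comp (γ.continuous.comp continuous_fst))
  exact h1.eval continuous_snd

theorem gb_at0 (γ : Path q q) (θ : unitInterval) : gb γ (θ, 0) = J (gx γ θ) := (γ θ).2.1

theorem gb_at1 (γ : Path q q) (θ : unitInterval) : gb γ (θ, 1) = yc := (γ θ).2.2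

theorem gx_0 (γ : Path q q) : gx γ 0 = q.1.1 := by unfold gx; rw [γ.source]

theorem gx_1 (γ : Path q q) : gx γ 1 = q.1.1 := by unfold gx; rw [γ.target]

theorem gb_0 (γ : Path q q) (t : unitInterval) : gb γ (0, t) = q.1.2 t := by unfold gb; rw [γ.source]

theorem gb_1 (γ : Path q q) (t : unitInterval) : gb γ (1, t) = q.1.2 t := by unfold gb; rw [γ.target]

theorem cv1_cont : Continuous (cv 1) := cv_cont.comp (continuous_const.prodMk continuous_id)

/-- The family `v ↦ (x₀, t ↦ ω (min 1 ((1 + v) t)))`. -/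
noncomputable def rf (q : HF J yc) : C(unitInterval, HF J yc) :=
  mkF (fun _ => q.1.1) (fun x => q.1.2 (cv x.1 x.2)) continuous_const
    (q.1.2.continuous.comp cv_cont) (fun v => by
      change q.1.2 (cv v 0) = _
      rw [cv_at0]
      exact q.2.1) (fun v => by
      change q.1.2 (cv v 1) = _
      rw [cv_at1]
      exact q.2.2)

/-- The path `ρ`. -/
noncomputable def rh (q : HF J yc) : Path q (rf q 1) where
  toFun := rf q
  continuous_toFun := (rf q).continuous
  source' := hext rfl (fun t => by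
    change q.1.2 (cv 0 t) = _
    rw [cv_zero])
  target' := rfl

/-- The family `γ⁺`. -/
noncomputable def pf (γ : Path q q) : C(unitInterval, HF J yc) :=
  mkF (gx γ) (fun x => gb γ (x.1, cv 1 x.2)) (gx_cont γ)
    ((gb_cont γ).comp (continuous_fst.prodMk (cv1_cont.comp continuous_snd))) (fun v => by
      change gb γ (v, cv 1 0) = _
      rw [cv_at0, gb_at0]) (fun v => by
      change gb γ (v, cv 1 1) = _
      rw [cv_at1, gb_at1])

/-- The loop `γ⁺`. -/
noncomputable def pl (γ : Path q q) : Path (rf q 1) (rf q 1) where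
  toFun := pf γ
  continuous_toFun := (pf γ).continuous
  source' := hext (gx_0 γ) (fun t => gb_0 γ (cv 1 t))
  target' := hext (gx_1 γ) (fun t => gb_1 γ (cv 1 t))

/-- Square (1). -/
theorem sq1 (hS : TSq1) (γ : Path q q) : (γ.trans (rh q)).Homotopic ((rh q).trans (pl γ)) := by
  refine hS _ (mkF (fun x => gx γ x.1) (fun x => gb γ (x.1.1, cv x.1.2 x.2))
    ((gx_cont γ).comp continuous_fst) ((gb_cont γ).comp ((continuous_fst.comp continuous_fst).prodMk
      (cv_cont.comp ((continuous_snd.comp continuous_fst).prodMk continuous_snd))))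
    (fun x => ?_) (fun x => ?_)) _ _ _ _ γ (rh q) (rh q) (pl γ) ?_ ?_ ?_ ?_
  · change gb γ (x.1, cv x.2 0) = _
    rw [cv_at0, gb_at0]
  · change gb γ (x.1, cv x.2 1) = _
    rw [cv_at1, gb_at1]
  · intro t
    refine hext rfl (fun u => ?_)
    change gb γ (t, cv 0 u) = _
    rw [cv_zero]
    rfl
  · intro t
    exact hext (gx_1 γ) (fun u => gb_1 γ _)
  · intro t
    exact hext (gx_0 γ) (fun u => gb_0 γ _)
  · intro t
    exact hext rfl (fun u => rfl)

/-- The box. -/
theorem box (hK : TKan) (α : Path q q)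
    (h : Path.Homotopy (α.map (pr J yc).continuous) (Path.refl (pr J yc q))) :
    ∃ c : C(unitInterval × unitInterval × unitInterval, Y),
      (∀ θ u, c (θ, u, 0) = J (h (u, θ))) ∧ (∀ θ t, c (θ, 0, t) = gb α (θ, t)) ∧
      (∀ θ t, c (θ, 1, t) = q.1.2 t) ∧ (∀ u t, c (0, u, t) = q.1.2 t) ∧
      ∀ u t, c (1, u, t) = q.1.2 t := by
  classical
  let f : unitInterval × unitInterval × unitInterval → Y := fun x =>
    if x.2.2 = 0 then J (h (x.2.1, x.1)) else if x.2.1 = 0 then gb α (x.1, x.2.2) else q.1.2 x.2.2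
  have hq0 : q.1.2 0 = J q.1.1 := q.2.1
  have e1 : ∀ x, x.2.2 = 0 → f x = J (h (x.2.1, x.1)) := fun x hx => if_pos hx
  have e2 : ∀ x, x.2.1 = 0 → f x = gb α (x.1, x.2.2) := by
    rintro ⟨θ, u, t⟩ hx
    simp only at hx
    subst hx
    by_cases ht : t = 0
    · rw [e1 _ ht]
      subst ht
      simp only
      rw [gb_at0, h.apply_zero]
      rfl
    · simp only [f, if_neg ht, if_true]
  have e3 : ∀ x, x.2.1 = 1 → f x = q.1.2 x.2.2 := by
    rintro ⟨θ, u, t⟩ hx
    simp only at hx
    subst hx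
    by_cases ht : t = 0
    · rw [e1 _ ht]
      subst ht
      simp only
      rw [hq0, h.apply_one]
      rfl
    · simp only [f, if_neg ht, if_neg one_ne_zero]
  have e4 : ∀ x, x.1 = 0 → f x = q.1.2 x.2.2 := by
    rintro ⟨θ, u, t⟩ hx
    simp only at hx
    subst hx
    by_cases ht : t = 0
    · rw [e1 _ ht]
      subst ht
      simp only
      rw [hq0, h.source]
      rfl
    · by_cases hu : u = 0
      · rw [e2 _ hu]
        exact gb_0 α t
      · simp only [f, if_neg ht, if_neg hu]
  have e5 : ∀ x, x.1 = 1 → f x = q.1.2 x.2.2 := by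
    rintro ⟨θ, u, t⟩ hx
    simp only at hx
    subst hx
    by_cases ht : t = 0
    · rw [e1 _ ht]
      subst ht
      simp only
      rw [hq0, h.target]
      rfl
    · by_cases hu : u = 0
      · rw [e2 _ hu]
        exact gb_1 α t
      · simp only [f, if_neg ht, if_neg hu]
  have c1 : Continuous fun x : unitInterval × unitInterval × unitInterval => J (h (x.2.1, x.1)) :=
    J.continuous.comp (h.continuous.comp (by fun_prop))
  have c2 : Continuous fun x : unitInterval × unitInterval × unitInterval => gb α (x.1, x.2.2) :=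
    (gb_cont α).comp (by fun_prop)
  have c3 : Continuous fun x : unitInterval × unitInterval × unitInterval => q.1.2 x.2.2 :=
    q.1.2.continuous.comp (by fun_prop)
  have k1 : IsClosed {x : unitInterval × unitInterval × unitInterval | x.2.2 = 0} :=
    isClosed_eq (by fun_prop) continuous_const
  have k2 : IsClosed {x : unitInterval × unitInterval × unitInterval | x.2.1 = 0} :=
    isClosed_eq (by fun_prop) continuous_const
  have k3 : IsClosed {x : unitInterval × unitInterval × unitInterval | x.2.1 = 1} :=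
    isClosed_eq (by fun_prop) continuous_const
  have k4 : IsClosed {x : unitInterval × unitInterval × unitInterval | x.1 = 0} :=
    isClosed_eq (by fun_prop) continuous_const
  have k5 : IsClosed {x : unitInterval × unitInterval × unitInterval | x.1 = 1} :=
    isClosed_eq (by fun_prop) continuous_const
  have hf : ContinuousOn f {x | x.1 = 0 ∨ x.1 = 1 ∨ x.2.1 = 0 ∨ x.2.1 = 1 ∨ x.2.2 = 0} :=
    (c3.continuousOn.congr e4).union_of_isClosed ((c3.continuousOn.congr e5).union_of_isClosed
      ((c2.continuousOn.congr e2).union_of_isClosed ((c3.continuousOn.congr e3).union_of_isClosed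
      (c1.continuousOn.congr e1) k3 k1) k2 (k3.union k1)) k5 (k2.union (k3.union k1))) k4
      (k5.union (k2.union (k3.union k1)))
  obtain ⟨c, hc⟩ := hK Y f hf
  refine ⟨c, ?_, ?_, ?_, ?_, ?_⟩
  · intro θ u
    rw [hc _ (Or.inr (Or.inr (Or.inr (Or.inr rfl)))), e1 _ rfl]
  · intro θ t
    rw [hc _ (Or.inr (Or.inr (Or.inl rfl))), e2 _ rfl]
  · intro θ t
    rw [hc _ (Or.inr (Or.inr (Or.inr (Or.inl rfl)))), e3 _ rfl]
  · intro u t
    rw [hc _ (Or.inl rfl), e4 _ rfl]
  · intro u t
    rw [hc _ (Or.inr (Or.inl rfl)), e5 _ rfl]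

/-- The family `δ⁺`. -/
noncomputable def df (q : HF J yc) (c : C(unitInterval × unitInterval × unitInterval, Y))
    (h3 : ∀ θ t, c (θ, 1, t) = q.1.2 t) (h2 : ∀ θ, c (θ, 0, 1) = yc) : C(unitInterval, HF J yc) :=
  mkF (fun _ => q.1.1) (fun x => c (x.1, cm x.2, cv 1 x.2)) continuous_const
    (c.continuous.comp (continuous_fst.prodMk ((cm_cont.comp continuous_snd).prodMk
      (cv1_cont.comp continuous_snd)))) (fun v => by
      change c (v, cm 0, cv 1 0) = _
      rw [cm_at0, cv_at0, h3]
      exact q.2.1) (fun v => by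
      change c (v, cm 1, cv 1 1) = _
      rw [cm_at1, cv_at1, h2])

/-- The loop `δ⁺`. -/
noncomputable def dl (q : HF J yc) (c : C(unitInterval × unitInterval × unitInterval, Y))
    (h3 : ∀ θ t, c (θ, 1, t) = q.1.2 t) (h2 : ∀ θ, c (θ, 0, 1) = yc)
    (h4 : ∀ u t, c (0, u, t) = q.1.2 t) (h5 : ∀ u t, c (1, u, t) = q.1.2 t) :
    Path (rf q 1) (rf q 1) where
  toFun := df q c h3 h2
  continuous_toFun := (df q c h3 h2).continuous
  source' := hext rfl (fun t => h4 (cm t) (cv 1 t))
  target' := hext rfl (fun t => h5 (cm t) (cv 1 t))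

/-- Square (2). -/
theorem sq2 (hS : TSq1) (α : Path q q)
    (h : Path.Homotopy (α.map (pr J yc).continuous) (Path.refl (pr J yc q)))
    (c : C(unitInterval × unitInterval × unitInterval, Y))
    (h1 : ∀ θ u, c (θ, u, 0) = J (h (u, θ))) (h2' : ∀ θ t, c (θ, 0, t) = gb α (θ, t))
    (h3 : ∀ θ t, c (θ, 1, t) = q.1.2 t) (h2 : ∀ θ, c (θ, 0, 1) = yc)
    (h4 : ∀ u t, c (0, u, t) = q.1.2 t) (h5 : ∀ u t, c (1, u, t) = q.1.2 t) :
    ((pl α).trans (Path.refl (rf q 1))).Homotopic ((Path.refl (rf q 1)).trans (dl q c h3 h2 h4 h5)) := by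
  refine hS _ (mkF (fun x => h (x.2, x.1)) (fun x => c (x.1.1, x.1.2 * cm x.2, cv 1 x.2))
    (h.continuous.comp (by fun_prop)) (c.continuous.comp
      ((continuous_fst.comp continuous_fst).prodMk
        (((continuous_snd.comp continuous_fst).mul (cm_cont.comp continuous_snd)).prodMk
          (cv1_cont.comp continuous_snd)))) (fun x => ?_) (fun x => ?_)) _ _ _ _ (pl α)
    (Path.refl (rf q 1)) (Path.refl (rf q 1)) (dl q c h3 h2 h4 h5) ?_ ?_ ?_ ?_
  · change c (x.1, x.2 * cm 0, cv 1 0) = _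
    rw [cm_at0, mul_one, cv_at0, h1]
  · change c (x.1, x.2 * cm 1, cv 1 1) = _
    rw [cm_at1, mul_zero, cv_at1, h2]
  · intro t
    refine hext ?_ (fun u => ?_)
    · change h (0, t) = _
      rw [h.apply_zero]
      rfl
    · change c (t, 0 * cm u, cv 1 u) = _
      rw [zero_mul, h2']
      rfl
  · intro t
    refine hext ?_ (fun u => ?_)
    · change h (t, 1) = _
      rw [h.target]
      rfl
    · change c (1, t * cm u, cv 1 u) = _
      rw [h5]
      rfl
  · intro t
    refine hext ?_ (fun u => ?_)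
    · change h (t, 0) = _
      rw [h.source]
      rfl
    · change c (0, t * cm u, cv 1 u) = _
      rw [h4]
      rfl
  · intro t
    refine hext ?_ (fun u => ?_)
    · change h (1, t) = _
      rw [h.apply_one]
      rfl
    · change c (t, 1 * cm u, cv 1 u) = _
      rw [one_mul]
      rfl

/-- Square (3). -/
theorem sq3 (hS : TSq1) (β : Path q q) (c : C(unitInterval × unitInterval × unitInterval, Y))
    (h3 : ∀ θ t, c (θ, 1, t) = q.1.2 t) (h2 : ∀ θ, c (θ, 0, 1) = yc)
    (h4 : ∀ u t, c (0, u, t) = q.1.2 t) (h5 : ∀ u t, c (1, u, t) = q.1.2 t) :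
    ((pl β).trans (dl q c h3 h2 h4 h5)).Homotopic ((dl q c h3 h2 h4 h5).trans (pl β)) := by
  classical
  have hq1 : q.1.2 1 = yc := q.2.2
  let F : (unitInterval × unitInterval) × unitInterval → Y := fun x =>
    if (x.2 : ℝ) ≤ 1 / 2 then gb β (x.1.1, cv 1 x.2) else c (x.1.2, cm x.2, 1)
  have F1 : ∀ a b t : unitInterval, (t : ℝ) ≤ 1 / 2 → F ((a, b), t) = gb β (a, cv 1 t) :=
    fun a b t ht => if_pos ht
  have F2 : ∀ a b t : unitInterval, (1 : ℝ) / 2 ≤ t → F ((a, b), t) = c (b, cm t, 1) := by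
    intro a b t ht
    by_cases h : (t : ℝ) ≤ 1 / 2
    · rw [F1 a b t h, cv_one_of t ht, cm_of t h, gb_at1, h3, hq1]
    · exact if_neg h
  have hF : Continuous F := by
    refine Continuous.if_le ?_ ?_ ?_ continuous_const ?_
    · exact (gb_cont β).comp ((continuous_fst.comp continuous_fst).prodMk
        (cv1_cont.comp continuous_snd))
    · exact c.continuous.comp ((continuous_snd.comp continuous_fst).prodMk
        ((cm_cont.comp continuous_snd).prodMk continuous_const))
    · fun_prop
    · rintro ⟨⟨a, b⟩, t⟩ ht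
      simp only at ht ⊢
      rw [cv_one_of t ht.ge, cm_of t ht.le, gb_at1, h3, hq1]
  refine hS _ (mkF (fun x => gx β x.1) F ((gx_cont β).comp continuous_fst) hF (fun x => ?_)
    (fun x => ?_)) _ _ _ _ (pl β) (dl q c h3 h2 h4 h5) (dl q c h3 h2 h4 h5) (pl β) ?_ ?_ ?_ ?_
  · rw [F1 x.1 x.2 0 (by simp), cv_at0, gb_at0]
  · rw [F2 x.1 x.2 1 (by norm_num), cm_at1, h2]
  · intro t
    refine hext rfl (fun u => ?_)
    change F ((t, 0), u) = gb β (t, cv 1 u)
    rcases le_total (u : ℝ) (1 / 2) with hu | hu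
    · rw [F1 _ _ _ hu]
    · rw [F2 _ _ _ hu, h4, cv_one_of u hu, gb_at1, hq1]
  · intro t
    refine hext (gx_1 β) (fun u => ?_)
    change F ((1, t), u) = c (t, cm u, cv 1 u)
    rcases le_total (u : ℝ) (1 / 2) with hu | hu
    · rw [F1 _ _ _ hu, cm_of u hu, h3, gb_1]
    · rw [F2 _ _ _ hu, cv_one_of u hu]
  · intro t
    refine hext (gx_0 β) (fun u => ?_)
    change F ((0, t), u) = c (t, cm u, cv 1 u)
    rcases le_total (u : ℝ) (1 / 2) with hu | hu
    · rw [F1 _ _ _ hu, cm_of u hu, h3, gb_0]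
    · rw [F2 _ _ _ hu, cv_one_of u hu]
  · intro t
    refine hext rfl (fun u => ?_)
    change F ((t, 1), u) = gb β (t, cv 1 u)
    rcases le_total (u : ℝ) (1 / 2) with hu | hu
    · rw [F1 _ _ _ hu]
    · rw [F2 _ _ _ hu, h5, cv_one_of u hu, gb_at1, hq1]

end CenAux

open CenAux

theorem pCen (hS : TSq1) (hK : TKan) : TCen := by
  intro X Y _ _ J yc q k e hk
  obtain ⟨α, rfl⟩ := Path.Homotopic.Quotient.mk_surjective k
  obtain ⟨β, rfl⟩ := Path.Homotopic.Quotient.mk_surjective e
  have hk' : Path.Homotopic.Quotient.mk (α.map (pr J yc).continuous) =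
      Path.Homotopic.Quotient.mk (Path.refl (pr J yc q)) := hk
  obtain ⟨h⟩ := Path.Homotopic.Quotient.exact hk'
  obtain ⟨c, h1, h2', h3, h4, h5⟩ := box hK α h
  have h2 : ∀ θ, c (θ, 0, 1) = yc := fun θ => by rw [h2', gb_at1]
  have s1 := Path.Homotopic.Quotient.eq.2 (sq1 hS α)
  have s2 := Path.Homotopic.Quotient.eq.2 (sq1 hS β)
  have s3 := Path.Homotopic.Quotient.eq.2 (sq2 hS α h c h1 h2' h3 h2 h4 h5)
  have s4 := Path.Homotopic.Quotient.eq.2 (sq3 hS β c h3 h2 h4 h5)
  simp only [Path.Homotopic.Quotient.mk_trans, Path.Homotopic.Quotient.mk_refl,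
    Path.Homotopic.Quotient.trans_refl, Path.Homotopic.Quotient.refl_trans] at s1 s2 s3 s4
  rw [FundamentalGroup.mul_def, FundamentalGroup.mul_def]
  generalize Path.Homotopic.Quotient.mk (rh q) = R at *
  generalize Path.Homotopic.Quotient.mk (pl α) = A' at *
  generalize Path.Homotopic.Quotient.mk (pl β) = B' at *
  generalize Path.Homotopic.Quotient.mk (dl q c h3 h2 h4 h5) = D' at *
  generalize Path.Homotopic.Quotient.mk α = A at *
  generalize Path.Homotopic.Quotient.mk β = B at *
  subst s3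
  have key : (Path.Homotopic.Quotient.trans B A).trans R = (Path.Homotopic.Quotient.trans A B).trans R := by
    rw [Path.Homotopic.Quotient.trans_assoc, Path.Homotopic.Quotient.trans_assoc, s1, s2,
      ← Path.Homotopic.Quotient.trans_assoc, ← Path.Homotopic.Quotient.trans_assoc, s1, s2,
      Path.Homotopic.Quotient.trans_assoc, Path.Homotopic.Quotient.trans_assoc, s4]
  have key2 := congrArg (fun z => Path.Homotopic.Quotient.trans z R.symm) key
  simp only [Path.Homotopic.Quotient.trans_assoc, Path.Homotopic.Quotient.trans_symm,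
    Path.Homotopic.Quotient.trans_refl] at key2
  exact key2

end Pool.Agent.MPaafd8a.A2
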