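import Pool.Agent.Lib.MP_aafd8a_gt_A2.Spec

/-!
# MP_aafd8a_gt, block (A-ii): the fundamental group of `LY K k` is commutative

`pCom : TEH → TCom`.  The product puts `p` on `d 0 ≤ -1/3`, the reflected base point on the middle third and `r` on
`1/3 ≤ d 0`; both units are homotopic to the identity (cancel the base point, then stretch), so `TEH` applies.
-/

set_option autoImplicit false

open Topology

namespace Pool.Agent.MPaafd8a.A2

namespace ComAux

variable {K : Type} [TopologicalSpace K] {k : K}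

/-- The value of `p` at `d`, with the coordinate `0` replaced by `u`. -/
private def E (p : LY K k) (d : Fin 13 → ℝ) (u : ℝ) : K := p.1 (Function.update d 0 u)

private lemma E_cont {Z : Type} [TopologicalSpace Z] {p : Z → LY K k} {d : Z → (Fin 13 → ℝ)} {u : Z → ℝ}
    (hp : Continuous p) (hd : Continuous d) (hu : Continuous u) : Continuous (fun z => E (p z) (d z) (u z)) := by
  have h1 : Continuous (fun z => ((p z).1 : C(Fin 13 → ℝ, K))) := continuous_subtype_val.comp hp
  have h2 : Continuous (fun z => Function.update (d z) 0 (u z)) := hd.update 0 hu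
  exact h1.eval h2

private lemma E_k (p : LY K k) {d : Fin 13 → ℝ} {u : ℝ} (h : (∃ j, j ≠ 0 ∧ 1 ≤ |d j|) ∨ 1 ≤ |u|) : E p d u = k := by
  apply p.2
  rcases h with ⟨j, hj, h⟩ | h
  · calc (1 : ℝ) ≤ |d j| := h
      _ = ‖Function.update d 0 u j‖ := by rw [Function.update_of_ne hj, Real.norm_eq_abs]
      _ ≤ _ := norm_le_pi_norm _ j
  · calc (1 : ℝ) ≤ |u| := h
      _ = ‖Function.update d 0 u 0‖ := by rw [Function.update_self, Real.norm_eq_abs]
      _ ≤ _ := norm_le_pi_norm _ 0

private lemma E_k1 (p : LY K k) {d : Fin 13 → ℝ} {u : ℝ} (h : 1 ≤ u) : E p d u = k :=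
  E_k p (Or.inr (h.trans (le_abs_self u)))

private lemma E_k2 (p : LY K k) {d : Fin 13 → ℝ} {u : ℝ} (h : u ≤ -1) : E p d u = k :=
  E_k p (Or.inr ((by linarith : (1 : ℝ) ≤ -u).trans (neg_le_abs u)))

private lemma E_id (p : LY K k) (d : Fin 13 → ℝ) : E p d (d 0) = p.1 d := by
  unfold E; rw [Function.update_eq_self]

private lemma big {d : Fin 13 → ℝ} (h : 1 ≤ ‖d‖) : (∃ j, j ≠ 0 ∧ 1 ≤ |d j|) ∨ 1 ≤ d 0 ∨ d 0 ≤ -1 := by
  by_contra hc
  push Not at hc
  obtain ⟨h1, h2, h3⟩ := hc
  have : ‖d‖ < 1 := by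
    rw [pi_norm_lt_iff one_pos]
    intro j
    rw [Real.norm_eq_abs]
    by_cases hj : j = 0
    · subst hj; exact abs_lt.2 ⟨h3, h2⟩
    · exact h1 j hj
  linarith

/-- A map to `LY K k` from a function of two variables. -/
private def mk {Z : Type} [TopologicalSpace Z] (F : Z × (Fin 13 → ℝ) → K) (hF : Continuous F)
    (hk : ∀ z d, 1 ≤ ‖d‖ → F (z, d) = k) : C(Z, LY K k) :=
  ⟨fun z => ⟨⟨fun d => F (z, d), hF.comp (Continuous.prodMk_right z)⟩, fun d hd => hk z d hd⟩,
   Continuous.subtype_mk (ContinuousMap.curry ⟨F, hF⟩).continuous _⟩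

private lemma mk_apply {Z : Type} [TopologicalSpace Z] (F : Z × (Fin 13 → ℝ) → K) (hF : Continuous F)
    (hk : ∀ z d, 1 ≤ ‖d‖ → F (z, d) = k) (z : Z) (d : Fin 13 → ℝ) : (mk F hF hk z).1 d = F (z, d) := rfl

private lemma ext' {p q : LY K k} (h : ∀ d, p.1 d = q.1 d) : p = q := Subtype.ext (ContinuousMap.ext h)

/-! ### The product -/

private noncomputable def muF (w : LY K k) (x : (LY K k × LY K k) × (Fin 13 → ℝ)) : K :=
  if x.2 0 ≤ -1 / 3 then E x.1.1 x.2 (3 * x.2 0 + 2)
  else if x.2 0 ≤ 1 / 3 then E w x.2 (-3 * x.2 0) else E x.1.2 x.2 (3 * x.2 0 - 2)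

private lemma cont0 {Z : Type} [TopologicalSpace Z] : Continuous (fun x : Z × (Fin 13 → ℝ) => x.2 0) :=
  (continuous_apply 0).comp continuous_snd

private lemma muF_cont (w : LY K k) : Continuous (muF w) := by
  have h0 := cont0 (Z := LY K k × LY K k)
  have hin : Continuous (fun x : (LY K k × LY K k) × (Fin 13 → ℝ) =>
      if x.2 0 ≤ 1 / 3 then E w x.2 (-3 * x.2 0) else E x.1.2 x.2 (3 * x.2 0 - 2)) := by
    refine Continuous.if_le (E_cont continuous_const continuous_snd (by fun_prop))
      (E_cont (continuous_snd.comp continuous_fst) continuous_snd (by fun_prop)) h0 continuous_const ?_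
    intro x hx
    rw [E_k2 w (by linarith), E_k2 x.1.2 (by linarith)]
  refine Continuous.if_le (E_cont (continuous_fst.comp continuous_fst) continuous_snd (by fun_prop)) hin h0
    continuous_const ?_
  intro x hx
  rw [E_k1 x.1.1 (by linarith), if_pos (by linarith), E_k1 w (by linarith)]

private lemma muF_k (w : LY K k) (z : LY K k × LY K k) (d : Fin 13 → ℝ) (hd : 1 ≤ ‖d‖) : muF w (z, d) = k := by
  unfold muF
  rcases big hd with h | h | h
  · simp only [E_k _ (Or.inl h)]; split_ifs <;> rfl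
  · dsimp only
    rw [if_neg (by linarith), if_neg (by linarith), E_k1 _ (by linarith)]
  · dsimp only
    rw [if_pos (by linarith), E_k2 _ (by linarith)]

private noncomputable def mu (w : LY K k) : C(LY K k × LY K k, LY K k) := mk (muF w) (muF_cont w) (muF_k w)

/-! ### Stretching -/

private def st1F (x : (unitInterval × LY K k) × (Fin 13 → ℝ)) : K :=
  E x.1.2 x.2 ((3 - 2 * (x.1.1 : ℝ)) * x.2 0 + 2 - 2 * (x.1.1 : ℝ))

private def st2F (x : (unitInterval × LY K k) × (Fin 13 → ℝ)) : K :=
  E x.1.2 x.2 ((3 - 2 * (x.1.1 : ℝ)) * x.2 0 - 2 + 2 * (x.1.1 : ℝ))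

private lemma cs : Continuous (fun x : (unitInterval × LY K k) × (Fin 13 → ℝ) => (x.1.1 : ℝ)) :=
  continuous_subtype_val.comp (continuous_fst.comp continuous_fst)

private lemma st1F_cont : Continuous (st1F (K := K) (k := k)) := by
  have h0 := cont0 (Z := unitInterval × LY K k)
  have h1 := cs (K := K) (k := k)
  exact E_cont (continuous_snd.comp continuous_fst) continuous_snd
    ((((continuous_const.sub (continuous_const.mul h1)).mul h0).add continuous_const).sub (continuous_const.mul h1))

private lemma st2F_cont : Continuous (st2F (K := K) (k := k)) := by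
  have h0 := cont0 (Z := unitInterval × LY K k)
  have h1 := cs (K := K) (k := k)
  exact E_cont (continuous_snd.comp continuous_fst) continuous_snd
    ((((continuous_const.sub (continuous_const.mul h1)).mul h0).sub continuous_const).add (continuous_const.mul h1))

private lemma st1F_k (z : unitInterval × LY K k) (d : Fin 13 → ℝ) (hd : 1 ≤ ‖d‖) : st1F (z, d) = k := by
  have hs0 := z.1.2.1
  have hs1 := z.1.2.2
  rcases big hd with h | h | h
  · exact E_k _ (Or.inl h)
  · exact E_k1 _ (by dsimp only; nlinarith)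
  · exact E_k2 _ (by dsimp only; nlinarith)

private lemma st2F_k (z : unitInterval × LY K k) (d : Fin 13 → ℝ) (hd : 1 ≤ ‖d‖) : st2F (z, d) = k := by
  have hs0 := z.1.2.1
  have hs1 := z.1.2.2
  rcases big hd with h | h | h
  · exact E_k _ (Or.inl h)
  · exact E_k1 _ (by dsimp only; nlinarith)
  · exact E_k2 _ (by dsimp only; nlinarith)

/-! ### Cancelling the base point -/

private noncomputable def c1F (w : LY K k) (x : (unitInterval × LY K k) × (Fin 13 → ℝ)) : K :=
  if x.2 0 ≤ -1 / 3 then E x.1.2 x.2 (3 * x.2 0 + 2)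
  else E w x.2 (max (|3 * x.2 0 - 1| - 1) (2 * (x.1.1 : ℝ) - 1))

private noncomputable def c2F (w : LY K k) (x : (unitInterval × LY K k) × (Fin 13 → ℝ)) : K :=
  if x.2 0 ≤ 1 / 3 then E w x.2 (min (1 - |3 * x.2 0 + 1|) (1 - 2 * (x.1.1 : ℝ)))
  else E x.1.2 x.2 (3 * x.2 0 - 2)

private lemma c1F_cont (w : LY K k) : Continuous (c1F w) := by
  have h0 := cont0 (Z := unitInterval × LY K k)
  have h1 := cs (K := K) (k := k)
  refine Continuous.if_le (E_cont (continuous_snd.comp continuous_fst) continuous_snd (by fun_prop))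
    (E_cont continuous_const continuous_snd (Continuous.max (by fun_prop)
      ((continuous_const.mul h1).sub continuous_const))) h0 continuous_const ?_
  intro x hx
  rw [E_k1 x.1.2 (by linarith), E_k1 w (le_max_of_le_left _)]
  have : (1 : ℝ) - 3 * x.2 0 ≤ |3 * x.2 0 - 1| := by
    have := neg_le_abs (3 * x.2 0 - 1); linarith
  linarith

private lemma c2F_cont (w : LY K k) : Continuous (c2F w) := by
  have h0 := cont0 (Z := unitInterval × LY K k)
  have h1 := cs (K := K) (k := k)
  refine Continuous.if_le (E_cont continuous_const continuous_snd (Continuous.min (by fun_prop)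
      (continuous_const.sub (continuous_const.mul h1))))
    (E_cont (continuous_snd.comp continuous_fst) continuous_snd (by fun_prop)) h0 continuous_const ?_
  intro x hx
  rw [E_k2 x.1.2 (by linarith), E_k2 w (min_le_of_left_le _)]
  have : 3 * x.2 0 + 1 ≤ |3 * x.2 0 + 1| := le_abs_self _
  linarith

private lemma c1F_k (w : LY K k) (z : unitInterval × LY K k) (d : Fin 13 → ℝ) (hd : 1 ≤ ‖d‖) : c1F w (z, d) = k := by
  unfold c1F
  rcases big hd with h | h | h
  · simp only [E_k _ (Or.inl h)]; split_ifs <;> rfl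
  · dsimp only
    rw [if_neg (by linarith), E_k1 _ (le_max_of_le_left _)]
    have : 3 * d 0 - 1 ≤ |3 * d 0 - 1| := le_abs_self _
    linarith
  · dsimp only
    rw [if_pos (by linarith), E_k2 _ (by linarith)]

private lemma c2F_k (w : LY K k) (z : unitInterval × LY K k) (d : Fin 13 → ℝ) (hd : 1 ≤ ‖d‖) : c2F w (z, d) = k := by
  unfold c2F
  rcases big hd with h | h | h
  · simp only [E_k _ (Or.inl h)]; split_ifs <;> rfl
  · dsimp only
    rw [if_neg (by linarith), E_k1 _ (by linarith)]
  · dsimp only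
    rw [if_pos (by linarith), E_k2 _ (min_le_of_left_le _)]
    have := neg_le_abs (3 * d 0 + 1)
    linarith

/-! ### The homotopies -/

private noncomputable def hc1 (w : LY K k) : C(unitInterval × LY K k, LY K k) := mk (c1F w) (c1F_cont w) (c1F_k w)
private noncomputable def hc2 (w : LY K k) : C(unitInterval × LY K k, LY K k) := mk (c2F w) (c2F_cont w) (c2F_k w)
private noncomputable def hs1 : C(unitInterval × LY K k, LY K k) := mk st1F st1F_cont st1F_k
private noncomputable def hs2 : C(unitInterval × LY K k, LY K k) := mk st2F st2F_cont st2F_k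

private lemma hc1_0 (w p : LY K k) : hc1 w (0, p) = mu w (p, w) := by
  refine ext' fun d => ?_
  show c1F w ((0, p), d) = muF w ((p, w), d)
  unfold c1F muF
  dsimp only
  by_cases h : d 0 ≤ -1 / 3
  · rw [if_pos h, if_pos h]
  · rw [if_neg h, if_neg h, Set.Icc.coe_zero, max_eq_left (by have := abs_nonneg (3 * d 0 - 1); linarith)]
    by_cases h' : d 0 ≤ 1 / 3
    · rw [if_pos h', abs_of_nonpos (by linarith)]; congr 1; ring
    · rw [if_neg h', abs_of_nonneg (by linarith)]; congr 1; ring

private lemma hc2_0 (w p : LY K k) : hc2 w (0, p) = mu w (w, p) := by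
  refine ext' fun d => ?_
  show c2F w ((0, p), d) = muF w ((w, p), d)
  unfold c2F muF
  dsimp only
  by_cases h' : d 0 ≤ 1 / 3
  · rw [if_pos h', Set.Icc.coe_zero, min_eq_left (by have := abs_nonneg (3 * d 0 + 1); linarith)]
    by_cases h : d 0 ≤ -1 / 3
    · rw [if_pos h, abs_of_nonpos (by linarith)]; congr 1; ring
    · rw [if_neg h, if_pos h', abs_of_nonneg (by linarith)]; congr 1; ring
  · rw [if_neg h', if_neg (by linarith), if_neg h']

private lemma hc1_1 (w p : LY K k) : hc1 w (1, p) = hs1 (0, p) := by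
  refine ext' fun d => ?_
  show c1F w ((1, p), d) = st1F ((0, p), d)
  unfold c1F st1F
  dsimp only
  rw [Set.Icc.coe_zero, Set.Icc.coe_one]
  by_cases h : d 0 ≤ -1 / 3
  · rw [if_pos h]; congr 1; ring
  · rw [if_neg h, E_k1 w (le_max_of_le_right (by norm_num)), E_k1 p (by linarith)]

private lemma hc2_1 (w p : LY K k) : hc2 w (1, p) = hs2 (0, p) := by
  refine ext' fun d => ?_
  show c2F w ((1, p), d) = st2F ((0, p), d)
  unfold c2F st2F
  dsimp only
  rw [Set.Icc.coe_zero, Set.Icc.coe_one]
  by_cases h : d 0 ≤ 1 / 3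
  · rw [if_pos h, E_k2 w (min_le_of_right_le (by norm_num)), E_k2 p (by linarith)]
  · rw [if_neg h]; congr 1; ring

private lemma hs1_1 (p : LY K k) : hs1 (1, p) = p := by
  refine ext' fun d => ?_
  show st1F ((1, p), d) = p.1 d
  unfold st1F
  dsimp only
  rw [Set.Icc.coe_one, ← E_id p d]; congr 1; ring

private lemma hs2_1 (p : LY K k) : hs2 (1, p) = p := by
  refine ext' fun d => ?_
  show st2F ((1, p), d) = p.1 d
  unfold st2F
  dsimp only
  rw [Set.Icc.coe_one, ← E_id p d]; congr 1; ring

/-- Two homotopies one after the other. -/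
private lemma join {X : Type} [TopologicalSpace X] (F G : C(unitInterval × X, X)) (h : ∀ x, F (1, x) = G (0, x)) :
    ∃ H : C(unitInterval × X, X), (∀ x, H (0, x) = F (0, x)) ∧ ∀ x, H (1, x) = G (1, x) := by
  let f0 : C(X, X) := ⟨fun x => F (0, x), by fun_prop⟩
  let f1 : C(X, X) := ⟨fun x => F (1, x), by fun_prop⟩
  let f2 : C(X, X) := ⟨fun x => G (1, x), by fun_prop⟩
  let H1 : ContinuousMap.Homotopy f0 f1 := { toContinuousMap := F, map_zero_left := fun x => rfl, map_one_left := fun x => rfl }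
  let H2 : ContinuousMap.Homotopy f1 f2 :=
    { toContinuousMap := G, map_zero_left := fun x => (h x).symm, map_one_left := fun x => rfl }
  exact ⟨(H1.trans H2).toContinuousMap, fun x => (H1.trans H2).map_zero_left x, fun x => (H1.trans H2).map_one_left x⟩

end ComAux

open ComAux in
theorem pCom : TEH → TCom := by
  intro hEH K _ k yc
  obtain ⟨φ, hφ0, hφ1⟩ := join (hc1 yc) hs1 (hc1_1 yc)
  obtain ⟨ψ, hψ0, hψ1⟩ := join (hc2 yc) hs2 (hc2_1 yc)
  exact hEH (LY K k) yc (mu yc) φ ψ (fun x => (hφ0 x).trans (hc1_0 yc x)) (fun x => (hφ1 x).trans (hs1_1 x))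
    (fun x => (hψ0 x).trans (hc2_0 yc x)) (fun x => (hψ1 x).trans (hs2_1 x))

end Pool.Agent.MPaafd8a.A2
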