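import Pool.Agent.Lib.MP_aafd8a_gt_A2.Spec

/-!
# MP_aafd8a_gt, block (A-ii): the covering `EE → RSq`
-/

set_option autoImplicit false

open Topology RealInnerProductSpace Quaternion

namespace Pool.Agent.MPaafd8a.A2

namespace CovAux

/-- the vertex of the ordered simplex as a quaternion -/
noncomputable def vt (e : EE) (i : Fin 5) : ℍ[ℝ] := ((e.1⁻¹ : S3) : ℍ[ℝ]) * v0 i * (e.2 : ℍ[ℝ])

theorem fr_val (e : EE) (i : Fin 5) :
    (((fr e).1 i : Sph 3) : Eu 3) = Quaternion.linearIsometryEquivTuple (vt e i) := rfl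

theorem continuous_vt (i : Fin 5) : Continuous fun e : EE => vt e i := by
  have h1 : Continuous fun e : EE => ((e.1⁻¹ : S3) : ℍ[ℝ]) :=
    continuous_subtype_val.comp (continuous_inv.comp continuous_fst)
  have h2 : Continuous fun e : EE => (e.2 : ℍ[ℝ]) := continuous_subtype_val.comp continuous_snd
  exact (h1.mul continuous_const).mul h2

theorem continuous_fr : Continuous fr := by
  refine Continuous.subtype_mk (continuous_pi fun i => Continuous.subtype_mk ?_ _) _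
  exact Quaternion.linearIsometryEquivTuple.continuous.comp (continuous_vt i)

theorem continuous_th : Continuous th := continuous_quot_mk.comp continuous_fr

theorem isClosed_RS : IsClosed {v : Fin 5 → Sph 3 |
    ∀ i j, i ≠ j → ⟪(v i : Eu 3), (v j : Eu 3)⟫ = -(1 / 4 : ℝ)} := by
  have h : {v : Fin 5 → Sph 3 | ∀ i j, i ≠ j → ⟪(v i : Eu 3), (v j : Eu 3)⟫ = -(1 / 4 : ℝ)} =
      ⋂ i, ⋂ j, {v : Fin 5 → Sph 3 | i ≠ j → ⟪(v i : Eu 3), (v j : Eu 3)⟫ = -(1 / 4 : ℝ)} := by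
    ext v
    simp only [Set.mem_iInter, Set.mem_setOf_eq]
  rw [h]
  refine isClosed_iInter fun i => isClosed_iInter fun j => ?_
  by_cases hij : i = j
  · have : {v : Fin 5 → Sph 3 | i ≠ j → ⟪(v i : Eu 3), (v j : Eu 3)⟫ = -(1 / 4 : ℝ)} = Set.univ := by
      ext v
      simp [hij]
    rw [this]
    exact isClosed_univ
  · have : {v : Fin 5 → Sph 3 | i ≠ j → ⟪(v i : Eu 3), (v j : Eu 3)⟫ = -(1 / 4 : ℝ)} =
        {v : Fin 5 → Sph 3 | ⟪(v i : Eu 3), (v j : Eu 3)⟫ = -(1 / 4 : ℝ)} := by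
      ext v
      simp [hij]
    rw [this]
    refine isClosed_eq ?_ continuous_const
    exact (continuous_subtype_val.comp (continuous_apply i)).inner
      (continuous_subtype_val.comp (continuous_apply j))

instance : CompactSpace RS := isCompact_iff_compactSpace.1 isClosed_RS.isCompact

instance : T2Space RS :=
  inferInstanceAs (T2Space {v : Fin 5 → Sph 3 //
    ∀ i j, i ≠ j → ⟪(v i : Eu 3), (v j : Eu 3)⟫ = -(1 / 4 : ℝ)})

instance : ContinuousConstSMul (Equiv.Perm (Fin 5)) RS := by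
  refine ⟨fun σ => ?_⟩
  refine Continuous.subtype_mk (continuous_pi fun i => ?_) _
  exact (continuous_apply (σ⁻¹ i)).comp continuous_subtype_val

instance : T2Space RSq :=
  inferInstanceAs (T2Space (Quotient (MulAction.orbitRel (Equiv.Perm (Fin 5)) RS)))

/-- equality of the classes -/
theorem th_eq (e e' : EE) : th e = th e' ↔ ∃ σ : Equiv.Perm (Fin 5), ∀ i, vt e' (σ i) = vt e i := by
  have h1 : th e = th e' ↔ fr e ∈ MulAction.orbit (Equiv.Perm (Fin 5)) (fr e') := by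
    have h2 : (Quotient.mk (MulAction.orbitRel (Equiv.Perm (Fin 5)) RS) (fr e) =
        Quotient.mk (MulAction.orbitRel (Equiv.Perm (Fin 5)) RS) (fr e')) ↔
        fr e ∈ MulAction.orbit (Equiv.Perm (Fin 5)) (fr e') :=
      Quotient.eq.trans MulAction.orbitRel_apply
    exact h2
  rw [h1]
  constructor
  · rintro ⟨σ, hσ⟩
    refine ⟨σ⁻¹, fun i => ?_⟩
    apply Quaternion.linearIsometryEquivTuple.injective
    have h2 := congrArg (fun v : RS => ((v.1 i : Sph 3) : Eu 3)) hσ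
    exact h2
  · rintro ⟨σ, hσ⟩
    refine ⟨σ⁻¹, ?_⟩
    apply Subtype.ext
    funext i
    apply Subtype.ext
    change Quaternion.linearIsometryEquivTuple (vt e' ((σ⁻¹)⁻¹ i)) =
      Quaternion.linearIsometryEquivTuple (vt e i)
    rw [inv_inv, hσ]

theorem inv_mul_val (a : S3) : ((a⁻¹ : S3) : ℍ[ℝ]) * (a : ℍ[ℝ]) = 1 :=
  congrArg Subtype.val (inv_mul_cancel a)

theorem mul_inv_val (a : S3) : (a : ℍ[ℝ]) * ((a⁻¹ : S3) : ℍ[ℝ]) = 1 :=
  congrArg Subtype.val (mul_inv_cancel a)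

/-- the vertices of a product -/
theorem vt_mul_inv (e e' : EE) (x y : Fin 5) : vt (e' * e⁻¹) x = v0 y ↔ vt e' x = vt e y := by
  have h1 : (((e' * e⁻¹).1⁻¹ : S3) : ℍ[ℝ]) = (e.1 : ℍ[ℝ]) * ((e'.1⁻¹ : S3) : ℍ[ℝ]) := by
    have : (e' * e⁻¹).1⁻¹ = e.1 * e'.1⁻¹ := by
      rw [Prod.fst_mul, Prod.fst_inv, mul_inv_rev, inv_inv]
    rw [this]
    rfl
  have h2 : (((e' * e⁻¹).2 : S3) : ℍ[ℝ]) = (e'.2 : ℍ[ℝ]) * ((e.2⁻¹ : S3) : ℍ[ℝ]) := rfl
  have h3 : vt (e' * e⁻¹) x = (e.1 : ℍ[ℝ]) * vt e' x * ((e.2⁻¹ : S3) : ℍ[ℝ]) := by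
    unfold vt
    rw [h1, h2]
    simp only [mul_assoc]
  rw [h3]
  constructor
  · intro h
    have h4 : vt e' x = ((e.1⁻¹ : S3) : ℍ[ℝ]) *
        ((e.1 : ℍ[ℝ]) * vt e' x * ((e.2⁻¹ : S3) : ℍ[ℝ])) * (e.2 : ℍ[ℝ]) := by
      calc vt e' x = (((e.1⁻¹ : S3) : ℍ[ℝ]) * (e.1 : ℍ[ℝ])) * vt e' x *
            (((e.2⁻¹ : S3) : ℍ[ℝ]) * (e.2 : ℍ[ℝ])) := by
            rw [inv_mul_val, inv_mul_val, one_mul, mul_one]
        _ = _ := by simp only [mul_assoc]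
    rw [h4, h]
    rfl
  · intro h
    rw [h]
    unfold vt
    calc (e.1 : ℍ[ℝ]) * (((e.1⁻¹ : S3) : ℍ[ℝ]) * v0 y * (e.2 : ℍ[ℝ])) * ((e.2⁻¹ : S3) : ℍ[ℝ])
        = ((e.1 : ℍ[ℝ]) * ((e.1⁻¹ : S3) : ℍ[ℝ])) * v0 y *
          ((e.2 : ℍ[ℝ]) * ((e.2⁻¹ : S3) : ℍ[ℝ])) := by simp only [mul_assoc]
      _ = v0 y := by rw [mul_inv_val, mul_inv_val, one_mul, mul_one]

theorem th_iff (e e' : EE) : th e = th e' ↔ e' * e⁻¹ ∈ Gm := by
  rw [th_eq]
  constructor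
  · rintro ⟨σ, hσ⟩
    refine ⟨σ⁻¹, fun i => ?_⟩
    change vt (e' * e⁻¹) i = v0 (σ⁻¹ i)
    rw [vt_mul_inv]
    have := hσ (σ⁻¹ i)
    rwa [show σ (σ⁻¹ i) = i from σ.apply_symm_apply i] at this
  · rintro ⟨σ, hσ⟩
    refine ⟨σ⁻¹, fun i => ?_⟩
    have h := hσ (σ⁻¹ i)
    rw [show σ (σ⁻¹ i) = i from σ.apply_symm_apply i] at h
    exact (vt_mul_inv e e' _ _).1 h

/-- the elements `(1, 1)`, `(-1, -1)` -/
theorem finite_pm : {g : EE | ((g.1 : ℍ[ℝ]) = 1 ∧ (g.2 : ℍ[ℝ]) = 1) ∨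
    ((g.1 : ℍ[ℝ]) = -1 ∧ (g.2 : ℍ[ℝ]) = -1)}.Finite := by
  have hinj : Function.Injective fun g : EE => ((g.1 : ℍ[ℝ]), (g.2 : ℍ[ℝ])) := by
    intro g g' h
    rw [Prod.ext_iff] at h
    exact Prod.ext (Subtype.ext h.1) (Subtype.ext h.2)
  have hfin : ({((1 : ℍ[ℝ]), (1 : ℍ[ℝ])), (-1, -1)} : Set (ℍ[ℝ] × ℍ[ℝ])).Finite := by
    exact Set.toFinite _
  refine (hfin.preimage hinj.injOn).subset ?_
  rintro g (h | h)
  · left
    exact Prod.ext h.1 h.2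
  · right
    exact Prod.ext h.1 h.2

theorem finite_Gm (hR : TRig) : (Gm : Set EE).Finite := by
  have h1 : (Gm : Set EE) ⊆ ⋃ σ : Equiv.Perm (Fin 5), {e : EE | ∀ i, vt e i = v0 (σ i)} := by
    rintro e ⟨σ, hσ⟩
    exact Set.mem_iUnion.2 ⟨σ, hσ⟩
  refine (Set.finite_iUnion fun σ => ?_).subset h1
  rcases Set.eq_empty_or_nonempty {e : EE | ∀ i, vt e i = v0 (σ i)} with h0 | ⟨f, hf⟩
  · rw [h0]
    exact Set.finite_empty
  · refine (finite_pm.image fun g => g * f).subset ?_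
    intro e he
    refine ⟨e * f⁻¹, ?_, inv_mul_cancel_right e f⟩
    have h2 : ∀ i, vt (e * f⁻¹) i = v0 ((1 : Equiv.Perm (Fin 5)) i) := by
      intro i
      rw [vt_mul_inv]
      rw [he i, Equiv.Perm.one_apply, hf i]
    exact (hR (e * f⁻¹) 1 h2).1 rfl

end CovAux

open CovAux in
theorem pCov : TTh1 → TRig → TCov := by
  intro hS hR
  have hq : IsQuotientMap th :=
    IsQuotientMap.of_surjective_continuous hS continuous_th
  refine hq.isQuotientCoveringMap_of_subgroup Gm ?_ (fun {e₁ e₂} => th_iff e₁ e₂)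
  exact (finite_Gm hR).isDiscrete

end Pool.Agent.MPaafd8a.A2
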