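import Pool.Agent.Lib.MP_aafd8a_gt_A2.Spec

/-!
# MP_aafd8a_gt, block (A-ii), module EH: a space with a free homotopy unit has a commutative fundamental group there
-/

set_option autoImplicit false

open Topology RealInnerProductSpace Quaternion CategoryTheory

namespace Pool.Agent.MPaafd8a.A2

theorem pEH (hS : TSq1) : TEH := by
  intro X _ x₀ μ φ ψ hφ0 hφ1 hψ0 hψ1 a b
  -- the two connecting paths
  let ρ : Path (μ (x₀, x₀)) x₀ := ⟨⟨fun s => φ (s, x₀), by fun_prop⟩, hφ0 x₀, hφ1 x₀⟩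
  let ρ' : Path (μ (x₀, x₀)) x₀ := ⟨⟨fun s => ψ (s, x₀), by fun_prop⟩, hψ0 x₀, hψ1 x₀⟩
  let A : Path x₀ x₀ → Path (μ (x₀, x₀)) (μ (x₀, x₀)) := fun p =>
    ⟨⟨fun u => μ (p u, x₀), by fun_prop⟩, by simp, by simp⟩
  let B : Path x₀ x₀ → Path (μ (x₀, x₀)) (μ (x₀, x₀)) := fun p =>
    ⟨⟨fun u => μ (x₀, p u), by fun_prop⟩, by simp, by simp⟩
  have h1 (p q : Path x₀ x₀) : ((A p).trans (B q)).Homotopic ((B q).trans (A p)) :=
    hS X ⟨fun x => μ (p x.1, q x.2), by fun_prop⟩ _ _ _ _ (A p) (B q) (B q) (A p)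
      (fun t => by simp [A]) (fun t => by simp [B]) (fun t => by simp [B]) (fun t => by simp [A])
  have h2 (p : Path x₀ x₀) : ((A p).trans ρ).Homotopic (ρ.trans p) :=
    hS X ⟨fun x => φ (x.2, p x.1), by fun_prop⟩ _ _ _ _ (A p) ρ ρ p
      (fun t => by simp [A, hφ0]) (fun t => by simp [ρ]) (fun t => by simp [ρ]) (fun t => by simp [hφ1])
  have h3 (p : Path x₀ x₀) : ((B p).trans ρ').Homotopic (ρ'.trans p) :=
    hS X ⟨fun x => ψ (x.2, p x.1), by fun_prop⟩ _ _ _ _ (B p) ρ' ρ' p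
      (fun t => by simp [B, hψ0]) (fun t => by simp [ρ']) (fun t => by simp [ρ']) (fun t => by simp [hψ1])
  -- in the groupoid
  let O : FundamentalGroupoid X := FundamentalGroupoid.mk x₀
  let O' : FundamentalGroupoid X := FundamentalGroupoid.mk (μ (x₀, x₀))
  let R : O' ⟶ O := (⟦ρ⟧ : Path.Homotopic.Quotient _ _)
  let R' : O' ⟶ O := (⟦ρ'⟧ : Path.Homotopic.Quotient _ _)
  have key (x y : O ⟶ O) : x ≫ (inv R ≫ R') ≫ y ≫ inv (inv R ≫ R') = ((inv R ≫ R') ≫ y ≫ inv (inv R ≫ R')) ≫ x := by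
    obtain ⟨p, rfl⟩ := Quotient.exists_rep x
    obtain ⟨q, rfl⟩ := Quotient.exists_rep y
    let α : O' ⟶ O' := (⟦A p⟧ : Path.Homotopic.Quotient _ _)
    let β : O' ⟶ O' := (⟦B q⟧ : Path.Homotopic.Quotient _ _)
    let a' : O ⟶ O := (⟦p⟧ : Path.Homotopic.Quotient _ _)
    let b' : O ⟶ O := (⟦q⟧ : Path.Homotopic.Quotient _ _)
    have e1 : α ≫ β = β ≫ α := Quotient.sound (h1 p q)
    have e2 : α ≫ R = R ≫ a' := Quotient.sound (h2 p)
    have e3 : β ≫ R' = R' ≫ b' := Quotient.sound (h3 q)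
    have f2 : α = R ≫ a' ≫ inv R := by
      rw [← Category.assoc, ← e2, Category.assoc, IsIso.hom_inv_id, Category.comp_id]
    have f3 : β = R' ≫ b' ≫ inv R' := by
      rw [← Category.assoc, ← e3, Category.assoc, IsIso.hom_inv_id, Category.comp_id]
    rw [f2, f3] at e1
    have e4 := congrArg (fun z => inv R ≫ z ≫ R) e1
    simp only [Category.assoc, IsIso.inv_hom_id_assoc, IsIso.inv_hom_id, Category.comp_id] at e4
    simp only [IsIso.inv_comp, IsIso.inv_inv, Category.assoc]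
    exact e4
  have k2 := key b ((inv (inv R ≫ R')) ≫ a ≫ (inv R ≫ R'))
  simp only [IsIso.inv_comp, IsIso.inv_inv, Category.assoc, IsIso.hom_inv_id_assoc, IsIso.inv_hom_id_assoc,
    IsIso.inv_hom_id, Category.comp_id] at k2
  exact k2

end Pool.Agent.MPaafd8a.A2
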