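import Pool.Agent.Lib.MP_aafd8a_gt_A2.Spec

/-!
# MP_aafd8a_gt, A2: two elements of the group of the simplex
-/

set_option autoImplicit false

open Topology RealInnerProductSpace Quaternion

namespace Pool.Agent.MPaafd8a.A2

namespace Ga1M

/-! ### Words -/

lemma wd_map {G H : Type} [Group G] [Group H] (f : G →* H) (s t : G) (j : Fin 12) :
    f (wd s t j) = wd (f s) (f t) j := by
  fin_cases j <;> simp [wd]

lemma wd_mem {G : Type} [Group G] (R : Submonoid G) {s t : G} (hs : s ∈ R) (ht : t ∈ R)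
    (j : Fin 12) : wd s t j ∈ R := by
  have w : s * t ^ 3 * s ∈ R := mul_mem (mul_mem hs (pow_mem ht 3)) hs
  fin_cases j
  · exact R.one_mem
  · exact hs
  · exact mul_mem hs ht
  · exact mul_mem hs (pow_mem ht 2)
  · exact mul_mem hs (pow_mem ht 3)
  · exact mul_mem hs (pow_mem ht 4)
  · exact w
  · exact mul_mem w ht
  · exact mul_mem w (pow_mem ht 2)
  · exact mul_mem w (pow_mem ht 3)
  · exact mul_mem w (pow_mem ht 4)
  · exact mul_mem (mul_mem w (pow_mem ht 4)) hs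

/-! ### Permutations -/

/-- the inverse of the permutation of `s` -/
def pS : Equiv.Perm (Fin 5) := ⟨![0, 1, 3, 4, 2], ![0, 1, 4, 2, 3], by decide, by decide⟩

/-- the inverse of the permutation of `t` -/
def pT : Equiv.Perm (Fin 5) := ⟨![2, 4, 1, 0, 3], ![3, 2, 0, 4, 1], by decide, by decide⟩

lemma perm_words : ∀ k : Fin 10, ∀ j : Fin 12, pT ^ (k : ℕ) * wd pS pT j = 1 →
    ((k : ℕ) = 0 ∨ (k : ℕ) = 5) ∧ j = 0 := by
  decide +kernel

/-! ### The relation between elements and permutations -/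

/-- `e` acts on the points `v0 i` by the inverse of `σ` -/
def PP (x : EE × Equiv.Perm (Fin 5)) : Prop :=
  ∀ i, ((x.1.1⁻¹ : S3) : ℍ[ℝ]) * v0 i * (x.1.2 : ℍ[ℝ]) = v0 (x.2⁻¹ i)

lemma coe_inv_mul (a b : S3) :
    (((a * b)⁻¹ : S3) : ℍ[ℝ]) = ((b⁻¹ : S3) : ℍ[ℝ]) * ((a⁻¹ : S3) : ℍ[ℝ]) := by
  rw [mul_inv_rev]
  rfl

/-- the submonoid -/
def RR : Submonoid (EE × Equiv.Perm (Fin 5)) where
  carrier := {x | PP x}
  one_mem' := fun i => by simp
  mul_mem' := by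
    rintro ⟨e, σ⟩ ⟨f, τ⟩ he hf i
    have h1 := hf (σ⁻¹ i)
    rw [← he i] at h1
    change (((e.1 * f.1)⁻¹ : S3) : ℍ[ℝ]) * v0 i * ((e.2 : ℍ[ℝ]) * (f.2 : ℍ[ℝ])) =
      v0 ((σ * τ)⁻¹ i)
    rw [coe_inv_mul, mul_inv_rev, Equiv.Perm.mul_apply, ← h1]
    simp only [mul_assoc]

lemma v0_inj : Function.Injective v0 := by
  intro i j h
  by_contra hij
  have h1 := v0_inner i j
  rw [if_neg hij, ← h, v0_inner, if_pos rfl] at h1
  norm_num at h1

lemma PP_one {σ : Equiv.Perm (Fin 5)} (h : PP (1, σ)) : σ = 1 := by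
  have h1 : σ⁻¹ = 1 := by
    ext i
    have := h i
    simp only [Prod.fst_one, inv_one, Prod.snd_one] at this
    have h2 : v0 i = v0 (σ⁻¹ i) := by
      rw [← this]
      simp
    rw [← v0_inj h2]
    rfl
  rwa [inv_eq_one] at h1

/-! ### Quaternions -/

/-- inverse in `S3` -/
lemma inv_coe (a : S3) : ((a⁻¹ : S3) : ℍ[ℝ]) = star (a : ℍ[ℝ]) := by
  have h : ((a⁻¹ : S3) : ℍ[ℝ]) * (a : ℍ[ℝ]) = 1 := congrArg Subtype.val (inv_mul_cancel a)
  have h1 : (a : ℍ[ℝ]) * star (a : ℍ[ℝ]) = 1 := by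
    rw [Quaternion.self_mul_star, Quaternion.normSq_eq_norm_mul_self,
      mem_sphere_zero_iff_norm.1 a.2]
    norm_num
  calc ((a⁻¹ : S3) : ℍ[ℝ]) = ((a⁻¹ : S3) : ℍ[ℝ]) * ((a : ℍ[ℝ]) * star (a : ℍ[ℝ])) := by
        rw [h1, mul_one]
    _ = star (a : ℍ[ℝ]) := by rw [← mul_assoc, h, one_mul]

lemma norm_one {q : ℍ[ℝ]} (h : q.re ^ 2 + q.imI ^ 2 + q.imJ ^ 2 + q.imK ^ 2 = 1) :
    q ∈ Metric.sphere (0 : ℍ[ℝ]) 1 := by
  rw [mem_sphere_zero_iff_norm]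
  have h1 : ‖q‖ * ‖q‖ = 1 := by
    rw [← Quaternion.normSq_eq_norm_mul_self, Quaternion.normSq_def', h]
  nlinarith [norm_nonneg q]

/-- a quaternion -/
def mq (a b c d : ℝ) : ℍ[ℝ] := ⟨a, b, c, d⟩

lemma mq_re (a b c d : ℝ) : (mq a b c d).re = a := rfl
lemma mq_i (a b c d : ℝ) : (mq a b c d).imI = b := rfl
lemma mq_j (a b c d : ℝ) : (mq a b c d).imJ = c := rfl
lemma mq_k (a b c d : ℝ) : (mq a b c d).imK = d := rfl

lemma mq_mul (a b c d a' b' c' d' : ℝ) :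
    mq a b c d * mq a' b' c' d' =
      mq (a * a' - b * b' - c * c' - d * d') (a * b' + b * a' + c * d' - d * c')
        (a * c' - b * d' + c * a' + d * b') (a * d' + b * c' - c * b' + d * a') := by
  ext
  · rw [Quaternion.re_mul]; rfl
  · rw [Quaternion.imI_mul]; rfl
  · rw [Quaternion.imJ_mul]; rfl
  · rw [Quaternion.imK_mul]; rfl

lemma mq_star (a b c d : ℝ) : star (mq a b c d) = mq a (-b) (-c) (-d) := by
  ext
  · rw [Quaternion.re_star]; rfl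
  · rw [Quaternion.imI_star]; rfl
  · rw [Quaternion.imJ_star]; rfl
  · rw [Quaternion.imK_star]; rfl

lemma mq_neg_one : (-1 : ℍ[ℝ]) = mq (-1) 0 0 0 := by
  ext
  · rw [Quaternion.re_neg, Quaternion.re_one]; rfl
  · rw [Quaternion.imI_neg, Quaternion.imI_one]; exact neg_zero
  · rw [Quaternion.imJ_neg, Quaternion.imJ_one]; exact neg_zero
  · rw [Quaternion.imK_neg, Quaternion.imK_one]; exact neg_zero

lemma mq_eq {a b c d a' b' c' d' : ℝ} (h1 : a = a') (h2 : b = b') (h3 : c = c') (h4 : d = d') :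
    mq a b c d = mq a' b' c' d' := by
  rw [h1, h2, h3, h4]

lemma s5 : √(5 : ℝ) ^ 2 = 5 := Real.sq_sqrt (by norm_num)
lemma s53 : √(5 : ℝ) ^ 3 = 5 * √5 := by
  rw [pow_succ, s5]

/-- `s` -/
noncomputable def sq : ℍ[ℝ] := mq (1 / 2) (1 / 2) (1 / 2) (1 / 2)
/-- `t` -/
noncomputable def tq : ℍ[ℝ] := mq ((1 + √5) / 4) (1 / 2) ((√5 - 1) / 4) 0
/-- `t'` -/
noncomputable def tq' : ℍ[ℝ] := mq ((1 - √5) / 4) (1 / 2) (-(1 + √5) / 4) 0

lemma sq3 : sq * sq * sq = -1 := by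
  rw [sq, mq_mul, mq_mul, mq_neg_one]
  apply mq_eq <;> norm_num

lemma st2 : sq * tq * (sq * tq) = -1 := by
  have h := s5
  rw [sq, tq, mq_mul, mq_mul, mq_neg_one]
  apply mq_eq <;> ring_nf <;> simp only [s5] <;> norm_num

lemma st2' : sq * tq' * (sq * tq') = -1 := by
  rw [sq, tq', mq_mul, mq_mul, mq_neg_one]
  apply mq_eq <;> ring_nf <;> simp only [s5] <;> norm_num

lemma tq2 : tq * tq = mq ((√5 - 1) / 4) ((1 + √5) / 4) (1 / 2) 0 := by
  rw [tq, mq_mul]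
  apply mq_eq <;> ring_nf <;> (try simp only [s5]) <;> ring

lemma tq2' : tq' * tq' = mq (-(1 + √5) / 4) ((1 - √5) / 4) (1 / 2) 0 := by
  rw [tq', mq_mul]
  apply mq_eq <;> ring_nf <;> (try simp only [s5]) <;> ring

lemma tq5 : tq * tq * tq * tq * tq = -1 := by
  have : tq * tq * tq * tq * tq = (tq * tq) * (tq * tq) * tq := by simp only [mul_assoc]
  rw [this, tq2, tq, mq_mul, mq_mul, mq_neg_one]
  apply mq_eq <;> ring_nf <;> (try simp only [s5, s53]) <;> (try ring)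

lemma tq5' : tq' * tq' * tq' * tq' * tq' = -1 := by
  have : tq' * tq' * tq' * tq' * tq' = (tq' * tq') * (tq' * tq') * tq' := by
    simp only [mul_assoc]
  rw [this, tq2', tq', mq_mul, mq_mul, mq_neg_one]
  apply mq_eq <;> ring_nf <;> (try simp only [s5, s53]) <;> (try ring)

lemma act_s (i : Fin 5) : star sq * v0 i * sq = v0 (![0, 1, 4, 2, 3] i) := by
  fin_cases i
  · change star sq * mq 1 0 0 0 * sq = mq 1 0 0 0
    rw [sq, mq_star, mq_mul, mq_mul]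
    apply mq_eq <;> ring
  · change star sq * mq (-1 / 4) (-√5 / 4) (-√5 / 4) (-√5 / 4) * sq =
      mq (-1 / 4) (-√5 / 4) (-√5 / 4) (-√5 / 4)
    rw [sq, mq_star, mq_mul, mq_mul]
    apply mq_eq <;> ring
  · change star sq * mq (-1 / 4) (-√5 / 4) (√5 / 4) (√5 / 4) * sq =
      mq (-1 / 4) (√5 / 4) (√5 / 4) (-√5 / 4)
    rw [sq, mq_star, mq_mul, mq_mul]
    apply mq_eq <;> ring
  · change star sq * mq (-1 / 4) (√5 / 4) (-√5 / 4) (√5 / 4) * sq =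
      mq (-1 / 4) (-√5 / 4) (√5 / 4) (√5 / 4)
    rw [sq, mq_star, mq_mul, mq_mul]
    apply mq_eq <;> ring
  · change star sq * mq (-1 / 4) (√5 / 4) (√5 / 4) (-√5 / 4) * sq =
      mq (-1 / 4) (√5 / 4) (-√5 / 4) (√5 / 4)
    rw [sq, mq_star, mq_mul, mq_mul]
    apply mq_eq <;> ring

lemma act_t (i : Fin 5) : star tq * v0 i * tq' = v0 (![3, 2, 0, 4, 1] i) := by
  fin_cases i
  · change star tq * mq 1 0 0 0 * tq' = mq (-1 / 4) (√5 / 4) (-√5 / 4) (√5 / 4)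
    rw [tq, tq', mq_star, mq_mul, mq_mul]
    apply mq_eq <;> ring_nf <;> (try simp only [s5, s53]) <;> (try ring)
  · change star tq * mq (-1 / 4) (-√5 / 4) (-√5 / 4) (-√5 / 4) * tq' =
      mq (-1 / 4) (-√5 / 4) (√5 / 4) (√5 / 4)
    rw [tq, tq', mq_star, mq_mul, mq_mul]
    apply mq_eq <;> ring_nf <;> (try simp only [s5, s53]) <;> (try ring)
  · change star tq * mq (-1 / 4) (-√5 / 4) (√5 / 4) (√5 / 4) * tq' = mq 1 0 0 0
    rw [tq, tq', mq_star, mq_mul, mq_mul]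
    apply mq_eq <;> ring_nf <;> (try simp only [s5, s53]) <;> (try ring)
  · change star tq * mq (-1 / 4) (√5 / 4) (-√5 / 4) (√5 / 4) * tq' =
      mq (-1 / 4) (√5 / 4) (√5 / 4) (-√5 / 4)
    rw [tq, tq', mq_star, mq_mul, mq_mul]
    apply mq_eq <;> ring_nf <;> (try simp only [s5, s53]) <;> (try ring)
  · change star tq * mq (-1 / 4) (√5 / 4) (√5 / 4) (-√5 / 4) * tq' =
      mq (-1 / 4) (-√5 / 4) (-√5 / 4) (-√5 / 4)
    rw [tq, tq', mq_star, mq_mul, mq_mul]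
    apply mq_eq <;> ring_nf <;> (try simp only [s5, s53]) <;> (try ring)

/-- `s` in `S3` -/
noncomputable def SS : S3 := ⟨sq, norm_one (by
  rw [sq, mq_re, mq_i, mq_j, mq_k]; norm_num)⟩
/-- `t` in `S3` -/
noncomputable def T1 : S3 := ⟨tq, norm_one (by
  rw [tq, mq_re, mq_i, mq_j, mq_k]; ring_nf; simp only [s5]; norm_num)⟩
/-- `t'` in `S3` -/
noncomputable def T2 : S3 := ⟨tq', norm_one (by
  rw [tq', mq_re, mq_i, mq_j, mq_k]; ring_nf; simp only [s5]; norm_num)⟩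

lemma hs (i : Fin 5) : ((SS⁻¹ : S3) : ℍ[ℝ]) * v0 i * (SS : ℍ[ℝ]) = v0 (![0, 1, 4, 2, 3] i) := by
  rw [inv_coe]
  exact act_s i

lemma ht (i : Fin 5) : ((T1⁻¹ : S3) : ℍ[ℝ]) * v0 i * (T2 : ℍ[ℝ]) = v0 (![3, 2, 0, 4, 1] i) := by
  rw [inv_coe]
  exact act_t i

/-- `s` in `Gm` -/
noncomputable def gs : Gm := ⟨(SS, SS), pS⁻¹, fun i => hs i⟩
/-- `t` in `Gm` -/
noncomputable def gt : Gm := ⟨(T1, T2), pT⁻¹, fun i => ht i⟩

end Ga1M

open Ga1M in
/-- **Two elements** -/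
theorem pGa1 : TGa1 := by
  have e1 : (((gs ^ 3 : Gm) : EE).1 : ℍ[ℝ]) = -1 := by
    rw [pow_succ, pow_two]; exact sq3
  have e2 : (((gs ^ 3 : Gm) : EE).2 : ℍ[ℝ]) = -1 := by
    rw [pow_succ, pow_two]; exact sq3
  have e3 : ((((gs * gt) ^ 2 : Gm) : EE).1 : ℍ[ℝ]) = -1 := by
    rw [pow_two]; exact st2
  have e4 : ((((gs * gt) ^ 2 : Gm) : EE).2 : ℍ[ℝ]) = -1 := by
    rw [pow_two]; exact st2'
  have e5 : (((gt ^ 5 : Gm) : EE).1 : ℍ[ℝ]) = -1 := by
    rw [pow_succ, pow_succ, pow_succ, pow_two]; exact tq5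
  have e6 : (((gt ^ 5 : Gm) : EE).2 : ℍ[ℝ]) = -1 := by
    rw [pow_succ, pow_succ, pow_succ, pow_two]; exact tq5'
  have r1 : gs ^ 3 = (gs * gt) ^ 2 :=
    Subtype.ext (Prod.ext (Subtype.ext (e1.trans e3.symm)) (Subtype.ext (e2.trans e4.symm)))
  have r2 : gt ^ 5 = (gs * gt) ^ 2 :=
    Subtype.ext (Prod.ext (Subtype.ext (e5.trans e3.symm)) (Subtype.ext (e6.trans e4.symm)))
  refine ⟨gs, gt, r1, r2, hs, ht, e1, e2, ?_⟩
  intro k hk j h
  have h1 : ((gt ^ k * wd gs gt j : Gm) : EE) = 1 := by rw [h]; rfl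
  have h2 : ((gt : EE), pT) ^ k * wd ((gs : EE), pS) ((gt : EE), pT) j ∈ RR :=
    mul_mem (pow_mem (show ((gt : EE), pT) ∈ RR from fun i => ht i) k)
      (wd_mem RR (show ((gs : EE), pS) ∈ RR from fun i => hs i)
        (show ((gt : EE), pT) ∈ RR from fun i => ht i) j)
  have h3 : ((gt : EE), pT) ^ k * wd ((gs : EE), pS) ((gt : EE), pT) j =
      ((1 : EE), pT ^ k * wd pS pT j) := by
    refine Prod.ext ?_ ?_
    · rw [← h1]
      have a := wd_map (MonoidHom.fst EE (Equiv.Perm (Fin 5))) ((gs : EE), pS) ((gt : EE), pT) j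
      have b := wd_map (Gm.subtype) gs gt j
      rw [Prod.fst_mul, Prod.pow_fst, Subgroup.coe_mul, Subgroup.coe_pow]
      congr 1
      exact a.trans b.symm
    · have a := wd_map (MonoidHom.snd EE (Equiv.Perm (Fin 5))) ((gs : EE), pS) ((gt : EE), pT) j
      rw [Prod.snd_mul, Prod.pow_snd]
      congr 1
  rw [h3] at h2
  have h4 : pT ^ k * wd pS pT j = 1 := PP_one h2
  obtain ⟨h5, h6⟩ := perm_words ⟨k, hk⟩ j h4
  refine ⟨?_, h6⟩
  rcases h5 with h5 | h5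
  · exact h5
  · exfalso
    have h7 : k = 5 := h5
    rw [h6, h7] at h
    have h8 : gt ^ 5 = 1 := by
      have : wd gs gt 0 = 1 := rfl
      rwa [this, mul_one] at h
    rw [h8] at e5
    have h9 : ((1 : ℍ[ℝ])) = -1 := e5
    have h10 := congrArg QuaternionAlgebra.re h9
    rw [Quaternion.re_neg, Quaternion.re_one] at h10
    norm_num at h10

end Pool.Agent.MPaafd8a.A2
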