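import Pool.Agent.Lib.MP_aafd8a_gt_A2.Spec

/-!
# The group of the simplex
-/

set_option autoImplicit false

open Topology RealInnerProductSpace Quaternion

namespace Pool.Agent.MPaafd8a.A2

namespace GamAux

/-- the permutation of `s` -/
private def ps : Equiv.Perm (Fin 5) := ⟨![0, 1, 4, 2, 3], ![0, 1, 3, 4, 2], by decide, by decide⟩

/-- the permutation of `t` -/
private def pt : Equiv.Perm (Fin 5) := ⟨![3, 2, 0, 4, 1], ![2, 4, 1, 0, 3], by decide, by decide⟩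

/-- `e` permutes the vertices by `σ` -/
private def P (e : EE) (σ : Equiv.Perm (Fin 5)) : Prop :=
  ∀ i, ((e.1⁻¹ : S3) : ℍ[ℝ]) * v0 i * (e.2 : ℍ[ℝ]) = v0 (σ i)

private theorem P_mul {e f : EE} {σ τ : Equiv.Perm (Fin 5)} (he : P e σ) (hf : P f τ) :
    P (e * f) (τ * σ) := by
  intro i
  have h1 := hf (σ i)
  rw [← he i] at h1
  rw [Equiv.Perm.mul_apply, ← h1]
  have h2 : (((e * f).1⁻¹ : S3) : ℍ[ℝ]) = ((f.1⁻¹ : S3) : ℍ[ℝ]) * ((e.1⁻¹ : S3) : ℍ[ℝ]) := by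
    rw [Prod.fst_mul, mul_inv_rev]
    rfl
  have h3 : (((e * f).2 : S3) : ℍ[ℝ]) = (e.2 : ℍ[ℝ]) * (f.2 : ℍ[ℝ]) := rfl
  rw [h2, h3]
  simp only [mul_assoc]

private theorem P_one : P 1 1 := fun i => by simp

private theorem fix3 : ∀ σ : Equiv.Perm (Fin 5), σ 0 = 0 → σ 1 = 1 → σ 2 = 2 →
    σ = 1 ∨ σ = Equiv.swap 3 4 := by
  intro σ h0 h1 h2
  have hne : σ 3 ≠ 0 ∧ σ 3 ≠ 1 ∧ σ 3 ≠ 2 := by
    refine ⟨fun h => ?_, fun h => ?_, fun h => ?_⟩
    · exact absurd (σ.injective (h.trans h0.symm)) (by decide)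
    · exact absurd (σ.injective (h.trans h1.symm)) (by decide)
    · exact absurd (σ.injective (h.trans h2.symm)) (by decide)
  have hne' : σ 4 ≠ 0 ∧ σ 4 ≠ 1 ∧ σ 4 ≠ 2 ∧ σ 4 ≠ σ 3 := by
    refine ⟨fun h => ?_, fun h => ?_, fun h => ?_, fun h => ?_⟩
    · exact absurd (σ.injective (h.trans h0.symm)) (by decide)
    · exact absurd (σ.injective (h.trans h1.symm)) (by decide)
    · exact absurd (σ.injective (h.trans h2.symm)) (by decide)
    · exact absurd (σ.injective h) (by decide)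
  have key : ∀ x y : Fin 5, (x ≠ 0 ∧ x ≠ 1 ∧ x ≠ 2) → (y ≠ 0 ∧ y ≠ 1 ∧ y ≠ 2 ∧ y ≠ x) →
      (x = 3 ∧ y = 4) ∨ (x = 4 ∧ y = 3) := by decide
  rcases key (σ 3) (σ 4) hne hne' with ⟨h3, h4⟩ | ⟨h3, h4⟩
  · left
    ext i
    fin_cases i <;> simp [h0, h1, h2, h3, h4]
  · right
    ext i
    fin_cases i
    · simp only [Fin.zero_eta, h0]; decide
    · simp only [Fin.mk_one, h1]; decide
    · simp only [Fin.reduceFinMk, h2]; decide
    · simp only [Fin.reduceFinMk, h3]; decide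
    · simp only [Fin.reduceFinMk, h4]; decide

private theorem red (T : Equiv.Perm (Fin 5) → Prop) (h1 : T 1) (hm : ∀ a b, T a → T b → T (a * b))
    (hs : T ps) (ht : T pt) (σ : Equiv.Perm (Fin 5)) :
    ∃ τ, T τ ∧ (τ * σ = 1 ∨ τ * σ = Equiv.swap 3 4) := by
  have hpow : ∀ (a : Equiv.Perm (Fin 5)), T a → ∀ k : ℕ, T (a ^ k) := by
    intro a ha k
    induction k with
    | zero => simpa using h1
    | succ k ih => rw [pow_succ]; exact hm _ _ ih ha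
  have hA : ∀ x : Fin 5, ∃ k < 5, (pt ^ k) x = 0 := by decide
  obtain ⟨k, -, hk⟩ := hA (σ 0)
  set σ1 := pt ^ k * σ with hσ1
  have h10 : σ1 0 = 0 := by rw [hσ1, Equiv.Perm.mul_apply, hk]
  have hB : ∀ y : Fin 5, y ≠ 0 → ∃ w, T w ∧ w 0 = 0 ∧ w y = 1 := by
    have hw : T (pt * ps * ps * pt * pt) := hm _ _ (hm _ _ (hm _ _ (hm _ _ ht hs) hs) ht) ht
    intro y hy
    have : y = 1 ∨ y = 2 ∨ y = 3 ∨ y = 4 := by
      revert hy y; decide
    rcases this with h | h | h | h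
    · exact ⟨1, h1, rfl, by rw [h]; rfl⟩
    · exact ⟨_, hw, by decide, by rw [h]; decide⟩
    · exact ⟨_, hm _ _ hw hs, by decide, by rw [h]; decide⟩
    · exact ⟨_, hm _ _ (hm _ _ hw hs) hs, by decide, by rw [h]; decide⟩
  obtain ⟨w, hw, hw0, hw1⟩ := hB (σ1 1) (by
    intro h
    exact absurd (σ1.injective (h.trans h10.symm)) (by decide))
  set σ2 := w * σ1 with hσ2
  have h20 : σ2 0 = 0 := by rw [hσ2, Equiv.Perm.mul_apply, h10, hw0]
  have h21 : σ2 1 = 1 := by rw [hσ2, Equiv.Perm.mul_apply, hw1]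
  have hC : ∀ z : Fin 5, z ≠ 0 → z ≠ 1 → ∃ k < 3, (ps ^ k) z = 2 ∧ (ps ^ k) 0 = 0 ∧ (ps ^ k) 1 = 1 := by
    decide
  obtain ⟨m, -, hm2, hm0, hm1⟩ := hC (σ2 2)
    (by intro h; exact absurd (σ2.injective (h.trans h20.symm)) (by decide))
    (by intro h; exact absurd (σ2.injective (h.trans h21.symm)) (by decide))
  refine ⟨ps ^ m * (w * pt ^ k), hm _ _ (hpow _ hs m) (hm _ _ hw (hpow _ ht k)), ?_⟩
  have he : ps ^ m * (w * pt ^ k) * σ = ps ^ m * σ2 := by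
    rw [hσ2, hσ1]
    simp only [mul_assoc]
  rw [he]
  apply fix3
  · rw [Equiv.Perm.mul_apply, h20, hm0]
  · rw [Equiv.Perm.mul_apply, h21, hm1]
  · rw [Equiv.Perm.mul_apply, hm2]

end GamAux

open GamAux in
theorem pGam (hSpl : TSpl) (hGa1 : TGa1) (hRig : TRig) : TGam := by
  obtain ⟨s, t, h1, h2, hs, ht, h3, h4, h5⟩ := hGa1
  refine hSpl Gm s t h1 h2 ?_ h5
  rw [eq_top_iff]
  rintro e -
  set H := Subgroup.closure ({s, t} : Set Gm) with hH
  have hsH : s ∈ H := Subgroup.subset_closure (by simp)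
  have htH : t ∈ H := Subgroup.subset_closure (by simp)
  obtain ⟨σ, hσ⟩ := e.2
  obtain ⟨τ, ⟨f, hf, hfτ⟩, hτ⟩ := red (fun τ => ∃ f ∈ H, P (f : EE) τ) ⟨1, H.one_mem, P_one⟩
    (by
      rintro a b ⟨f, hf, hfa⟩ ⟨g, hg, hgb⟩
      exact ⟨g * f, H.mul_mem hg hf, P_mul hgb hfa⟩)
    ⟨s, hsH, fun i => hs i⟩ ⟨t, htH, fun i => ht i⟩ σ
  have hg : P ((e * f : Gm) : EE) (τ * σ) := P_mul (fun i => hσ i) hfτ
  obtain ⟨hr1, hr2⟩ := hRig ((e * f : Gm) : EE) (τ * σ) hg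
  have h6 : τ * σ = 1 := hτ.resolve_right hr2
  have h7 : e * f ∈ H := by
    rcases hr1 h6 with ⟨ha, hb⟩ | ⟨ha, hb⟩
    · have : e * f = 1 := by
        apply Subtype.ext
        apply Prod.ext
        · exact Subtype.ext ha
        · exact Subtype.ext hb
      rw [this]
      exact H.one_mem
    · have : e * f = s ^ 3 := by
        apply Subtype.ext
        apply Prod.ext
        · exact Subtype.ext (ha.trans h3.symm)
        · exact Subtype.ext (hb.trans h4.symm)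
      rw [this]
      exact H.pow_mem hsH 3
  have h8 : e = (e * f) * f⁻¹ := by group
  rw [h8]
  exact H.mul_mem h7 (H.inv_mem hf)

end Pool.Agent.MPaafd8a.A2
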