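import Pool.Agent.Lib.MP_aafd8a_gt_A2.Spec

/-!
# Extension of maps over a simplicial complex
-/

set_option autoImplicit false

open Topology

namespace Pool.Agent.MPaafd8a.A2

namespace GelAux

private theorem smp_closed {B : Type} [Fintype B] (σ : Finset B) : IsClosed (smp σ) := by
  have h1 : IsClosed {w : B → ℝ | ∀ b, 0 ≤ w b} := by
    simp only [Set.ofPred_forall]
    exact isClosed_iInter fun b => isClosed_le continuous_const (continuous_apply b)
  have h2 : IsClosed {w : B → ℝ | ∑ b, w b = 1} :=
    isClosed_eq (continuous_finsetSum _ fun b _ => continuous_apply b) continuous_const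
  have h3 : IsClosed {w : B → ℝ | ∀ b, b ∉ σ → w b = 0} := by
    simp only [Set.ofPred_forall]
    exact isClosed_iInter fun b => isClosed_iInter fun _ =>
      isClosed_eq (continuous_apply b) continuous_const
  exact h1.inter (h2.inter h3)

private theorem smp_empty {B : Type} [Fintype B] {σ : Finset B} {w : B → ℝ} (hw : w ∈ smp σ) :
    σ.Nonempty := by
  by_contra h
  rw [Finset.not_nonempty_iff_eq_empty] at h
  obtain ⟨-, h2, h3⟩ := hw
  rw [Finset.sum_eq_zero fun b _ => h3 b (by rw [h]; simp)] at h2
  exact zero_ne_one h2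

private theorem body_cont {B Z : Type} [Fintype B] [TopologicalSpace Z] (T : Finset (Finset B))
    (F : (B → ℝ) → Z) (h : ∀ τ ∈ T, ContinuousOn F (smp τ)) : ContinuousOn F (body T) := by
  have h1 : body T = ⋃ τ : {τ : Finset B // τ ∈ T}, smp τ.1 := by
    ext w
    simp only [body, Set.mem_ofPred_eq, Set.mem_iUnion, Subtype.exists, exists_prop]
  rw [h1]
  exact (locallyFinite_of_finite _).continuousOn_iUnion (fun τ => smp_closed τ.1)
    (fun τ => h τ.1 τ.2)

end GelAux

open GelAux in
theorem pGel : TGel := by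
  intro B _ 𝒞 Z _ hZ P hD hcong hstep
  classical
  have key : ∀ m : ℕ, ∃ F : (B → ℝ) → Z, ∀ σ ∈ 𝒞, σ.Nonempty → σ.card ≤ m →
      ContinuousOn F (smp σ) ∧ P σ F := by
    intro m
    induction m with
    | zero =>
      refine ⟨fun _ => Classical.arbitrary Z, fun σ _ hne hc => ?_⟩
      have := hne.card_pos
      omega
    | succ m ih =>
      obtain ⟨F, hF⟩ := ih
      have hbd : ∀ σ ∈ 𝒞, σ.card = m + 1 → ContinuousOn F (bds σ) := by
        intro σ hσ hc
        refine (body_cont (𝒞.filter fun τ => τ.Nonempty ∧ τ.card ≤ m) F ?_).mono ?_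
        · intro τ hτ
          rw [Finset.mem_filter] at hτ
          exact (hF τ hτ.1 hτ.2.1 hτ.2.2).1
        · rintro w ⟨hw, b, hb, hb0⟩
          have hw' : w ∈ smp (σ.erase b) := by
            refine ⟨hw.1, hw.2.1, fun c hc' => ?_⟩
            by_cases hcb : c = b
            · rw [hcb, hb0]
            · exact hw.2.2 c fun h => hc' (Finset.mem_erase.2 ⟨hcb, h⟩)
          have hne := smp_empty hw'
          refine ⟨σ.erase b, Finset.mem_filter.2 ⟨hD σ hσ _ (Finset.erase_subset _ _) hne, hne, ?_⟩, hw'⟩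
          rw [Finset.card_erase_of_mem hb, hc]
          omega
      have hex : ∀ σ : Finset B, ∃ f' : (B → ℝ) → Z, σ ∈ 𝒞 → σ.card = m + 1 →
          ContinuousOn f' (smp σ) ∧ Set.EqOn f' F (bds σ) ∧ P σ f' := by
        intro σ
        by_cases hσ : σ ∈ 𝒞 ∧ σ.card = m + 1
        · have hne : σ.Nonempty := by
            rw [← Finset.card_pos]
            omega
          obtain ⟨f', h1, h2, h3⟩ := hstep σ hσ.1 hne F (hbd σ hσ.1 hσ.2) (by
            intro τ hτ hτne
            have h4 := Finset.card_lt_card hτ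
            exact (hF τ (hD σ hσ.1 τ hτ.subset hτne) hτne (by omega)).2)
          exact ⟨f', fun _ _ => ⟨h1, h2, h3⟩⟩
        · exact ⟨F, fun h1 h2 => absurd ⟨h1, h2⟩ hσ⟩
      choose f' hf' using hex
      set S : (B → ℝ) → Finset B := fun w => Finset.univ.filter (fun b => 0 < w b) with hS
      set F' : (B → ℝ) → Z := fun w => if S w ∈ 𝒞 ∧ (S w).card = m + 1 then f' (S w) w else F w
        with hF'
      have hsub : ∀ (σ : Finset B) (w : B → ℝ), w ∈ smp σ → S w ⊆ σ := by
        intro σ w hw b hb
        rw [hS] at hb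
        by_contra hbσ
        have h1 := (Finset.mem_filter.1 hb).2
        rw [hw.2.2 b hbσ] at h1
        exact lt_irrefl _ h1
      refine ⟨F', fun σ hσ hne hc => ?_⟩
      rcases Nat.lt_or_ge σ.card (m + 1) with hlt | hge
      · have heq : Set.EqOn F F' (smp σ) := by
          intro w hw
          have h1 := Finset.card_le_card (hsub σ w hw)
          have h2 : ¬ (S w ∈ 𝒞 ∧ (S w).card = m + 1) := by
            rintro ⟨-, h3⟩
            omega
          simp only [hF', if_neg h2]
        have h1 := hF σ hσ hne (by omega)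
        exact ⟨h1.1.congr fun w hw => (heq hw).symm, hcong σ F F' h1.2 heq⟩
      · have hc' : σ.card = m + 1 := le_antisymm hc hge
        obtain ⟨h1, h2, h3⟩ := hf' σ hσ hc'
        have heq : Set.EqOn (f' σ) F' (smp σ) := by
          intro w hw
          by_cases hSw : S w = σ
          · have h4 : S w ∈ 𝒞 ∧ (S w).card = m + 1 := by rw [hSw]; exact ⟨hσ, hc'⟩
            simp only [hF', if_pos h4]
            rw [hSw]
          · have h5 : S w ⊂ σ := (hsub σ w hw).ssubset_of_ne hSw
            have h6 := Finset.card_lt_card h5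
            have h4 : ¬ (S w ∈ 𝒞 ∧ (S w).card = m + 1) := by
              rintro ⟨-, h3⟩
              omega
            simp only [hF', if_neg h4]
            apply h2
            obtain ⟨b, hb, hbS⟩ := Finset.exists_of_ssubset h5
            refine ⟨hw, b, hb, ?_⟩
            have h7 : ¬ 0 < w b := fun h => hbS (by
              rw [hS]
              exact Finset.mem_filter.2 ⟨Finset.mem_univ _, h⟩)
            exact le_antisymm (not_lt.1 h7) (hw.1 b)
        exact ⟨h1.congr fun w hw => (heq hw).symm, hcong σ (f' σ) F' h3 heq⟩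
  obtain ⟨F, hF⟩ := key (Fintype.card B)
  refine ⟨F, ?_, fun σ hσ hne => (hF σ hσ hne (Finset.card_le_univ σ)).2⟩
  refine (body_cont (𝒞.filter fun τ => τ.Nonempty) F ?_).mono ?_
  · intro τ hτ
    rw [Finset.mem_filter] at hτ
    exact (hF τ hτ.1 hτ.2 (Finset.card_le_univ τ)).1
  · rintro w ⟨σ, hσ, hw⟩
    exact ⟨σ, Finset.mem_filter.2 ⟨hσ, smp_empty hw⟩, hw⟩

end Pool.Agent.MPaafd8a.A2
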