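import Pool.Agent.Lib.MP_aafd8a_gt_A2.Spec

/-!
# MP_aafd8a_gt, block (A-ii): gluing
-/

set_option autoImplicit false

open Topology RealInnerProductSpace Quaternion

namespace Pool.Agent.MPaafd8a.A2

theorem pGlu : TGlu := by
  classical
  intro Z K _ _ k a κ G hG
  let F : unitInterval × Z → K := fun p => if h : a p.2 ≤ κ then G (p.1, ⟨p.2, h⟩) else k
  have hF1 : ∀ s z (h : a z ≤ κ), F (s, z) = G (s, ⟨z, h⟩) := fun s z h => dif_pos h
  have hF2 : ∀ s z, κ ≤ a z → F (s, z) = k := by
    intro s z h
    by_cases h1 : a z ≤ κ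
    · rw [hF1 s z h1]
      exact hG s ⟨z, h1⟩ (le_antisymm h1 h)
    · exact dif_neg h1
  have ca : Continuous fun p : unitInterval × Z => a p.2 := a.continuous.comp continuous_snd
  have hA : IsClosed {p : unitInterval × Z | a p.2 ≤ κ} := isClosed_le ca continuous_const
  have hB : IsClosed {p : unitInterval × Z | κ ≤ a p.2} := isClosed_le continuous_const ca
  have cA : ContinuousOn F {p : unitInterval × Z | a p.2 ≤ κ} := by
    rw [continuousOn_iff_continuous_domRestrict]
    have e : Set.domRestrict {p : unitInterval × Z | a p.2 ≤ κ} F =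
        fun p => G (p.1.1, ⟨p.1.2, p.2⟩) := by
      funext p
      exact dif_pos p.2
    rw [e]
    exact G.continuous.comp ((continuous_fst.comp continuous_subtype_val).prodMk
      ((continuous_snd.comp continuous_subtype_val).subtype_mk _))
  have cB : ContinuousOn F {p : unitInterval × Z | κ ≤ a p.2} :=
    continuousOn_const.congr (fun p hp => hF2 p.1 p.2 hp)
  have cF : Continuous F := by
    rw [← continuousOn_univ]
    have hU : (Set.univ : Set (unitInterval × Z)) =
        {p | a p.2 ≤ κ} ∪ {p | κ ≤ a p.2} := by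
      symm
      rw [Set.eq_univ_iff_forall]
      exact fun p => le_total (a p.2) κ
    rw [hU]
    exact cA.union_of_isClosed cB hA hB
  exact ⟨⟨F, cF⟩, hF1, hF2⟩

end Pool.Agent.MPaafd8a.A2
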