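import Pool.Agent.Lib.MP_aafd8a_gt_A2.Spec

/-!
# MP_aafd8a_gt, block (A-ii), module Grp: the fundamental group of `RSq`
-/

set_option autoImplicit false

open Topology RealInnerProductSpace Quaternion

namespace Pool.Agent.MPaafd8a.A2

namespace GrpM

theorem splits_congr {G G' : Type} [Group G] [Group G'] (φ : G ≃* G') (h : Splits G) :
    Splits G' := by
  intro E _ π hπ hc
  obtain ⟨s, hs⟩ := h E ((φ.symm : G' →* G).comp π) (φ.symm.surjective.comp hπ) (by
    intro k hk
    apply hc
    have h1 : φ.symm (π k) = 1 := hk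
    have h2 := congrArg φ h1
    rwa [MulEquiv.apply_symm_apply, map_one] at h2)
  refine ⟨s.comp (φ.symm : G' →* G), fun g => ?_⟩
  have h1 : φ.symm (π (s (φ.symm g))) = φ.symm g := hs (φ.symm g)
  exact φ.symm.injective h1

theorem perf_congr {G G' : Type} [Group G] [Group G'] (φ : G ≃* G') (h : Perf G) : Perf G' := by
  intro C _ f g
  have h1 : f (φ (φ.symm g)) = 1 := h C (f.comp (φ : G →* G')) (φ.symm g)
  rwa [MulEquiv.apply_symm_apply] at h1

end GrpM

open GrpM in
theorem pGrp (hGam : TGam) (hCov : TCov) (hE : TExE) (hSim : TSim) : TGrp := by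
  have hp : IsQuotientCoveringMap th Gm := hCov
  have hpc : PathConnectedSpace EE := hE.1
  have hsc : SimplyConnectedSpace EE := hSim EE hE.1 hE.2.1
  refine ⟨hp.surjective.pathConnectedSpace hp.continuous, fun x => ?_⟩
  obtain ⟨e, he⟩ := hp.surjective x
  have φ : FundamentalGroup RSq x ≃* Gmᵐᵒᵖ := hp.fundamentalGroupEquiv ⟨e, he⟩
  have ψ : Gm ≃* FundamentalGroup RSq x := (MulEquiv.inv' Gm).trans φ.symm
  exact ⟨splits_congr ψ hGam.1, perf_congr ψ hGam.2⟩

end Pool.Agent.MPaafd8a.A2
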