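import Pool.Agent.Lib.MP_aafd8a_gt_A2.Spec

/-!
# MP_aafd8a_gt, block (A-ii): filling of an open box
-/

set_option autoImplicit false

open Topology

namespace Pool.Agent.MPaafd8a.A2

namespace KanAux

/-- The scaling factor of the projection from the point `(0, 0, 2)` to the open box. -/
noncomputable def mu (x : unitInterval × unitInterval × unitInterval) : ℝ :=
  max ((2 - (x.2.2 : ℝ)) / 2) (max |2 * (x.1 : ℝ) - 1| |2 * (x.2.1 : ℝ) - 1|)

theorem mu_cont : Continuous mu := by
  unfold mu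
  fun_prop

theorem mu_t (x : unitInterval × unitInterval × unitInterval) : (2 - (x.2.2 : ℝ)) / 2 ≤ mu x :=
  le_max_left _ _

theorem mu_a (x : unitInterval × unitInterval × unitInterval) : |2 * (x.1 : ℝ) - 1| ≤ mu x :=
  (le_max_left _ _).trans (le_max_right _ _)

theorem mu_b (x : unitInterval × unitInterval × unitInterval) : |2 * (x.2.1 : ℝ) - 1| ≤ mu x :=
  (le_max_right _ _).trans (le_max_right _ _)

theorem abs_le_one (u : unitInterval) : |2 * (u : ℝ) - 1| ≤ 1 := by
  rw [abs_le]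
  constructor <;> linarith [u.2.1, u.2.2]

theorem mu_pos (x : unitInterval × unitInterval × unitInterval) : 0 < mu x := by
  have := mu_t x
  have h := x.2.2.2.2
  linarith

theorem mu_le_one (x : unitInterval × unitInterval × unitInterval) : mu x ≤ 1 := by
  refine max_le ?_ (max_le (abs_le_one _) (abs_le_one _))
  have h := x.2.2.2.1
  linarith

theorem mem_ab (y m : ℝ) (hm : 0 < m) (h : |y| ≤ m) : (y / m + 1) / 2 ∈ unitInterval := by
  rw [abs_le] at h
  have h1 : -1 ≤ y / m := by rw [le_div_iff₀ hm]; linarith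
  have h2 : y / m ≤ 1 := by rw [div_le_one hm]; exact h.2
  constructor <;> linarith

theorem mem_t (x : unitInterval × unitInterval × unitInterval) :
    2 - (2 - (x.2.2 : ℝ)) / mu x ∈ unitInterval := by
  have h1 : (2 - (x.2.2 : ℝ)) / mu x ≤ 2 := by
    rw [div_le_iff₀ (mu_pos x)]
    linarith [mu_t x]
  have h2 : 1 ≤ (2 - (x.2.2 : ℝ)) / mu x := by
    rw [le_div_iff₀ (mu_pos x)]
    linarith [mu_le_one x, x.2.2.2.2]
  constructor <;> linarith

/-- The projection to the open box. -/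
noncomputable def rho (x : unitInterval × unitInterval × unitInterval) :
    unitInterval × unitInterval × unitInterval :=
  (⟨((2 * (x.1 : ℝ) - 1) / mu x + 1) / 2, mem_ab _ _ (mu_pos x) (mu_a x)⟩,
    ⟨((2 * (x.2.1 : ℝ) - 1) / mu x + 1) / 2, mem_ab _ _ (mu_pos x) (mu_b x)⟩,
    ⟨2 - (2 - (x.2.2 : ℝ)) / mu x, mem_t x⟩)

theorem rho_cont : Continuous rho := by
  have hm := mu_cont
  have h0 : ∀ x, mu x ≠ 0 := fun x => (mu_pos x).ne'
  unfold rho
  refine Continuous.prodMk (Continuous.subtype_mk ?_ _)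
    (Continuous.prodMk (Continuous.subtype_mk ?_ _) (Continuous.subtype_mk ?_ _))
  · exact (((by fun_prop : Continuous fun x : unitInterval × unitInterval × unitInterval =>
      2 * (x.1 : ℝ) - 1).div hm h0).add continuous_const).div_const 2
  · exact (((by fun_prop : Continuous fun x : unitInterval × unitInterval × unitInterval =>
      2 * (x.2.1 : ℝ) - 1).div hm h0).add continuous_const).div_const 2
  · exact continuous_const.sub ((by fun_prop : Continuous
      fun x : unitInterval × unitInterval × unitInterval => 2 - (x.2.2 : ℝ)).div hm h0)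

theorem side (u : unitInterval) (m : ℝ) (hm : 0 < m) (h : |2 * (u : ℝ) - 1| = m)
    (hh : ((2 * (u : ℝ) - 1) / m + 1) / 2 ∈ unitInterval) :
    (⟨((2 * (u : ℝ) - 1) / m + 1) / 2, hh⟩ : unitInterval) = 0 ∨
      (⟨((2 * (u : ℝ) - 1) / m + 1) / 2, hh⟩ : unitInterval) = 1 := by
  rcases abs_choice (2 * (u : ℝ) - 1) with h1 | h1
  · right
    apply Subtype.ext
    show ((2 * (u : ℝ) - 1) / m + 1) / 2 = 1
    rw [← h1, h, div_self hm.ne']
    norm_num
  · left
    apply Subtype.ext
    show ((2 * (u : ℝ) - 1) / m + 1) / 2 = 0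
    have h2 : 2 * (u : ℝ) - 1 = -m := by rw [← h, h1]; ring
    rw [h2, neg_div, div_self hm.ne']
    norm_num

theorem rho_mem (x : unitInterval × unitInterval × unitInterval) :
    (rho x).1 = 0 ∨ (rho x).1 = 1 ∨ (rho x).2.1 = 0 ∨ (rho x).2.1 = 1 ∨ (rho x).2.2 = 0 := by
  have hc : mu x = (2 - (x.2.2 : ℝ)) / 2 ∨ mu x = |2 * (x.1 : ℝ) - 1| ∨
      mu x = |2 * (x.2.1 : ℝ) - 1| := by
    rcases max_choice ((2 - (x.2.2 : ℝ)) / 2) (max |2 * (x.1 : ℝ) - 1| |2 * (x.2.1 : ℝ) - 1|) with h | h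
    · exact Or.inl h
    · rcases max_choice |2 * (x.1 : ℝ) - 1| |2 * (x.2.1 : ℝ) - 1| with h' | h'
      · exact Or.inr (Or.inl (h.trans h'))
      · exact Or.inr (Or.inr (h.trans h'))
  rcases hc with h | h | h
  · right; right; right; right
    apply Subtype.ext
    show 2 - (2 - (x.2.2 : ℝ)) / mu x = 0
    have h2 : 2 - (x.2.2 : ℝ) = 2 * mu x := by rw [h]; ring
    rw [h2, mul_div_assoc, div_self (mu_pos x).ne']
    norm_num
  · rcases side x.1 (mu x) (mu_pos x) h.symm (mem_ab _ _ (mu_pos x) (mu_a x)) with h1 | h1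
    · exact Or.inl h1
    · exact Or.inr (Or.inl h1)
  · rcases side x.2.1 (mu x) (mu_pos x) h.symm (mem_ab _ _ (mu_pos x) (mu_b x)) with h1 | h1
    · exact Or.inr (Or.inr (Or.inl h1))
    · exact Or.inr (Or.inr (Or.inr (Or.inl h1)))

theorem rho_id (x : unitInterval × unitInterval × unitInterval)
    (hx : x.1 = 0 ∨ x.1 = 1 ∨ x.2.1 = 0 ∨ x.2.1 = 1 ∨ x.2.2 = 0) : rho x = x := by
  have h1 : 1 ≤ mu x := by
    rcases hx with h | h | h | h | h
    · refine le_trans ?_ (mu_a x)
      rw [h]; norm_num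
    · refine le_trans ?_ (mu_a x)
      rw [h]; norm_num
    · refine le_trans ?_ (mu_b x)
      rw [h]; norm_num
    · refine le_trans ?_ (mu_b x)
      rw [h]; norm_num
    · refine le_trans ?_ (mu_t x)
      rw [h]; norm_num
  have h2 : mu x = 1 := le_antisymm (mu_le_one x) h1
  refine Prod.ext (Subtype.ext ?_) (Prod.ext (Subtype.ext ?_) (Subtype.ext ?_))
  · show ((2 * (x.1 : ℝ) - 1) / mu x + 1) / 2 = x.1
    rw [h2]; ring
  · show ((2 * (x.2.1 : ℝ) - 1) / mu x + 1) / 2 = x.2.1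
    rw [h2]; ring
  · show 2 - (2 - (x.2.2 : ℝ)) / mu x = x.2.2
    rw [h2]; ring

end KanAux

open KanAux in
theorem pKan : TKan := by
  intro Z _ f hf
  refine ⟨⟨fun x => f (rho x), hf.comp_continuous rho_cont fun x => rho_mem x⟩, fun x hx => ?_⟩
  show f (rho x) = f x
  rw [rho_id x hx]

end Pool.Agent.MPaafd8a.A2
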