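import Pool.Agent.Lib.MP_aafd8a_gt_A2.Spec

set_option autoImplicit false

open Topology RealInnerProductSpace Quaternion

namespace Pool.Agent.MPaafd8a.A2

private theorem dist_mulL (γ x y : S3) : dist (γ * x) (γ * y) = dist x y := by
  rw [Subtype.dist_eq, Subtype.dist_eq, dist_eq_norm, dist_eq_norm]
  have h1 : ((γ * x : S3) : ℍ[ℝ]) - ((γ * y : S3) : ℍ[ℝ]) = (γ : ℍ[ℝ]) * ((x : ℍ[ℝ]) - (y : ℍ[ℝ])) := by
    rw [mul_sub]
    rfl
  rw [h1, norm_mul, mem_sphere_zero_iff_norm.1 γ.2, one_mul]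

private theorem dist_mulE (γ x y : EE) : dist (γ * x) (γ * y) = dist x y := by
  rw [Prod.dist_eq, Prod.dist_eq, Prod.fst_mul, Prod.fst_mul, Prod.snd_mul, Prod.snd_mul,
    dist_mulL, dist_mulL]

theorem pLoc (hc : TCov) : TLoc := by
  intro U _ _ g r hr
  have hcov : IsQuotientCoveringMap th Gm := hc
  have hopen : IsOpenMap th := hcov.isCoveringMap.isOpenMap
  have hsurj : Function.Surjective th := hcov.surjective
  -- the open sets
  let O : EE → Set U := fun e => g ⁻¹' (th '' Metric.ball e (r / 2))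
  have hO : ∀ e, IsOpen (O e) := fun e =>
    (hopen _ Metric.isOpen_ball).preimage g.continuous
  have hcover : (Set.univ : Set U) ⊆ ⋃ e, O e := by
    intro z _
    obtain ⟨e, he⟩ := hsurj (g z)
    refine Set.mem_iUnion.2 ⟨e, e, Metric.mem_ball_self (by positivity), he⟩
  obtain ⟨η, hη, hleb⟩ := lebesgue_number_lemma_of_metric isCompact_univ hO hcover
  refine ⟨η, hη, fun z z' hzz e he => ?_⟩
  obtain ⟨e₀, he₀⟩ := hleb z (Set.mem_univ z)
  obtain ⟨u, hu, hu2⟩ := he₀ (Metric.mem_ball_self hη)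
  obtain ⟨u', hu', hu'2⟩ := he₀ (show z' ∈ Metric.ball z η by rwa [Metric.mem_ball, dist_comm])
  have h1 : th e = th u := by rw [he, hu2]
  obtain ⟨γ, hγ⟩ := hcov.apply_eq_iff_mem_orbit.1 h1
  have hγ' : (γ : EE) * u = e := hγ
  refine ⟨(γ : EE) * u', ?_, ?_⟩
  · have h2 : th ((γ : EE) * u') = th u' := hcov.apply_eq_iff_mem_orbit.2 ⟨γ, rfl⟩
    rw [h2, hu'2]
  · rw [← hγ', dist_mulE]
    have h3 := dist_triangle_right u u' e₀
    rw [Metric.mem_ball] at hu hu'
    linarith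

end Pool.Agent.MPaafd8a.A2
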