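import Pool.Agent.Lib.MP_aafd8a_gt_A2.Spec

/-!
# MP_aafd8a_gt, block (A-ii): extension and null-homotopy (`pNE : TNE`)

A map of the boundary of the cube is null-homotopic if and only if it extends to the whole space.
-/

set_option autoImplicit false

open Topology

namespace Pool.Agent.MPaafd8a.A2

namespace NEM

/-- the radial projection of the complement of the ball of radius `1/2` -/
noncomputable def rad {d : ℕ} (x : {x : Fin d → ℝ // 1 / 2 ≤ ‖x‖}) : CSph d :=
  ⟨‖(x : Fin d → ℝ)‖⁻¹ • (x : Fin d → ℝ), by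
    have h : 0 < ‖(x : Fin d → ℝ)‖ := lt_of_lt_of_le (by norm_num) x.2
    rw [mem_sphere_zero_iff_norm, norm_smul, norm_inv, norm_norm, inv_mul_cancel₀ h.ne']⟩

lemma continuous_rad {d : ℕ} : Continuous (rad (d := d)) := by
  have h1 : Continuous fun x : {x : Fin d → ℝ // 1 / 2 ≤ ‖x‖} => ‖(x : Fin d → ℝ)‖⁻¹ := by
    refine (continuous_norm.comp continuous_subtype_val).inv₀ ?_
    intro x
    have h : 0 < ‖(x : Fin d → ℝ)‖ := lt_of_lt_of_le (by norm_num) x.2
    exact h.ne'
  exact Continuous.subtype_mk (h1.smul continuous_subtype_val) _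

/-- the time of the homotopy -/
noncomputable def tm {d : ℕ} (x : Fin d → ℝ) : unitInterval :=
  Set.projIcc 0 1 zero_le_one (2 - 2 * ‖x‖)

lemma continuous_tm {d : ℕ} : Continuous (tm (d := d)) :=
  continuous_projIcc.comp (continuous_const.sub (continuous_const.mul continuous_norm))

/-- the extension of a null-homotopic map -/
lemma extend {d : ℕ} {X : Type} [TopologicalSpace X] (f : C(CSph d, X)) (y : X)
    (H : ContinuousMap.Homotopy f (ContinuousMap.const _ y)) :
    ∃ F : C((Fin d → ℝ), X), ∀ x : CSph d, F (x : Fin d → ℝ) = f x := by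
  classical
  let G : {x : Fin d → ℝ // 1 / 2 ≤ ‖x‖} → X := fun x => H (tm (x : Fin d → ℝ), rad x)
  have hG : Continuous G := H.continuous.comp
    ((continuous_tm.comp continuous_subtype_val).prodMk continuous_rad)
  let F : (Fin d → ℝ) → X := fun x => if h : 1 / 2 ≤ ‖x‖ then G ⟨x, h⟩ else y
  have hA : ContinuousOn F {x | 1 / 2 ≤ ‖x‖} := by
    rw [continuousOn_iff_continuous_domRestrict]
    have h : ({x : Fin d → ℝ | 1 / 2 ≤ ‖x‖}).domRestrict F = G := by
      funext x
      exact dif_pos x.2
    rw [h]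
    exact hG
  have hB : ContinuousOn F {x | ‖x‖ ≤ 1 / 2} := by
    refine (continuousOn_const (c := y)).congr ?_
    intro x hx
    by_cases h : 1 / 2 ≤ ‖x‖
    · have h1 : ‖x‖ = 1 / 2 := le_antisymm hx h
      have h2 : tm x = 1 := by
        unfold tm
        rw [h1]
        exact Set.projIcc_of_right_le _ (by norm_num)
      change (if h : 1 / 2 ≤ ‖x‖ then G ⟨x, h⟩ else y) = y
      rw [dif_pos h]
      change H (tm x, rad ⟨x, h⟩) = y
      rw [h2]
      exact H.apply_one _
    · exact dif_neg h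
  have hF : Continuous F := by
    rw [← continuousOn_univ]
    have h := hA.union_of_isClosed hB (isClosed_le continuous_const continuous_norm)
      (isClosed_le continuous_norm continuous_const)
    refine h.mono ?_
    intro x _
    exact le_total (1 / 2) ‖x‖
  refine ⟨⟨F, hF⟩, ?_⟩
  intro x
  have hx : ‖(x : Fin d → ℝ)‖ = 1 := mem_sphere_zero_iff_norm.1 x.2
  have h : 1 / 2 ≤ ‖(x : Fin d → ℝ)‖ := by
    rw [hx]
    norm_num
  change (if h : 1 / 2 ≤ ‖(x : Fin d → ℝ)‖ then G ⟨x, h⟩ else y) = f x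
  rw [dif_pos h]
  change H (tm (x : Fin d → ℝ), rad ⟨x, h⟩) = f x
  have h1 : tm (x : Fin d → ℝ) = 0 := by
    unfold tm
    rw [hx]
    exact Set.projIcc_of_le_left _ (by norm_num)
  have h2 : rad ⟨(x : Fin d → ℝ), h⟩ = x := by
    apply Subtype.ext
    change ‖(x : Fin d → ℝ)‖⁻¹ • (x : Fin d → ℝ) = x
    rw [hx, inv_one, one_smul]
  rw [h1, h2]
  exact H.apply_zero _

/-- the homotopy given by an extension -/
lemma null {d : ℕ} {X : Type} [TopologicalSpace X] (f : C(CSph d, X)) (F : C((Fin d → ℝ), X))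
    (hF : ∀ x : CSph d, F (x : Fin d → ℝ) = f x) :
    ∃ y : X, f.Homotopic (ContinuousMap.const _ y) := by
  refine ⟨F 0, ⟨{
    toFun := fun p => F ((1 - (p.1 : ℝ)) • (p.2 : Fin d → ℝ))
    continuous_toFun := ?_
    map_zero_left := ?_
    map_one_left := ?_ }⟩⟩
  · refine F.continuous.comp ?_
    exact (continuous_const.sub (continuous_subtype_val.comp continuous_fst)).smul
      (continuous_subtype_val.comp continuous_snd)
  · intro x
    simp [hF]
  · intro x
    simp

end NEM

/-- extension and null-homotopy -/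
theorem pNE : TNE := by
  intro d X _
  constructor
  · intro h f
    obtain ⟨y, ⟨H⟩⟩ := h f
    exact NEM.extend f y H
  · intro h f
    obtain ⟨F, hF⟩ := h f
    exact NEM.null f F hF

end Pool.Agent.MPaafd8a.A2
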