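import Pool.Agent.Lib.MP_aafd8a_gt_A2.Spec

/-!
# MP_aafd8a_gt, disproof for `n = 3`, block (A-ii): factorization through the nerve
-/

set_option autoImplicit false
set_option linter.unusedSectionVars false

open Topology RealInnerProductSpace Quaternion

namespace Pool.Agent.MPaafd8a.A2

namespace NerPf

/-- The normed algebra `ℍ × ℍ`. -/
abbrev W : Type := ℍ[ℝ] × ℍ[ℝ]

/-- The inclusion of `S3 × S3`. -/
def em (e : EE) : W := ((e.1 : ℍ[ℝ]), (e.2 : ℍ[ℝ]))

theorem em_mul (a b : EE) : em (a * b) = em a * em b := rfl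

theorem em_one : em 1 = 1 := rfl

theorem continuous_em : Continuous em :=
  (continuous_subtype_val.comp continuous_fst).prodMk (continuous_subtype_val.comp continuous_snd)

theorem dist_em (a b : EE) : dist a b = ‖em a - em b‖ := by
  rw [Prod.dist_eq, Prod.norm_def, Subtype.dist_eq, Subtype.dist_eq, dist_eq_norm, dist_eq_norm]
  rfl

theorem s3_norm (a : S3) : ‖(a : ℍ[ℝ])‖ = 1 := mem_sphere_zero_iff_norm.1 a.2

theorem norm_em_mul (a : EE) (w : W) : ‖em a * w‖ = ‖w‖ := by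
  rw [Prod.norm_def, Prod.norm_def]
  have h1 : ‖(em a * w).1‖ = ‖w.1‖ := by
    change ‖(a.1 : ℍ[ℝ]) * w.1‖ = _
    rw [norm_mul, s3_norm, one_mul]
  have h2 : ‖(em a * w).2‖ = ‖w.2‖ := by
    change ‖(a.2 : ℍ[ℝ]) * w.2‖ = _
    rw [norm_mul, s3_norm, one_mul]
  rw [h1, h2]

theorem norm_mul_em (a : EE) (w : W) : ‖w * em a‖ = ‖w‖ := by
  rw [Prod.norm_def, Prod.norm_def]
  have h1 : ‖(w * em a).1‖ = ‖w.1‖ := by
    change ‖w.1 * (a.1 : ℍ[ℝ])‖ = _
    rw [norm_mul, s3_norm, mul_one]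
  have h2 : ‖(w * em a).2‖ = ‖w.2‖ := by
    change ‖w.2 * (a.2 : ℍ[ℝ])‖ = _
    rw [norm_mul, s3_norm, mul_one]
  rw [h1, h2]

/-- Normalization of a quaternion. -/
noncomputable def n1 (x : ℍ[ℝ]) : S3 := by
  classical
  exact if h : x = 0 then 1 else ⟨(‖x‖⁻¹ : ℝ) • x, by
    rw [mem_sphere_zero_iff_norm, norm_smul, norm_inv, norm_norm]
    exact inv_mul_cancel₀ (norm_ne_zero_iff.2 h)⟩

theorem n1_coe {x : ℍ[ℝ]} (h : x ≠ 0) : ((n1 x : S3) : ℍ[ℝ]) = (‖x‖⁻¹ : ℝ) • x := by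
  rw [n1, dif_neg h]

theorem n1_mul (a : S3) {x : ℍ[ℝ]} (h : x ≠ 0) : n1 ((a : ℍ[ℝ]) * x) = a * n1 x := by
  have ha : (a : ℍ[ℝ]) ≠ 0 := by
    intro h0
    have := s3_norm a
    rw [h0, norm_zero] at this
    exact zero_ne_one this
  apply Subtype.ext
  rw [n1_coe (mul_ne_zero ha h), norm_mul, s3_norm, one_mul]
  change _ = (a : ℍ[ℝ]) * ((n1 x : S3) : ℍ[ℝ])
  rw [n1_coe h, mul_smul_comm]

theorem n1_self (a : S3) : n1 (a : ℍ[ℝ]) = a := by
  have ha : (a : ℍ[ℝ]) ≠ 0 := by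
    intro h0
    have := s3_norm a
    rw [h0, norm_zero] at this
    exact zero_ne_one this
  apply Subtype.ext
  rw [n1_coe ha, s3_norm, inv_one, one_smul]

theorem continuousAt_n1 {x : ℍ[ℝ]} (h : x ≠ 0) : ContinuousAt n1 x := by
  rw [Topology.IsInducing.subtypeVal.continuousAt_iff]
  have h1 : ContinuousAt (fun z : ℍ[ℝ] => (‖z‖⁻¹ : ℝ) • z) x :=
    (continuous_norm.continuousAt.inv₀ (norm_ne_zero_iff.2 h)).smul continuousAt_id
  refine h1.congr ?_
  filter_upwards [isOpen_ne.mem_nhds h] with z hz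
  exact (n1_coe hz).symm

/-- Normalization of both components. -/
noncomputable def nm (w : W) : EE := (n1 w.1, n1 w.2)

/-- Both components are nonzero. -/
def Gd (w : W) : Prop := w.1 ≠ 0 ∧ w.2 ≠ 0

theorem nm_mul (a : EE) {w : W} (h : Gd w) : nm (em a * w) = a * nm w :=
  Prod.ext (n1_mul a.1 h.1) (n1_mul a.2 h.2)

theorem nm_em (a : EE) : nm (em a) = a := Prod.ext (n1_self a.1) (n1_self a.2)

theorem continuousAt_nm {w : W} (h : Gd w) : ContinuousAt nm w :=
  ((continuousAt_n1 h.1).comp continuousAt_fst).prodMk ((continuousAt_n1 h.2).comp continuousAt_snd)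

theorem gd_of_lt {w : W} {e : EE} (h : ‖w - em e‖ < 1) : Gd w := by
  constructor
  · intro h0
    have h1 : ‖(w - em e).1‖ ≤ ‖w - em e‖ := norm_fst_le _
    have h2 : (w - em e).1 = -(e.1 : ℍ[ℝ]) := by
      change w.1 - (e.1 : ℍ[ℝ]) = _
      rw [h0, zero_sub]
    rw [h2, norm_neg, s3_norm] at h1
    exact absurd h (not_lt.2 h1)
  · intro h0
    have h1 : ‖(w - em e).2‖ ≤ ‖w - em e‖ := norm_snd_le _
    have h2 : (w - em e).2 = -(e.2 : ℍ[ℝ]) := by
      change w.2 - (e.2 : ℍ[ℝ]) = _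
      rw [h0, zero_sub]
    rw [h2, norm_neg, s3_norm] at h1
    exact absurd h (not_lt.2 h1)

/-- The combination of the points `γ b c (e c)`. -/
noncomputable def AA {B : Type} [Fintype B] (γ : B → B → EE) (e : B → EE) (b : B) (w : B → ℝ) : W :=
  ∑ c, w c • (em (γ b c) * em (e c))

theorem continuous_AA {B : Type} [Fintype B] (γ : B → B → EE) (e : B → EE) (b : B) : Continuous (AA γ e b) :=
  continuous_finsetSum _ (fun c _ => (continuous_apply c).smul continuous_const)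

section core

variable {U' B : Type} [TopologicalSpace U'] [Fintype B] {β : B → U' → ℝ} {e : B → EE} {y : B → U' → EE}
  {γ : B → B → EE} {r : ℝ}

theorem cocyc (htr : ∀ b c x, 0 < β b x → 0 < β c x → y b x = γ b c * y c x) {b c d : B} {x : U'}
    (hb : 0 < β b x) (hc : 0 < β c x) (hd : 0 < β d x) : γ b d = γ b c * γ c d := by
  have h1 := htr b c x hb hc
  rw [htr c d x hc hd, htr b d x hb hd, ← mul_assoc] at h1
  exact mul_right_cancel h1

theorem AA_near (hy2 : ∀ b x, 0 < β b x → ‖em (e b) - em (y b x)‖ < r)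
    (htr : ∀ b c x, 0 < β b x → 0 < β c x → y b x = γ b c * y c x) {w : B → ℝ} {x : U'} (hw0 : ∀ c, 0 ≤ w c)
    (hw1 : ∑ c, w c = 1) (hwx : ∀ c, 0 < w c → 0 < β c x) {b : B} (hb : 0 < β b x) :
    ‖AA γ e b w - em (e b)‖ ≤ 2 * r := by
  have h1 : AA γ e b w - em (e b) = ∑ c, w c • (em (γ b c) * em (e c) - em (e b)) := by
    simp only [smul_sub, Finset.sum_sub_distrib, ← Finset.sum_smul, hw1, one_smul]
    rfl
  rw [h1]
  refine (norm_sum_le _ _).trans ?_
  have h2 : ∀ c ∈ Finset.univ, ‖w c • (em (γ b c) * em (e c) - em (e b))‖ ≤ w c * (2 * r) := by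
    intro c _
    rw [norm_smul, Real.norm_of_nonneg (hw0 c)]
    rcases (hw0 c).eq_or_lt with h | h
    · rw [← h, zero_mul, zero_mul]
    · refine mul_le_mul_of_nonneg_left ?_ (hw0 c)
      have h3 := hy2 c x (hwx c h)
      have h4 := hy2 b x hb
      rw [← norm_em_mul (γ b c), mul_sub, ← em_mul (γ b c) (y c x), ← htr b c x hb (hwx c h)] at h3
      have h5 : em (γ b c) * em (e c) - em (e b)
          = (em (γ b c) * em (e c) - em (y b x)) - (em (e b) - em (y b x)) := by abel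
      rw [h5]
      exact (norm_sub_le _ _).trans (by linarith)
  refine (Finset.sum_le_sum h2).trans ?_
  rw [← Finset.sum_mul, hw1, one_mul]

theorem AA_coc (htr : ∀ b c x, 0 < β b x → 0 < β c x → y b x = γ b c * y c x) {w : B → ℝ} {x : U'}
    (hw0 : ∀ c, 0 ≤ w c) (hwx : ∀ c, 0 < w c → 0 < β c x) {b d : B} (hb : 0 < β b x) (hd : 0 < β d x) :
    AA γ e b w = em (γ b d) * AA γ e d w := by
  rw [AA, AA, Finset.mul_sum]
  refine Finset.sum_congr rfl (fun c _ => ?_)
  rcases (hw0 c).eq_or_lt with h | h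
  · rw [← h, zero_smul, zero_smul, mul_zero]
  · rw [mul_smul_comm, ← mul_assoc, ← em_mul (γ b d) (γ d c), ← cocyc htr hb hd (hwx c h)]

theorem body_spec {w : B → ℝ} (hw : w ∈ body (nrv β)) :
    (∀ c, 0 ≤ w c) ∧ ∑ c, w c = 1 ∧ ∃ x : U', ∀ c, 0 < w c → 0 < β c x := by
  classical
  obtain ⟨σ, hσ, hw0, hw1, hw2⟩ := hw
  refine ⟨hw0, hw1, ?_⟩
  unfold nrv at hσ
  obtain ⟨-, -, x, hx⟩ := Finset.mem_filter.1 hσ
  refine ⟨x, fun c hc => hx c ?_⟩
  by_contra hcs
  exact absurd (hw2 c hcs) (ne_of_gt hc)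

theorem exists_pos {w : B → ℝ} (hw0 : ∀ c, 0 ≤ w c) (hw1 : ∑ c, w c = 1) : ∃ c, 0 < w c := by
  by_contra h
  push Not at h
  have h1 : ∀ c ∈ Finset.univ, w c = 0 := fun c _ => le_antisymm (h c) (hw0 c)
  rw [Finset.sum_eq_zero h1] at hw1
  exact zero_ne_one hw1

theorem mem_body (h0 : ∀ b x, 0 ≤ β b x) (h1 : ∀ x, ∑ b, β b x = 1) (x : U') : (fun b => β b x) ∈ body (nrv β) := by
  classical
  refine ⟨Finset.univ.filter (fun b => 0 < β b x), ?_, fun b => h0 b x, h1 x, ?_⟩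
  · unfold nrv
    rw [Finset.mem_filter]
    refine ⟨Finset.mem_univ _, ?_, x, fun b hb => (Finset.mem_filter.1 hb).2⟩
    obtain ⟨b, hb⟩ := exists_pos (w := fun b => β b x) (fun b => h0 b x) (h1 x)
    exact ⟨b, Finset.mem_filter.2 ⟨Finset.mem_univ _, hb⟩⟩
  · intro b hb
    refine le_antisymm (not_lt.1 fun h => hb (Finset.mem_filter.2 ⟨Finset.mem_univ _, h⟩)) (h0 b x)

/-- The map on the nerve. -/
noncomputable def gp (γ : B → B → EE) (e : B → EE) (w : B → ℝ) : RSq := by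
  classical
  exact if h : ∃ b, 0 < w b then th (nm (AA γ e h.choose w)) else th 1

theorem core (β : B → U' → ℝ) (hc : ∀ b, Continuous (β b)) (h0 : ∀ b x, 0 ≤ β b x) (h1 : ∀ x, ∑ b, β b x = 1)
    (hth : Continuous th) (G : U' → RSq) (e : B → EE) (y : B → U' → EE) (γ : B → B → EE) (r : ℝ) (hr : 2 * r < 1)
    (hγ : ∀ b c u, th (γ b c * u) = th u) (hy1 : ∀ b x, 0 < β b x → th (y b x) = G x)
    (hy2 : ∀ b x, 0 < β b x → ‖em (e b) - em (y b x)‖ < r) (hyc : ∀ b x, 0 < β b x → ContinuousAt (y b) x)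
    (htr : ∀ b c x, 0 < β b x → 0 < β c x → y b x = γ b c * y c x) :
    ∃ (g' : (B → ℝ) → RSq) (H : C(unitInterval × U', RSq)), ContinuousOn g' (body (nrv β)) ∧
        (∀ x, H (0, x) = G x) ∧ ∀ x, H (1, x) = g' (fun b => β b x) := by
  classical
  have hgp : ∀ w ∈ body (nrv β), ∀ b, 0 < w b → gp γ e w = th (nm (AA γ e b w)) := by
    intro w hw b hb
    obtain ⟨hw0, hw1, x, hx⟩ := body_spec hw
    have hex : ∃ b, 0 < w b := ⟨b, hb⟩
    have hd := hex.choose_spec
    rw [gp, dif_pos hex]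
    have hgd : Gd (AA γ e b w) := gd_of_lt ((AA_near hy2 htr hw0 hw1 hx (hx b hb)).trans_lt hr)
    rw [AA_coc htr hw0 hx (hx _ hd) (hx b hb), nm_mul _ hgd, hγ]
  have hb : ∀ x, ∃ b, 0 < β b x := fun x => exists_pos (w := fun b => β b x) (fun b => h0 b x) (h1 x)
  choose bb hbb using hb
  -- the segment
  let M : B → unitInterval × U' → W := fun b p =>
    (1 - (p.1 : ℝ)) • em (y b p.2) + (p.1 : ℝ) • AA γ e b (fun c => β c p.2)
  have hMnear : ∀ b s x, 0 < β b x → Gd (M b (s, x)) := by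
    intro b s x hbx
    refine gd_of_lt (e := e b) (lt_of_le_of_lt ?_ hr)
    have e1 : M b (s, x) - em (e b) = (1 - (s : ℝ)) • (em (y b x) - em (e b))
        + (s : ℝ) • (AA γ e b (fun c => β c x) - em (e b)) := by
      change (1 - (s : ℝ)) • em (y b x) + (s : ℝ) • AA γ e b (fun c => β c x) - em (e b) = _
      rw [smul_sub, smul_sub, sub_smul, sub_smul]
      simp only [one_smul]
      abel
    have hs0 : 0 ≤ (s : ℝ) := s.2.1
    have hs1 : 0 ≤ 1 - (s : ℝ) := sub_nonneg.2 s.2.2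
    have e2 : ‖em (y b x) - em (e b)‖ ≤ 2 * r := by
      have h3 := hy2 b x hbx
      rw [norm_sub_rev]
      have := norm_nonneg (em (e b) - em (y b x))
      linarith
    have e3 := AA_near hy2 htr (w := fun c => β c x) (fun c => h0 c x) (h1 x) (fun c h => h) hbx
    rw [e1]
    refine (norm_add_le _ _).trans ?_
    rw [norm_smul, norm_smul, Real.norm_of_nonneg hs0, Real.norm_of_nonneg hs1]
    nlinarith [mul_le_mul_of_nonneg_left e2 hs1, mul_le_mul_of_nonneg_left e3 hs0]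
  have hMc : ∀ b c s x, 0 < β b x → 0 < β c x → th (nm (M b (s, x))) = th (nm (M c (s, x))) := by
    intro b c s x hbx hcx
    have e1 : M b (s, x) = em (γ b c) * M c (s, x) := by
      change (1 - (s : ℝ)) • em (y b x) + (s : ℝ) • AA γ e b (fun c => β c x)
        = em (γ b c) * ((1 - (s : ℝ)) • em (y c x) + (s : ℝ) • AA γ e c (fun c => β c x))
      rw [mul_add, mul_smul_comm, mul_smul_comm, ← em_mul, ← htr b c x hbx hcx,
        ← AA_coc htr (w := fun c => β c x) (fun c => h0 c x) (fun c h => h) hbx hcx]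
    rw [e1, nm_mul _ (hMnear c s x hcx), hγ]
  have hHc : Continuous (fun p : unitInterval × U' => th (nm (M (bb p.2) p))) := by
    rw [continuous_iff_continuousAt]
    rintro ⟨s, x⟩
    have hMcont : ContinuousAt (M (bb x)) (s, x) := by
      have hs : ContinuousAt (fun p : unitInterval × U' => (p.1 : ℝ)) (s, x) :=
        (continuous_subtype_val.comp continuous_fst).continuousAt
      have hyx : ContinuousAt (fun p : unitInterval × U' => em (y (bb x) p.2)) (s, x) :=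
        continuous_em.continuousAt.comp
          (ContinuousAt.comp (f := fun p : unitInterval × U' => p.2) (x := (s, x)) (hyc (bb x) x (hbb x))
            continuousAt_snd)
      have hA : ContinuousAt (fun p : unitInterval × U' => AA γ e (bb x) (fun c => β c p.2)) (s, x) :=
        ((continuous_AA γ e (bb x)).comp (continuous_pi fun c => (hc c).comp continuous_snd)).continuousAt
      exact ((continuousAt_const.sub hs).smul hyx).add (hs.smul hA)
    have h2 : ContinuousAt (fun p : unitInterval × U' => th (nm (M (bb x) p))) (s, x) :=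
      hth.continuousAt.comp (ContinuousAt.comp (continuousAt_nm (hMnear (bb x) s x (hbb x))) hMcont)
    refine h2.congr ?_
    have h3 : {p : unitInterval × U' | 0 < β (bb x) p.2} ∈ 𝓝 (s, x) :=
      (isOpen_lt continuous_const ((hc (bb x)).comp continuous_snd)).mem_nhds (hbb x)
    filter_upwards [h3] with p hp
    exact hMc (bb x) (bb p.2) p.1 p.2 hp (hbb p.2)
  refine ⟨gp γ e, ⟨_, hHc⟩, ?_, fun x => ?_, fun x => ?_⟩
  · intro w hw
    obtain ⟨hw0, hw1, x, hx⟩ := body_spec hw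
    obtain ⟨b, hb⟩ := exists_pos hw0 hw1
    have hgd : Gd (AA γ e b w) := gd_of_lt ((AA_near hy2 htr hw0 hw1 hx (hx b hb)).trans_lt hr)
    have h2 : ContinuousAt (fun w => th (nm (AA γ e b w))) w :=
      hth.continuousAt.comp (ContinuousAt.comp (continuousAt_nm hgd) (continuous_AA γ e b).continuousAt)
    refine h2.continuousWithinAt.congr_of_eventuallyEq ?_ (hgp w hw b hb)
    have h3 : {v : B → ℝ | 0 < v b} ∈ 𝓝 w := (isOpen_lt continuous_const (continuous_apply b)).mem_nhds hb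
    filter_upwards [mem_nhdsWithin_of_mem_nhds h3, self_mem_nhdsWithin] with v hv hvb
    exact hgp v hvb b hv
  · change th (nm ((1 - ((0 : unitInterval) : ℝ)) • em (y (bb x) x)
      + ((0 : unitInterval) : ℝ) • AA γ e (bb x) (fun c => β c x))) = G x
    rw [Set.Icc.coe_zero, sub_zero, one_smul, zero_smul, add_zero, nm_em]
    exact hy1 _ _ (hbb x)
  · change th (nm ((1 - ((1 : unitInterval) : ℝ)) • em (y (bb x) x)
      + ((1 : unitInterval) : ℝ) • AA γ e (bb x) (fun c => β c x))) = _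
    rw [Set.Icc.coe_one, sub_self, one_smul, zero_smul, zero_add]
    exact (hgp _ (mem_body h0 h1 x) (bb x) (hbb x)).symm

end core

end NerPf

open NerPf in
theorem pNer (hC : TCov) (hL : TLoc) : TNer := by
  classical
  intro U _ _ g
  obtain ⟨O, hO, hO1⟩ := hC.disjoint (1 : EE)
  obtain ⟨r₀, hr₀, hball⟩ := Metric.mem_nhds_iff.1 hO
  have hdis : ∀ γ ∈ Gm, dist γ (1 : EE) < r₀ → γ = 1 := by
    intro γ hγ hd
    have h := hO1 ⟨γ, hγ⟩ ⟨γ, ⟨1, mem_of_mem_nhds hO, mul_one γ⟩, hball hd⟩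
    exact congrArg Subtype.val h
  have hsm : ∀ γ ∈ Gm, ∀ u, th (γ * u) = th u := fun γ hγ u => hC.map_smul (⟨γ, hγ⟩ : Gm) (e := u)
  have hor : ∀ u v, th u = th v → ∃ γ ∈ Gm, u = γ * v := by
    intro u v h
    obtain ⟨⟨γ, hγ⟩, h1⟩ := hC.apply_eq_iff_mem_orbit.1 h
    exact ⟨γ, hγ, h1.symm⟩
  obtain ⟨r, hr, hr1, hr2⟩ : ∃ r : ℝ, 0 < r ∧ 4 * r < r₀ ∧ 2 * r < 1 := by
    refine ⟨min (r₀ / 8) (1 / 8), lt_min (by linarith) (by norm_num), ?_, ?_⟩
    · have := min_le_left (r₀ / 8) (1 / 8)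
      linarith
    · have := min_le_right (r₀ / 8) (1 / 8)
      linarith
  have hth : Continuous th := hC.toIsQuotientMap.continuous
  have hop : IsOpenMap th := hC.isOpenQuotientMap.isOpenMap
  obtain ⟨η, hη, hηL⟩ := hL U g r hr
  refine ⟨η, hη, ?_⟩
  intro U' _ ι B _ β hc h0 h1 hd
  have key : ∀ γ ∈ Gm, ∀ γ' ∈ Gm, ∀ u : EE, ‖em (γ * u) - em (γ' * u)‖ < r₀ → γ = γ' := by
    intro γ hγ γ' hγ' u h
    have h2 : dist (γ'⁻¹ * γ) 1 < r₀ := by
      have e1 : em γ' * em (γ'⁻¹ * γ) = em γ := by rw [← em_mul, mul_inv_cancel_left]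
      rw [dist_em, ← norm_em_mul γ', ← norm_mul_em u, mul_sub, sub_mul, e1, em_one, mul_one, ← em_mul, ← em_mul]
      exact h
    have h3 := hdis _ (Gm.mul_mem (Gm.inv_mem hγ') hγ) h2
    exact (inv_mul_eq_one.1 h3).symm
  have he : ∀ b, ∃ eb : EE, ∀ x, 0 < β b x → ∃ y : EE, th y = g (ι x) ∧ dist eb y < r := by
    intro b
    by_cases hb : ∃ x, 0 < β b x
    · obtain ⟨x₀, hx₀⟩ := hb
      obtain ⟨e₀, he₀⟩ := hC.surjective (g (ι x₀))
      exact ⟨e₀, fun x hx => hηL (ι x₀) (ι x) (hd b x₀ x hx₀ hx) e₀ he₀⟩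
    · exact ⟨1, fun x hx => absurd ⟨x, hx⟩ hb⟩
  choose e he using he
  have hy : ∀ b x, ∃ y : EE, 0 < β b x → th y = g (ι x) ∧ dist (e b) y < r := by
    intro b x
    by_cases hx : 0 < β b x
    · obtain ⟨y, hy⟩ := he b x hx
      exact ⟨y, fun _ => hy⟩
    · exact ⟨1, fun h => absurd h hx⟩
  choose y hy using hy
  have hun : ∀ (a u v : EE), th u = th v → dist a u < r → dist a v < r → u = v := by
    intro a u v h hu hv
    obtain ⟨γ, hγ, rfl⟩ := hor u v h
    have h2 : γ = 1 := by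
      refine key γ hγ 1 Gm.one_mem v ?_
      rw [one_mul, ← dist_em]
      have h3 := dist_triangle_left (γ * v) v a
      linarith
    rw [h2, one_mul]
  have hyc : ∀ b x, 0 < β b x → ContinuousAt (y b) x := by
    intro b x hx O hO
    rw [Filter.mem_map]
    have hV : interior O ∩ Metric.ball (e b) r ∈ 𝓝 (y b x) :=
      Filter.inter_mem (interior_mem_nhds.2 hO) (Metric.isOpen_ball.mem_nhds (by
        rw [Metric.mem_ball, dist_comm]
        exact (hy b x hx).2))
    have hW : th '' (interior O ∩ Metric.ball (e b) r) ∈ 𝓝 (g (ι x)) := by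
      rw [← (hy b x hx).1]
      exact hop.image_mem_nhds hV
    have hG : ContinuousAt (fun x => g (ι x)) x := (g.continuous.comp ι.continuous).continuousAt
    have h2 := hG.preimage_mem_nhds hW
    have h3 : {z | 0 < β b z} ∈ 𝓝 x := (isOpen_lt continuous_const (hc b)).mem_nhds hx
    filter_upwards [h2, h3] with z hz hz3
    obtain ⟨v, ⟨hv1, hv2⟩, hv3⟩ := hz
    rw [Metric.mem_ball, dist_comm] at hv2
    have h4 : y b z = v := hun (e b) _ _ ((hy b z hz3).1.trans hv3.symm) (hy b z hz3).2 hv2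
    change y b z ∈ O
    rw [h4]
    exact interior_subset hv1
  have hγ : ∀ b c, ∃ γ ∈ Gm, ∀ x, 0 < β b x → 0 < β c x → y b x = γ * y c x := by
    intro b c
    by_cases hbc : ∃ x, 0 < β b x ∧ 0 < β c x
    · obtain ⟨x₀, hb₀, hc₀⟩ := hbc
      obtain ⟨γ₀, hγ₀, h₀⟩ := hor (y b x₀) (y c x₀) ((hy b x₀ hb₀).1.trans (hy c x₀ hc₀).1.symm)
      refine ⟨γ₀, hγ₀, fun x hbx hcx => ?_⟩
      obtain ⟨γ', hγ', h'⟩ := hor (y b x) (y c x) ((hy b x hbx).1.trans (hy c x hcx).1.symm)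
      have h5 : γ' = γ₀ := by
        refine key γ' hγ' γ₀ hγ₀ (y c x₀) ?_
        have d1 : ‖em (γ' * y c x₀) - em (γ' * y c x)‖ < 2 * r := by
          rw [em_mul, em_mul, ← mul_sub, norm_em_mul, ← dist_em]
          have h3 := dist_triangle_left (y c x₀) (y c x) (e c)
          have h6 := (hy c x₀ hc₀).2
          have h7 := (hy c x hcx).2
          linarith
        have d2 : ‖em (γ' * y c x) - em (γ₀ * y c x₀)‖ < 2 * r := by
          rw [← h', ← h₀, ← dist_em]
          have h3 := dist_triangle_left (y b x) (y b x₀) (e b)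
          have h6 := (hy b x₀ hb₀).2
          have h7 := (hy b x hbx).2
          linarith
        have d3 := norm_sub_le_norm_sub_add_norm_sub (em (γ' * y c x₀)) (em (γ' * y c x)) (em (γ₀ * y c x₀))
        linarith
      rw [h', h5]
    · exact ⟨1, Gm.one_mem, fun x hbx hcx => absurd ⟨x, hbx, hcx⟩ hbc⟩
  choose γ hγG hγ using hγ
  exact core β hc h0 h1 hth (fun x => g (ι x)) e y γ r hr2 (fun b c u => hsm _ (hγG b c) u)
    (fun b x hx => (hy b x hx).1) (fun b x hx => (dist_em (e b) (y b x)) ▸ (hy b x hx).2) hyc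
    (fun b c x hbx hcx => hγ b c x hbx hcx)

end Pool.Agent.MPaafd8a.A2
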