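import Pool.Agent.Lib.MP_aafd8a_gt_A2.Spec

/-!
# Lifting up to homotopy over a complex of dimension two
-/

set_option autoImplicit false

open Topology

namespace Pool.Agent.MPaafd8a.A2

namespace ObsAux

section geom

variable {B : Type} [Fintype B] [DecidableEq B]

/-- segment -/
private noncomputable def sg (b c : B) (t : unitInterval) : B → ℝ :=
  Pi.single b (1 - (t : ℝ)) + Pi.single c (t : ℝ)

/-- parametrization of the triangle -/
private noncomputable def chi (b c d : B) (x : unitInterval × unitInterval) : B → ℝ :=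
  Pi.single b (1 - (x.1 : ℝ)) + Pi.single c ((x.1 : ℝ) * (1 - x.2)) + Pi.single d ((x.1 : ℝ) * x.2)

private theorem smp_mono {σ τ : Finset B} (h : σ ⊆ τ) : smp σ ⊆ smp τ :=
  fun _ hw => ⟨hw.1, hw.2.1, fun b hb => hw.2.2 b fun h' => hb (h h')⟩

private theorem chi_mem (b c d : B) (x : unitInterval × unitInterval) :
    chi b c d x ∈ smp ({b, c, d} : Finset B) := by
  obtain ⟨s, t⟩ := x
  have hs0 := s.2.1
  have hs1 := s.2.2
  have ht0 := t.2.1
  have ht1 := t.2.2
  refine ⟨fun e => ?_, ?_, fun e he => ?_⟩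
  · simp only [chi, Pi.add_apply, Pi.single_apply]
    have h1 : 0 ≤ 1 - (s : ℝ) := by linarith
    have h2 : 0 ≤ (s : ℝ) * (1 - t) := mul_nonneg hs0 (by linarith)
    have h3 : 0 ≤ (s : ℝ) * t := mul_nonneg hs0 ht0
    split_ifs <;> linarith
  · simp only [chi, Pi.add_apply, Finset.sum_add_distrib, Finset.sum_pi_single', Finset.mem_univ,
      if_true]
    ring
  · simp only [Finset.mem_insert, Finset.mem_singleton, not_or] at he
    simp [chi, Pi.single_apply, he.1, he.2.1, he.2.2]

private theorem sg_mem (b c : B) (t : unitInterval) : sg b c t ∈ smp ({b, c} : Finset B) := by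
  have ht0 := t.2.1
  have ht1 := t.2.2
  refine ⟨fun e => ?_, ?_, fun e he => ?_⟩
  · simp only [sg, Pi.add_apply, Pi.single_apply]
    split_ifs <;> linarith
  · simp only [sg, Pi.add_apply, Finset.sum_add_distrib, Finset.sum_pi_single', Finset.mem_univ,
      if_true]
    ring
  · simp only [Finset.mem_insert, Finset.mem_singleton, not_or] at he
    simp [sg, Pi.single_apply, he.1, he.2]

private theorem ev_mem (b : B) : (Pi.single b 1 : B → ℝ) ∈ smp ({b} : Finset B) := by
  refine ⟨fun e => ?_, ?_, fun e he => ?_⟩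
  · simp only [Pi.single_apply]
    split_ifs <;> norm_num
  · simp
  · rw [Finset.mem_singleton] at he
    simp [Pi.single_apply, he]

private theorem smp_one {b : B} {w : B → ℝ} (hw : w ∈ smp ({b} : Finset B)) :
    w = Pi.single b 1 := by
  obtain ⟨h1, h2, h3⟩ := hw
  have h4 : w = Pi.single b (w b) := by
    funext e
    by_cases h : e = b
    · rw [h]; simp
    · rw [h3 e (by simpa using h)]; simp [Pi.single_apply, h]
  have h5 : ∑ e, (Pi.single b (w b) : B → ℝ) e = 1 := by rw [← h4]; exact h2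
  rw [Finset.sum_pi_single', if_pos (Finset.mem_univ _)] at h5
  rw [h5] at h4
  exact h4

private theorem smp_two {b c : B} (hbc : b ≠ c) {w : B → ℝ} (hw : w ∈ smp ({b, c} : Finset B)) :
    ∃ t : unitInterval, (t : ℝ) = w c ∧ w = sg b c t := by
  obtain ⟨h1, h2, h3⟩ := hw
  have h4 : w = Pi.single b (w b) + Pi.single c (w c) := by
    funext e
    by_cases h : e = b
    · rw [h]; simp [Pi.single_apply, hbc]
    · by_cases h' : e = c
      · rw [h']; simp [Pi.single_apply, hbc.symm]
      · rw [h3 e (by simp [h, h'])]; simp [Pi.single_apply, h, h']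
  have h5 : ∑ e, (Pi.single b (w b) + Pi.single c (w c) : B → ℝ) e = 1 := by rw [← h4]; exact h2
  simp only [Pi.add_apply, Finset.sum_add_distrib, Finset.sum_pi_single', Finset.mem_univ,
    if_true] at h5
  have h6 := h1 b
  have h7 := h1 c
  refine ⟨⟨w c, h7, by linarith⟩, rfl, ?_⟩
  have h8 : w b = 1 - w c := by linarith
  rw [h8] at h4
  exact h4

private theorem smp_three {b c d : B} (hbc : b ≠ c) (hbd : b ≠ d) (hcd : c ≠ d) {w : B → ℝ}
    (hw : w ∈ smp ({b, c, d} : Finset B)) : ∃ x, chi b c d x = w := by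
  obtain ⟨h1, h2, h3⟩ := hw
  have h4 : w = Pi.single b (w b) + Pi.single c (w c) + Pi.single d (w d) := by
    funext e
    by_cases h : e = b
    · rw [h]; simp [Pi.single_apply, hbc, hbd]
    · by_cases h' : e = c
      · rw [h']; simp [Pi.single_apply, hbc.symm, hcd]
      · by_cases h'' : e = d
        · rw [h'']; simp [Pi.single_apply, hbd.symm, hcd.symm]
        · rw [h3 e (by simp [h, h', h''])]; simp [Pi.single_apply, h, h', h'']
  have h5 : ∑ e, (Pi.single b (w b) + Pi.single c (w c) + Pi.single d (w d) : B → ℝ) e = 1 := by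
    rw [← h4]; exact h2
  simp only [Pi.add_apply, Finset.sum_add_distrib, Finset.sum_pi_single', Finset.mem_univ,
    if_true] at h5
  have h6 := h1 b
  have h7 := h1 c
  have h8 := h1 d
  by_cases hs : w b = 1
  · refine ⟨(0, 0), ?_⟩
    have e1 : w c = 0 := by linarith
    have e2 : w d = 0 := by linarith
    rw [hs, e1, e2] at h4
    rw [h4]
    simp [chi]
  · have hs' : 0 < 1 - w b := lt_of_le_of_ne (by linarith) (fun h => hs (by linarith))
    refine ⟨(⟨1 - w b, hs'.le, by linarith⟩, ⟨w d / (1 - w b), div_nonneg h8 hs'.le, ?_⟩), ?_⟩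
    · rw [div_le_one hs']
      linarith
    · have e1 : 1 - (1 - w b) = w b := by ring
      have e2 : (1 - w b) * (1 - w d / (1 - w b)) = w c := by
        rw [mul_sub, mul_div_cancel₀ _ hs'.ne']
        linarith
      have e3 : (1 - w b) * (w d / (1 - w b)) = w d := mul_div_cancel₀ _ hs'.ne'
      simp only [chi, e1, e2, e3]
      exact h4.symm

private theorem single_cont {T : Type} [TopologicalSpace T] (b : B) (u : T → ℝ) (hu : Continuous u) :
    Continuous fun x => (Pi.single b (u x) : B → ℝ) := by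
  refine continuous_pi fun e => ?_
  simp only [Pi.single_apply]
  split_ifs
  · exact hu
  · exact continuous_const

private theorem sg_cont (b c : B) : Continuous (sg b c) :=
  (single_cont b _ (by fun_prop)).add (single_cont c _ (by fun_prop))

private theorem chi_cont (b c d : B) : Continuous (chi b c d) :=
  ((single_cont b _ (by fun_prop)).add (single_cont c _ (by fun_prop))).add
    (single_cont d _ (by fun_prop))

private theorem sg_zero (b c : B) : sg b c 0 = Pi.single b 1 := by
  simp [sg]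

private theorem sg_one (b c : B) : sg b c 1 = Pi.single c 1 := by
  simp [sg]

private theorem chi_a (b c d : B) (t : unitInterval) : chi b c d (t, 0) = sg b c t := by
  simp [sg, chi]

private theorem chi_b (b c d : B) (t : unitInterval) : chi b c d (t, 1) = sg b d t := by
  simp [sg, chi]

private theorem chi_c (b c d : B) (t : unitInterval) : chi b c d (1, t) = sg c d t := by
  simp [sg, chi]

private theorem chi_d (b c d : B) (t : unitInterval) : chi b c d (0, t) = Pi.single b 1 := by
  simp [chi]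

private theorem sg_zero_at {b c d : B} (h1 : d ≠ b) (h2 : d ≠ c) (t : unitInterval) :
    sg b c t d = 0 := by
  simp [sg, Pi.single_apply, h1, h2]

private theorem bds_two {b c : B} (hbc : b ≠ c) {w : B → ℝ} (hw : w ∈ bds ({b, c} : Finset B)) :
    w = Pi.single b 1 ∨ w = Pi.single c 1 := by
  obtain ⟨hw1, e, he, h0⟩ := hw
  obtain ⟨t, ht, hwt⟩ := smp_two hbc hw1
  rw [Finset.mem_insert, Finset.mem_singleton] at he
  rcases he with rfl | rfl
  · right
    rw [hwt] at h0
    have h1 : (1 - (t : ℝ)) = 0 := by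
      simpa [sg, Pi.single_apply, hbc] using h0
    have h2 : t = 1 := Subtype.ext (by
      change (t : ℝ) = 1
      linarith)
    rw [hwt, h2, sg_one]
  · left
    have h2 : t = 0 := Subtype.ext (by
      change (t : ℝ) = 0
      rw [ht, h0])
    rw [hwt, h2, sg_zero]

private theorem bds_three {b c d : B} (hbc : b ≠ c) (hbd : b ≠ d) (hcd : c ≠ d) {w : B → ℝ}
    (hw : w ∈ bds ({b, c, d} : Finset B)) :
    (∃ t, w = sg b c t) ∨ (∃ t, w = sg b d t) ∨ ∃ t, w = sg c d t := by
  obtain ⟨⟨h1, h2, h3⟩, e, he, h0⟩ := hw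
  have key : ∀ σ : Finset B, (∀ x, x ∉ σ → x = e ∨ x ∉ ({b, c, d} : Finset B)) → w ∈ smp σ := by
    intro σ hσ
    refine ⟨h1, h2, fun x hx => ?_⟩
    rcases hσ x hx with rfl | h
    · exact h0
    · exact h3 x h
  simp only [Finset.mem_insert, Finset.mem_singleton] at he
  rcases he with rfl | rfl | rfl
  · right; right
    obtain ⟨t, -, ht⟩ := smp_two hcd (key {c, d} fun x hx => by
      simp only [Finset.mem_insert, Finset.mem_singleton, not_or] at hx ⊢
      tauto)
    exact ⟨t, ht⟩
  · right; left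
    obtain ⟨t, -, ht⟩ := smp_two hbd (key {b, d} fun x hx => by
      simp only [Finset.mem_insert, Finset.mem_singleton, not_or] at hx ⊢
      tauto)
    exact ⟨t, ht⟩
  · left
    obtain ⟨t, -, ht⟩ := smp_two hbc (key {b, c} fun x hx => by
      simp only [Finset.mem_insert, Finset.mem_singleton, not_or] at hx ⊢
      tauto)
    exact ⟨t, ht⟩

private theorem bds_one {b : B} {w : B → ℝ} (hw : w ∈ bds ({b} : Finset B)) : False := by
  obtain ⟨hw1, e, he, h0⟩ := hw
  rw [Finset.mem_singleton] at he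
  rw [smp_one hw1, he] at h0
  simp at h0

end geom

/-! ### Groupoid computations -/

section grp

variable {X : Type} [TopologicalSpace X]

open Path.Homotopic in
/-- the class of a loop -/
private noncomputable def clq {x0 x y : X} (u : Path x0 x) (v : Path x y) (w : Path x0 y) :
    FundamentalGroup X x0 :=
  FundamentalGroup.fromPath (Path.Homotopic.Quotient.mk ((u.trans v).trans w.symm))

private theorem quot1 {x0 x y : X} (q : Path x0 x0) (u : Path x0 x) (v : Path x y) (w : Path x0 y)
    (h : FundamentalGroup.fromPath (Path.Homotopic.Quotient.mk q) = clq u v w) :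
    (q.trans w).Homotopic (u.trans v) := by
  apply Path.Homotopic.Quotient.exact
  have h' : Path.Homotopic.Quotient.mk q =
      Path.Homotopic.Quotient.mk ((u.trans v).trans w.symm) := h
  rw [Path.Homotopic.Quotient.mk_trans, h', Path.Homotopic.Quotient.mk_trans,
    Path.Homotopic.Quotient.mk_symm, Path.Homotopic.Quotient.trans_assoc,
    Path.Homotopic.Quotient.symm_trans, Path.Homotopic.Quotient.trans_refl]

private theorem quot2 {x0 x y z : X} (u : Path x0 x) (v1 : Path x y) (w : Path x0 y) (v2 : Path y z)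
    (v3 : Path x z) (r : Path x0 z) (h : (v1.trans v2).Homotopic ((Path.refl x).trans v3)) :
    clq w v2 r * clq u v1 w = clq u v3 r := by
  have h1 : Path.Homotopic.Quotient.mk (v1.trans v2) =
      Path.Homotopic.Quotient.mk ((Path.refl x).trans v3) := Path.Homotopic.Quotient.eq.2 h
  rw [Path.Homotopic.Quotient.mk_trans, Path.Homotopic.Quotient.mk_trans,
    Path.Homotopic.Quotient.mk_refl, Path.Homotopic.Quotient.refl_trans] at h1
  change (Path.Homotopic.Quotient.mk ((u.trans v1).trans w.symm)).trans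
    (Path.Homotopic.Quotient.mk ((w.trans v2).trans r.symm)) =
    Path.Homotopic.Quotient.mk ((u.trans v3).trans r.symm)
  simp only [Path.Homotopic.Quotient.mk_trans, Path.Homotopic.Quotient.mk_symm,
    Path.Homotopic.Quotient.trans_assoc]
  congr 1
  rw [← h1, Path.Homotopic.Quotient.trans_assoc]
  congr 1
  rw [← Path.Homotopic.Quotient.trans_assoc, Path.Homotopic.Quotient.symm_trans,
    Path.Homotopic.Quotient.refl_trans]

end grp

section steps

variable {A X B : Type} [TopologicalSpace A] [TopologicalSpace X] [Fintype B] [DecidableEq B]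
  (p : C(A, X)) (a : A) (s : FundamentalGroup X (p a) →* FundamentalGroup A a)
  (𝒞 : Finset (Finset B)) (g : (B → ℝ) → X) (r : B → ℕ)
  (lam : ∀ b : B, Path (p a) (g (Pi.single b 1)))
  (gam : ∀ b c : B, Path (g (Pi.single b 1)) (g (Pi.single c 1)))

/-- the conditions on the lift on a simplex -/
private def PP (σ : Finset B) (f : (B → ℝ) → A × C(unitInterval, X)) : Prop :=
  σ ∈ 𝒞 → (∀ w ∈ smp σ, (f w).2 0 = p (f w).1 ∧ (f w).2 1 = g w) ∧
    (∀ b, σ = {b} → f (Pi.single b 1) = (a, (lam b).toContinuousMap)) ∧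
    ∀ b c, r b < r c → σ = {b, c} → ∃ q : Path a a, (∀ t, q t = (f (sg b c t)).1) ∧
      FundamentalGroup.fromPath (Path.Homotopic.Quotient.mk q) = s (clq (lam b) (gam b c) (lam c))

private theorem PP_congr (σ : Finset B) (f f' : (B → ℝ) → A × C(unitInterval, X))
    (h : PP p a s 𝒞 g r lam gam σ f) (he : Set.EqOn f f' (smp σ)) :
    PP p a s 𝒞 g r lam gam σ f' := by
  intro hσ
  obtain ⟨h1, h2, h3⟩ := h hσ
  refine ⟨fun w hw => ?_, fun b hb => ?_, fun b c hbc hb => ?_⟩
  · rw [← he hw]; exact h1 w hw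
  · rw [← he (by rw [hb]; exact ev_mem b)]; exact h2 b hb
  · obtain ⟨q, hq1, hq2⟩ := h3 b c hbc hb
    exact ⟨q, fun t => by rw [← he (by rw [hb]; exact sg_mem b c t)]; exact hq1 t, hq2⟩

private theorem pair_ne {b c : B} (h : r b < r c) : b ≠ c := by
  rintro rfl
  exact lt_irrefl _ h

private theorem step1 (b : B) (f : (B → ℝ) → A × C(unitInterval, X)) :
    ∃ f' : (B → ℝ) → A × C(unitInterval, X), ContinuousOn f' (smp ({b} : Finset B)) ∧
      Set.EqOn f' f (bds {b}) ∧ PP p a s 𝒞 g r lam gam {b} f' := by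
  refine ⟨fun _ => (a, (lam b).toContinuousMap), continuousOn_const,
    fun w hw => (bds_one hw).elim, fun _ => ⟨fun w hw => ⟨(lam b).source, ?_⟩, fun b' hb' => ?_,
      fun b' c' hbc h => ?_⟩⟩
  · rw [smp_one hw]
    exact (lam b).target
  · rw [Finset.singleton_inj] at hb'
    subst hb'
    rfl
  · have h1 := congrArg Finset.card h
    rw [Finset.card_singleton, Finset.card_pair (pair_ne r hbc)] at h1
    omega

private theorem step2 (hSq2 : TSq2) (hs : ∀ c, FundamentalGroup.map p a (s c) = c) (b c : B)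
    (hbc : r b < r c) (hgam : ∀ t, gam b c t = g (sg b c t))
    (f : (B → ℝ) → A × C(unitInterval, X))
    (hb : f (Pi.single b 1) = (a, (lam b).toContinuousMap))
    (hc : f (Pi.single c 1) = (a, (lam c).toContinuousMap)) :
    ∃ f' : (B → ℝ) → A × C(unitInterval, X), ContinuousOn f' (smp ({b, c} : Finset B)) ∧
      Set.EqOn f' f (bds {b, c}) ∧ PP p a s 𝒞 g r lam gam {b, c} f' := by
  have hne := pair_ne r hbc
  obtain ⟨q, hq⟩ := Path.Homotopic.Quotient.mk_surjective
    (s (clq (lam b) (gam b c) (lam c)) : Path.Homotopic.Quotient a a)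
  have h1 : FundamentalGroup.fromPath (Path.Homotopic.Quotient.mk (q.map p.continuous)) =
      clq (lam b) (gam b c) (lam c) := by
    calc FundamentalGroup.fromPath (Path.Homotopic.Quotient.mk (q.map p.continuous))
        = FundamentalGroup.map p a (FundamentalGroup.fromPath (Path.Homotopic.Quotient.mk q)) := rfl
      _ = FundamentalGroup.map p a (s (clq (lam b) (gam b c) (lam c))) := by rw [hq]
      _ = clq (lam b) (gam b c) (lam c) := hs _
  obtain ⟨Q, hQ0, hQ1, hQ2, hQ3⟩ := hSq2 X (p a) (p a) (g (Pi.single b 1)) (g (Pi.single c 1))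
    (q.map p.continuous) (lam c) (lam b) (gam b c) (quot1 _ _ _ _ h1)
  have hval : ∀ t : unitInterval,
      Set.projIcc (0 : ℝ) 1 zero_le_one (sg b c t c) = t := by
    intro t
    have h2 : sg b c t c = (t : ℝ) := by
      simp [sg, hne.symm]
    rw [h2]
    exact Set.projIcc_val _ t
  refine ⟨fun w => (q (Set.projIcc (0 : ℝ) 1 zero_le_one (w c)),
    Q.curry (Set.projIcc (0 : ℝ) 1 zero_le_one (w c))), ?_, ?_, fun _ => ⟨?_, ?_, ?_⟩⟩
  · apply Continuous.continuousOn
    have h2 : Continuous fun w : B → ℝ => Set.projIcc (0 : ℝ) 1 zero_le_one (w c) :=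
      continuous_projIcc.comp (continuous_apply c)
    exact (q.continuous.comp h2).prodMk (Q.curry.continuous.comp h2)
  · intro w hw
    rcases bds_two hne hw with h | h
    · have h2 := hval 0
      rw [sg_zero] at h2
      rw [h, hb]
      simp only [h2]
      exact Prod.ext q.source (ContinuousMap.ext fun t => hQ2 t)
    · have h2 := hval 1
      rw [sg_one] at h2
      rw [h, hc]
      simp only [h2]
      exact Prod.ext q.target (ContinuousMap.ext fun t => hQ1 t)
  · intro w hw
    obtain ⟨t, -, ht⟩ := smp_two hne hw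
    rw [ht]
    simp only [hval]
    refine ⟨hQ0 t, ?_⟩
    rw [← hgam]
    exact hQ3 t
  · intro b' hb'
    have h2 := congrArg Finset.card hb'
    rw [Finset.card_singleton, Finset.card_pair hne] at h2
    omega
  · intro b' c' hbc' he
    have hb' : b' ∈ ({b, c} : Finset B) := by rw [he]; simp
    have hc' : c' ∈ ({b, c} : Finset B) := by rw [he]; simp
    rw [Finset.mem_insert, Finset.mem_singleton] at hb' hc'
    rcases hb' with rfl | rfl <;> rcases hc' with rfl | rfl
    · exact absurd hbc' (lt_irrefl _)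
    · exact ⟨q, fun t => by simp only [hval], hq⟩
    · exact absurd hbc' (not_lt.2 hbc.le)
    · exact absurd hbc' (lt_irrefl _)

private theorem step3 (hSq1 : TSq1) (hQuo : TQuo) (hTri : TTri) (hExt : Ext 3 X) (b c d : B)
    (hbc : r b < r c) (hcd : r c < r d) (hg : ContinuousOn g (smp ({b, c, d} : Finset B)))
    (hg1 : ∀ t, gam b c t = g (sg b c t)) (hg2 : ∀ t, gam c d t = g (sg c d t))
    (hg3 : ∀ t, gam b d t = g (sg b d t)) (f : (B → ℝ) → A × C(unitInterval, X))
    (hf : ContinuousOn f (bds ({b, c, d} : Finset B))) (m1 : {b, c} ∈ 𝒞) (m2 : {c, d} ∈ 𝒞)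
    (m3 : {b, d} ∈ 𝒞) (p1 : PP p a s 𝒞 g r lam gam {b, c} f)
    (p2 : PP p a s 𝒞 g r lam gam {c, d} f) (p3 : PP p a s 𝒞 g r lam gam {b, d} f) :
    ∃ f' : (B → ℝ) → A × C(unitInterval, X), ContinuousOn f' (smp ({b, c, d} : Finset B)) ∧
      Set.EqOn f' f (bds {b, c, d}) ∧ PP p a s 𝒞 g r lam gam {b, c, d} f' := by
  have nbc := pair_ne r hbc
  have ncd := pair_ne r hcd
  have nbd := pair_ne r (hbc.trans hcd)
  obtain ⟨p1i, -, p1q⟩ := p1 m1
  obtain ⟨p2i, -, p2q⟩ := p2 m2
  obtain ⟨p3i, -, p3q⟩ := p3 m3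
  obtain ⟨q01, hq01, cq01⟩ := p1q b c hbc rfl
  obtain ⟨q12, hq12, cq12⟩ := p2q c d hcd rfl
  obtain ⟨q02, hq02, cq02⟩ := p3q b d (hbc.trans hcd) rfl
  let gg : C(unitInterval × unitInterval, X) :=
    ⟨fun x => g (chi b c d x), hg.comp_continuous (chi_cont b c d) (chi_mem b c d)⟩
  have mbc : ∀ t, sg b c t ∈ bds ({b, c, d} : Finset B) := fun t =>
    ⟨smp_mono (by intro x hx; simp only [Finset.mem_insert, Finset.mem_singleton] at hx ⊢; tauto)
      (sg_mem b c t), d, by simp, sg_zero_at nbd.symm ncd.symm t⟩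
  have mcd : ∀ t, sg c d t ∈ bds ({b, c, d} : Finset B) := fun t =>
    ⟨smp_mono (by intro x hx; simp only [Finset.mem_insert, Finset.mem_singleton] at hx ⊢; tauto)
      (sg_mem c d t), b, by simp, sg_zero_at nbc nbd t⟩
  have mbd : ∀ t, sg b d t ∈ bds ({b, c, d} : Finset B) := fun t =>
    ⟨smp_mono (by intro x hx; simp only [Finset.mem_insert, Finset.mem_singleton] at hx ⊢; tauto)
      (sg_mem b d t), c, by simp, sg_zero_at nbc.symm ncd t⟩
  let F01 : C(unitInterval, A × C(unitInterval, X)) :=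
    ⟨fun t => f (sg b c t), hf.comp_continuous (sg_cont b c) mbc⟩
  let F12 : C(unitInterval, A × C(unitInterval, X)) :=
    ⟨fun t => f (sg c d t), hf.comp_continuous (sg_cont c d) mcd⟩
  let F02 : C(unitInterval, A × C(unitInterval, X)) :=
    ⟨fun t => f (sg b d t), hf.comp_continuous (sg_cont b d) mbd⟩
  have e0 : ∀ t, gg (0, t) = g (Pi.single b 1) := fun t => congrArg g (chi_d b c d t)
  have e1 : ∀ t, gg (t, 0) = g (sg b c t) := fun t => congrArg g (chi_a b c d t)
  have e2 : ∀ t, gg (1, t) = g (sg c d t) := fun t => congrArg g (chi_c b c d t)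
  have e3 : ∀ t, gg (t, 1) = g (sg b d t) := fun t => congrArg g (chi_b b c d t)
  have hom1 : ((gam b c).trans (gam c d)).Homotopic ((Path.refl _).trans (gam b d)) :=
    hSq1 X gg (g (Pi.single b 1)) (g (Pi.single c 1)) (g (Pi.single b 1)) (g (Pi.single d 1))
      (gam b c) (gam c d) (Path.refl _) (gam b d) (fun t => by rw [e1, hg1])
      (fun t => by rw [e2, hg2]) (fun t => by rw [e0]; rfl) (fun t => by rw [e3, hg3])
  have hom2 : (q01.trans q12).Homotopic ((Path.refl a).trans q02) := by
    apply Path.Homotopic.Quotient.exact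
    rw [Path.Homotopic.Quotient.mk_trans, Path.Homotopic.Quotient.mk_trans,
      Path.Homotopic.Quotient.mk_refl, Path.Homotopic.Quotient.refl_trans]
    have h1 : s (clq (lam c) (gam c d) (lam d)) * s (clq (lam b) (gam b c) (lam c)) =
        s (clq (lam b) (gam b d) (lam d)) := by
      rw [← map_mul, quot2 (lam b) (gam b c) (lam c) (gam c d) (gam b d) (lam d) hom1]
    rw [← cq01, ← cq12, ← cq02] at h1
    exact h1
  obtain ⟨F, hF0, hF1, hF2, hF3, hF4, hF5⟩ := hTri A X p a hExt F01 F12 F02 gg q01 q12 q02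
    (fun t => by rw [e0, e0]) hq01 hq12 hq02 hom2
    (by change f (sg b c 0) = f (sg b d 0); rw [sg_zero, sg_zero])
    (by change f (sg b c 1) = f (sg c d 0); rw [sg_one, sg_zero])
    (by change f (sg c d 1) = f (sg b d 1); rw [sg_one, sg_one])
    (fun t => (p1i _ (sg_mem b c t)).1) (fun t => (p2i _ (sg_mem c d t)).1)
    (fun t => (p3i _ (sg_mem b d t)).1)
    (fun t => by rw [e1]; exact (p1i _ (sg_mem b c t)).2)
    (fun t => by rw [e2]; exact (p2i _ (sg_mem c d t)).2)
    (fun t => by rw [e3]; exact (p3i _ (sg_mem b d t)).2)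
  obtain ⟨f', hf'c, hf'⟩ := hQuo B b c d nbc nbd ncd (A × C(unitInterval, X)) F
    (fun t => by rw [hF3, hF3])
  have hf'' : ∀ x : unitInterval × unitInterval, f' (chi b c d x) = F x := fun x => hf' x.1 x.2
  refine ⟨f', hf'c, ?_, fun _ => ⟨?_, ?_, ?_⟩⟩
  · intro w hw
    rcases bds_three nbc nbd ncd hw with ⟨t, ht⟩ | ⟨t, ht⟩ | ⟨t, ht⟩
    · rw [ht, ← chi_a b c d, hf'', hF0, chi_a]
      rfl
    · rw [ht, ← chi_b b c d, hf'', hF2, chi_b]
      rfl
    · rw [ht, ← chi_c b c d, hf'', hF1, chi_c]
      rfl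
  · intro w hw
    obtain ⟨x, hx⟩ := smp_three nbc nbd ncd hw
    rw [← hx, hf'']
    exact ⟨hF4 x, hF5 x⟩
  · intro b' hb'
    have h2 := congrArg Finset.card hb'
    rw [Finset.card_singleton, Finset.card_eq_three.2 ⟨b, c, d, nbc, nbd, ncd, rfl⟩] at h2
    omega
  · intro b' c' hbc' hb'
    have h2 := congrArg Finset.card hb'
    rw [Finset.card_pair (pair_ne r hbc'), Finset.card_eq_three.2 ⟨b, c, d, nbc, nbd, ncd, rfl⟩] at h2
    omega

end steps

end ObsAux

open ObsAux in
theorem pObs : TSq1 → TSq2 → TQuo → TGel → TTri → TObs := by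
  intro hSq1 hSq2 hQuo hGel hTri A X _ _ p a s hs hX hExt B _ 𝒞 hD h3 g hg
  classical
  obtain ⟨r, hr⟩ : ∃ r : B → ℕ, Function.Injective r :=
    ⟨fun b => (Fintype.equivFin B b : ℕ), fun b c h =>
      (Fintype.equivFin B).injective (Fin.ext h)⟩
  have hbody : ∀ σ ∈ 𝒞, smp σ ⊆ body 𝒞 := fun σ hσ w hw => ⟨σ, hσ, hw⟩
  have hlam : ∀ b : B, Nonempty (Path (p a) (g (Pi.single b 1))) := fun b => hX.joined _ _
  let lam : ∀ b : B, Path (p a) (g (Pi.single b 1)) := fun b => (hlam b).some
  have hgam : ∀ b c : B, ∃ γ : Path (g (Pi.single b 1)) (g (Pi.single c 1)),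
      {b, c} ∈ 𝒞 → ∀ t, γ t = g (sg b c t) := by
    intro b c
    by_cases h : {b, c} ∈ 𝒞
    · refine ⟨⟨⟨fun t => g (sg b c t), (hg.mono (hbody _ h)).comp_continuous (sg_cont b c)
        (sg_mem b c)⟩, ?_, ?_⟩, fun _ t => rfl⟩
      · exact congrArg g (sg_zero b c)
      · exact congrArg g (sg_one b c)
    · exact ⟨(hX.joined _ _).some, fun h' => absurd h' h⟩
  choose gam hgam using hgam
  have hne : Nonempty (A × C(unitInterval, X)) := ⟨(a, ContinuousMap.const _ (p a))⟩
  obtain ⟨F, hF1, hF2⟩ := hGel B 𝒞 (A × C(unitInterval, X)) (PP p a s 𝒞 g r lam gam) hD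
    (PP_congr p a s 𝒞 g r lam gam) (by
      intro σ hσ hσne f hf hP
      have hc3 := h3 σ hσ
      have hc0 := hσne.card_pos
      have hcases : σ.card = 1 ∨ σ.card = 2 ∨ σ.card = 3 := by omega
      rcases hcases with h1 | h2 | h3'
      · obtain ⟨b, rfl⟩ := Finset.card_eq_one.1 h1
        exact step1 p a s 𝒞 g r lam gam b f
      · have hsort : ∃ b c, r b < r c ∧ σ = {b, c} := by
          obtain ⟨x, y, hxy, hσ'⟩ := Finset.card_eq_two.1 h2
          rcases lt_trichotomy (r x) (r y) with h | h | h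
          · exact ⟨x, y, h, hσ'⟩
          · exact absurd (hr h) hxy
          · exact ⟨y, x, h, by rw [hσ', Finset.pair_comm]⟩
        obtain ⟨b, c, hbc, rfl⟩ := hsort
        have nbc := pair_ne r hbc
        have hb : {b} ∈ 𝒞 := hD _ hσ {b} (by simp) (by simp)
        have hc : {c} ∈ 𝒞 := hD _ hσ {c} (by simp) (by simp)
        have sb : ({b} : Finset B) ⊂ {b, c} := by
          refine Finset.ssubset_iff_subset_ne.2 ⟨by simp, fun h => ?_⟩
          have h4 := congrArg Finset.card h
          rw [Finset.card_singleton, Finset.card_pair nbc] at h4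
          omega
        have sc : ({c} : Finset B) ⊂ {b, c} := by
          refine Finset.ssubset_iff_subset_ne.2 ⟨by simp, fun h => ?_⟩
          have h4 := congrArg Finset.card h
          rw [Finset.card_singleton, Finset.card_pair nbc] at h4
          omega
        exact step2 p a s 𝒞 g r lam gam hSq2 hs b c hbc (hgam b c hσ) f
          ((hP {b} sb (by simp) hb).2.1 b rfl) ((hP {c} sc (by simp) hc).2.1 c rfl)
      · have hsort : ∃ b c d, r b < r c ∧ r c < r d ∧ σ = {b, c, d} := by
          obtain ⟨x, y, z, hxy, hxz, hyz, hσ'⟩ := Finset.card_eq_three.1 h3'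
          have nxy : r x ≠ r y := fun h => hxy (hr h)
          have nxz : r x ≠ r z := fun h => hxz (hr h)
          have nyz : r y ≠ r z := fun h => hyz (hr h)
          rcases lt_or_gt_of_ne nxy with h1 | h1 <;> rcases lt_or_gt_of_ne nxz with h2 | h2 <;>
            rcases lt_or_gt_of_ne nyz with h4 | h4
          · exact ⟨x, y, z, h1, h4, hσ'⟩
          · exact ⟨x, z, y, h2, h4, by rw [hσ']; ext; simp; tauto⟩
          · omega
          · exact ⟨z, x, y, h2, h1, by rw [hσ']; ext; simp; tauto⟩
          · exact ⟨y, x, z, h1, h2, by rw [hσ']; ext; simp; tauto⟩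
          · omega
          · exact ⟨y, z, x, h4, h2, by rw [hσ']; ext; simp; tauto⟩
          · exact ⟨z, y, x, h4, h1, by rw [hσ']; ext; simp; tauto⟩
        obtain ⟨b, c, d, hbc, hcd, rfl⟩ := hsort
        have nbc := pair_ne r hbc
        have ncd := pair_ne r hcd
        have nbd := pair_ne r (hbc.trans hcd)
        have sub1 : ({b, c} : Finset B) ⊆ {b, c, d} := by
          intro x hx; simp only [Finset.mem_insert, Finset.mem_singleton] at hx ⊢; tauto
        have sub2 : ({c, d} : Finset B) ⊆ {b, c, d} := by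
          intro x hx; simp only [Finset.mem_insert, Finset.mem_singleton] at hx ⊢; tauto
        have sub3 : ({b, d} : Finset B) ⊆ {b, c, d} := by
          intro x hx; simp only [Finset.mem_insert, Finset.mem_singleton] at hx ⊢; tauto
        have m1 : {b, c} ∈ 𝒞 := hD _ hσ _ sub1 (by simp)
        have m2 : {c, d} ∈ 𝒞 := hD _ hσ _ sub2 (by simp)
        have m3 : {b, d} ∈ 𝒞 := hD _ hσ _ sub3 (by simp)
        have s1 : ({b, c} : Finset B) ⊂ {b, c, d} := by
          refine Finset.ssubset_iff_subset_ne.2 ⟨sub1, fun h => ?_⟩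
          have h4 := congrArg Finset.card h
          rw [h3', Finset.card_pair nbc] at h4
          omega
        have s2 : ({c, d} : Finset B) ⊂ {b, c, d} := by
          refine Finset.ssubset_iff_subset_ne.2 ⟨sub2, fun h => ?_⟩
          have h4 := congrArg Finset.card h
          rw [h3', Finset.card_pair ncd] at h4
          omega
        have s3 : ({b, d} : Finset B) ⊂ {b, c, d} := by
          refine Finset.ssubset_iff_subset_ne.2 ⟨sub3, fun h => ?_⟩
          have h4 := congrArg Finset.card h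
          rw [h3', Finset.card_pair nbd] at h4
          omega
        exact step3 p a s 𝒞 g r lam gam hSq1 hQuo hTri hExt b c d hbc hcd (hg.mono (hbody _ hσ))
          (hgam b c m1) (hgam c d m2) (hgam b d m3) f hf m1 m2 m3 (hP _ s1 (by simp))
          (hP _ s2 (by simp)) (hP _ s3 (by simp)))
  have hpt : ∀ w ∈ body 𝒞, (F w).2 0 = p (F w).1 ∧ (F w).2 1 = g w := by
    rintro w ⟨σ, hσ, hw⟩
    have hσne : σ.Nonempty := by
      by_contra h
      rw [Finset.not_nonempty_iff_eq_empty] at h
      have h2 := hw.2.1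
      rw [Finset.sum_eq_zero fun b _ => hw.2.2 b (by rw [h]; simp)] at h2
      exact zero_ne_one h2
    exact (hF2 σ hσ hσne hσ).1 w hw
  refine ⟨fun w => (F w).1, fun x => (F x.2).2 x.1, continuous_fst.comp_continuousOn hF1, ?_, ?_⟩
  · have h1 : ContinuousOn (fun x : unitInterval × (B → ℝ) => F x.2) (Set.univ ×ˢ body 𝒞) :=
      hF1.comp continuous_snd.continuousOn fun x hx => hx.2
    have h2 : Continuous fun y : C(unitInterval, X) × unitInterval => y.1 y.2 :=
      ContinuousEval.continuous_eval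
    exact h2.comp_continuousOn ((continuous_snd.comp_continuousOn h1).prodMk
      continuous_fst.continuousOn)
  · intro w hw
    exact hpt w hw

end Pool.Agent.MPaafd8a.A2
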