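import Pool.Agent.Lib.MP_aafd8a_gt_A2.Spec

/-!
# MP_aafd8a_gt, block (A-ii), module Pi2: the second homotopy group of the space of regular simplices
-/

set_option autoImplicit false

open Topology RealInnerProductSpace Quaternion

namespace Pool.Agent.MPaafd8a.A2

open scoped unitInterval

/-- Componentwise multiplication of a point of the cube by a number. -/
private def scl {N : Type} (s : I) (z : N → I) : N → I := fun j => s * z j

private theorem scl_cont {N : Type} : Continuous (fun q : I × (N → I) => scl q.1 q.2) := by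
  refine continuous_pi fun j => ?_
  exact continuous_fst.mul ((continuous_apply j).comp continuous_snd)

/-- **Lifting of a generalized loop** of dimension two. -/
private theorem lift_loop {E X : Type} [TopologicalSpace E] [TopologicalSpace X] {p : E → X}
    (cov : IsCoveringMap p) (hs : Function.Surjective p) (x : X) (f : GenLoop (Fin 2) X x) :
    ∃ (e : E) (g : GenLoop (Fin 2) E e), p e = x ∧ ∀ z, p (g z) = f z := by
  obtain ⟨e₀, he₀⟩ := hs x
  -- the homotopy `f (s z)`
  let H : C(I × (Fin 2 → I), X) := ⟨fun q => f (scl q.1 q.2), f.1.continuous.comp scl_cont⟩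
  have hf0 : ∀ z : Fin 2 → I, (∃ i, z i = 0 ∨ z i = 1) → f z = x := fun z hz => f.2 z hz
  have hH0 : ∀ a, H (0, a) = p ((ContinuousMap.const (Fin 2 → I) e₀) a) := by
    intro a
    change f (scl 0 a) = p e₀
    rw [he₀]
    exact hf0 _ ⟨0, Or.inl (zero_mul _)⟩
  let F := cov.liftHomotopy H (ContinuousMap.const (Fin 2 → I) e₀) hH0
  have hF : ∀ q, p (F q) = H q := fun q => congrFun (cov.liftHomotopy_lifts H _ hH0) q
  let G : C(Fin 2 → I, E) := ⟨fun z => F (1, z), F.continuous.comp (by fun_prop)⟩
  have hG : ∀ z, p (G z) = f z := by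
    intro z
    change p (F (1, z)) = f z
    rw [hF]
    change f (scl 1 z) = f z
    have : scl 1 z = z := funext fun j => one_mul _
    rw [this]
  -- `G` is constant on the boundary
  have h1 : ∀ z : Fin 2 → I, (∃ i, z i = 0) → G z = G 0 := by
    rintro z ⟨i, hi⟩
    have hc : Continuous (fun s : I => G (scl s z)) :=
      G.continuous.comp (scl_cont.comp (by fun_prop : Continuous (fun s : I => (s, z))))
    have hv : ∀ s : I, p (G (scl s z)) = x := by
      intro s
      rw [hG]
      refine hf0 _ ⟨i, Or.inl ?_⟩
      change s * z i = 0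
      rw [hi, mul_zero]
    have := cov.const_of_comp hc (fun a a' => (hv a).trans (hv a').symm) 1 0
    have h10 : scl 1 z = z := funext fun j => one_mul _
    have h00 : scl 0 z = 0 := funext fun j => zero_mul _
    simp only [h10, h00] at this
    exact this
  have h2 : ∀ z : Fin 2 → I, (∃ i, z i = 1) → G z = G 0 := by
    rintro z ⟨i, hi⟩
    obtain ⟨j, hj⟩ := exists_ne i
    have hc : Continuous (fun s : I => G (Function.update z j (s * z j))) :=
      G.continuous.comp (continuous_const.update j (continuous_id.mul continuous_const))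
    have hv : ∀ s : I, p (G (Function.update z j (s * z j))) = x := by
      intro s
      rw [hG]
      refine hf0 _ ⟨i, Or.inr ?_⟩
      rw [Function.update_of_ne hj.symm, hi]
    have := cov.const_of_comp hc (fun a a' => (hv a).trans (hv a').symm) 1 0
    simp only [one_mul, Function.update_eq_self, zero_mul] at this
    rw [this]
    exact h1 _ ⟨j, Function.update_self ..⟩
  have h3 : p (G 0) = x := by
    rw [hG]
    exact hf0 _ ⟨0, Or.inl rfl⟩
  refine ⟨G 0, ⟨G, ?_⟩, h3, hG⟩
  rintro z ⟨i, hi | hi⟩
  · exact h1 z ⟨i, hi⟩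
  · exact h2 z ⟨i, hi⟩

/-- The second homotopy group of the base of a covering. -/
private theorem pi2_base {E X : Type} [TopologicalSpace E] [TopologicalSpace X] {p : E → X}
    (cov : IsCoveringMap p) (hs : Function.Surjective p)
    (hE : ∀ e : E, Subsingleton (HomotopyGroup.Pi 2 E e)) (x : X) :
    Subsingleton (HomotopyGroup.Pi 2 X x) := by
  have key : ∀ f : GenLoop (Fin 2) X x, GenLoop.Homotopic f GenLoop.const := by
    intro f
    obtain ⟨e, g, he, hg⟩ := lift_loop cov hs x f
    have h1 : GenLoop.Homotopic g GenLoop.const := by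
      have := (hE e).elim (Quotient.mk (GenLoop.Homotopic.setoid (Fin 2) e) g)
        (Quotient.mk (GenLoop.Homotopic.setoid (Fin 2) e) GenLoop.const)
      exact Quotient.exact this
    have h2 := ContinuousMap.HomotopicRel.comp_continuousMap h1 ⟨p, cov.continuous⟩
    have h3 : (⟨p, cov.continuous⟩ : C(E, X)).comp g.1 = f.1 := by
      ext z
      exact hg z
    have h4 : (⟨p, cov.continuous⟩ : C(E, X)).comp (GenLoop.const : GenLoop (Fin 2) E e).1 =
        (GenLoop.const : GenLoop (Fin 2) X x).1 := by
      ext z
      exact he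
    rw [h3, h4] at h2
    exact h2
  refine ⟨fun a b => ?_⟩
  refine Quotient.inductionOn₂ a b fun f g => ?_
  exact Quotient.sound ((key f).trans (key g).symm)

/-- **Second homotopy group.** -/
theorem pPi2 : SCube → SNul → TCov → TExE → TNE → TPi2 := by
  intro hC hN hT hE hNE
  have hcov : IsCoveringMap th := IsQuotientCoveringMap.isCoveringMap th Gm hT
  have hs : Function.Surjective th := hT.surjective
  have h1 : ∀ e : EE, Subsingleton (HomotopyGroup.Pi 2 EE e) := hC EE 2 ((hNE 3 EE).2 hE.2.2)
  exact (hNE 3 RSq).1 (hN RSq 2 (pi2_base hcov hs h1))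

end Pool.Agent.MPaafd8a.A2
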