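import Pool.Agent.Lib.MP_aafd8a_gt_A2.Spec

/-!
# MP_aafd8a_gt, block (A-ii): functions on a triangle (`TQuo`)
-/

set_option autoImplicit false
set_option linter.unusedSectionVars false

open Topology

namespace Pool.Agent.MPaafd8a.A2

namespace QuoAux

variable {B : Type} [Fintype B] [DecidableEq B]

/-- The map from the square to the triangle. -/
noncomputable def chi (a b c : B) (x : unitInterval × unitInterval) : B → ℝ :=
  Pi.single a (1 - (x.1 : ℝ)) + Pi.single b ((x.1 : ℝ) * (1 - x.2)) + Pi.single c ((x.1 : ℝ) * x.2)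

theorem chi_a {a b c : B} (hab : a ≠ b) (hac : a ≠ c) (x : unitInterval × unitInterval) :
    chi a b c x a = 1 - (x.1 : ℝ) := by
  simp [chi, hab, hac]

theorem chi_b {a b c : B} (hab : a ≠ b) (hbc : b ≠ c) (x : unitInterval × unitInterval) :
    chi a b c x b = (x.1 : ℝ) * (1 - x.2) := by
  simp [chi, hab.symm, hbc]

theorem chi_c {a b c : B} (hac : a ≠ c) (hbc : b ≠ c) (x : unitInterval × unitInterval) :
    chi a b c x c = (x.1 : ℝ) * x.2 := by
  simp [chi, hac.symm, hbc.symm]

theorem chi_o {a b c d : B} (hda : d ≠ a) (hdb : d ≠ b) (hdc : d ≠ c) (x : unitInterval × unitInterval) :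
    chi a b c x d = 0 := by
  simp [chi, hda, hdb, hdc]

theorem chi_mem (a b c : B) (x : unitInterval × unitInterval) : chi a b c x ∈ smp {a, b, c} := by
  have h0 : 0 ≤ (x.1 : ℝ) := x.1.2.1
  have h1 : 0 ≤ 1 - (x.1 : ℝ) := sub_nonneg.2 x.1.2.2
  have h2 : 0 ≤ (x.2 : ℝ) := x.2.2.1
  have h3 : 0 ≤ 1 - (x.2 : ℝ) := sub_nonneg.2 x.2.2.2
  refine ⟨fun d => ?_, ?_, fun d hd => ?_⟩
  · have e1 : 0 ≤ (Pi.single a (1 - (x.1 : ℝ)) : B → ℝ) := Pi.single_nonneg.2 h1
    have e2 : 0 ≤ (Pi.single b ((x.1 : ℝ) * (1 - x.2)) : B → ℝ) := Pi.single_nonneg.2 (mul_nonneg h0 h3)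
    have e3 : 0 ≤ (Pi.single c ((x.1 : ℝ) * x.2) : B → ℝ) := Pi.single_nonneg.2 (mul_nonneg h0 h2)
    exact add_nonneg (add_nonneg (e1 d) (e2 d)) (e3 d)
  · simp only [chi, Pi.add_apply, Finset.sum_add_distrib, Finset.sum_pi_single', Finset.mem_univ, if_true]
    ring
  · simp only [Finset.mem_insert, Finset.mem_singleton, not_or] at hd
    exact chi_o hd.1 hd.2.1 hd.2.2 x

theorem chi_cont (a b c : B) : Continuous (chi a b c) := by
  refine continuous_pi fun d => ?_
  have e (i : B) (u : unitInterval × unitInterval → ℝ) (hu : Continuous u) :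
      Continuous fun x => (Pi.single i (u x) : B → ℝ) d := by
    by_cases h : d = i
    · subst h; simpa using hu
    · simpa [h] using continuous_const
  have c1 : Continuous fun x : unitInterval × unitInterval => (x.1 : ℝ) := by fun_prop
  have c2 : Continuous fun x : unitInterval × unitInterval => (x.2 : ℝ) := by fun_prop
  exact ((e a _ (continuous_const.sub c1)).add (e b _ (c1.mul (continuous_const.sub c2)))).add
    (e c _ (c1.mul c2))

theorem sum_three {a b c : B} (hab : a ≠ b) (hac : a ≠ c) (hbc : b ≠ c) {w : B → ℝ}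
    (hw : w ∈ smp {a, b, c}) : w a + w b + w c = 1 := by
  have h : ∑ d ∈ ({a, b, c} : Finset B), w d = ∑ d, w d :=
    Finset.sum_subset (Finset.subset_univ _) fun d _ hd => hw.2.2 d hd
  rw [hw.2.1, Finset.sum_insert (by simp [hab, hac]), Finset.sum_insert (by simp [hbc]),
    Finset.sum_singleton] at h
  linarith

theorem chi_surj {a b c : B} (hab : a ≠ b) (hac : a ≠ c) (hbc : b ≠ c) {w : B → ℝ}
    (hw : w ∈ smp {a, b, c}) : ∃ x, chi a b c x = w := by
  have h3 := sum_three hab hac hbc hw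
  have ha := hw.1 a
  have hb := hw.1 b
  have hc := hw.1 c
  by_cases hs : w a = 1
  · have hb0 : w b = 0 := by linarith
    have hc0 : w c = 0 := by linarith
    refine ⟨(0, 0), funext fun d => ?_⟩
    by_cases hda : d = a
    · subst hda; rw [chi_a hab hac, hs]; simp
    by_cases hdb : d = b
    · subst hdb; rw [chi_b hab hbc, hb0]; simp
    by_cases hdc : d = c
    · subst hdc; rw [chi_c hac hbc, hc0]; simp
    rw [chi_o hda hdb hdc, hw.2.2 d (by simp [hda, hdb, hdc])]
  · have hs0 : 0 < 1 - w a := lt_of_le_of_ne (by linarith) (fun h => hs (by linarith))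
    refine ⟨(⟨1 - w a, hs0.le, by linarith⟩, ⟨w c / (1 - w a), div_nonneg hc hs0.le,
      (div_le_one hs0).2 (by linarith)⟩), funext fun d => ?_⟩
    by_cases hda : d = a
    · subst hda; rw [chi_a hab hac]; simp
    by_cases hdb : d = b
    · subst hdb; rw [chi_b hab hbc]
      change (1 - w a) * (1 - w c / (1 - w a)) = w d
      rw [mul_sub, mul_one, mul_div_cancel₀ _ hs0.ne']
      linarith
    by_cases hdc : d = c
    · subst hdc; rw [chi_c hac hbc]
      change (1 - w a) * (w d / (1 - w a)) = w d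
      rw [mul_div_cancel₀ _ hs0.ne']
    rw [chi_o hda hdb hdc, hw.2.2 d (by simp [hda, hdb, hdc])]

theorem chi_inj {a b c : B} (hab : a ≠ b) (hac : a ≠ c) (hbc : b ≠ c) {x y : unitInterval × unitInterval}
    (h : chi a b c x = chi a b c y) : x = y ∨ (x.1 = 0 ∧ y.1 = 0) := by
  have e1 : (x.1 : ℝ) = y.1 := by
    have := congrFun h a
    rw [chi_a hab hac, chi_a hab hac] at this
    linarith
  have e2 : (x.1 : ℝ) * x.2 = (y.1 : ℝ) * y.2 := by
    have := congrFun h c
    rwa [chi_c hac hbc, chi_c hac hbc] at this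
  by_cases h0 : (x.1 : ℝ) = 0
  · exact Or.inr ⟨Subtype.ext h0, Subtype.ext (e1 ▸ h0)⟩
  · refine Or.inl (Prod.ext (Subtype.ext e1) (Subtype.ext ?_))
    rw [← e1] at e2
    exact mul_left_cancel₀ h0 e2

end QuoAux

open QuoAux in
/-- **Functions on a triangle**: `TQuo`. -/
theorem pQuo : TQuo := by
  intro B _ _ a b c hab hac hbc Z _ G hG
  classical
  let S : Set (B → ℝ) := smp {a, b, c}
  let χ : C(unitInterval × unitInterval, S) := ⟨fun x => ⟨chi a b c x, chi_mem a b c x⟩,
    (chi_cont a b c).subtype_mk _⟩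
  have hsurj : Function.Surjective χ := by
    rintro ⟨w, hw⟩
    obtain ⟨x, hx⟩ := chi_surj hab hac hbc hw
    exact ⟨x, Subtype.ext hx⟩
  have hq : IsQuotientMap χ := IsQuotientMap.of_surjective_continuous hsurj χ.continuous
  have hfac : ∀ x y, χ x = χ y → G x = G y := by
    rintro ⟨s, t⟩ ⟨s', t'⟩ hxy
    rcases chi_inj hab hac hbc (congrArg Subtype.val hxy) with h | ⟨h1, h2⟩
    · rw [h]
    · simp only at h1 h2
      rw [h1, h2, hG t, hG t']
  let g : C(S, Z) := hq.lift G hfac
  have hg : ∀ x, g (χ x) = G x := fun x => by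
    have := congrArg (fun F : C(unitInterval × unitInterval, Z) => F x) (hq.lift_comp G hfac)
    exact this
  refine ⟨fun w => if h : w ∈ S then g ⟨w, h⟩ else G (0, 0), ?_, fun s t => ?_⟩
  · rw [continuousOn_iff_continuous_domRestrict]
    refine g.continuous.congr fun w => ?_
    rw [Set.domRestrict_apply, dif_pos w.2]
  · have hm : chi a b c (s, t) ∈ S := chi_mem a b c (s, t)
    have := hg (s, t)
    change (if h : chi a b c (s, t) ∈ S then g ⟨chi a b c (s, t), h⟩ else G (0, 0)) = G (s, t)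
    rw [dif_pos hm]
    exact this

end Pool.Agent.MPaafd8a.A2
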