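import Pool.Agent.Lib.MP_aafd8a_gt_A2.Spec

/-!
# MP_aafd8a_gt, block (A-ii): reduction to dimension two
-/

set_option autoImplicit false

open Topology RealInnerProductSpace Quaternion

namespace Pool.Agent.MPaafd8a.A2

private theorem up_anti {A : Type} [Fintype A] {θ θ' : ℝ} (h : θ' ≤ θ) (f : A → ℝ) :
    (up θ f).card ≤ (up θ' f).card := by
  apply Finset.card_le_card
  intro a ha
  exact mem_up.2 (h.trans (mem_up.1 ha))

/-- Zeros of a generic combination have many positive coefficients. -/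
private theorem many {Z A : Type} [Fintype A] (ψ : A → Z → ℝ) (h0 : ∀ a z, 0 ≤ ψ a z)
    (h1 : ∀ z, ∑ a, ψ a z = 1) (w : A → Fin 13 → ℝ)
    (hw : ∀ S : Finset A, S.card ≤ 13 → LinearIndependent ℝ (fun i : S => w i)) (z : Z)
    (hz : ∑ a, ψ a z • w a = 0) : 14 ≤ (sp (fun a => ψ a z)).card := by
  classical
  by_contra hcon
  have hli := hw (sp (fun a => ψ a z)) (by omega)
  rw [Fintype.linearIndependent_iff] at hli
  have hsum : ∑ i : (sp (fun a => ψ a z)), ψ i z • w i = 0 := by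
    rw [Finset.sum_coe_sort (sp (fun a => ψ a z)) (fun a => ψ a z • w a), ← hz]
    apply Finset.sum_subset (Finset.subset_univ _)
    intro a _ ha
    have h2 : ¬ 0 < ψ a z := fun h3 => ha (mem_sp.2 h3)
    have h3 : ψ a z = 0 := le_antisymm (not_lt.1 h2) (h0 a z)
    rw [h3, zero_smul]
  have hall := hli (fun i => ψ i z) hsum
  have hzero : ∀ a, ψ a z = 0 := by
    intro a
    by_cases ha : 0 < ψ a z
    · exact hall ⟨a, mem_sp.2 ha⟩
    · exact le_antisymm (not_lt.1 ha) (h0 a z)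
  have := h1 z
  rw [Finset.sum_eq_zero (fun a _ => hzero a)] at this
  norm_num at this

/-- The constants `κ` and `θ`. -/
private theorem consts {Z : Type} [MetricSpace Z] [CompactSpace Z] {A : Type} [Fintype A]
    (ψ : A → Z → ℝ) (hc : ∀ a, Continuous (ψ a)) (D' : C(Z, Fin 13 → ℝ))
    (hm : ∀ z, D' z = 0 → 14 ≤ (sp (fun a => ψ a z)).card) :
    ∃ κ θ : ℝ, 0 < κ ∧ 0 < θ ∧ ∀ z, ‖D' z‖ ≤ κ → 14 ≤ (up θ (fun a => ψ a z)).card := by
  classical
  have key : ∃ κ θ : ℝ, 0 < κ ∧ 0 < θ ∧ ∀ z ∈ (Set.univ : Set Z), ‖D' z‖ ≤ κ →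
      14 ≤ (up θ (fun a => ψ a z)).card := by
    refine IsCompact.induction_on (p := fun s : Set Z => ∃ κ θ : ℝ, 0 < κ ∧ 0 < θ ∧
      ∀ z ∈ s, ‖D' z‖ ≤ κ → 14 ≤ (up θ (fun a => ψ a z)).card) isCompact_univ ?_ ?_ ?_ ?_
    · exact ⟨1, 1, one_pos, one_pos, fun z hz => absurd hz (Set.notMem_empty z)⟩
    · rintro s t hst ⟨κ, θ, h1, h2, h3⟩
      exact ⟨κ, θ, h1, h2, fun z hz => h3 z (hst hz)⟩
    · rintro s t ⟨κ, θ, h1, h2, h3⟩ ⟨κ', θ', h1', h2', h3'⟩
      refine ⟨min κ κ', min θ θ', lt_min h1 h1', lt_min h2 h2', ?_⟩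
      intro z hz hn
      rcases hz with hz | hz
      · exact (h3 z hz (hn.trans (min_le_left _ _))).trans (up_anti (min_le_left _ _) _)
      · exact (h3' z hz (hn.trans (min_le_right _ _))).trans (up_anti (min_le_right _ _) _)
    · intro z _
      rw [nhdsWithin_univ]
      by_cases hz : D' z = 0
      · -- a zero
        have hθ : ∃ θ : ℝ, 0 < θ ∧ ∀ a ∈ sp (fun a => ψ a z), θ < ψ a z := by
          by_cases hne : (sp (fun a => ψ a z)).Nonempty
          · obtain ⟨a0, ha0, hmin⟩ := Finset.exists_min_image (sp (fun a => ψ a z))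
              (fun a => ψ a z) hne
            have hpos : 0 < ψ a0 z := (mem_sp (f := fun a => ψ a z)).1 ha0
            exact ⟨ψ a0 z / 2, by linarith, fun a ha => by
              have := hmin a ha
              linarith⟩
          · rw [Finset.not_nonempty_iff_eq_empty] at hne
            refine ⟨1, one_pos, fun a ha => ?_⟩
            rw [hne] at ha
            exact absurd ha (Finset.notMem_empty a)
        obtain ⟨θ, hθ0, hθ1⟩ := hθ
        refine ⟨{z' | ∀ a ∈ sp (fun a => ψ a z), θ < ψ a z'}, ?_, 1, θ, one_pos, hθ0, ?_⟩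
        · have h4 : ∀ a ∈ sp (fun a => ψ a z), ∀ᶠ z' in 𝓝 z, θ < ψ a z' := fun a ha =>
            (hc a).continuousAt.eventually (lt_mem_nhds (hθ1 a ha))
          exact (Filter.eventually_all_finset _).2 h4
        · intro z' hz' _
          refine (hm z hz).trans (Finset.card_le_card ?_)
          intro a ha
          exact mem_up.2 (hz' a ha).le
      · have hpos : 0 < ‖D' z‖ := norm_pos_iff.2 hz
        refine ⟨{z' | ‖D' z‖ / 2 < ‖D' z'‖}, ?_, ‖D' z‖ / 2, 1, by linarith, one_pos, ?_⟩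
        · have h4 : Filter.Tendsto (fun z' => ‖D' z'‖) (𝓝 z) (𝓝 ‖D' z‖) :=
            (D'.continuous.norm).continuousAt
          exact h4.eventually (lt_mem_nhds (by linarith))
        · intro z' hz' hle
          have hz'' : ‖D' z‖ / 2 < ‖D' z'‖ := hz'
          linarith
  obtain ⟨κ, θ, h1, h2, h3⟩ := key
  exact ⟨κ, θ, h1, h2, fun z => h3 z (Set.mem_univ z)⟩

theorem pRed (hLay : SLay) (hGen : SGenV) : TRed := by
  classical
  intro Z _ _ hfine D δ η hδ hη
  have huc : UniformContinuous D := CompactSpace.uniformContinuous_of_continuous D.continuous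
  obtain ⟨η0, hη0, huc'⟩ := Metric.uniformContinuous_iff.1 huc (δ / 2) (by linarith)
  obtain ⟨A, hA, ψ, hc, h0, h1, hd, hcard⟩ := hfine (min η η0) (lt_min hη hη0)
  -- the values
  let h : A → Fin 13 → ℝ := fun a => if ha : ∃ z, 0 < ψ a z then D ha.choose else 0
  obtain ⟨w, hw1, hw2⟩ := hGen 13 A h (δ / 2) (by linarith)
  let D' : C(Z, Fin 13 → ℝ) := ⟨fun z => ∑ a, ψ a z • w a,
    continuous_finsetSum _ (fun a _ => (hc a).smul continuous_const)⟩
  have hD' : ∀ z, D' z = ∑ a, ψ a z • w a := fun z => rfl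
  have hclose : ∀ a z, 0 < ψ a z → ‖w a - D z‖ < δ := by
    intro a z ha
    have hex : ∃ z, 0 < ψ a z := ⟨z, ha⟩
    have e1 : h a = D hex.choose := dif_pos hex
    have e2 : dist hex.choose z < η0 :=
      (hd a hex.choose z hex.choose_spec ha).trans_le (min_le_right _ _)
    have e3 := huc' e2
    rw [← e1] at e3
    rw [← dist_eq_norm]
    calc dist (w a) (D z) ≤ dist (w a) (h a) + dist (h a) (D z) := dist_triangle _ _ _
      _ < δ / 2 + δ / 2 := add_lt_add (hw1 a) e3
      _ = δ := by ring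
  have hDD : ∀ z, ‖D' z - D z‖ < δ := by
    intro z
    have e1 : D' z - D z = ∑ a, ψ a z • (w a - D z) := by
      rw [hD']
      simp only [smul_sub]
      rw [Finset.sum_sub_distrib, ← Finset.sum_smul, h1, one_smul]
    rw [e1]
    obtain ⟨a0, ha0⟩ : ∃ a, 0 < ψ a z := by
      by_contra hcon
      push Not at hcon
      have h2 : ∑ a, ψ a z = 0 :=
        Finset.sum_eq_zero (fun a _ => le_antisymm (hcon a) (h0 a z))
      rw [h1] at h2
      norm_num at h2
    calc ‖∑ a, ψ a z • (w a - D z)‖ ≤ ∑ a, ‖ψ a z • (w a - D z)‖ := norm_sum_le _ _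
      _ = ∑ a, ψ a z * ‖w a - D z‖ := by
          refine Finset.sum_congr rfl (fun a _ => ?_)
          rw [norm_smul, Real.norm_of_nonneg (h0 a z)]
      _ < ∑ a, ψ a z * δ := by
          apply Finset.sum_lt_sum
          · intro a _
            rcases (h0 a z).eq_or_lt with h2 | h2
            · rw [← h2, zero_mul, zero_mul]
            · exact mul_le_mul_of_nonneg_left (hclose a z h2).le h2.le
          · exact ⟨a0, Finset.mem_univ _, mul_lt_mul_of_pos_left (hclose a0 z ha0) ha0⟩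
      _ = δ := by rw [← Finset.sum_mul, h1, one_mul]
  obtain ⟨κ0, θ, hκ0, hθ, hup⟩ := consts ψ hc D'
    (fun z hz => many ψ h0 h1 w hw2 z (by rw [← hD']; exact hz))
  obtain ⟨β₀, hb1, hb2, hb3⟩ := hLay A θ hθ
  refine ⟨D', min κ0 (1 / 4), lt_min hκ0 (by norm_num), min_le_right _ _, hDD, Finset A,
    inferInstance, ?_⟩
  have hup' : ∀ x : {z // ‖D' z‖ ≤ min κ0 (1 / 4)}, 14 ≤ (up θ (fun a => ψ a x)).card :=
    fun x => hup x (x.2.trans (min_le_left _ _))
  have hS : ∀ x : {z // ‖D' z‖ ≤ min κ0 (1 / 4)}, 0 < ∑ L, β₀ L (fun a => ψ a x) := by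
    intro x
    obtain ⟨L, hL⟩ := (hb3 (fun a => ψ a x) (fun a => h0 a x)).2.1
    exact Finset.sum_pos' (fun L _ => hb2 L _) ⟨L, Finset.mem_univ _, hL⟩
  have hcon : Continuous fun x : {z // ‖D' z‖ ≤ min κ0 (1 / 4)} => (fun a => ψ a x) :=
    continuous_pi (fun a => (hc a).comp continuous_subtype_val)
  have hpos : ∀ L (x : {z // ‖D' z‖ ≤ min κ0 (1 / 4)}),
      0 < β₀ L (fun a => ψ a x) / ∑ L', β₀ L' (fun a => ψ a x) → 0 < β₀ L (fun a => ψ a x) := by
    intro L x hx
    by_contra hneg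
    have h3 : β₀ L (fun a => ψ a x) = 0 := le_antisymm (not_lt.1 hneg) (hb2 L _)
    rw [h3, zero_div] at hx
    exact lt_irrefl _ hx
  refine ⟨fun L x => β₀ L (fun a => ψ a x) / ∑ L', β₀ L' (fun a => ψ a x), ?_, ?_, ?_, ?_, ?_⟩
  · intro L
    exact ((hb1 L).comp hcon).div (continuous_finsetSum _ (fun L' _ => (hb1 L').comp hcon))
      (fun x => (hS x).ne')
  · intro L x
    exact div_nonneg (hb2 L _) (hS x).le
  · intro x
    rw [← Finset.sum_div]
    exact div_self (hS x).ne'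
  · intro L x x' hx hx'
    have h2 := (hb3 (fun a => ψ a x) (fun a => h0 a x)).1 L (hpos L x hx)
    have h2' := (hb3 (fun a => ψ a x') (fun a => h0 a x')).1 L (hpos L x' hx')
    have h3 : (up θ (fun a => ψ a x)).Nonempty := by
      rw [← Finset.card_pos]
      have := hup' x
      omega
    obtain ⟨a, ha⟩ := h3
    have haL : a ∈ L := h2.2 a ((mem_up (f := fun a => ψ a (x : Z))).1 ha)
    exact (hd a x x' (h2.1 a haL) (h2'.1 a haL)).trans_le (min_le_left _ _)
  · intro σ hσ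
    unfold nrv at hσ
    obtain ⟨_, x, hx⟩ := (Finset.mem_filter.1 hσ).2
    have h3 := (hb3 (fun a => ψ a x) (fun a => h0 a x)).2.2 σ (fun L hL => hpos L x (hx L hL))
    have h4 := hup' x
    have h5 := hcard x
    omega

end Pool.Agent.MPaafd8a.A2
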