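import Pool.Agent.Lib.MP_aafd8a_gt_A2.Spec

/-!
# MP_aafd8a_gt, block (A-ii): isometries of the quaternions
-/

set_option autoImplicit false

open Topology RealInnerProductSpace Quaternion

namespace Pool.Agent.MPaafd8a.A2

namespace RefAux

/-- The property of the theorem. -/
def Fm (R : ℍ[ℝ] ≃ₗᵢ[ℝ] ℍ[ℝ]) : Prop :=
  ∃ a b : S3, (∀ x, R x = (a : ℍ[ℝ]) * x * (b : ℍ[ℝ])) ∨
    ∀ x, R x = (a : ℍ[ℝ]) * star x * (b : ℍ[ℝ])

theorem norm_S3 (a : S3) : ‖(a : ℍ[ℝ])‖ = 1 := mem_sphere_zero_iff_norm.1 a.2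

/-- The conjugate of a unit quaternion. -/
noncomputable def cj (a : S3) : S3 :=
  ⟨star (a : ℍ[ℝ]), by rw [mem_sphere_zero_iff_norm, norm_star, norm_S3]⟩

theorem cj_coe (a : S3) : ((cj a : S3) : ℍ[ℝ]) = star (a : ℍ[ℝ]) := rfl

theorem mul_coe (a b : S3) : ((a * b : S3) : ℍ[ℝ]) = (a : ℍ[ℝ]) * (b : ℍ[ℝ]) := rfl

theorem mul_star_S3 (a : S3) : (a : ℍ[ℝ]) * star (a : ℍ[ℝ]) = 1 := by
  rw [Quaternion.self_mul_star, Quaternion.normSq_eq_norm_mul_self, norm_S3]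
  simp

theorem star_mul_S3 (a : S3) : star (a : ℍ[ℝ]) * (a : ℍ[ℝ]) = 1 := by
  rw [Quaternion.star_mul_self, Quaternion.normSq_eq_norm_mul_self, norm_S3]
  simp

/-- `v x̄ v = 2 ⟨v, x⟩ v - ‖v‖² x`. -/
theorem ident (v x : ℍ[ℝ]) : v * star x * v = (2 * ⟪v, x⟫) • v - (‖v‖ ^ 2) • x := by
  rw [← real_inner_self_eq_norm_sq v, inner_coords, inner_coords]
  ext <;> simp <;> ring

theorem refl_eq (v x : ℍ[ℝ]) : ((ℝ ∙ v)ᗮ).reflection x = x - (2 * (⟪v, x⟫ / ‖v‖ ^ 2)) • v := by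
  rw [Submodule.reflection_orthogonal_apply, Submodule.reflection_singleton_apply]
  rw [neg_sub, two_smul, mul_smul, two_smul]
  rfl

theorem mem (v : ℍ[ℝ]) : Fm ((ℝ ∙ v)ᗮ).reflection := by
  by_cases hv : v = 0
  · refine ⟨1, 1, Or.inl fun x => ?_⟩
    rw [refl_eq, hv, smul_zero, sub_zero]
    simp
  · have hn : ‖v‖ ≠ 0 := norm_ne_zero_iff.2 hv
    have hu : ‖(‖v‖⁻¹ • v : ℍ[ℝ])‖ = 1 := by
      rw [norm_smul, norm_inv, norm_norm, inv_mul_cancel₀ hn]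
    refine ⟨⟨-(‖v‖⁻¹ • v), by rw [mem_sphere_zero_iff_norm, norm_neg, hu]⟩,
      ⟨‖v‖⁻¹ • v, by rw [mem_sphere_zero_iff_norm, hu]⟩, Or.inr fun x => ?_⟩
    rw [refl_eq]
    change _ = -(‖v‖⁻¹ • v) * star x * (‖v‖⁻¹ • v)
    rw [neg_mul, neg_mul, smul_mul_assoc, smul_mul_assoc, mul_smul_comm, ident, smul_sub, smul_sub,
      smul_smul, smul_smul, smul_smul, smul_smul]
    have e1 : ‖v‖⁻¹ * ‖v‖⁻¹ * ‖v‖ ^ 2 = 1 := by
      field_simp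
    have e2 : ‖v‖⁻¹ * ‖v‖⁻¹ * (2 * ⟪v, x⟫) = 2 * (⟪v, x⟫ / ‖v‖ ^ 2) := by
      field_simp
    rw [e1, e2, one_smul, neg_sub]

theorem one : Fm 1 := ⟨1, 1, Or.inl fun x => by simp⟩

theorem comp_apply' (R S : ℍ[ℝ] ≃ₗᵢ[ℝ] ℍ[ℝ]) (x : ℍ[ℝ]) : (R * S) x = R (S x) := rfl

theorem mul {R S : ℍ[ℝ] ≃ₗᵢ[ℝ] ℍ[ℝ]} (hR : Fm R) (hS : Fm S) : Fm (R * S) := by
  obtain ⟨a, b, h1 | h1⟩ := hR <;> obtain ⟨c, d, h2 | h2⟩ := hS
  · refine ⟨a * c, d * b, Or.inl fun x => ?_⟩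
    rw [comp_apply', h1, h2, mul_coe, mul_coe]
    simp only [mul_assoc]
  · refine ⟨a * c, d * b, Or.inr fun x => ?_⟩
    rw [comp_apply', h1, h2, mul_coe, mul_coe]
    simp only [mul_assoc]
  · refine ⟨a * cj d, cj c * b, Or.inr fun x => ?_⟩
    rw [comp_apply', h1, h2, mul_coe, mul_coe, cj_coe, cj_coe, star_mul, star_mul]
    simp only [mul_assoc]
  · refine ⟨a * cj d, cj c * b, Or.inl fun x => ?_⟩
    rw [comp_apply', h1, h2, mul_coe, mul_coe, cj_coe, cj_coe, star_mul, star_mul,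
      star_star]
    simp only [mul_assoc]

theorem inv {R : ℍ[ℝ] ≃ₗᵢ[ℝ] ℍ[ℝ]} (hR : Fm R) : Fm R⁻¹ := by
  have key : ∀ x y, R y = x → R⁻¹ x = y := by
    intro x y h
    rw [← h]
    exact R.symm_apply_apply y
  obtain ⟨a, b, h1 | h1⟩ := hR
  · refine ⟨cj a, cj b, Or.inl fun x => key _ _ ?_⟩
    rw [h1, cj_coe, cj_coe]
    calc (a : ℍ[ℝ]) * (star (a : ℍ[ℝ]) * x * star (b : ℍ[ℝ])) * (b : ℍ[ℝ])
        = ((a : ℍ[ℝ]) * star (a : ℍ[ℝ])) * x * (star (b : ℍ[ℝ]) * (b : ℍ[ℝ])) := by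
          simp only [mul_assoc]
      _ = x := by rw [mul_star_S3, star_mul_S3, one_mul, mul_one]
  · refine ⟨b, a, Or.inr fun x => key _ _ ?_⟩
    rw [h1, star_mul, star_mul, star_star]
    calc (a : ℍ[ℝ]) * (star (a : ℍ[ℝ]) * (x * star (b : ℍ[ℝ]))) * (b : ℍ[ℝ])
        = ((a : ℍ[ℝ]) * star (a : ℍ[ℝ])) * x * (star (b : ℍ[ℝ]) * (b : ℍ[ℝ])) := by
          simp only [mul_assoc]
      _ = x := by rw [mul_star_S3, star_mul_S3, one_mul, mul_one]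

end RefAux

open RefAux in
/-- **Isometries of the quaternions.** -/
theorem pRef : TRef := by
  intro R
  have : FiniteDimensional ℝ ℍ[ℝ] := FiniteDimensional.of_finrank_eq_succ Quaternion.finrank_eq_four
  have hR : R ∈ Subgroup.closure (Set.range fun v : ℍ[ℝ] => ((ℝ ∙ v)ᗮ).reflection) := by
    rw [LinearIsometryEquiv.reflections_generate]
    exact Subgroup.mem_top R
  have h : Fm R := by
    induction hR using Subgroup.closure_induction with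
    | mem x hx =>
      obtain ⟨v, rfl⟩ := hx
      exact mem v
    | one => exact one
    | mul x y _ _ hx hy => exact mul hx hy
    | inv x _ hx => exact inv hx
  exact h

end Pool.Agent.MPaafd8a.A2
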