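import Pool.Agent.Lib.MP_aafd8a_gt_A2.Spec

/-!
# MP_aafd8a_gt, block (A-ii), module Rig: rigidity of the simplex (helper84)
-/

set_option autoImplicit false

open Topology RealInnerProductSpace Quaternion

namespace Pool.Agent.MPaafd8a.A2

namespace RigAux

theorem v00 : v0 0 = 1 := by
  ext <;> simp [v0]

/-- An element which commutes with two of the points is real. -/
theorem real {a b : ℍ[ℝ]} (h0 : a * v0 0 * b = v0 0) (h1 : a * v0 1 * b = v0 1)
    (h2 : a * v0 2 * b = v0 2) :
    a * b = 1 ∧ b * a = 1 ∧ a.imI = 0 ∧ a.imJ = 0 ∧ a.imK = 0 := by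
  have hab : a * b = 1 := by
    rw [v00, mul_one] at h0
    exact h0
  have hba : b * a = 1 := mul_eq_one_comm.1 hab
  have hc (v : ℍ[ℝ]) (h : a * v * b = v) : a * v = v * a := by
    calc a * v = a * v * (b * a) := by rw [hba, mul_one]
      _ = a * v * b * a := by rw [mul_assoc (a * v) b a]
      _ = v * a := by rw [h]
  have hs : (0 : ℝ) < √5 := by positivity
  have c1 := hc _ h1
  have c2 := hc _ h2
  have e1 := congrArg QuaternionAlgebra.imI c1
  have e2 := congrArg QuaternionAlgebra.imJ c1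
  have e3 := congrArg QuaternionAlgebra.imJ c2
  simp only [v0, Quaternion.imI_mul, Quaternion.imJ_mul, Matrix.cons_val_one,
    Matrix.cons_val_zero, Matrix.cons_val] at e1 e2 e3
  have f1 : √5 * (a.imJ - a.imK) = 0 := by linarith
  have f2 : √5 * (a.imI - a.imK) = 0 := by linarith
  have f3 : √5 * (a.imI + a.imK) = 0 := by linarith
  have g1 := (mul_eq_zero.1 f1).resolve_left hs.ne'
  have g2 := (mul_eq_zero.1 f2).resolve_left hs.ne'
  have g3 := (mul_eq_zero.1 f3).resolve_left hs.ne'
  exact ⟨hab, hba, by linarith, by linarith, by linarith⟩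

end RigAux

theorem pRig : TRig := by
  intro e σ h
  have ha : ((e.1 : ℍ[ℝ])) * ((e.1⁻¹ : S3) : ℍ[ℝ]) = 1 := congrArg Subtype.val (mul_inv_cancel e.1)
  have hn : ‖((e.1⁻¹ : S3) : ℍ[ℝ])‖ = 1 := mem_sphere_zero_iff_norm.1 (e.1⁻¹).2
  generalize ((e.1⁻¹ : S3) : ℍ[ℝ]) = a at h ha hn
  generalize (e.2 : ℍ[ℝ]) = b at h
  refine ⟨?_, ?_⟩
  · rintro rfl
    obtain ⟨hab, hba, hI, hJ, hK⟩ := RigAux.real (h 0) (h 1) (h 2)
    have h1 : Quaternion.normSq a = 1 := by
      rw [Quaternion.normSq_eq_norm_mul_self, hn, one_mul]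
    rw [Quaternion.normSq_def', hI, hJ, hK] at h1
    have h2 : (a.re - 1) * (a.re + 1) = 0 := by linear_combination h1
    rcases mul_eq_zero.1 h2 with h3 | h3
    · have h4 : a = 1 := by
        ext
        · simpa using (sub_eq_zero.1 h3)
        · simpa using hI
        · simpa using hJ
        · simpa using hK
      rw [h4, mul_one] at ha
      rw [h4, one_mul] at hab
      exact Or.inl ⟨ha, hab⟩
    · have h4 : a = -1 := by
        ext
        · simpa using (eq_neg_of_add_eq_zero_left h3)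
        · simpa using hI
        · simpa using hJ
        · simpa using hK
      rw [h4, mul_neg, mul_one] at ha
      rw [h4, neg_mul, one_mul] at hab
      exact Or.inr ⟨by rw [← ha, neg_neg], by rw [← hab, neg_neg]⟩
  · rintro rfl
    have s0 : Equiv.swap (3 : Fin 5) 4 0 = 0 := by decide
    have s1 : Equiv.swap (3 : Fin 5) 4 1 = 1 := by decide
    have s2 : Equiv.swap (3 : Fin 5) 4 2 = 2 := by decide
    have s3 : Equiv.swap (3 : Fin 5) 4 3 = 4 := by decide
    have k0 := h 0
    have k1 := h 1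
    have k2 := h 2
    have k3 := h 3
    rw [s0] at k0
    rw [s1] at k1
    rw [s2] at k2
    rw [s3] at k3
    obtain ⟨hab, hba, hI, hJ, hK⟩ := RigAux.real k0 k1 k2
    have h4 : a * v0 3 = v0 3 * a := by
      ext <;> simp [hI, hJ, hK, mul_comm]
    rw [h4, mul_assoc, hab, mul_one] at k3
    have h5 := congrArg QuaternionAlgebra.imJ k3
    have hs : (0 : ℝ) < √5 := by positivity
    simp only [v0, Matrix.cons_val] at h5
    linarith

end Pool.Agent.MPaafd8a.A2
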