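import Pool.Agent.Lib.MP_aafd8a_gt_A2.Spec

/-!
# MP_aafd8a_gt, block (A-ii), module Sim: simply connected from `Ext 2`
-/

set_option autoImplicit false

open Topology RealInnerProductSpace Quaternion

namespace Pool.Agent.MPaafd8a.A2

namespace SimM

variable {X : Type} [TopologicalSpace X]

/-- the loop on the bottom side, constant elsewhere -/
noncomputable def f0 {x : X} (γ : Path x x) (y : CSph 2) : X :=
  if y.1 1 ≤ -|y.1 0| then γ.extend ((y.1 0 + 1) / 2) else x

theorem f0_cont {x : X} (γ : Path x x) : Continuous (f0 γ) := by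
  have h0 : Continuous fun y : CSph 2 => y.1 0 := (continuous_apply 0).comp continuous_subtype_val
  have h1 : Continuous fun y : CSph 2 => y.1 1 := (continuous_apply 1).comp continuous_subtype_val
  refine Continuous.if_le (γ.continuous_extend.comp ((h0.add continuous_const).div_const 2))
    continuous_const h1 h0.abs.neg ?_
  intro y hy
  have hn : ‖(y.1 : Fin 2 → ℝ)‖ = 1 := mem_sphere_zero_iff_norm.1 y.2
  have hle : ‖(y.1 : Fin 2 → ℝ)‖ ≤ |y.1 0| := by
    refine (pi_norm_le_iff_of_nonneg (abs_nonneg _)).2 fun i => ?_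
    fin_cases i
    · exact le_refl _
    · change |y.1 1| ≤ |y.1 0|
      rw [hy, abs_neg, abs_abs]
  have hge : |y.1 0| ≤ 1 := (norm_le_pi_norm y.1 0).trans hn.le
  have h2 : |y.1 0| = 1 := le_antisymm hge (hn.ge.trans hle)
  rcases (abs_eq zero_le_one).1 h2 with h3 | h3
  · change γ.extend ((y.1 0 + 1) / 2) = x
    rw [h3]
    norm_num
  · change γ.extend ((y.1 0 + 1) / 2) = x
    rw [h3]
    norm_num

end SimM

open SimM in
theorem pSim (hSq : TSq1) : TSim := by
  intro X _ hpc hext
  rw [simply_connected_iff_loops_nullhomotopic]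
  refine ⟨hpc, fun x γ => ?_⟩
  obtain ⟨F, hF⟩ := hext ⟨f0 γ, f0_cont γ⟩
  have hF' : ∀ (a b : ℝ), |a| ≤ 1 → |b| ≤ 1 → (|a| = 1 ∨ |b| = 1) →
      F ![a, b] = if b ≤ -|a| then γ.extend ((a + 1) / 2) else x := by
    intro a b ha hb hab
    have hm : (![a, b] : Fin 2 → ℝ) ∈ Metric.sphere (0 : Fin 2 → ℝ) 1 := by
      rw [mem_sphere_zero_iff_norm]
      apply le_antisymm
      · refine (pi_norm_le_iff_of_nonneg zero_le_one).2 fun i => ?_
        fin_cases i
        · exact ha
        · exact hb
      · rcases hab with h | h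
        · have := norm_le_pi_norm (![a, b] : Fin 2 → ℝ) 0
          change |a| ≤ _ at this
          rwa [h] at this
        · have := norm_le_pi_norm (![a, b] : Fin 2 → ℝ) 1
          change |b| ≤ _ at this
          rwa [h] at this
    exact hF ⟨![a, b], hm⟩
  have hrange : ∀ t : unitInterval, |2 * (t : ℝ) - 1| ≤ 1 := by
    intro t
    rw [abs_le]
    constructor
    · linarith [t.2.1]
    · linarith [t.2.2]
  let Q : C(unitInterval × unitInterval, X) :=
    ⟨fun q => F ![2 * (q.1 : ℝ) - 1, 2 * (q.2 : ℝ) - 1], by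
      refine F.continuous.comp ?_
      refine continuous_pi fun i => ?_
      fin_cases i
      · exact (continuous_const.mul (continuous_subtype_val.comp continuous_fst)).sub
          continuous_const
      · exact (continuous_const.mul (continuous_subtype_val.comp continuous_snd)).sub
          continuous_const⟩
  have hQ : ∀ s t : unitInterval, Q (s, t) = F ![2 * (s : ℝ) - 1, 2 * (t : ℝ) - 1] :=
    fun _ _ => rfl
  have h := hSq X Q x x x x γ (Path.refl x) (Path.refl x) (Path.refl x) ?_ ?_ ?_ ?_
  · have k1 : (γ.trans (Path.refl x)).Homotopic γ := ⟨Path.Homotopy.transRefl γ⟩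
    have k2 : ((Path.refl x).trans (Path.refl x)).Homotopic (Path.refl x) :=
      ⟨Path.Homotopy.transRefl (Path.refl x)⟩
    exact k1.symm.trans (h.trans k2)
  · intro t
    rw [hQ, hF' _ _ (hrange t) (by norm_num) (Or.inr (by norm_num))]
    have h1 : 2 * ((0 : unitInterval) : ℝ) - 1 ≤ -|2 * (t : ℝ) - 1| := by
      have := hrange t
      simp only [Set.Icc.coe_zero]
      linarith
    rw [if_pos h1]
    have h2 : (2 * (t : ℝ) - 1 + 1) / 2 = t := by ring
    rw [h2]
    exact γ.extend_apply t.2
  · intro t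
    rw [hQ, hF' _ _ (by norm_num) (hrange t) (Or.inl (by norm_num))]
    simp only [Set.Icc.coe_one, Path.refl_apply]
    split_ifs
    · norm_num
    · rfl
  · intro t
    rw [hQ, hF' _ _ (by norm_num) (hrange t) (Or.inl (by norm_num))]
    simp only [Set.Icc.coe_zero, Path.refl_apply]
    split_ifs
    · norm_num
    · rfl
  · intro t
    rw [hQ, hF' _ _ (hrange t) (by norm_num) (Or.inr (by norm_num))]
    have h1 : ¬ 2 * ((1 : unitInterval) : ℝ) - 1 ≤ -|2 * (t : ℝ) - 1| := by
      have := abs_nonneg (2 * (t : ℝ) - 1)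
      simp only [Set.Icc.coe_one]
      linarith
    rw [if_neg h1]
    rfl

end Pool.Agent.MPaafd8a.A2
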