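import Pool.Agent.Lib.MP_aafd8a_gt_A2.Spec

/-!
# MP_aafd8a_gt, block (A-ii), module Spl: the binary icosahedral group splits central extensions
-/

set_option autoImplicit false
set_option linter.unusedSimpArgs false

open Topology RealInnerProductSpace Quaternion

namespace Pool.Agent.MPaafd8a.A2

namespace SplAux

/-! ## Relations -/

section Rel

variable {E : Type} [Group E] {S T : E}

theorem r1 (h1 : S ^ 3 = (S * T) ^ 2) : T * S * T = S ^ 2 := by
  have h : S * (T * S * T) = S * S ^ 2 := by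
    calc S * (T * S * T) = (S * T) ^ 2 := by simp only [pow_succ, pow_zero, one_mul, mul_one, mul_assoc, inv_mul_cancel_left, mul_inv_cancel_left]
      _ = S ^ 3 := h1.symm
      _ = S * S ^ 2 := by simp only [pow_succ, pow_zero, one_mul, mul_one, mul_assoc, inv_mul_cancel_left, mul_inv_cancel_left]
  exact mul_left_cancel h

theorem r2 (h2 : T ^ 5 = (S * T) ^ 2) : S * T * S = T ^ 4 := by
  have h : (S * T * S) * T = T ^ 4 * T := by
    calc (S * T * S) * T = (S * T) ^ 2 := by simp only [pow_succ, pow_zero, one_mul, mul_one, mul_assoc, inv_mul_cancel_left, mul_inv_cancel_left]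
      _ = T ^ 5 := h2.symm
      _ = T ^ 4 * T := by simp only [pow_succ, pow_zero, one_mul, mul_one, mul_assoc, inv_mul_cancel_left, mul_inv_cancel_left]
  exact mul_right_cancel h

theorem cZ (h1 : S ^ 3 = (S * T) ^ 2) (h2 : T ^ 5 = (S * T) ^ 2) : T ^ 5 * S = S * T ^ 5 := by
  rw [h2, ← h1]
  simp only [pow_succ, pow_zero, one_mul, mul_one, mul_assoc, inv_mul_cancel_left, mul_inv_cancel_left]

/-- `T A_2 S = A_4`. -/
theorem r3 (h1 : S ^ 3 = (S * T) ^ 2) (h2 : T ^ 5 = (S * T) ^ 2) : S * T ^ 2 * S = T⁻¹ * (S * T ^ 4) := by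
  have h : T * (S * T ^ 2 * S) = S * T ^ 4 := by
    calc T * (S * T ^ 2 * S) = (T * S * T) * (T * S) := by simp only [pow_succ, pow_zero, one_mul, mul_one, mul_assoc, inv_mul_cancel_left, mul_inv_cancel_left]
      _ = S ^ 2 * (T * S) := by rw [r1 h1]
      _ = S * (S * T * S) := by simp only [pow_succ, pow_zero, one_mul, mul_one, mul_assoc, inv_mul_cancel_left, mul_inv_cancel_left]
      _ = S * T ^ 4 := by rw [r2 h2]
  rw [← h]
  simp only [pow_succ, pow_zero, one_mul, mul_one, mul_assoc, inv_mul_cancel_left, mul_inv_cancel_left]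

/-- `A_4 S = T B_1`. -/
theorem r4 (h1 : S ^ 3 = (S * T) ^ 2) (h2 : T ^ 5 = (S * T) ^ 2) : S * T ^ 4 * S = T * (S * T ^ 3 * S) * T := by
  calc S * T ^ 4 * S = S * (S * T * S) * S := by rw [r2 h2]
    _ = S ^ 2 * T * S ^ 2 := by simp only [pow_succ, pow_zero, one_mul, mul_one, mul_assoc, inv_mul_cancel_left, mul_inv_cancel_left]
    _ = (T * S * T) * T * (T * S * T) := by rw [r1 h1]
    _ = T * (S * T ^ 3 * S) * T := by simp only [pow_succ, pow_zero, one_mul, mul_one, mul_assoc, inv_mul_cancel_left, mul_inv_cancel_left]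

/-- `B_0 S = T B_2`. -/
theorem r5 (h1 : S ^ 3 = (S * T) ^ 2) (h2 : T ^ 5 = (S * T) ^ 2) :
    S * T ^ 3 * S * S = T * (S * T ^ 3 * S * T ^ 2) := by
  calc S * T ^ 3 * S * S = S * T ^ 3 * S ^ 2 := by simp only [pow_succ, pow_zero, one_mul, mul_one, mul_assoc, inv_mul_cancel_left, mul_inv_cancel_left]
    _ = S * T ^ 3 * (T * S * T) := by rw [r1 h1]
    _ = (S * T ^ 4 * S) * T := by simp only [pow_succ, pow_zero, one_mul, mul_one, mul_assoc, inv_mul_cancel_left, mul_inv_cancel_left]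
    _ = (T * (S * T ^ 3 * S) * T) * T := by rw [r4 h1 h2]
    _ = T * (S * T ^ 3 * S * T ^ 2) := by simp only [pow_succ, pow_zero, one_mul, mul_one, mul_assoc, inv_mul_cancel_left, mul_inv_cancel_left]

/-- `B_1 S = T ^ 5 A_2`. -/
theorem r6 (h1 : S ^ 3 = (S * T) ^ 2) (h2 : T ^ 5 = (S * T) ^ 2) :
    S * T ^ 3 * S * T * S = T ^ 5 * (S * T ^ 2) := by
  calc S * T ^ 3 * S * T * S = S * T ^ 3 * (S * T * S) := by simp only [pow_succ, pow_zero, one_mul, mul_one, mul_assoc, inv_mul_cancel_left, mul_inv_cancel_left]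
    _ = S * T ^ 3 * T ^ 4 := by rw [r2 h2]
    _ = (S * T ^ 5) * T ^ 2 := by simp only [pow_succ, pow_zero, one_mul, mul_one, mul_assoc, inv_mul_cancel_left, mul_inv_cancel_left]
    _ = (T ^ 5 * S) * T ^ 2 := by rw [cZ h1 h2]
    _ = T ^ 5 * (S * T ^ 2) := by simp only [pow_succ, pow_zero, one_mul, mul_one, mul_assoc, inv_mul_cancel_left, mul_inv_cancel_left]

/-- `B_2 S = T ^ 4 A_3`. -/
theorem r7 (h1 : S ^ 3 = (S * T) ^ 2) (h2 : T ^ 5 = (S * T) ^ 2) :
    S * T ^ 3 * S * T ^ 2 * S = T ^ 4 * (S * T ^ 3) := by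
  calc S * T ^ 3 * S * T ^ 2 * S = S * T ^ 3 * (S * T ^ 2 * S) := by simp only [pow_succ, pow_zero, one_mul, mul_one, mul_assoc, inv_mul_cancel_left, mul_inv_cancel_left]
    _ = S * T ^ 3 * (T⁻¹ * (S * T ^ 4)) := by rw [r3 h1 h2]
    _ = (S * T ^ 2 * S) * T ^ 4 := by simp only [pow_succ, pow_zero, one_mul, mul_one, mul_assoc, inv_mul_cancel_left, mul_inv_cancel_left]
    _ = (T⁻¹ * (S * T ^ 4)) * T ^ 4 := by rw [r3 h1 h2]
    _ = T⁻¹ * (S * T ^ 5) * T ^ 3 := by simp only [pow_succ, pow_zero, one_mul, mul_one, mul_assoc, inv_mul_cancel_left, mul_inv_cancel_left]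
    _ = T⁻¹ * (T ^ 5 * S) * T ^ 3 := by rw [cZ h1 h2]
    _ = T ^ 4 * (S * T ^ 3) := by simp only [pow_succ, pow_zero, one_mul, mul_one, mul_assoc, inv_mul_cancel_left, mul_inv_cancel_left]

/-- `B_3 S = T⁻¹ B_4`. -/
theorem r8 (h1 : S ^ 3 = (S * T) ^ 2) (h2 : T ^ 5 = (S * T) ^ 2) :
    S * T ^ 3 * S * T ^ 3 * S = T⁻¹ * (S * T ^ 3 * S * T ^ 4) := by
  have hc := cZ h1 h2
  have h : T * (S * T ^ 3 * S * T ^ 3 * S) = S * T ^ 3 * S * T ^ 4 := by
    calc T * (S * T ^ 3 * S * T ^ 3 * S) = (T * S * T) * (T ^ 2 * S * T ^ 3 * S) := by simp only [pow_succ, pow_zero, one_mul, mul_one, mul_assoc, inv_mul_cancel_left, mul_inv_cancel_left]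
      _ = S ^ 2 * (T ^ 2 * S * T ^ 3 * S) := by rw [r1 h1]
      _ = S * (S * T ^ 2 * S) * (T ^ 3 * S) := by simp only [pow_succ, pow_zero, one_mul, mul_one, mul_assoc, inv_mul_cancel_left, mul_inv_cancel_left]
      _ = S * (T⁻¹ * (S * T ^ 4)) * (T ^ 3 * S) := by rw [r3 h1 h2]
      _ = S * T⁻¹ * (S * T ^ 2) * (T ^ 5 * S) := by simp only [pow_succ, pow_zero, one_mul, mul_one, mul_assoc, inv_mul_cancel_left, mul_inv_cancel_left]
      _ = S * T⁻¹ * (S * T ^ 2) * (S * T ^ 5) := by rw [hc]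
      _ = S * T⁻¹ * (S * T ^ 2 * S) * T ^ 5 := by simp only [pow_succ, pow_zero, one_mul, mul_one, mul_assoc, inv_mul_cancel_left, mul_inv_cancel_left]
      _ = S * T⁻¹ * (T⁻¹ * (S * T ^ 4)) * T ^ 5 := by rw [r3 h1 h2]
      _ = S * T⁻¹ * T⁻¹ * (S * T ^ 5) * T ^ 4 := by simp only [pow_succ, pow_zero, one_mul, mul_one, mul_assoc, inv_mul_cancel_left, mul_inv_cancel_left]
      _ = S * T⁻¹ * T⁻¹ * (T ^ 5 * S) * T ^ 4 := by rw [hc]
      _ = S * T ^ 3 * S * T ^ 4 := by simp only [pow_succ, pow_zero, one_mul, mul_one, mul_assoc, inv_mul_cancel_left, mul_inv_cancel_left]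
  rw [← h]
  simp only [pow_succ, pow_zero, one_mul, mul_one, mul_assoc, inv_mul_cancel_left, mul_inv_cancel_left]

/-- `C = T C T`. -/
theorem r9 (h1 : S ^ 3 = (S * T) ^ 2) (h2 : T ^ 5 = (S * T) ^ 2) :
    S * T ^ 3 * S * T ^ 4 * S = T * (S * T ^ 3 * S * T ^ 4 * S) * T := by
  calc S * T ^ 3 * S * T ^ 4 * S = S * T ^ 3 * (S * T ^ 4 * S) := by simp only [pow_succ, pow_zero, one_mul, mul_one, mul_assoc, inv_mul_cancel_left, mul_inv_cancel_left]
    _ = S * T ^ 3 * (T * (S * T ^ 3 * S) * T) := by rw [r4 h1 h2]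
    _ = (S * T ^ 4 * S) * (T ^ 3 * S * T) := by simp only [pow_succ, pow_zero, one_mul, mul_one, mul_assoc, inv_mul_cancel_left, mul_inv_cancel_left]
    _ = (T * (S * T ^ 3 * S) * T) * (T ^ 3 * S * T) := by rw [r4 h1 h2]
    _ = T * (S * T ^ 3 * S * T ^ 4 * S) * T := by simp only [pow_succ, pow_zero, one_mul, mul_one, mul_assoc, inv_mul_cancel_left, mul_inv_cancel_left]

/-- `C S = T ^ 6 B_3`. -/
theorem r10 (h1 : S ^ 3 = (S * T) ^ 2) (h2 : T ^ 5 = (S * T) ^ 2) :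
    S * T ^ 3 * S * T ^ 4 * S * S = T ^ 6 * (S * T ^ 3 * S * T ^ 3) := by
  have hc := cZ h1 h2
  calc S * T ^ 3 * S * T ^ 4 * S * S = S * T ^ 3 * S * T ^ 4 * S ^ 2 := by simp only [pow_succ, pow_zero, one_mul, mul_one, mul_assoc, inv_mul_cancel_left, mul_inv_cancel_left]
    _ = S * T ^ 3 * S * T ^ 4 * (T * S * T) := by rw [r1 h1]
    _ = S * T ^ 3 * (S * T ^ 5) * (S * T) := by simp only [pow_succ, pow_zero, one_mul, mul_one, mul_assoc, inv_mul_cancel_left, mul_inv_cancel_left]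
    _ = S * T ^ 3 * (T ^ 5 * S) * (S * T) := by rw [hc]
    _ = (S * T ^ 5) * T ^ 3 * S * (S * T) := by simp only [pow_succ, pow_zero, one_mul, mul_one, mul_assoc, inv_mul_cancel_left, mul_inv_cancel_left]
    _ = (T ^ 5 * S) * T ^ 3 * S * (S * T) := by rw [hc]
    _ = T ^ 5 * (S * T ^ 3 * S * S) * T := by simp only [pow_succ, pow_zero, one_mul, mul_one, mul_assoc, inv_mul_cancel_left, mul_inv_cancel_left]
    _ = T ^ 5 * (T * (S * T ^ 3 * S * T ^ 2)) * T := by rw [r5 h1 h2]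
    _ = T ^ 6 * (S * T ^ 3 * S * T ^ 3) := by simp only [pow_succ, pow_zero, one_mul, mul_one, mul_assoc, inv_mul_cancel_left, mul_inv_cancel_left]

theorem t10 (h1 : S ^ 3 = (S * T) ^ 2) (h2 : T ^ 5 = (S * T) ^ 2) : T ^ 10 = 1 := by
  have hc := cZ h1 h2
  set C : E := S * T ^ 3 * S * T ^ 4 * S with hC
  have h9 : C = T * C * T := r9 h1 h2
  have h5 : C = T ^ 5 * C * T ^ 5 := by
    have e2 : T * C * T = T * (T * C * T) * T := congrArg (fun x => T * x * T) h9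
    have e3 : T * (T * C * T) * T = T * (T * (T * C * T) * T) * T := congrArg (fun x => T * x * T) e2
    have e4 : T * (T * (T * C * T) * T) * T = T * (T * (T * (T * C * T) * T) * T) * T :=
      congrArg (fun x => T * x * T) e3
    have e5 : T * (T * (T * (T * C * T) * T) * T) * T = T * (T * (T * (T * (T * C * T) * T) * T) * T) * T :=
      congrArg (fun x => T * x * T) e4
    refine (h9.trans (e2.trans (e3.trans (e4.trans e5)))).trans ?_
    simp only [pow_succ, pow_zero, one_mul, mul_assoc]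
  have hcC : C * T ^ 5 = T ^ 5 * C := by
    have c1 : Commute S (T ^ 5) := hc.symm
    have c2 : ∀ n : ℕ, Commute (T ^ n) (T ^ 5) := fun n => Commute.pow_pow_self T n 5
    exact ((((c1.mul_left (c2 3)).mul_left c1).mul_left (c2 4)).mul_left c1).eq
  have h10 : T ^ 10 * C = 1 * C := by
    rw [one_mul]
    calc T ^ 10 * C = T ^ 5 * (T ^ 5 * C) := by simp only [pow_succ, pow_zero, one_mul, mul_one, mul_assoc, inv_mul_cancel_left, mul_inv_cancel_left]
      _ = T ^ 5 * (C * T ^ 5) := by rw [hcC]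
      _ = T ^ 5 * C * T ^ 5 := by simp only [pow_succ, pow_zero, one_mul, mul_one, mul_assoc, inv_mul_cancel_left, mul_inv_cancel_left]
      _ = C := h5.symm
  exact mul_right_cancel h10

theorem tinv (h1 : S ^ 3 = (S * T) ^ 2) (h2 : T ^ 5 = (S * T) ^ 2) : T⁻¹ = T ^ 9 := by
  rw [inv_eq_iff_mul_eq_one]
  calc T * T ^ 9 = T ^ 10 := by simp only [pow_succ, pow_zero, one_mul, mul_one, mul_assoc, inv_mul_cancel_left, mul_inv_cancel_left]
    _ = 1 := t10 h1 h2

theorem sinv (h1 : S ^ 3 = (S * T) ^ 2) (h2 : T ^ 5 = (S * T) ^ 2) : S⁻¹ = S ^ 5 := by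
  rw [inv_eq_iff_mul_eq_one]
  calc S * S ^ 5 = (S ^ 3) * (S ^ 3) := by simp only [pow_succ, pow_zero, one_mul, mul_one, mul_assoc, inv_mul_cancel_left, mul_inv_cancel_left]
    _ = T ^ 5 * T ^ 5 := by rw [h1, ← h2]
    _ = T ^ 10 := by simp only [pow_succ, pow_zero, one_mul, mul_one, mul_assoc, inv_mul_cancel_left, mul_inv_cancel_left]
    _ = 1 := t10 h1 h2

/-- The set of the normal forms. -/
def NF (S T : E) (x : E) : Prop := ∃ (k : ℕ) (j : Fin 12), x = T ^ k * wd S T j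

theorem nf_of {x : E} (k : ℕ) {y : E} (hy : NF S T y) (h : x = T ^ k * y) : NF S T x := by
  obtain ⟨l, j, rfl⟩ := hy
  exact ⟨k + l, j, by rw [h, pow_add, mul_assoc]⟩

theorem nf_wd_S (h1 : S ^ 3 = (S * T) ^ 2) (h2 : T ^ 5 = (S * T) ^ 2) (j : Fin 12) : NF S T (wd S T j * S) := by
  have h9 := tinv h1 h2
  fin_cases j
  · exact ⟨0, 1, by simp [wd]⟩
  · refine ⟨1, 2, ?_⟩
    change S * S = T ^ 1 * (S * T)
    rw [pow_one, ← mul_assoc, r1 h1, pow_two]
  · refine ⟨4, 0, ?_⟩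
    change S * T * S = T ^ 4 * 1
    rw [r2 h2, mul_one]
  · refine ⟨9, 5, ?_⟩
    change S * T ^ 2 * S = T ^ 9 * (S * T ^ 4)
    rw [r3 h1 h2, h9]
  · refine ⟨0, 6, ?_⟩
    change S * T ^ 3 * S = T ^ 0 * (S * T ^ 3 * S)
    rw [pow_zero, one_mul]
  · refine ⟨1, 7, ?_⟩
    change S * T ^ 4 * S = T ^ 1 * (S * T ^ 3 * S * T)
    rw [r4 h1 h2, pow_one]
    simp only [pow_succ, pow_zero, one_mul, mul_one, mul_assoc, inv_mul_cancel_left, mul_inv_cancel_left]
  · refine ⟨1, 8, ?_⟩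
    change S * T ^ 3 * S * S = T ^ 1 * (S * T ^ 3 * S * T ^ 2)
    rw [r5 h1 h2, pow_one]
  · refine ⟨5, 3, ?_⟩
    change S * T ^ 3 * S * T * S = T ^ 5 * (S * T ^ 2)
    exact r6 h1 h2
  · refine ⟨4, 4, ?_⟩
    change S * T ^ 3 * S * T ^ 2 * S = T ^ 4 * (S * T ^ 3)
    exact r7 h1 h2
  · refine ⟨9, 10, ?_⟩
    change S * T ^ 3 * S * T ^ 3 * S = T ^ 9 * (S * T ^ 3 * S * T ^ 4)
    rw [r8 h1 h2, h9]
  · refine ⟨0, 11, ?_⟩
    change S * T ^ 3 * S * T ^ 4 * S = T ^ 0 * (S * T ^ 3 * S * T ^ 4 * S)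
    rw [pow_zero, one_mul]
  · refine ⟨6, 9, ?_⟩
    change S * T ^ 3 * S * T ^ 4 * S * S = T ^ 6 * (S * T ^ 3 * S * T ^ 3)
    exact r10 h1 h2

theorem nf_wd_T (h1 : S ^ 3 = (S * T) ^ 2) (h2 : T ^ 5 = (S * T) ^ 2) (j : Fin 12) : NF S T (wd S T j * T) := by
  have h9 := tinv h1 h2
  have hc := cZ h1 h2
  fin_cases j
  · refine ⟨1, 0, ?_⟩
    change 1 * T = T ^ 1 * 1
    simp only [pow_succ, pow_zero, one_mul, mul_one, mul_assoc, inv_mul_cancel_left, mul_inv_cancel_left]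
  · refine ⟨0, 2, ?_⟩
    change S * T = T ^ 0 * (S * T)
    simp only [pow_succ, pow_zero, one_mul, mul_one, mul_assoc, inv_mul_cancel_left, mul_inv_cancel_left]
  · refine ⟨0, 3, ?_⟩
    change S * T * T = T ^ 0 * (S * T ^ 2)
    simp only [pow_succ, pow_zero, one_mul, mul_one, mul_assoc, inv_mul_cancel_left, mul_inv_cancel_left]
  · refine ⟨0, 4, ?_⟩
    change S * T ^ 2 * T = T ^ 0 * (S * T ^ 3)
    simp only [pow_succ, pow_zero, one_mul, mul_one, mul_assoc, inv_mul_cancel_left, mul_inv_cancel_left]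
  · refine ⟨0, 5, ?_⟩
    change S * T ^ 3 * T = T ^ 0 * (S * T ^ 4)
    simp only [pow_succ, pow_zero, one_mul, mul_one, mul_assoc, inv_mul_cancel_left, mul_inv_cancel_left]
  · refine ⟨5, 1, ?_⟩
    change S * T ^ 4 * T = T ^ 5 * S
    rw [hc]
    simp only [pow_succ, pow_zero, one_mul, mul_one, mul_assoc, inv_mul_cancel_left, mul_inv_cancel_left]
  · refine ⟨0, 7, ?_⟩
    change S * T ^ 3 * S * T = T ^ 0 * (S * T ^ 3 * S * T)
    simp only [pow_succ, pow_zero, one_mul, mul_one, mul_assoc, inv_mul_cancel_left, mul_inv_cancel_left]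
  · refine ⟨0, 8, ?_⟩
    change S * T ^ 3 * S * T * T = T ^ 0 * (S * T ^ 3 * S * T ^ 2)
    simp only [pow_succ, pow_zero, one_mul, mul_one, mul_assoc, inv_mul_cancel_left, mul_inv_cancel_left]
  · refine ⟨0, 9, ?_⟩
    change S * T ^ 3 * S * T ^ 2 * T = T ^ 0 * (S * T ^ 3 * S * T ^ 3)
    simp only [pow_succ, pow_zero, one_mul, mul_one, mul_assoc, inv_mul_cancel_left, mul_inv_cancel_left]
  · refine ⟨0, 10, ?_⟩
    change S * T ^ 3 * S * T ^ 3 * T = T ^ 0 * (S * T ^ 3 * S * T ^ 4)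
    simp only [pow_succ, pow_zero, one_mul, mul_one, mul_assoc, inv_mul_cancel_left, mul_inv_cancel_left]
  · refine ⟨5, 6, ?_⟩
    change S * T ^ 3 * S * T ^ 4 * T = T ^ 5 * (S * T ^ 3 * S)
    calc S * T ^ 3 * S * T ^ 4 * T = S * T ^ 3 * (S * T ^ 5) := by simp only [pow_succ, pow_zero, one_mul, mul_one, mul_assoc, inv_mul_cancel_left, mul_inv_cancel_left]
      _ = S * T ^ 3 * (T ^ 5 * S) := by rw [hc]
      _ = (S * T ^ 5) * T ^ 3 * S := by simp only [pow_succ, pow_zero, one_mul, mul_one, mul_assoc, inv_mul_cancel_left, mul_inv_cancel_left]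
      _ = (T ^ 5 * S) * T ^ 3 * S := by rw [hc]
      _ = T ^ 5 * (S * T ^ 3 * S) := by simp only [pow_succ, pow_zero, one_mul, mul_one, mul_assoc, inv_mul_cancel_left, mul_inv_cancel_left]
  · refine ⟨9, 11, ?_⟩
    change S * T ^ 3 * S * T ^ 4 * S * T = T ^ 9 * (S * T ^ 3 * S * T ^ 4 * S)
    rw [← h9]
    conv_rhs => rw [r9 h1 h2]
    simp only [pow_succ, pow_zero, one_mul, mul_one, mul_assoc, inv_mul_cancel_left, mul_inv_cancel_left]

theorem nf_mul_S (h1 : S ^ 3 = (S * T) ^ 2) (h2 : T ^ 5 = (S * T) ^ 2) {x : E} (hx : NF S T x) : NF S T (x * S) := by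
  obtain ⟨k, j, rfl⟩ := hx
  exact nf_of k (nf_wd_S h1 h2 j) (by rw [mul_assoc])

theorem nf_mul_T (h1 : S ^ 3 = (S * T) ^ 2) (h2 : T ^ 5 = (S * T) ^ 2) {x : E} (hx : NF S T x) : NF S T (x * T) := by
  obtain ⟨k, j, rfl⟩ := hx
  exact nf_of k (nf_wd_T h1 h2 j) (by rw [mul_assoc])

theorem nf_mul_Spow (h1 : S ^ 3 = (S * T) ^ 2) (h2 : T ^ 5 = (S * T) ^ 2) {x : E} (hx : NF S T x) (n : ℕ) :
    NF S T (x * S ^ n) := by
  induction n with
  | zero => simpa using hx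
  | succ n ih =>
    rw [pow_succ, ← mul_assoc]
    exact nf_mul_S h1 h2 ih

theorem nf_mul_Tpow (h1 : S ^ 3 = (S * T) ^ 2) (h2 : T ^ 5 = (S * T) ^ 2) {x : E} (hx : NF S T x) (n : ℕ) :
    NF S T (x * T ^ n) := by
  induction n with
  | zero => simpa using hx
  | succ n ih =>
    rw [pow_succ, ← mul_assoc]
    exact nf_mul_T h1 h2 ih

theorem nf_closure (h1 : S ^ 3 = (S * T) ^ 2) (h2 : T ^ 5 = (S * T) ^ 2) {x : E}
    (hx : x ∈ Subgroup.closure ({S, T} : Set E)) : NF S T x := by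
  induction hx using Subgroup.closure_induction_right with
  | one => exact ⟨0, 0, by simp [wd]⟩
  | mul_right x hx y hy ih =>
    rcases hy with rfl | rfl
    · exact nf_mul_S h1 h2 ih
    · exact nf_mul_T h1 h2 ih
  | mul_inv_cancel x hx y hy ih =>
    rcases hy with rfl | rfl
    · rw [sinv h1 h2]
      exact nf_mul_Spow h1 h2 ih 5
    · rw [tinv h1 h2]
      exact nf_mul_Tpow h1 h2 ih 9

/-- Normal form with exponent `< 10`. -/
theorem nf_closure' (h1 : S ^ 3 = (S * T) ^ 2) (h2 : T ^ 5 = (S * T) ^ 2) {x : E}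
    (hx : x ∈ Subgroup.closure ({S, T} : Set E)) : ∃ k : ℕ, k < 10 ∧ ∃ j : Fin 12, x = T ^ k * wd S T j := by
  obtain ⟨k, j, h⟩ := nf_closure h1 h2 hx
  refine ⟨k % 10, Nat.mod_lt _ (by norm_num), j, ?_⟩
  rw [h]
  congr 1
  conv_lhs => rw [← Nat.div_add_mod k 10]
  rw [pow_add, pow_mul, t10 h1 h2, one_pow, one_mul]

end Rel

theorem map_wd {G G' : Type} [Group G] [Group G'] (f : G →* G') (s t : G) (j : Fin 12) :
    f (wd s t j) = wd (f s) (f t) j := by
  fin_cases j <;> simp [wd]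

end SplAux

open SplAux

theorem pSpl : TSpl := by
  intro G _ s t h1 h2 hgen hinj
  refine ⟨?_, ?_⟩
  · intro E _ π hπ hker
    obtain ⟨S₀, hS₀⟩ := hπ s
    obtain ⟨T₀, hT₀⟩ := hπ t
    set P : E := (S₀ * T₀) ^ 2 with hP
    have hPm : π P = (s * t) ^ 2 := by rw [hP, map_pow, map_mul, hS₀, hT₀]
    set m₁ : E := S₀ ^ 3 * P⁻¹ with hm₁
    set m₂ : E := T₀ ^ 5 * P⁻¹ with hm₂
    have k₁ : π m₁ = 1 := by rw [hm₁, map_mul, map_pow, map_inv, hPm, hS₀, h1, mul_inv_cancel]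
    have k₂ : π m₂ = 1 := by rw [hm₂, map_mul, map_pow, map_inv, hPm, hT₀, h2, mul_inv_cancel]
    have c₁ : ∀ e : E, Commute m₁ e := fun e => hker m₁ k₁ e
    have c₂ : ∀ e : E, Commute m₂ e := fun e => hker m₂ k₂ e
    have e₁ : S₀ ^ 3 = m₁ * P := by rw [hm₁, inv_mul_cancel_right]
    have e₂ : T₀ ^ 5 = m₂ * P := by rw [hm₂, inv_mul_cancel_right]
    set b : E := m₁ ^ 2 * m₂ with hb
    set a : E := m₁ ^ 3 * m₂ ^ 2 with ha
    have ca : ∀ e : E, Commute a e := fun e => ((c₁ e).pow_left 3).mul_left ((c₂ e).pow_left 2)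
    have cb : ∀ e : E, Commute b e := fun e => ((c₁ e).pow_left 2).mul_left (c₂ e)
    have kab : π a = 1 := by rw [ha, map_mul, map_pow, map_pow, k₁, k₂, one_pow, one_pow, mul_one]
    have kb : π b = 1 := by rw [hb, map_mul, map_pow, k₁, k₂, one_pow, mul_one]
    have f1 : a * m₁ = b ^ 2 := by
      rw [hb, (((c₁ m₂).pow_left 2)).mul_pow, ha, ← pow_mul, mul_assoc, ((c₂ m₁).pow_left 2).eq, ← mul_assoc,
        ← pow_succ]
    have f2 : b ^ 3 * m₂ = a ^ 2 := by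
      rw [hb, (((c₁ m₂).pow_left 2)).mul_pow, ha, (((c₁ (m₂ ^ 2)).pow_left 3)).mul_pow, ← pow_mul, ← pow_mul, ← pow_mul,
        mul_assoc, ← pow_succ]
    have R0 : (a * S₀ * (b * T₀)) ^ 2 = a ^ 2 * b ^ 2 * P := by
      have : a * S₀ * (b * T₀) = (a * b) * (S₀ * T₀) := by
        rw [mul_assoc, ← mul_assoc S₀ b T₀, ← (cb S₀).eq]
        simp only [pow_succ, pow_zero, one_mul, mul_one, mul_assoc, inv_mul_cancel_left, mul_inv_cancel_left]
      rw [this, ((ca (S₀ * T₀)).mul_left (cb (S₀ * T₀))).mul_pow, (ca b).mul_pow]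
    have R1 : (a * S₀) ^ 3 = (a * S₀ * (b * T₀)) ^ 2 := by
      rw [R0, (ca S₀).mul_pow, e₁, ← mul_assoc, pow_succ a 2, mul_assoc (a ^ 2), f1]
    have R2 : (b * T₀) ^ 5 = (a * S₀ * (b * T₀)) ^ 2 := by
      rw [R0, (cb T₀).mul_pow, e₂, ← mul_assoc, pow_add b 2 3, mul_assoc (b ^ 2), f2, ((ca (b ^ 2)).pow_left 2).eq]
    set S : E := a * S₀ with hS
    set T : E := b * T₀ with hT
    have pS : π S = s := by rw [hS, map_mul, kab, one_mul, hS₀]
    have pT : π T = t := by rw [hT, map_mul, kb, one_mul, hT₀]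
    set H : Subgroup E := Subgroup.closure ({S, T} : Set E) with hH
    set f : H →* G := π.comp H.subtype with hf
    have hfi : Function.Injective f := by
      rw [injective_iff_map_eq_one]
      rintro ⟨x, hx⟩ hx1
      obtain ⟨k, hk, j, hj⟩ := nf_closure' R1 R2 hx
      have h0 : t ^ k * wd s t j = 1 := by
        have : π x = 1 := hx1
        rw [hj, map_mul, map_pow, map_wd, pS, pT] at this
        exact this
      obtain ⟨rfl, rfl⟩ := hinj k hk j h0
      apply Subtype.ext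
      change x = 1
      rw [hj]
      simp [wd]
    have hfs : Function.Surjective f := by
      rw [← MonoidHom.range_eq_top, hf, MonoidHom.range_comp, Subgroup.range_subtype, hH, MonoidHom.map_closure,
        Set.image_pair, pS, pT, hgen]
    set e : H ≃* G := MulEquiv.ofBijective f ⟨hfi, hfs⟩ with he
    refine ⟨H.subtype.comp e.symm.toMonoidHom, fun g => ?_⟩
    exact e.apply_symm_apply g
  · intro C _ φ g
    have g1 : φ s ^ 3 = (φ s * φ t) ^ 2 := by rw [← map_pow, h1, map_pow, map_mul]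
    have g2 : φ t ^ 5 = (φ s * φ t) ^ 2 := by rw [← map_pow, h2, map_pow, map_mul]
    rw [mul_pow] at g1 g2
    have g3 : φ s = φ t ^ 2 := by
      rw [pow_succ] at g1
      exact mul_left_cancel g1
    have g4 : φ t = 1 := by
      rw [g3] at g2
      have : φ t ^ 5 * φ t = φ t ^ 5 * 1 := by
        rw [mul_one]
        conv_rhs => rw [g2]
        simp only [pow_succ, pow_zero, one_mul, mul_one, mul_assoc, inv_mul_cancel_left, mul_inv_cancel_left]
      exact mul_left_cancel this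
    have g5 : φ s = 1 := by rw [g3, g4, one_pow]
    have : (⊤ : Subgroup G) ≤ φ.ker := by
      rw [← hgen, Subgroup.closure_le]
      rintro x (rfl | rfl)
      · exact g5
      · exact g4
    exact this (Subgroup.mem_top g)

end Pool.Agent.MPaafd8a.A2
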