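import Pool.Agent.Lib.MP_aafd8a_gt_A2.Spec

/-!
# Square, second half
-/

set_option autoImplicit false

open Topology

namespace Pool.Agent.MPaafd8a.A2

namespace Sq2M

/-- the projection to the unit interval -/
noncomputable def pj (x : ℝ) : unitInterval := Set.projIcc 0 1 zero_le_one x

theorem pj_cont : Continuous pj := continuous_projIcc (h := zero_le_one)

theorem pj_of {x : ℝ} (h : x ∈ unitInterval) : pj x = ⟨x, h⟩ := Set.projIcc_of_mem zero_le_one h

theorem pj_zero : pj 0 = 0 := pj_of ⟨le_rfl, zero_le_one⟩

theorem pj_one : pj 1 = 1 := pj_of ⟨zero_le_one, le_rfl⟩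

/-- the first weight -/
noncomputable def up (x : unitInterval × unitInterval) : ℝ := (x.2 : ℝ) * (1 - x.1)

/-- the second weight -/
noncomputable def dn (x : unitInterval × unitInterval) : ℝ := (x.1 : ℝ) * (1 - x.2)

theorem up_cont : Continuous up := by
  unfold up
  fun_prop

theorem dn_cont : Continuous dn := by
  unfold dn
  fun_prop

theorem up_nonneg (x : unitInterval × unitInterval) : 0 ≤ up x :=
  mul_nonneg x.2.2.1 (sub_nonneg.2 x.1.2.2)

theorem dn_nonneg (x : unitInterval × unitInterval) : 0 ≤ dn x :=
  mul_nonneg x.1.2.1 (sub_nonneg.2 x.2.2.2)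

/-- the height in the homotopy -/
noncomputable def vv (x : unitInterval × unitInterval) : unitInterval := pj (up x / (up x + dn x))

/-- the time in the homotopy -/
noncomputable def hh (x : unitInterval × unitInterval) : unitInterval := pj (((x.1 : ℝ) + x.2) / 2)

theorem hh_cont : Continuous hh := by
  have := pj_cont
  unfold hh
  fun_prop

theorem vv_contAt (x : unitInterval × unitInterval) (hx : up x + dn x ≠ 0) : ContinuousAt vv x :=
  pj_cont.continuousAt.comp
    (up_cont.continuousAt.div (up_cont.add dn_cont).continuousAt hx)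

theorem corner (x : unitInterval × unitInterval) (h : up x + dn x = 0) : hh x = 0 ∨ hh x = 1 := by
  have h1 : up x = 0 := le_antisymm (by linarith [dn_nonneg x]) (up_nonneg x)
  have h2 : dn x = 0 := le_antisymm (by linarith [up_nonneg x]) (dn_nonneg x)
  unfold up at h1
  unfold dn at h2
  unfold hh
  rcases mul_eq_zero.1 h1 with h3 | h3
  · rcases mul_eq_zero.1 h2 with h4 | h4
    · left
      rw [h3, h4, add_zero, zero_div, pj_zero]
    · exfalso
      linarith
  · rcases mul_eq_zero.1 h2 with h4 | h4
    · exfalso
      linarith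
    · right
      have e1 : (x.1 : ℝ) = 1 := by linarith
      have e2 : (x.2 : ℝ) = 1 := by linarith
      rw [e1, e2]
      have e3 : ((1 : ℝ) + 1) / 2 = 1 := by norm_num
      rw [e3, pj_one]

theorem cont_of (Z : Type) [TopologicalSpace Z] (H : unitInterval × unitInterval → Z) (hH : Continuous H)
    (a d : Z) (h0 : ∀ v, H (v, 0) = a) (h1 : ∀ v, H (v, 1) = d) :
    Continuous fun x => H (vv x, hh x) := by
  rw [continuous_iff_continuousAt]
  intro x
  by_cases hx : up x + dn x = 0
  · have key : ∃ e, ∀ v, H (v, hh x) = e := by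
      rcases corner x hx with h | h
      · exact ⟨a, fun v => by rw [h, h0]⟩
      · exact ⟨d, fun v => by rw [h, h1]⟩
    obtain ⟨e, he⟩ := key
    change Filter.Tendsto (fun x => H (vv x, hh x)) (𝓝 x) (𝓝 (H (vv x, hh x)))
    rw [he]
    intro O hO
    have h2 : ∀ᶠ τ in 𝓝 (hh x), ∀ v ∈ (Set.univ : Set unitInterval), H (v, τ) ∈ O := by
      refine isCompact_univ.eventually_forall_of_forall_eventually fun v _ => ?_
      have h3 : Filter.Tendsto (fun z : unitInterval × unitInterval => H (z.2, z.1)) (𝓝 (hh x, v))
          (𝓝 (H (v, hh x))) :=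
        (hH.comp (continuous_snd.prodMk continuous_fst)).continuousAt
      rw [he] at h3
      exact h3 hO
    exact (hh_cont.continuousAt.eventually h2).mono fun y hy => hy (vv y) trivial
  · exact hH.continuousAt.comp ((vv_contAt x hx).prodMk hh_cont.continuousAt)

theorem hh_eq (x : unitInterval × unitInterval) : ((hh x : unitInterval) : ℝ) = ((x.1 : ℝ) + x.2) / 2 := by
  have h : ((x.1 : ℝ) + x.2) / 2 ∈ unitInterval := by
    have h1 := x.1.2.1
    have h2 := x.1.2.2
    have h3 := x.2.2.1
    have h4 := x.2.2.2
    constructor <;> linarith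
  unfold hh
  rw [pj_of h]

end Sq2M

open Sq2M in
theorem pSq2 : TSq2 := by
  intro Z _ a b c d p q r u hom
  obtain ⟨H⟩ := hom
  have hz : ∀ v, H (v, 0) = a := fun v => H.source v
  have ho : ∀ v, H (v, 1) = d := fun v => H.target v
  have hb : ∀ t, H (0, t) = (p.trans q) t := fun t => H.apply_zero t
  have ht : ∀ t, H (1, t) = (r.trans u) t := fun t => H.apply_one t
  have hc := cont_of Z (fun x => H x) H.continuous a d hz ho
  refine ⟨⟨_, hc⟩, fun t => ?_, fun t => ?_, fun t => ?_, fun t => ?_⟩
  · change H (vv (t, 0), hh (t, 0)) = p t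
    have e1 : vv (t, 0) = 0 := by
      unfold vv Sq2M.up
      simp only [Set.Icc.coe_zero, zero_mul, zero_div]
      exact pj_zero
    have e2 := hh_eq (t, 0)
    simp only [Set.Icc.coe_zero, add_zero] at e2
    rw [e1, hb, Path.trans_apply, dif_pos (by rw [e2]; linarith [t.2.2])]
    congr 1
    apply Subtype.ext
    change 2 * ((hh (t, 0) : unitInterval) : ℝ) = t
    rw [e2]
    ring
  · change H (vv (1, t), hh (1, t)) = q t
    have e1 : vv (1, t) = 0 := by
      unfold vv Sq2M.up
      simp only [Set.Icc.coe_one, sub_self, mul_zero, zero_div]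
      exact pj_zero
    have e2 := hh_eq (1, t)
    simp only [Set.Icc.coe_one] at e2
    rw [e1, hb, Path.trans_apply]
    by_cases h : ((hh (1, t) : unitInterval) : ℝ) ≤ 1 / 2
    · have h3 : (t : ℝ) = 0 := by
        rw [e2] at h
        exact le_antisymm (by linarith) t.2.1
      have h4 : t = 0 := Subtype.ext h3
      have h5 : 2 * ((hh (1, t) : unitInterval) : ℝ) = 1 := by
        rw [e2, h3]
        norm_num
      rw [dif_pos h]
      subst h4
      rw [q.source]
      have h6 : (⟨2 * ((hh (1, 0) : unitInterval) : ℝ), (unitInterval.mul_pos_mem_iff zero_lt_two).2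
          ⟨(hh (1, 0)).2.1, h⟩⟩ : unitInterval) = 1 := Subtype.ext h5
      rw [h6, p.target]
    · rw [dif_neg h]
      congr 1
      apply Subtype.ext
      change 2 * ((hh (1, t) : unitInterval) : ℝ) - 1 = t
      rw [e2]
      ring
  · change H (vv (0, t), hh (0, t)) = r t
    have e2 := hh_eq (0, t)
    simp only [Set.Icc.coe_zero, zero_add] at e2
    by_cases h : (t : ℝ) = 0
    · have h4 : t = 0 := Subtype.ext h
      subst h4
      have e3 : hh (0, 0) = 0 := Subtype.ext (by rw [e2]; simp)
      rw [e3, hz, r.source]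
    · have e1 : vv (0, t) = 1 := by
        unfold vv Sq2M.up dn
        simp only [Set.Icc.coe_zero, sub_zero, mul_one, zero_mul, add_zero]
        rw [div_self h]
        exact pj_one
      rw [e1, ht, Path.trans_apply, dif_pos (by rw [e2]; linarith [t.2.2])]
      congr 1
      apply Subtype.ext
      change 2 * ((hh (0, t) : unitInterval) : ℝ) = t
      rw [e2]
      ring
  · change H (vv (t, 1), hh (t, 1)) = u t
    have e2 := hh_eq (t, 1)
    simp only [Set.Icc.coe_one] at e2
    by_cases h : (t : ℝ) = 1
    · have h4 : t = 1 := Subtype.ext h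
      subst h4
      have e3 : hh (1, 1) = 1 := Subtype.ext (by rw [e2]; simp)
      rw [e3, ho, u.target]
    · have e1 : vv (t, 1) = 1 := by
        unfold vv Sq2M.up dn
        simp only [Set.Icc.coe_one, sub_self, one_mul, mul_zero, add_zero]
        rw [div_self (fun h5 => h (by linarith))]
        exact pj_one
      rw [e1, ht, Path.trans_apply]
      by_cases h6 : ((hh (t, 1) : unitInterval) : ℝ) ≤ 1 / 2
      · have h3 : (t : ℝ) = 0 := by
          rw [e2] at h6
          exact le_antisymm (by linarith) t.2.1
        have h4 : t = 0 := Subtype.ext h3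
        have h5 : 2 * ((hh (t, 1) : unitInterval) : ℝ) = 1 := by
          rw [e2, h3]
          norm_num
        rw [dif_pos h6]
        subst h4
        rw [u.source]
        have h7 : (⟨2 * ((hh (0, 1) : unitInterval) : ℝ), (unitInterval.mul_pos_mem_iff zero_lt_two).2
            ⟨(hh (0, 1)).2.1, h6⟩⟩ : unitInterval) = 1 := Subtype.ext h5
        rw [h7, r.target]
      · rw [dif_neg h6]
        congr 1
        apply Subtype.ext
        change 2 * ((hh (t, 1) : unitInterval) : ℝ) - 1 = t
        rw [e2]
        ring

end Pool.Agent.MPaafd8a.A2
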