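import Pool.Agent.Lib.MP_aafd8a_gt_A2.Spec

/-!
# MP_aafd8a_gt, block (A-ii), Sur: surjectivity on the fundamental group
-/

set_option autoImplicit false

open Topology

namespace Pool.Agent.MPaafd8a.A2

namespace SurAux

variable {X Y : Type} [TopologicalSpace X] [TopologicalSpace Y]

/-- the fundamental group at the other end of a path is commutative -/
private theorem comm_of_path {x y : Y} (p : Path x y)
    (h : ∀ a b : FundamentalGroup Y y, a * b = b * a) (a b : FundamentalGroup Y x) :
    a * b = b * a := by
  have e := FundamentalGroup.fundamentalGroupMulEquivOfPath p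
  apply e.injective
  rw [map_mul, map_mul]
  exact h _ _

/-- a homomorphism from a perfect group to a commutative one is trivial -/
private theorem triv {G C : Type} [Group G] [Group C] (hG : Perf G)
    (hC : ∀ a b : C, a * b = b * a) (φ : G →* C) (g : G) : φ g = 1 := by
  let cg : CommGroup C := { (inferInstance : Group C) with mul_comm := hC }
  exact @hG C cg φ g

/-- the loop in the homotopy fibre -/
private noncomputable def lp (J : C(X, Y)) (yc : Y) (q : HF J yc) (l : Path (pr J yc q) (pr J yc q))
    (Q : C(unitInterval × unitInterval, Y)) (h0 : ∀ t, Q (t, 0) = J (l t))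
    (h1 : ∀ t, Q (1, t) = q.1.2 t) (h2 : ∀ t, Q (0, t) = q.1.2 t) (h3 : ∀ t, Q (t, 1) = yc) :
    Path q q where
  toFun θ := ⟨(l θ, Q.curry θ), h0 θ, h3 θ⟩
  continuous_toFun := by
    refine Continuous.subtype_mk ?_ _
    exact l.continuous.prodMk Q.curry.continuous
  source' := by
    apply Subtype.ext
    refine Prod.ext l.source ?_
    ext t
    exact h2 t
  target' := by
    apply Subtype.ext
    refine Prod.ext l.target ?_
    ext t
    exact h1 t

end SurAux

open SurAux

theorem pSur (hS : TSq2) : TSur := by
  intro X Y _ _ J yc hcomm q hperf c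
  let ω : Path (J (pr J yc q)) yc := ⟨q.1.2, q.2.1, q.2.2⟩
  have hc : ∀ a b : FundamentalGroup Y (J (pr J yc q)), a * b = b * a := comm_of_path ω hcomm
  obtain ⟨l, hl⟩ : ∃ l : Path (pr J yc q) (pr J yc q), Path.Homotopic.Quotient.mk l = c :=
    Path.Homotopic.Quotient.mk_surjective c
  have h1 : FundamentalGroup.map J (pr J yc q) c = 1 := triv hperf hc _ c
  have h2 : Path.Homotopic.Quotient.mk (l.map J.continuous) =
      Path.Homotopic.Quotient.mk (Path.refl (J (pr J yc q))) := by
    rw [← hl] at h1
    exact h1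
  have h3 : (l.map J.continuous).Homotopic (Path.refl (J (pr J yc q))) :=
    Path.Homotopic.Quotient.exact h2
  have h4 : ((l.map J.continuous).trans ω).Homotopic (ω.trans (Path.refl yc)) := by
    have a1 : ((l.map J.continuous).trans ω).Homotopic ((Path.refl _).trans ω) :=
      h3.hcomp (Path.Homotopic.refl ω)
    have a2 : ((Path.refl _).trans ω).Homotopic ω := ⟨Path.Homotopy.reflTrans ω⟩
    have a3 : (ω.trans (Path.refl yc)).Homotopic ω := ⟨Path.Homotopy.transRefl ω⟩
    exact (a1.trans a2).trans a3.symm
  obtain ⟨Q, q0, q1, q2, q3⟩ := hS Y _ _ _ _ (l.map J.continuous) ω ω (Path.refl yc) h4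
  refine ⟨Path.Homotopic.Quotient.mk (lp J yc q l Q q0 q1 q2 q3), ?_⟩
  rw [← hl]
  rfl

end Pool.Agent.MPaafd8a.A2
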