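import Pool.Agent.Lib.MP_aafd8a_gt_A2.Spec

/-!
# Module `Th1`: every regular simplex is an image of `v0`
-/

set_option autoImplicit false

open Topology RealInnerProductSpace Quaternion

namespace Pool.Agent.MPaafd8a.A2

namespace Th1Aux

/-- the linear combination with the coefficients `⟪v0 i, x⟫` -/
private noncomputable def RR (y : Fin 5 → ℍ[ℝ]) : ℍ[ℝ] →ₗ[ℝ] ℍ[ℝ] where
  toFun x := (4 / 5 : ℝ) • ∑ i, ⟪v0 i, x⟫ • y i
  map_add' x x' := by
    have h : ∀ i, ⟪v0 i, x + x'⟫ • y i = ⟪v0 i, x⟫ • y i + ⟪v0 i, x'⟫ • y i := fun i => by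
      rw [inner_add_right, add_smul]
    simp only [h]
    rw [Finset.sum_add_distrib, smul_add]
  map_smul' c x := by
    have h : ∀ i, ⟪v0 i, c • x⟫ • y i = c • (⟪v0 i, x⟫ • y i) := fun i => by
      rw [real_inner_smul_right, mul_smul]
    simp only [h]
    rw [RingHom.id_apply, ← Finset.smul_sum, smul_comm]

private lemma RR_apply (y : Fin 5 → ℍ[ℝ]) (x : ℍ[ℝ]) :
    RR y x = (4 / 5 : ℝ) • ∑ i, ⟪v0 i, x⟫ • y i := rfl

private lemma RR_v0 (x : ℍ[ℝ]) : RR v0 x = x := by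
  have h5 : √5 * √5 = (5 : ℝ) := Real.mul_self_sqrt (by norm_num)
  have h5' : √5 ^ 2 = (5 : ℝ) := Real.sq_sqrt (by norm_num)
  rw [RR_apply, Fin.sum_univ_five]
  simp only [inner_coords]
  obtain ⟨p, q, r, s⟩ := x
  apply Quaternion.ext
  · simp [v0]
    ring_nf
  · simp [v0]
    ring_nf
    try (rw [h5']; ring)
  · simp [v0]
    ring_nf
    try (rw [h5']; ring)
  · simp [v0]
    ring_nf
    try (rw [h5']; ring)

private lemma norm_RR (y : Fin 5 → ℍ[ℝ]) (x : ℍ[ℝ]) :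
    ‖RR y x‖ ^ 2 = (16 / 25 : ℝ) * ∑ i, ∑ j, ⟪v0 i, x⟫ * (⟪v0 j, x⟫ * ⟪y i, y j⟫) := by
  rw [RR_apply, norm_smul, mul_pow, ← real_inner_self_eq_norm_sq (∑ i, ⟪v0 i, x⟫ • y i),
    sum_inner]
  have : ‖(4 / 5 : ℝ)‖ ^ 2 = 16 / 25 := by norm_num
  rw [this]
  congr 1
  refine Finset.sum_congr rfl fun i _ => ?_
  rw [inner_sum]
  refine Finset.sum_congr rfl fun j _ => ?_
  rw [real_inner_smul_left, real_inner_smul_right]

private lemma norm_eq (y : Fin 5 → ℍ[ℝ])
    (hy : ∀ i j, ⟪y i, y j⟫ = if i = j then (1 : ℝ) else -1 / 4) (x : ℍ[ℝ]) :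
    ‖RR y x‖ = ‖x‖ := by
  have h1 : ‖RR y x‖ ^ 2 = ‖RR v0 x‖ ^ 2 := by
    rw [norm_RR, norm_RR]
    simp only [hy, v0_inner]
  rw [RR_v0] at h1
  exact (pow_left_inj₀ (norm_nonneg _) (norm_nonneg _) two_ne_zero).1 h1

private lemma sum_zero (y : Fin 5 → ℍ[ℝ])
    (hy : ∀ i j, ⟪y i, y j⟫ = if i = j then (1 : ℝ) else -1 / 4) : ∑ i, y i = 0 := by
  rw [← inner_self_eq_zero (𝕜 := ℝ), sum_inner]
  have : ∀ i, ⟪y i, ∑ j, y j⟫ = 0 := by
    intro i
    rw [inner_sum]
    simp only [hy]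
    have h1 : ∀ j, (if i = j then (1 : ℝ) else -1 / 4) = -1 / 4 + (if i = j then 5 / 4 else 0) := by
      intro j
      split_ifs <;> norm_num
    simp only [h1]
    rw [Finset.sum_add_distrib, Finset.sum_ite_eq, if_pos (Finset.mem_univ _)]
    norm_num
  simp [this]

private lemma RR_v0_apply (y : Fin 5 → ℍ[ℝ])
    (hy : ∀ i j, ⟪y i, y j⟫ = if i = j then (1 : ℝ) else -1 / 4) (j : Fin 5) :
    RR y (v0 j) = y j := by
  have h0 := sum_zero y hy
  rw [RR_apply]
  simp only [v0_inner]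
  have h1 : ∀ i, (if i = j then (1 : ℝ) else -1 / 4) • y i =
      (-1 / 4 : ℝ) • y i + (if i = j then (5 / 4 : ℝ) • y i else 0) := by
    intro i
    split_ifs
    · rw [← add_smul]
      norm_num
    · rw [add_zero]
  simp only [h1]
  rw [Finset.sum_add_distrib, ← Finset.smul_sum, h0, smul_zero, zero_add, Finset.sum_ite_eq',
    if_pos (Finset.mem_univ _), smul_smul]
  norm_num

/-- the isometry -/
private noncomputable def iso (y : Fin 5 → ℍ[ℝ])
    (hy : ∀ i j, ⟪y i, y j⟫ = if i = j then (1 : ℝ) else -1 / 4) : ℍ[ℝ] ≃ₗᵢ[ℝ] ℍ[ℝ] :=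
  LinearIsometry.toLinearIsometryEquiv ⟨RR y, norm_eq y hy⟩ rfl

private lemma iso_v0 (y : Fin 5 → ℍ[ℝ])
    (hy : ∀ i j, ⟪y i, y j⟫ = if i = j then (1 : ℝ) else -1 / 4) (j : Fin 5) :
    iso y hy (v0 j) = y j := by
  show RR y (v0 j) = y j
  exact RR_v0_apply y hy j

/-- the reflection formula -/
private lemma refl_formula (u x : ℍ[ℝ]) (hu : ‖u‖ = 1) :
    -(u * star x * u) = x - (2 * ⟪u, x⟫) • u := by
  have h1 : u.re * u.re + u.imI * u.imI + u.imJ * u.imJ + u.imK * u.imK = 1 := by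
    rw [← inner_coords, real_inner_self_eq_norm_sq, hu, one_pow]
  rw [inner_coords]
  apply Quaternion.ext
  · simp only [Quaternion.re_neg, Quaternion.re_mul, Quaternion.imI_mul, Quaternion.imJ_mul,
      Quaternion.imK_mul, Quaternion.re_star, Quaternion.imI_star, Quaternion.imJ_star,
      Quaternion.imK_star, Quaternion.re_sub, Quaternion.re_smul, smul_eq_mul]
    linear_combination (x.re) * h1
  · simp only [Quaternion.imI_neg, Quaternion.re_mul, Quaternion.imI_mul, Quaternion.imJ_mul,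
      Quaternion.imK_mul, Quaternion.re_star, Quaternion.imI_star, Quaternion.imJ_star,
      Quaternion.imK_star, Quaternion.imI_sub, Quaternion.imI_smul, smul_eq_mul]
    linear_combination (x.imI) * h1
  · simp only [Quaternion.imJ_neg, Quaternion.re_mul, Quaternion.imI_mul, Quaternion.imJ_mul,
      Quaternion.imK_mul, Quaternion.re_star, Quaternion.imI_star, Quaternion.imJ_star,
      Quaternion.imK_star, Quaternion.imJ_sub, Quaternion.imJ_smul, smul_eq_mul]
    linear_combination (x.imJ) * h1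
  · simp only [Quaternion.imK_neg, Quaternion.re_mul, Quaternion.imI_mul, Quaternion.imJ_mul,
      Quaternion.imK_mul, Quaternion.re_star, Quaternion.imI_star, Quaternion.imJ_star,
      Quaternion.imK_star, Quaternion.imK_sub, Quaternion.imK_smul, smul_eq_mul]
    linear_combination (x.imK) * h1

/-- the unit normal of the reflection which exchanges `v0 0` and `v0 1` -/
private noncomputable def uu : ℍ[ℝ] := (√(5 / 2))⁻¹ • (v0 0 - v0 1)

private lemma inner_w (i : Fin 5) : ⟪v0 0 - v0 1, v0 i⟫ =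
    (if i = 0 then (5 / 4 : ℝ) else 0) - (if i = 1 then (5 / 4 : ℝ) else 0) := by
  rw [inner_sub_left, v0_inner, v0_inner]
  fin_cases i <;> norm_num

private lemma norm_w : ‖v0 0 - v0 1‖ ^ 2 = 5 / 2 := by
  rw [← real_inner_self_eq_norm_sq, inner_sub_right, inner_w, inner_w]
  norm_num

private lemma norm_uu : ‖uu‖ = 1 := by
  have h1 : ‖uu‖ ^ 2 = 1 := by
    unfold uu
    rw [norm_smul, mul_pow, norm_w, Real.norm_eq_abs, sq_abs, inv_pow,
      Real.sq_sqrt (by norm_num)]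
    norm_num
  have h2 := norm_nonneg uu
  nlinarith

private lemma refl_v0 (i : Fin 5) :
    -(uu * star (v0 i) * uu) = v0 (Equiv.swap 0 1 i) := by
  rw [refl_formula uu (v0 i) norm_uu]
  have h1 : (2 * ⟪uu, v0 i⟫) • uu =
      ((if i = 0 then (1 : ℝ) else 0) - (if i = 1 then (1 : ℝ) else 0)) • (v0 0 - v0 1) := by
    unfold uu
    rw [real_inner_smul_left, inner_w, smul_smul]
    congr 1
    have h2 : (√(5 / 2))⁻¹ * (√(5 / 2))⁻¹ = (2 / 5 : ℝ) := by
      rw [← mul_inv, Real.mul_self_sqrt (by norm_num)]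
      norm_num
    calc 2 * ((√(5 / 2))⁻¹ * ((if i = 0 then (5 / 4 : ℝ) else 0) -
          (if i = 1 then (5 / 4 : ℝ) else 0))) * (√(5 / 2))⁻¹
        = 2 * ((√(5 / 2))⁻¹ * (√(5 / 2))⁻¹) * ((if i = 0 then (5 / 4 : ℝ) else 0) -
          (if i = 1 then (5 / 4 : ℝ) else 0)) := by ring
      _ = _ := by
        rw [h2]
        split_ifs <;> norm_num
  rw [h1]
  fin_cases i
  · simp
  · simp
  · have : (Equiv.swap (0 : Fin 5) 1) 2 = 2 := by decide
    simp [this]
  · have : (Equiv.swap (0 : Fin 5) 1) 3 = 3 := by decide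
    simp [this]
  · have : (Equiv.swap (0 : Fin 5) 1) 4 = 4 := by decide
    simp [this]

end Th1Aux

open Th1Aux in
theorem pTh1 (hRef : TRef) : TTh1 := by
  intro x
  obtain ⟨v, rfl⟩ : ∃ v : RS, mkR v = x := Quotient.exists_rep x
  -- the points as quaternions
  set y : Fin 5 → ℍ[ℝ] := fun i => Quaternion.linearIsometryEquivTuple.symm (v.1 i : Eu 3) with hydef
  have hty : ∀ i, Quaternion.linearIsometryEquivTuple (y i) = (v.1 i : Eu 3) := fun i =>
    Quaternion.linearIsometryEquivTuple.apply_symm_apply _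
  have hy : ∀ i j, ⟪y i, y j⟫ = if i = j then (1 : ℝ) else -1 / 4 := by
    intro i j
    rw [← Quaternion.linearIsometryEquivTuple.inner_map_map, hty, hty]
    by_cases h : i = j
    · subst h
      rw [if_pos rfl, real_inner_self_eq_norm_sq, mem_sphere_zero_iff_norm.1 (v.1 i).2, one_pow]
    · rw [if_neg h, v.2 i j h]
      norm_num
  have hRv := iso_v0 y hy
  obtain ⟨a, b, hab | hab⟩ := hRef (iso y hy)
  · refine ⟨(a⁻¹, b), ?_⟩
    have h1 : fr (a⁻¹, b) = v := by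
      apply Subtype.ext
      funext i
      apply Subtype.ext
      show Quaternion.linearIsometryEquivTuple ((((a⁻¹)⁻¹ : S3) : ℍ[ℝ]) * v0 i * (b : ℍ[ℝ])) =
        (v.1 i : Eu 3)
      rw [inv_inv, ← hab, hRv, hty]
    unfold th
    rw [h1]
  · -- compose with the reflection
    have hna : ‖(a : ℍ[ℝ])‖ = 1 := mem_sphere_zero_iff_norm.1 a.2
    have hnb : ‖(b : ℍ[ℝ])‖ = 1 := mem_sphere_zero_iff_norm.1 b.2
    set A : S3 := ⟨-((a : ℍ[ℝ]) * star uu), by
      rw [mem_sphere_zero_iff_norm, norm_neg, norm_mul, hna, norm_star, norm_uu, one_mul]⟩ with hA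
    set B : S3 := ⟨star uu * (b : ℍ[ℝ]), by
      rw [mem_sphere_zero_iff_norm, norm_mul, hnb, norm_star, norm_uu, one_mul]⟩ with hB
    refine ⟨(A⁻¹, B), ?_⟩
    have h1 : fr (A⁻¹, B) = (Equiv.swap (0 : Fin 5) 1) • v := by
      apply Subtype.ext
      funext i
      apply Subtype.ext
      rw [smul_RS, Equiv.swap_inv]
      show Quaternion.linearIsometryEquivTuple ((((A⁻¹)⁻¹ : S3) : ℍ[ℝ]) * v0 i * (B : ℍ[ℝ])) =
        (v.1 (Equiv.swap (0 : Fin 5) 1 i) : Eu 3)
      rw [inv_inv, ← hty, ← hRv (Equiv.swap (0 : Fin 5) 1 i), hab, ← refl_v0 i]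
      congr 1
      rw [hA, hB]
      simp only [star_neg, star_mul, star_star, mul_neg, neg_mul, mul_assoc]
    unfold th mkR
    rw [h1]
    apply Quotient.sound
    exact ⟨Equiv.swap (0 : Fin 5) 1, rfl⟩

end Pool.Agent.MPaafd8a.A2
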