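import Pool.Agent.Lib.MP_aafd8a_gt_A2.Spec

/-!
# MP_aafd8a_gt, disproof for `n = 3`, block (A-ii): the triangle step
-/

set_option autoImplicit false

open Topology

namespace Pool.Agent.MPaafd8a.A2

namespace TriAux

theorem evalC {T X : Type} [TopologicalSpace T] [TopologicalSpace X] {A : Type} [TopologicalSpace A]
    (F : C(unitInterval, A × C(unitInterval, X))) {f g : T → unitInterval} (hf : Continuous f)
    (hg : Continuous g) : Continuous fun x => (F (f x)).2 (g x) :=
  ((continuous_snd.comp (F.continuous.comp hf))).eval hg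

theorem closedEq {T : Type} [TopologicalSpace T] {f : T → unitInterval} (hf : Continuous f)
    (c : unitInterval) : IsClosed {x | f x = c} := isClosed_eq hf continuous_const

end TriAux

theorem pTri (hS : TSq2) (hB : TBox) : TTri := by
  intro A X _ _ p a hE F01 F12 F02 g q01 q12 q02 hg h01 h12 h02 hh e0 e1 e2 b01 b12 b02 t01 t12 t02
  obtain ⟨QA, QA0, QA1, QA2, QA3⟩ := hS A a a a a q01 q12 (Path.refl a) q02 hh
  have QA2' : ∀ t, QA (0, t) = a := fun t => by rw [QA2]; rfl
  have ha : (F01 0).1 = a := by rw [← h01, q01.source]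
  classical
  let φ : unitInterval × unitInterval × unitInterval → X := fun x =>
    if x.2.2 = 0 then p (QA (x.1, x.2.1)) else if x.2.2 = 1 then g (x.1, x.2.1) else
    if x.2.1 = 0 then (F01 x.1).2 x.2.2 else if x.2.1 = 1 then (F02 x.1).2 x.2.2 else
    if x.1 = 1 then (F12 x.2.1).2 x.2.2 else (F01 0).2 x.2.2
  have u0 : ∀ s t, φ (s, t, 0) = p (QA (s, t)) := fun s t => if_pos rfl
  have n10 : ¬((1 : unitInterval) = 0) := one_ne_zero
  have n01 : ¬((0 : unitInterval) = 1) := zero_ne_one
  have u1 : ∀ s t, φ (s, t, 1) = g (s, t) := by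
    intro s t
    change (if (1 : unitInterval) = 0 then _ else _) = _
    rw [if_neg n10, if_pos rfl]
  have ex : ∀ s t u, ¬(u = 0) → ¬(u = 1) → φ (s, t, u) = if t = 0 then (F01 s).2 u else
      if t = 1 then (F02 s).2 u else if s = 1 then (F12 t).2 u else (F01 0).2 u := by
    intro s t u hu0 hu1
    change (if u = 0 then _ else _) = _
    rw [if_neg hu0, if_neg hu1]
  have t0 : ∀ s u, φ (s, 0, u) = (F01 s).2 u := by
    intro s u
    by_cases hu0 : u = 0
    · rw [hu0, u0, QA0, h01, b01]
    by_cases hu1 : u = 1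
    · rw [hu1, u1, t01]
    rw [ex s 0 u hu0 hu1, if_pos rfl]
  have t1 : ∀ s u, φ (s, 1, u) = (F02 s).2 u := by
    intro s u
    by_cases hu0 : u = 0
    · rw [hu0, u0, QA3, h02, b02]
    by_cases hu1 : u = 1
    · rw [hu1, u1, t02]
    rw [ex s 1 u hu0 hu1, if_neg n10, if_pos rfl]
  have s1 : ∀ t u, φ (1, t, u) = (F12 t).2 u := by
    intro t u
    by_cases hu0 : u = 0
    · rw [hu0, u0, QA1, h12, b12]
    by_cases hu1 : u = 1
    · rw [hu1, u1, t12]
    rw [ex 1 t u hu0 hu1]
    by_cases ht0 : t = 0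
    · rw [if_pos ht0, ht0, e1]
    by_cases ht1 : t = 1
    · rw [if_neg ht0, if_pos ht1, ht1, e2]
    rw [if_neg ht0, if_neg ht1, if_pos rfl]
  have s0 : ∀ t u, φ (0, t, u) = (F01 0).2 u := by
    intro t u
    by_cases hu0 : u = 0
    · rw [hu0, u0, QA2', b01, ha]
    by_cases hu1 : u = 1
    · rw [hu1, u1, t01, hg]
    rw [ex 0 t u hu0 hu1]
    by_cases ht0 : t = 0
    · rw [if_pos ht0]
    by_cases ht1 : t = 1
    · rw [if_neg ht0, if_pos ht1, e0]
    rw [if_neg ht0, if_neg ht1, if_neg n01]
  have c0 : ContinuousOn φ {x | x.1 = 0} := by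
    refine ContinuousOn.congr (f := fun x => (F01 0).2 x.2.2) ?_ ?_
    · exact (((F01 0).2.continuous).comp (continuous_snd.comp continuous_snd)).continuousOn
    · rintro ⟨s, t, u⟩ hx
      have hx' : s = 0 := hx
      rw [hx']
      exact s0 t u
  have c1 : ContinuousOn φ {x | x.1 = 1} := by
    refine ContinuousOn.congr (f := fun x => (F12 x.2.1).2 x.2.2) ?_ ?_
    · exact (TriAux.evalC F12 (continuous_fst.comp continuous_snd)
        (continuous_snd.comp continuous_snd)).continuousOn
    · rintro ⟨s, t, u⟩ hx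
      have hx' : s = 1 := hx
      rw [hx']
      exact s1 t u
  have c2 : ContinuousOn φ {x | x.2.1 = 0} := by
    refine ContinuousOn.congr (f := fun x => (F01 x.1).2 x.2.2) ?_ ?_
    · exact (TriAux.evalC F01 continuous_fst (continuous_snd.comp continuous_snd)).continuousOn
    · rintro ⟨s, t, u⟩ hx
      have hx' : t = 0 := hx
      rw [hx']
      exact t0 s u
  have c3 : ContinuousOn φ {x | x.2.1 = 1} := by
    refine ContinuousOn.congr (f := fun x => (F02 x.1).2 x.2.2) ?_ ?_
    · exact (TriAux.evalC F02 continuous_fst (continuous_snd.comp continuous_snd)).continuousOn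
    · rintro ⟨s, t, u⟩ hx
      have hx' : t = 1 := hx
      rw [hx']
      exact t1 s u
  have c4 : ContinuousOn φ {x | x.2.2 = 0} := by
    refine ContinuousOn.congr (f := fun x => p (QA (x.1, x.2.1))) ?_ ?_
    · exact (p.continuous.comp (QA.continuous.comp
        (continuous_fst.prodMk (continuous_fst.comp continuous_snd)))).continuousOn
    · rintro ⟨s, t, u⟩ hx
      have hx' : u = 0 := hx
      rw [hx']
      exact u0 s t
  have c5 : ContinuousOn φ {x | x.2.2 = 1} := by
    refine ContinuousOn.congr (f := fun x => g (x.1, x.2.1)) ?_ ?_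
    · exact (g.continuous.comp
        (continuous_fst.prodMk (continuous_fst.comp continuous_snd))).continuousOn
    · rintro ⟨s, t, u⟩ hx
      have hx' : u = 1 := hx
      rw [hx']
      exact u1 s t
  have k0 : IsClosed {x : unitInterval × unitInterval × unitInterval | x.1 = 0} :=
    TriAux.closedEq continuous_fst 0
  have k1 : IsClosed {x : unitInterval × unitInterval × unitInterval | x.1 = 1} :=
    TriAux.closedEq continuous_fst 1
  have k2 : IsClosed {x : unitInterval × unitInterval × unitInterval | x.2.1 = 0} :=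
    TriAux.closedEq (continuous_fst.comp continuous_snd) 0
  have k3 : IsClosed {x : unitInterval × unitInterval × unitInterval | x.2.1 = 1} :=
    TriAux.closedEq (continuous_fst.comp continuous_snd) 1
  have k4 : IsClosed {x : unitInterval × unitInterval × unitInterval | x.2.2 = 0} :=
    TriAux.closedEq (continuous_snd.comp continuous_snd) 0
  have k5 : IsClosed {x : unitInterval × unitInterval × unitInterval | x.2.2 = 1} :=
    TriAux.closedEq (continuous_snd.comp continuous_snd) 1
  have d4 := c4.union_of_isClosed c5 k4 k5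
  have d3 := c3.union_of_isClosed d4 k3 (k4.union k5)
  have d2 := c2.union_of_isClosed d3 k2 (k3.union (k4.union k5))
  have d1 := c1.union_of_isClosed d2 k1 (k2.union (k3.union (k4.union k5)))
  have d0 := c0.union_of_isClosed d1 k0 (k1.union (k2.union (k3.union (k4.union k5))))
  obtain ⟨G, hG⟩ := hB X hE φ (d0.mono fun x hx => hx)
  let G' : C((unitInterval × unitInterval) × unitInterval, X) :=
    ⟨fun x => G (x.1.1, x.1.2, x.2), G.continuous.comp ((continuous_fst.comp continuous_fst).prodMk
      ((continuous_snd.comp continuous_fst).prodMk continuous_snd))⟩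
  let F : C(unitInterval × unitInterval, A × C(unitInterval, X)) := QA.prodMk G'.curry
  have F1 : ∀ s t, (F (s, t)).1 = QA (s, t) := fun s t => rfl
  have F2 : ∀ s t u, (F (s, t)).2 u = G (s, t, u) := fun s t u => rfl
  refine ⟨F, ?_, ?_, ?_, ?_, ?_, ?_⟩
  · intro s
    refine Prod.ext ?_ (ContinuousMap.ext fun u => ?_)
    · rw [F1, QA0, h01]
    · rw [F2, hG _ (Or.inr (Or.inr (Or.inl rfl))), t0]
  · intro t
    refine Prod.ext ?_ (ContinuousMap.ext fun u => ?_)
    · rw [F1, QA1, h12]
    · rw [F2, hG _ (Or.inr (Or.inl rfl)), s1]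
  · intro s
    refine Prod.ext ?_ (ContinuousMap.ext fun u => ?_)
    · rw [F1, QA3, h02]
    · rw [F2, hG _ (Or.inr (Or.inr (Or.inr (Or.inl rfl)))), t1]
  · intro t
    refine Prod.ext ?_ (ContinuousMap.ext fun u => ?_)
    · rw [F1, QA2', ha]
    · rw [F2, hG _ (Or.inl rfl), s0]
  · rintro ⟨s, t⟩
    rw [F1, F2, hG _ (Or.inr (Or.inr (Or.inr (Or.inr (Or.inl rfl))))), u0]
  · rintro ⟨s, t⟩
    rw [F2, hG _ (Or.inr (Or.inr (Or.inr (Or.inr (Or.inr rfl))))), u1]

end Pool.Agent.MPaafd8a.A2
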