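import Pool.Agent.Lib.MP_aafd8a_gt_A2.Sq1
import Pool.Agent.Lib.MP_aafd8a_gt_A2.Sq2
import Pool.Agent.Lib.MP_aafd8a_gt_A2.Kan
import Pool.Agent.Lib.MP_aafd8a_gt_A2.Box
import Pool.Agent.Lib.MP_aafd8a_gt_A2.Quo
import Pool.Agent.Lib.MP_aafd8a_gt_A2.Gel
import Pool.Agent.Lib.MP_aafd8a_gt_A2.Tri
import Pool.Agent.Lib.MP_aafd8a_gt_A2.Obs
import Pool.Agent.Lib.MP_aafd8a_gt_A2.Sur
import Pool.Agent.Lib.MP_aafd8a_gt_A2.Cen
import Pool.Agent.Lib.MP_aafd8a_gt_A2.NV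
import Pool.Agent.Lib.MP_aafd8a_gt_A2.EH
import Pool.Agent.Lib.MP_aafd8a_gt_A2.Com
import Pool.Agent.Lib.MP_aafd8a_gt_A2.Spl
import Pool.Agent.Lib.MP_aafd8a_gt_A2.Ga1
import Pool.Agent.Lib.MP_aafd8a_gt_A2.Rig
import Pool.Agent.Lib.MP_aafd8a_gt_A2.Gam
import Pool.Agent.Lib.MP_aafd8a_gt_A2.Ref
import Pool.Agent.Lib.MP_aafd8a_gt_A2.Th1
import Pool.Agent.Lib.MP_aafd8a_gt_A2.Cov
import Pool.Agent.Lib.MP_aafd8a_gt_A2.NE
import Pool.Agent.Lib.MP_aafd8a_gt_A2.ExE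
import Pool.Agent.Lib.MP_aafd8a_gt_A2.Sim
import Pool.Agent.Lib.MP_aafd8a_gt_A2.Grp
import Pool.Agent.Lib.MP_aafd8a_gt_A2.Pi2
import Pool.Agent.Lib.MP_aafd8a_gt_A2.Loc
import Pool.Agent.Lib.MP_aafd8a_gt_A2.Ner
import Pool.Agent.Lib.MP_aafd8a_gt_A2.Red
import Pool.Agent.Lib.MP_aafd8a_gt_A2.Glu
import Pool.Agent.Lib.MP_aafd8a_gt_A2.As
import Pool.Agent.Lib.MP_aafd8a_gt_A2.A2
import Pool.Agent.Lib.MP_aafd8a_gt.Kuhn
import Pool.Agent.Lib.MP_aafd8a_gt.GenV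
import Pool.Agent.Lib.MP_aafd8a_gt.Lay
import Pool.Agent.Lib.MP_aafd8a_gt.NH
import Pool.Agent.Lib.MP_aafd8a_gt.Cube
import Pool.Agent.Lib.MP_aafd8a_gt.Null

/-!
# MP_aafd8a_gt, block (A-ii): the statement `SA2` of `Lib/MP_aafd8a_gt_D/Frame.lean`
-/

set_option autoImplicit false

namespace Pool.Agent.MPaafd8a.A2

/-- Maps of the form `J (g z, D z)` from spheres of dimension at most `15` are null homotopic. -/
theorem allA2 : SA2 := by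
  have tri : TTri := pTri pSq2 pBox
  have obs : TObs := pObs pSq1 pSq2 pQuo pGel tri
  have sur : TSur := pSur pSq2
  have cen : TCen := pCen pSq1 pKan
  have nv : TNV := pNV obs sur cen
  have com : TCom := pCom (pEH pSq1)
  have th1 : TTh1 := pTh1 pRef
  have gam : TGam := pGam pSpl pGa1 pRig
  have cov : TCov := pCov th1 pRig
  have exe : TExE := pExE (pNH pKuhn pGenV) pNE
  have grp : TGrp := pGrp gam cov exe (pSim pSq1)
  have pi2 : TPi2 := pPi2 pCube pNul cov exe pNE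
  have ner : TNer := pNer cov (pLoc cov)
  have red : TRed := pRed pLay pGenV
  exact pA2 (pAs nv com grp pi2 ner red pGlu) pKuhn

end Pool.Agent.MPaafd8a.A2
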