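import Pool.Agent.Lib.MP_aafd8a_gt_D.Frame

/-!
# MP_aafd8a_gt, disproof for `n = 3`, block (A-ii): definitions

* `RS`, `RSq`, `mkR` (ordered and unordered regular simplices of the 3-sphere) are in `Lib/MP_aafd8a_gt_D/Frame.lean`.
* `S3`: the group of unit quaternions, `EE = S3 × S3`, `fr e`: the ordered simplex `(e.1⁻¹ * v0 i * e.2)_i`, `th : EE → RSq`
  its class, `Gm`: the subgroup of the `e` which permute the `v0 i` (binary icosahedral group, embedded diagonally).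
* `Splits G`: every central extension of `G` splits. `Perf G`: every homomorphism to a commutative group is trivial.
* `Ext d X`: every continuous map from the boundary of the cube `[-1, 1]^d` to `X` extends to `ℝ^d`.
* `HF J yc`: the homotopy fibre of `J : X → Y` over `yc`. `LY K k`: maps `ℝ^13 → K` with the value `k` outside of the open unit cube.
* `smp σ`, `bds σ`, `body 𝒞`: closed simplex, its boundary, realization of a finite simplicial complex inside `B → ℝ`.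
-/

set_option autoImplicit false

open Topology RealInnerProductSpace Quaternion

namespace Pool.Agent.MPaafd8a.A2

/-! ## Algebra -/

/-- Every surjective homomorphism to `G` with central kernel has a section. -/
def Splits (G : Type) [Group G] : Prop :=
  ∀ (E : Type) [Group E] (π : E →* G), Function.Surjective π → (∀ k : E, π k = 1 → ∀ e : E, k * e = e * k) →
    ∃ s : G →* E, ∀ g, π (s g) = g

/-- Every homomorphism to a commutative group is trivial. -/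
def Perf (G : Type) [Group G] : Prop := ∀ (C : Type) [CommGroup C] (φ : G →* C) (g : G), φ g = 1

/-- Twelve words in `s`, `t` (representatives of the cosets of `⟨t⟩`). -/
def wd {G : Type} [Group G] (s t : G) : Fin 12 → G :=
  ![1, s, s * t, s * t ^ 2, s * t ^ 3, s * t ^ 4, s * t ^ 3 * s, s * t ^ 3 * s * t, s * t ^ 3 * s * t ^ 2,
    s * t ^ 3 * s * t ^ 3, s * t ^ 3 * s * t ^ 4, s * t ^ 3 * s * t ^ 4 * s]

/-! ## Topology -/

/-- Every continuous map from the boundary of the cube `[-1, 1]^d` to `X` extends. -/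
def Ext (d : ℕ) (X : Type) [TopologicalSpace X] : Prop :=
  ∀ f : C(CSph d, X), ∃ F : C((Fin d → ℝ), X), ∀ x : CSph d, F (x : Fin d → ℝ) = f x

/-- The homotopy fibre of `J` over `yc`. -/
def HF {X Y : Type} [TopologicalSpace X] [TopologicalSpace Y] (J : C(X, Y)) (yc : Y) : Type :=
  {q : X × C(unitInterval, Y) // q.2 0 = J q.1 ∧ q.2 1 = yc}

instance {X Y : Type} [TopologicalSpace X] [TopologicalSpace Y] (J : C(X, Y)) (yc : Y) : TopologicalSpace (HF J yc) :=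
  inferInstanceAs (TopologicalSpace {q : X × C(unitInterval, Y) // q.2 0 = J q.1 ∧ q.2 1 = yc})

/-- The projection of the homotopy fibre to `X`. -/
def pr {X Y : Type} [TopologicalSpace X] [TopologicalSpace Y] (J : C(X, Y)) (yc : Y) : C(HF J yc, X) :=
  ⟨fun q => q.1.1, continuous_fst.comp continuous_subtype_val⟩

/-- The space of the continuous maps `ℝ^13 → K` with the value `k` outside of the open unit cube. -/
def LY (K : Type) [TopologicalSpace K] (k : K) : Type := {c : C(Fin 13 → ℝ, K) // ∀ d, 1 ≤ ‖d‖ → c d = k}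

instance {K : Type} [TopologicalSpace K] (k : K) : TopologicalSpace (LY K k) := instTopologicalSpaceSubtype

/-! ## Simplicial complexes in `B → ℝ` -/

/-- The closed simplex with the vertices `σ`. -/
def smp {B : Type} [Fintype B] (σ : Finset B) : Set (B → ℝ) :=
  {w | (∀ b, 0 ≤ w b) ∧ ∑ b, w b = 1 ∧ ∀ b, b ∉ σ → w b = 0}

/-- The boundary of the closed simplex. -/
def bds {B : Type} [Fintype B] (σ : Finset B) : Set (B → ℝ) := {w | w ∈ smp σ ∧ ∃ b ∈ σ, w b = 0}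

/-- The realization of a family of simplices. -/
def body {B : Type} [Fintype B] (𝒞 : Finset (Finset B)) : Set (B → ℝ) := {w | ∃ σ ∈ 𝒞, w ∈ smp σ}

/-- The family is closed under nonempty subsets. -/
def DownC {B : Type} (𝒞 : Finset (Finset B)) : Prop := ∀ σ ∈ 𝒞, ∀ τ, τ ⊆ σ → τ.Nonempty → τ ∈ 𝒞

/-- The nerve of the sets `{x | 0 < β b x}`. -/
noncomputable def nrv {B U : Type} [Fintype B] (β : B → U → ℝ) : Finset (Finset B) := by
  classical
  exact Finset.univ.filter (fun σ => σ.Nonempty ∧ ∃ x, ∀ b ∈ σ, 0 < β b x)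

/-! ## Regular simplices -/

/-- The group of unit quaternions. -/
abbrev S3 : Type := Metric.sphere (0 : ℍ[ℝ]) 1

/-- The group `S3 × S3`. -/
abbrev EE : Type := S3 × S3

/-- A fixed regular simplex: `1` and `-1 / 4 + √5 / 4 (± i ± j ± k)` with an odd number of minus signs. -/
noncomputable def v0 : Fin 5 → ℍ[ℝ] :=
  ![⟨1, 0, 0, 0⟩, ⟨-1 / 4, -√5 / 4, -√5 / 4, -√5 / 4⟩, ⟨-1 / 4, -√5 / 4, √5 / 4, √5 / 4⟩,
    ⟨-1 / 4, √5 / 4, -√5 / 4, √5 / 4⟩, ⟨-1 / 4, √5 / 4, √5 / 4, -√5 / 4⟩]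

/-- The elements of `S3 × S3` which permute the points `v0 i`. -/
def GmS : Set EE := {e | ∃ σ : Equiv.Perm (Fin 5), ∀ i, ((e.1⁻¹ : S3) : ℍ[ℝ]) * v0 i * (e.2 : ℍ[ℝ]) = v0 (σ i)}

theorem inner_coords (a b : ℍ[ℝ]) : ⟪a, b⟫ = a.re * b.re + a.imI * b.imI + a.imJ * b.imJ + a.imK * b.imK := by
  rw [Quaternion.inner_def, Quaternion.re_mul, Quaternion.re_star, Quaternion.imI_star, Quaternion.imJ_star,
    Quaternion.imK_star]
  ring

theorem v0_inner (i j : Fin 5) : ⟪v0 i, v0 j⟫ = if i = j then (1 : ℝ) else -1 / 4 := by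
  have h5 : √5 * √5 = (5 : ℝ) := Real.mul_self_sqrt (by norm_num)
  rw [inner_coords]
  fin_cases i <;> fin_cases j <;> simp [v0] <;> nlinarith [h5]

theorem v0_norm (i : Fin 5) : ‖v0 i‖ = 1 := by
  have h := v0_inner i i
  rw [if_pos rfl, real_inner_self_eq_norm_sq] at h
  nlinarith [norm_nonneg (v0 i)]

/-- The linear isometry `x ↦ a⁻¹ x b` preserves inner products. -/
theorem inner_conj (a b : S3) (x y : ℍ[ℝ]) :
    ⟪((a⁻¹ : S3) : ℍ[ℝ]) * x * (b : ℍ[ℝ]), ((a⁻¹ : S3) : ℍ[ℝ]) * y * (b : ℍ[ℝ])⟫ = ⟪x, y⟫ := by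
  have hn (z : ℍ[ℝ]) : ‖((a⁻¹ : S3) : ℍ[ℝ]) * z * (b : ℍ[ℝ])‖ = ‖z‖ := by
    have ha : ‖((a⁻¹ : S3) : ℍ[ℝ])‖ = 1 := mem_sphere_zero_iff_norm.1 (a⁻¹).2
    have hb : ‖(b : ℍ[ℝ])‖ = 1 := mem_sphere_zero_iff_norm.1 b.2
    rw [norm_mul, norm_mul, ha, hb, one_mul, mul_one]
  have h1 := real_inner_eq_norm_add_mul_self_sub_norm_mul_self_sub_norm_mul_self_div_two
    (((a⁻¹ : S3) : ℍ[ℝ]) * x * (b : ℍ[ℝ])) (((a⁻¹ : S3) : ℍ[ℝ]) * y * (b : ℍ[ℝ]))
  rw [← add_mul, ← mul_add, hn, hn, hn] at h1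
  rw [h1, ← real_inner_eq_norm_add_mul_self_sub_norm_mul_self_sub_norm_mul_self_div_two]

/-- The ordered simplex of a pair of unit quaternions. -/
noncomputable def fr (e : EE) : RS :=
  ⟨fun i => ⟨Quaternion.linearIsometryEquivTuple (((e.1⁻¹ : S3) : ℍ[ℝ]) * v0 i * (e.2 : ℍ[ℝ])), by
      rw [mem_sphere_zero_iff_norm, LinearIsometryEquiv.norm_map, norm_mul, norm_mul, v0_norm,
        mem_sphere_zero_iff_norm.1 (e.1⁻¹).2, mem_sphere_zero_iff_norm.1 e.2.2]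
      norm_num⟩, by
    intro i j hij
    change ⟪Quaternion.linearIsometryEquivTuple (((e.1⁻¹ : S3) : ℍ[ℝ]) * v0 i * (e.2 : ℍ[ℝ])),
      Quaternion.linearIsometryEquivTuple (((e.1⁻¹ : S3) : ℍ[ℝ]) * v0 j * (e.2 : ℍ[ℝ]))⟫ = -(1 / 4 : ℝ)
    rw [LinearIsometryEquiv.inner_map_map, inner_conj, v0_inner, if_neg hij]
    norm_num⟩

/-- The regular simplex of a pair of unit quaternions. -/
noncomputable def th (e : EE) : RSq := mkR (fr e)

/-- The subgroup of the pairs which permute the points `v0 i`. -/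
def Gm : Subgroup EE where
  carrier := GmS
  one_mem' := ⟨1, fun i => by simp⟩
  mul_mem' := by
    rintro e f ⟨σ, hσ⟩ ⟨τ, hτ⟩
    refine ⟨τ * σ, fun i => ?_⟩
    have h1 := hτ (σ i)
    rw [← hσ i] at h1
    rw [Equiv.Perm.mul_apply, ← h1]
    have h2 : (((e * f).1⁻¹ : S3) : ℍ[ℝ]) = ((f.1⁻¹ : S3) : ℍ[ℝ]) * ((e.1⁻¹ : S3) : ℍ[ℝ]) := by
      rw [Prod.fst_mul, mul_inv_rev]
      rfl
    have h3 : (((e * f).2 : S3) : ℍ[ℝ]) = (e.2 : ℍ[ℝ]) * (f.2 : ℍ[ℝ]) := rfl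
    rw [h2, h3]
    simp only [mul_assoc]
  inv_mem' := by
    rintro e ⟨σ, hσ⟩
    refine ⟨σ⁻¹, fun i => ?_⟩
    have h1 := hσ (σ⁻¹ i)
    have h0 : σ (σ⁻¹ i) = i := σ.apply_symm_apply i
    rw [h0] at h1
    have h2 : (((e⁻¹).1⁻¹ : S3) : ℍ[ℝ]) = (e.1 : ℍ[ℝ]) := by
      rw [Prod.fst_inv, inv_inv]
    have h3 : (((e⁻¹).2 : S3) : ℍ[ℝ]) = ((e.2⁻¹ : S3) : ℍ[ℝ]) := rfl
    rw [h2, h3, ← h1]
    have h4 : (e.1 : ℍ[ℝ]) * ((e.1⁻¹ : S3) : ℍ[ℝ]) = 1 := congrArg Subtype.val (mul_inv_cancel e.1)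
    have h5 : (e.2 : ℍ[ℝ]) * ((e.2⁻¹ : S3) : ℍ[ℝ]) = 1 := congrArg Subtype.val (mul_inv_cancel e.2)
    calc (e.1 : ℍ[ℝ]) * (((e.1⁻¹ : S3) : ℍ[ℝ]) * v0 (σ⁻¹ i) * (e.2 : ℍ[ℝ])) * ((e.2⁻¹ : S3) : ℍ[ℝ])
        = ((e.1 : ℍ[ℝ]) * ((e.1⁻¹ : S3) : ℍ[ℝ])) * v0 (σ⁻¹ i) * ((e.2 : ℍ[ℝ]) * ((e.2⁻¹ : S3) : ℍ[ℝ])) := by
          simp only [mul_assoc]
      _ = v0 (σ⁻¹ i) := by rw [h4, h5, one_mul, mul_one]

end Pool.Agent.MPaafd8a.A2
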