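import Pool.Agent.Lib.MP_aafd8a_gt_A2.Spec

/-!
# MP_aafd8a_gt, block (A-ii), module ExE: spheres in `S3 × S3`
-/

set_option autoImplicit false

open Topology RealInnerProductSpace Quaternion

namespace Pool.Agent.MPaafd8a.A2

namespace ExEM

theorem pcS3 : PathConnectedSpace S3 := by
  have h : 1 < Module.rank ℝ ℍ[ℝ] := by
    rw [Quaternion.rank_eq_four]
    norm_num
  exact isPathConnected_iff_pathConnectedSpace.1 (isPathConnected_sphere h 0 zero_le_one)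

/-- coordinates of a quaternion -/
noncomputable def LL : ℍ[ℝ] ≃L[ℝ] (Fin 4 → ℝ) :=
  Quaternion.linearIsometryEquivTuple.toContinuousLinearEquiv.trans (EuclideanSpace.equiv (Fin 4) ℝ)

/-- normalisation -/
noncomputable def nm (q : {q : ℍ[ℝ] // q ≠ 0}) : S3 :=
  ⟨(‖(q : ℍ[ℝ])‖⁻¹ : ℝ) • (q : ℍ[ℝ]), by
    rw [mem_sphere_zero_iff_norm, norm_smul, norm_inv, norm_norm]
    exact inv_mul_cancel₀ (norm_ne_zero_iff.2 q.2)⟩

theorem nm_cont : Continuous nm := by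
  refine Continuous.subtype_mk ?_ _
  have h1 : Continuous fun q : {q : ℍ[ℝ] // q ≠ 0} => ‖(q : ℍ[ℝ])‖ := continuous_subtype_val.norm
  have h2 : Continuous fun q : {q : ℍ[ℝ] // q ≠ 0} => ‖(q : ℍ[ℝ])‖⁻¹ :=
    h1.inv₀ fun q => norm_ne_zero_iff.2 q.2
  exact h2.smul continuous_subtype_val

theorem nm_val (q : {q : ℍ[ℝ] // q ≠ 0}) (a : S3) (h : (q : ℍ[ℝ]) = a) : nm q = a := by
  apply Subtype.ext
  change (‖(q : ℍ[ℝ])‖⁻¹ : ℝ) • (q : ℍ[ℝ]) = a
  rw [h, mem_sphere_zero_iff_norm.1 a.2, inv_one, one_smul]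

/-- a map from a sphere of dimension at most two to the three-sphere is null-homotopic -/
theorem nullS3 (hNH : SNH) (k : ℕ) (hk : k + 2 ≤ 4) (f : C(CSph (k + 1), S3)) :
    ∃ y : S3, f.Homotopic (ContinuousMap.const _ y) := by
  have hne : Nonempty (CSph (k + 1)) := by
    refine ⟨⟨fun _ => 1, ?_⟩⟩
    rw [mem_sphere_zero_iff_norm, pi_norm_const, norm_one]
  obtain ⟨x0⟩ := hne
  have hnz : ∀ a : S3, (a : ℍ[ℝ]) ≠ 0 := by
    intro a h
    have h1 := mem_sphere_zero_iff_norm.1 a.2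
    rw [h, norm_zero] at h1
    exact zero_ne_one h1
  let h : C(CSph (k + 1), Fin 4 → ℝ) :=
    ⟨fun x => LL (f x : ℍ[ℝ]), LL.continuous.comp (continuous_subtype_val.comp f.continuous)⟩
  obtain ⟨H, w, h0, h1, hH⟩ := hNH 4 k hk h (fun x hx => hnz (f x) (by
    have h2 : LL (f x : ℍ[ℝ]) = 0 := hx
    rwa [map_eq_zero_iff LL LL.injective] at h2))
  have hw : w ≠ 0 := by
    rw [← h1 x0]
    exact hH 1 x0
  have hH' : ∀ p : unitInterval × CSph (k + 1), LL.symm (H p) ≠ 0 := by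
    rintro ⟨t, x⟩ h2
    rw [map_eq_zero_iff LL.symm LL.symm.injective] at h2
    exact hH t x h2
  have hw' : LL.symm w ≠ 0 := by
    intro h2
    rw [map_eq_zero_iff LL.symm LL.symm.injective] at h2
    exact hw h2
  refine ⟨nm ⟨LL.symm w, hw'⟩, ⟨⟨⟨fun p => nm ⟨LL.symm (H p), hH' p⟩, ?_⟩, ?_, ?_⟩⟩⟩
  · exact nm_cont.comp (Continuous.subtype_mk (LL.symm.continuous.comp H.continuous) _)
  · intro x
    apply nm_val
    change LL.symm (H (0, x)) = _
    rw [h0]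
    exact LL.symm_apply_apply _
  · intro x
    change nm ⟨LL.symm (H (1, x)), _⟩ = nm ⟨LL.symm w, hw'⟩
    congr 1
    apply Subtype.ext
    change LL.symm (H (1, x)) = LL.symm w
    rw [h1]

theorem nullEE (hNH : SNH) (k : ℕ) (hk : k + 2 ≤ 4) (f : C(CSph (k + 1), EE)) :
    ∃ y : EE, f.Homotopic (ContinuousMap.const _ y) := by
  let f1 : C(CSph (k + 1), S3) := ⟨fun x => (f x).1, continuous_fst.comp f.continuous⟩
  let f2 : C(CSph (k + 1), S3) := ⟨fun x => (f x).2, continuous_snd.comp f.continuous⟩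
  obtain ⟨y1, h1⟩ := nullS3 hNH k hk f1
  obtain ⟨y2, h2⟩ := nullS3 hNH k hk f2
  exact ⟨(y1, y2), h1.prodMk h2⟩

end ExEM

open ExEM in
theorem pExE : SNH → TNE → TExE := by
  intro hNH hNE
  have h := pcS3
  refine ⟨inferInstance, ?_, ?_⟩
  · exact (hNE 2 EE).1 (nullEE hNH 1 (by norm_num))
  · exact (hNE 3 EE).1 (nullEE hNH 2 (by norm_num))

end Pool.Agent.MPaafd8a.A2
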