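import Pool.Agent.Lib.MP_aafd8a_gt_A2.Spec

/-!
# MP_aafd8a_gt, block (A-ii): null-homotopy on the complex (`TNV`, from `TObs`, `TSur`, `TCen`)
-/

set_option autoImplicit false

open Topology

namespace Pool.Agent.MPaafd8a.A2

namespace NV

/-- The point `1 - 2 t` of the unit interval, cut off at `0`. -/
noncomputable def fst (t : unitInterval) : unitInterval :=
  Set.projIcc (0 : ℝ) 1 zero_le_one (1 - 2 * (t : ℝ))

/-- The point `2 t - 1` of the unit interval, cut off at `0`. -/
noncomputable def snd (t : unitInterval) : unitInterval :=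
  Set.projIcc (0 : ℝ) 1 zero_le_one (2 * (t : ℝ) - 1)

theorem continuous_fst' : Continuous fst := by
  unfold fst
  exact continuous_projIcc.comp (by fun_prop)

theorem continuous_snd' : Continuous snd := by
  unfold snd
  exact continuous_projIcc.comp (by fun_prop)

theorem fst_zero : fst 0 = 1 := by
  apply Subtype.ext
  simp [fst]

theorem snd_one : snd 1 = 1 := by
  apply Subtype.ext
  simp only [snd, Set.coe_projIcc, Set.Icc.coe_one]
  norm_num

theorem fst_half {t : unitInterval} (h : (t : ℝ) = 1 / 2) : fst t = 0 := by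
  apply Subtype.ext
  simp only [fst, Set.coe_projIcc, h]
  norm_num

theorem snd_half {t : unitInterval} (h : (t : ℝ) = 1 / 2) : snd t = 0 := by
  apply Subtype.ext
  simp only [snd, Set.coe_projIcc, h]
  norm_num

end NV

/-- `TNV`. -/
theorem pNV (hObs : TObs) (hSur : TSur) (hCen : TCen) : TNV := by
  intro X Y _ _ J yc hcomm hX hext q hspl hperf B _ 𝒞 hdown hcard g hg
  obtain ⟨s, hs⟩ := hspl (FundamentalGroup (HF J yc) q) (FundamentalGroup.map (pr J yc) q)
    (hSur X Y J yc hcomm q hperf) (fun k hk e => hCen X Y J yc q k e hk)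
  obtain ⟨L, h, hL, hh, hLh⟩ := hObs (HF J yc) X (pr J yc) q s hs hX hext B 𝒞 hdown hcard g hg
  classical
  refine ⟨fun x => if (x.1 : ℝ) ≤ 1 / 2 then J (h (NV.fst x.1, x.2)) else (L x.2).1.2 (NV.snd x.1), ?_, ?_⟩
  · rw [continuousOn_iff_continuous_domRestrict]
    have c1 : Continuous (fun x : (Set.univ ×ˢ body 𝒞 : Set (unitInterval × (B → ℝ))) =>
        J (h (NV.fst x.1.1, x.1.2))) := by
      refine J.continuous.comp (hh.comp_continuous ?_ ?_)
      · exact (NV.continuous_fst'.comp (continuous_fst.comp continuous_subtype_val)).prodMk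
          (continuous_snd.comp continuous_subtype_val)
      · intro x
        exact ⟨Set.mem_univ _, x.2.2⟩
    have c2 : Continuous (fun x : (Set.univ ×ˢ body 𝒞 : Set (unitInterval × (B → ℝ))) => L x.1.2) :=
      hL.comp_continuous (continuous_snd.comp continuous_subtype_val) (fun x => x.2.2)
    have c3 : Continuous (fun x : (Set.univ ×ˢ body 𝒞 : Set (unitInterval × (B → ℝ))) =>
        (L x.1.2).1.2 (NV.snd x.1.1)) := by
      have c4 : Continuous (fun x : (Set.univ ×ˢ body 𝒞 : Set (unitInterval × (B → ℝ))) => (L x.1.2).1.2) :=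
        (continuous_snd.comp continuous_subtype_val).comp c2
      exact continuous_eval.comp (c4.prodMk (NV.continuous_snd'.comp
        (continuous_fst.comp continuous_subtype_val)))
    refine Continuous.if_le (f := fun x : (Set.univ ×ˢ body 𝒞 : Set (unitInterval × (B → ℝ))) => (x.1.1 : ℝ))
      (g := fun _ => (1 / 2 : ℝ)) c1 c3
      (continuous_subtype_val.comp (continuous_fst.comp continuous_subtype_val)) continuous_const ?_
    intro x hx
    rw [NV.fst_half hx, NV.snd_half hx, (hLh _ x.2.2).1, (L x.1.2).2.1]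
    rfl
  · intro w hw
    constructor
    · have h0 : ((0 : unitInterval) : ℝ) ≤ 1 / 2 := by norm_num
      simp only [h0, if_true, NV.fst_zero, (hLh w hw).2]
    · have h1 : ¬ ((1 : unitInterval) : ℝ) ≤ 1 / 2 := by norm_num
      simp only [h1, if_false, NV.snd_one, (L w).2.2]

end Pool.Agent.MPaafd8a.A2
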