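import Pool.Agent.Lib.MP_aafd8a_gt_A2.Defs

/-!
# MP_aafd8a_gt, disproof for `n = 3`, block (A-ii): statements

GOAL (`SA2` of `Lib/MP_aafd8a_gt_D/Frame.lean`): a map `z ↦ Jt (g z, D z)` (constant outside of `{‖D z‖ ≤ 1}`) of a sphere of dimension `≤ 15` is null-homotopic,
where `D` has 13 coordinates, `g` has values in the space `RSq` of regular simplices of the 3-sphere.

IDEA. `RSq = (S3 × S3) / Gm`, `Gm` the binary icosahedral group. Near the zeros of a generic `D` the map `g` factors through a complex `V` of dimension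
`≤ 2` (`TRed`, `TNer`). Let `Y = LY K k` be the space of the maps of the 13-cube to `K`, constant on the boundary, `J : RSq → Y` given by `Jt`, `HF` its homotopy fibre over `J x₁`.
`π_1 (HF) → π_1 (RSq) = Gm` is onto (`Gm` is perfect, `π_1 (Y)` is commutative: `TSur`) with central kernel (`TCen`), so it splits (`TSpl`). With the section and
`π_2 (RSq) = 0` every map `V → RSq` lifts to `HF` up to homotopy (`TObs`), so `J ∘ g` is null-homotopic on `V` (`TNV`).

Conventions: every statement is a proposition `TName`; the module `Name.lean` proves `pName : TName`, or, if the docstring says (from `TA`, `TB`), the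
implication `TA → TB → pName` in this order (so `theorem pName (hA : TA) (hB : TB) : TName`). Statements `S...` are in `Lib/MP_aafd8a_gt/Spec*.lean`.
Definitions: `Defs.lean`. Mathlib: `FundamentalGroup`, `mul_def : p * q = q.trans p`, `Path.Homotopic.Quotient`.
-/

set_option autoImplicit false

open Topology RealInnerProductSpace Quaternion

namespace Pool.Agent.MPaafd8a.A2

/-! ## Squares and cubes -/

/-- **Square, first half** (50 lines). `p` bottom, `q` right, `r` left, `u` top. PROOF. `m τ = min 1 (2 τ)`, `n τ = max 0 (2 τ - 1)`, both in `[0, 1]`. The homotopy is `H (v, τ) = Q ((1 - v) m τ + v n τ, (1 - v) n τ + v m τ)` (use `Set.projIcc` or subtype mk): `H (0, τ) = Q (m τ, n τ)` is `p (2 τ)` for `τ ≤ 1/2`, `q (2 τ - 1)` for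
`τ ≥ 1/2` (`Path.trans_apply`), `H (1, τ) = Q (n τ, m τ)` is `r.trans u`; `H (v, 0) = Q (0, 0)`, `H (v, 1) = Q (1, 1)`. -/
def TSq1 : Prop :=
  ∀ (Z : Type) [TopologicalSpace Z] (Q : C(unitInterval × unitInterval, Z)) (a b c d : Z) (p : Path a b) (q : Path b d)
    (r : Path a c) (u : Path c d), (∀ t, Q (t, 0) = p t) → (∀ t, Q (1, t) = q t) → (∀ t, Q (0, t) = r t) →
    (∀ t, Q (t, 1) = u t) → (p.trans q).Homotopic (r.trans u)

/-- **Square, second half** (120 lines). PROOF. `H` a path homotopy from `p.trans q` to `r.trans u`, `H (v, τ)`. `N (s, t) = t (1 - s) + s (1 - t)`, `v (s, t) = t (1 - s) / N (s, t)` if `N ≠ 0`, `0` otherwise; `N (s, t) = 0` only for `(0, 0)`, `(1, 1)` (both summands are `≥ 0`). `Q (s, t) = H (v (s, t), (s + t) / 2)`.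
VALUES: `t = 0`: `v = 0`, `(p.trans q) (s / 2) = p s`. `s = 1`: `v = 0` if `t < 1`, `(p.trans q) ((1 + t) / 2) = q t`. `s = 0`, `t > 0`: `v = 1`, `(r.trans u) (t / 2) = r t`. `t = 1`, `s < 1`: `v = 1`, `(r.trans u) ((s + 1) / 2) = u s`. At the two corners `H (v, 0) = a`, `H (v, 1) = d` for all `v`.
CONTINUITY: at a point with `N ≠ 0` clear. At `(0, 0)`: for a neighbourhood `O` of `a` the set `{τ | ∀ v, H (v, τ) ∈ O}` is a neighbourhood of `0` (`unitInterval` is compact: `IsCompact.eventually_forall_of_forall_eventually`, or `generalized_tube_lemma`), and `(s + t) / 2 → 0`. The same at `(1, 1)`. -/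
def TSq2 : Prop :=
  ∀ (Z : Type) [TopologicalSpace Z] (a b c d : Z) (p : Path a b) (q : Path b d) (r : Path a c) (u : Path c d),
    (p.trans q).Homotopic (r.trans u) →
    ∃ Q : C(unitInterval × unitInterval, Z), (∀ t, Q (t, 0) = p t) ∧ (∀ t, Q (1, t) = q t) ∧ (∀ t, Q (0, t) = r t) ∧
      ∀ t, Q (t, 1) = u t

/-- **Open box** (80 lines). PROOF. With `a = 2 x.1 - 1`, `b = 2 x.2.1 - 1`, `m = max |a| |b| ≤ 1`, `t = x.2.2` let `ρ x` be the point with the coordinates (before the backward transformation `(· + 1) / 2`) `(2 a / (2 - t), 2 b / (2 - t), 0)` if `2 m ≤ 2 - t`, and `(a / m, b / m, 2 - (2 - t) / m)` if `2 m ≥ 2 - t` (then `m ≥ 1/2`): both agree for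
`2 m = 2 - t`, so `ρ` is continuous (`Continuous.if_le`; divide by `max m (1/4)` to have a continuous function everywhere), it has values in the set of the hypothesis and is the identity there (`t = 0`: first case; `m = 1`: second case, `2 - (2 - t) = t`). `c = f ∘ ρ` (`ContinuousOn.comp_continuous`). -/
def TKan : Prop :=
  ∀ (Z : Type) [TopologicalSpace Z] (f : unitInterval × unitInterval × unitInterval → Z),
    ContinuousOn f {x | x.1 = 0 ∨ x.1 = 1 ∨ x.2.1 = 0 ∨ x.2.1 = 1 ∨ x.2.2 = 0} →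
    ∃ c : C(unitInterval × unitInterval × unitInterval, Z),
      ∀ x, (x.1 = 0 ∨ x.1 = 1 ∨ x.2.1 = 0 ∨ x.2.1 = 1 ∨ x.2.2 = 0) → c x = f x

/-- **Closed box** (50 lines). PROOF. `h y = ((y 0 + 1) / 2, (y 1 + 1) / 2, (y 2 + 1) / 2)` for `y : CSph 3` is a point of the boundary (some `|y j| = 1`), `f ∘ h : C(CSph 3, X)` extends to `F` by `Ext 3 X`; `G (a, b, t) = F ![2 a - 1, 2 b - 1, 2 t - 1]`. -/
def TBox : Prop :=
  ∀ (X : Type) [TopologicalSpace X], Ext 3 X → ∀ f : unitInterval × unitInterval × unitInterval → X,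
    ContinuousOn f {x | x.1 = 0 ∨ x.1 = 1 ∨ x.2.1 = 0 ∨ x.2.1 = 1 ∨ x.2.2 = 0 ∨ x.2.2 = 1} →
    ∃ G : C(unitInterval × unitInterval × unitInterval, X),
      ∀ x, (x.1 = 0 ∨ x.1 = 1 ∨ x.2.1 = 0 ∨ x.2.1 = 1 ∨ x.2.2 = 0 ∨ x.2.2 = 1) → G x = f x

/-! ## Maps on simplicial complexes -/

/-- **Functions on a triangle** (80 lines). PROOF. The map `χ : I × I → smp {a, b, c}`, `χ (s, t) = Pi.single a (1 - s) + Pi.single b (s (1 - t)) + Pi.single c (s t)`, is continuous and surjective (`s = 1 - w a`, `t = w c / s` if `s ≠ 0`), `χ (s, t) = χ (s', t')` iff `s = s'` and (`s = 0` or `t = t'`). A continuous surjection from a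
compact space to a Hausdorff space is a quotient map (`Continuous.isClosedMap`, `IsClosedMap.isQuotientMap`, or `IsQuotientMap.of_surjective_continuous`), so `G` descends to a continuous map on the subtype `smp {a, b, c}` (`IsQuotientMap.lift`); extend it outside by any value (`G (0, 0)`); `continuousOn_iff_continuous_restrict`. -/
def TQuo : Prop :=
  ∀ (B : Type) [Fintype B] [DecidableEq B] (a b c : B), a ≠ b → a ≠ c → b ≠ c → ∀ (Z : Type) [TopologicalSpace Z]
    (G : C(unitInterval × unitInterval, Z)), (∀ t, G (0, t) = G (0, 0)) →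
    ∃ f : (B → ℝ) → Z, ContinuousOn f (smp {a, b, c}) ∧ ∀ s t : unitInterval,
      f (Pi.single a (1 - (s : ℝ)) + Pi.single b ((s : ℝ) * (1 - t)) + Pi.single c ((s : ℝ) * t)) = G (s, t)

/-- **Extension over a complex** (150 lines). PROOF. For `m : ℕ` let `𝒞_m = {σ ∈ 𝒞 | σ.Nonempty ∧ σ.card ≤ m}`. CLAIM by induction on `m`: there is `F` with `ContinuousOn F (smp σ)` and `P σ F` for all `σ ∈ 𝒞_m`. `m = 0`: nothing to show. STEP: for `σ ∈ 𝒞` with `σ.card = m + 1` (`m + 1 ≥ 1`) the set `bds σ` is the finite union of the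
closed sets `smp (σ.erase b)`, `b ∈ σ`, which are empty or belong to faces in `𝒞_m` (`DownC`), so `F` is continuous on it and the hypothesis gives `f' σ`. `F' w = f' (supp w) w` if `supp w = {b | 0 < w b}` is in `𝒞` and has `m + 1` elements, `F w` otherwise. For `σ ∈ 𝒞_m` the points of `smp σ` have supports with at most `m` elements: `F' = F` there, so
`P σ F'` (congruence hypothesis). For `σ ∈ 𝒞` with `m + 1` elements and `w ∈ smp σ`: either `supp w = σ`, `F' w = f' σ w`, or `w ∈ bds σ` and `F' w = F w = f' σ w`; so `F' = f' σ` on `smp σ`. END: `m` = the number of elements of `B`; `body 𝒞` is the finite union of the closed sets `smp σ` (`smp ∅ = ∅` because the sum is one), on each of which `F` is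
continuous (`ContinuousOn.union_of_isClosed` or `LocallyFinite.continuousOn_iUnion`). -/
def TGel : Prop :=
  ∀ (B : Type) [Fintype B] (𝒞 : Finset (Finset B)) (Z : Type) [TopologicalSpace Z] [Nonempty Z]
    (P : Finset B → ((B → ℝ) → Z) → Prop), DownC 𝒞 → (∀ σ f f', P σ f → Set.EqOn f f' (smp σ) → P σ f') →
    (∀ σ ∈ 𝒞, σ.Nonempty → ∀ f : (B → ℝ) → Z, ContinuousOn f (bds σ) → (∀ τ, τ ⊂ σ → τ.Nonempty → P τ f) →
      ∃ f' : (B → ℝ) → Z, ContinuousOn f' (smp σ) ∧ Set.EqOn f' f (bds σ) ∧ P σ f') →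
    ∃ F : (B → ℝ) → Z, ContinuousOn F (body 𝒞) ∧ ∀ σ ∈ 𝒞, σ.Nonempty → P σ F

/-- **Triangle step** (from `TSq2`, `TBox`; 150 lines). PROOF. `TSq2` for the paths `q01` (bottom), `q12` (right), `Path.refl a` (left), `q02` (top) gives `QA : C(I × I, A)` with these sides. Define `φ : I × I × I → X` by `φ (s, t, u) = p (QA (s, t))` if `u = 0`, else `g (s, t)` if `u = 1`, else `(F01 s).2 u` if `t = 0`, else `(F02 s).2 u` if `t = 1`, else
`(F12 t).2 u` if `s = 1`, else `(F01 0).2 u`. The six functions agree on the intersections of the faces, so `φ` equals on each of the six closed faces `{u = 0}`, `{u = 1}`, `{t = 0}`, `{t = 1}`, `{s = 1}`, `{s = 0}` the respective continuous function, and is continuous on their union. `G` from `TBox`. `F (s, t) = (QA (s, t), u ↦ G (s, t, u))`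
(`ContinuousMap.curry`). -/
def TTri : Prop :=
  ∀ (A X : Type) [TopologicalSpace A] [TopologicalSpace X] (p : C(A, X)) (a : A), Ext 3 X →
    ∀ (F01 F12 F02 : C(unitInterval, A × C(unitInterval, X))) (g : C(unitInterval × unitInterval, X))
      (q01 q12 q02 : Path a a), (∀ t, g (0, t) = g (0, 0)) →
      (∀ t, q01 t = (F01 t).1) → (∀ t, q12 t = (F12 t).1) → (∀ t, q02 t = (F02 t).1) →
      (q01.trans q12).Homotopic ((Path.refl a).trans q02) →
      F01 0 = F02 0 → F01 1 = F12 0 → F12 1 = F02 1 →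
      (∀ t, (F01 t).2 0 = p (F01 t).1) → (∀ t, (F12 t).2 0 = p (F12 t).1) → (∀ t, (F02 t).2 0 = p (F02 t).1) →
      (∀ s, (F01 s).2 1 = g (s, 0)) → (∀ t, (F12 t).2 1 = g (1, t)) → (∀ s, (F02 s).2 1 = g (s, 1)) →
      ∃ F : C(unitInterval × unitInterval, A × C(unitInterval, X)), (∀ s, F (s, 0) = F01 s) ∧ (∀ t, F (1, t) = F12 t) ∧
        (∀ s, F (s, 1) = F02 s) ∧ (∀ t, F (0, t) = F01 0) ∧ (∀ x, (F x).2 0 = p (F x).1) ∧ ∀ x, (F x).2 1 = g x

/-- **Lifting up to homotopy** (from `TSq1`, `TSq2`, `TQuo`, `TGel`, `TTri`; 250 lines). PROOF. Let `x₀ = p a`. Choose a linear order on `B` (`Fintype.equivFin`, `LinearOrder.lift'`; classical decidability). For `b` let `e_b = Pi.single b 1`. For `b` with `{b} ∈ 𝒞` choose a path `lam b` from `x₀` to `g e_b`. For `b < c` with `{b, c} ∈ 𝒞` let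
`gam b c` be the path `t ↦ g ((1 - t) e_b + t e_c)` from `g e_b` to `g e_c` (continuous: the segment is in `smp {b, c}`) and `cl b c` the class of `((lam b).trans (gam b c)).trans (lam c).symm` in `FundamentalGroup X x₀`. `TGel` for `Z = A × C(unitInterval, X)` and `P σ f`: (i) for `w ∈ smp σ`: `(f w).2 0 = p (f w).1`, `(f w).2 1 = g w`;
(ii) if `σ = {b}` then `f e_b = (a, lam b)`; (iii) if `σ = {b, c}`, `b < c`, then there is a path `q : Path a a` with `q t = (f ((1 - t) e_b + t e_c)).1` and class `s (cl b c)`. (`TGel` only needs these for `σ ∈ 𝒞`; outside let `P` be anything, e.g. put `σ ∈ 𝒞 →` in front; `DownC` gives the faces.) STEPS. `σ = {b}`: `bds σ = ∅`, `smp σ = {e_b}`. `σ = {b, c}`, `b < c`: let `q` be a path with class `s (cl b c)`; since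
`map p (s (cl b c)) = cl b c` the path `(q.map p.continuous).trans (lam c)` is homotopic to `(lam b).trans (gam b c)` (groupoid computation in `Path.Homotopic.Quotient`), so `TSq2` gives `Q` with `Q (t, 0) = p (q t)`, `Q (1, u) = lam c u`, `Q (0, u) = lam b u`, `Q (t, 1) = gam b c t`; `f' w = (q (w c), u ↦ Q (w c, u))` (`w c ∈ [0, 1]`, projIcc).
`σ = {b, c, d}`, `b < c < d`: `F01, F12, F02` = `f` on the three edges (`t ↦ f ((1 - t) e_b + t e_c)` etc.), `gg (s, t) = g (χ (s, t))` with `χ` as in `TQuo` (`a, b, c := b, c, d`); by `TSq1` for `gg` (left side constant) the paths `(gam b c).trans (gam c d)` and `(Path.refl _).trans (gam b d)` are homotopic, hence the classes satisfy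
`cl b c` followed by `cl c d` `= cl b d`, so with `s` a homomorphism (`mul_def : x * y = y.trans x`, `map_mul`) the paths `q01.trans q12` and `q02` are homotopic, i.e. the hypothesis of `TTri`. `F` from `TTri`, `f'` from `TQuo` for `G = F`. On `bds σ`: `w d = 0` (`t = 0`), `w c = 0` (`t = 1`) or `w b = 0` (`s = 1`): `f' = f`. Cards `≥ 4` do not occur.
END: `F` from `TGel`; `L w = (F w).1`, `h (t, w) = (F w).2 t` (evaluation is continuous). -/
def TObs : Prop :=
  ∀ (A X : Type) [TopologicalSpace A] [TopologicalSpace X] (p : C(A, X)) (a : A)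
    (s : FundamentalGroup X (p a) →* FundamentalGroup A a), (∀ c, FundamentalGroup.map p a (s c) = c) →
    PathConnectedSpace X → Ext 3 X → ∀ (B : Type) [Fintype B] (𝒞 : Finset (Finset B)), DownC 𝒞 → (∀ σ ∈ 𝒞, σ.card ≤ 3) →
    ∀ g : (B → ℝ) → X, ContinuousOn g (body 𝒞) →
    ∃ (L : (B → ℝ) → A) (h : unitInterval × (B → ℝ) → X), ContinuousOn L (body 𝒞) ∧
      ContinuousOn h (Set.univ ×ˢ body 𝒞) ∧ ∀ w ∈ body 𝒞, h (0, w) = p (L w) ∧ h (1, w) = g w

/-! ## The homotopy fibre -/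

/-- **Surjectivity** (from `TSq2`; 100 lines). PROOF. Let `q = ((x₀, ω), _)`, `x₀ = pr J yc q`, `ω` a path from `J x₀` to `yc`. `FundamentalGroup Y (J x₀)` is commutative: it is isomorphic to `FundamentalGroup Y yc` (`FundamentalGroup.fundamentalGroupMulEquivOfPath`). So `FundamentalGroup.map J x₀` is a homomorphism to a commutative group (make the `CommGroup`
from the group structure and this), hence trivial by `Perf`. Let `c` be the class of the loop `l` at `x₀`. `J ∘ l` is homotopic to the constant path, so `(l.map J.continuous).trans ω` is homotopic to `ω.trans (Path.refl yc)`. `TSq2` gives `Q : C(I × I, Y)` with `Q (θ, 0) = J (l θ)`, `Q (1, t) = ω t`, `Q (0, t) = ω t`, `Q (θ, 1) = yc`.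
The loop `θ ↦ ((l θ, t ↦ Q (θ, t)), _)` at `q` in `HF J yc` maps to `l`. -/
def TSur : Prop :=
  ∀ (X Y : Type) [TopologicalSpace X] [TopologicalSpace Y] (J : C(X, Y)) (yc : Y),
    (∀ a b : FundamentalGroup Y yc, a * b = b * a) → ∀ q : HF J yc, Perf (FundamentalGroup X (pr J yc q)) →
    Function.Surjective (FundamentalGroup.map (pr J yc) q)

/-- **Central kernel** (from `TSq1`, `TKan`; 250 lines). PROOF. Let `q = ((x₀, ω), _)`, `k` the class of the loop `α θ = (x θ, a θ)` (`a θ : C(I, Y)`, `a θ 0 = J (x θ)`, `a θ 1 = yc`, `a 0 = a 1 = ω`), `e` the class of the loop `β`. By hypothesis there is a path homotopy `h (θ, u)` in `X` from `x` (at `u = 0`) to the constant `x₀` (at `u = 1`), with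
`h (0, u) = h (1, u) = x₀`. BOX: `TKan` for `f (θ, u, t) = J (h (θ, u))` if `t = 0`, else `a θ t` if `u = 0`, else `ω t` (it agrees with `J (h (θ, u))`, `a θ t`, `ω t`, `ω t`, `ω t` on the closed faces `t = 0`, `u = 0`, `u = 1`, `θ = 0`, `θ = 1`) gives `c : C(I × I × I, Y)`. `δ (θ, u) = c (θ, u, 1)`: it is `yc` for `θ ∈ {0, 1}` and for `u ∈ {0, 1}`.
NOTATION: for a loop `γ θ = (y θ, b θ)` at `q` let `γ⁺ θ = (y θ, (b θ) * yc)`, where `(b * yc) t = b (2 t)` for `t ≤ 1/2` and `yc` for `t ≥ 1/2`; it is a loop at `q⁺ = (x₀, ω * yc)`. (1) The square `(θ, v) ↦ (y θ, t ↦ b θ (min 1 ((1 + v) t)))` in `HF` has bottom (`v = 0`) `γ`, top (`v = 1`) `γ⁺`, left and right side the same path `ρ v = (x₀, t ↦ ω (min 1 ((1 + v) t)))`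
from `q` to `q⁺`. So (`TSq1`) `[γ] [ρ] = [ρ] [γ⁺]` in the fundamental groupoid, for every loop `γ` at `q`. (2) The square `S (θ, v) = (h (θ, v), t ↦ c (θ, Π v t))` with `Π v t = (v, 2 t)` for `t ≤ 1/2`, `Π v t = (v (2 - 2 t), 1)` for `t ≥ 1/2` (start `c (θ, v, 0) = J (h (θ, v))`, end `c (θ, 0, 1) = yc`) has bottom `α⁺`, top
`δ⁺ θ = (x₀, t ↦ ω (2 t) (t ≤ 1/2), δ (θ, 2 - 2 t) (t ≥ 1/2))` and both sides constant `q⁺`. So `[α⁺] = [δ⁺]`. (3) The square `M (θ', θ) = (y θ', t ↦ b θ' (2 t) (t ≤ 1/2), δ (θ, 2 - 2 t) (t ≥ 1/2))`, `β = (y, b)`, has bottom and top `β⁺` and left and right side `δ⁺`. So `[β⁺] [δ⁺] = [δ⁺] [β⁺]`. From (1), (2), (3): `[α] [β] = [β] [α]`. (All functions of `t` given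
by cases are continuous in all variables: `Continuous.if_le`; curry.) -/
def TCen : Prop :=
  ∀ (X Y : Type) [TopologicalSpace X] [TopologicalSpace Y] (J : C(X, Y)) (yc : Y) (q : HF J yc)
    (k e : FundamentalGroup (HF J yc) q), FundamentalGroup.map (pr J yc) q k = 1 → k * e = e * k

/-- **Null-homotopy on the complex** (from `TObs`, `TSur`, `TCen`; 80 lines). PROOF. `Splits` for `π = FundamentalGroup.map (pr J yc) q` (surjective: `TSur`; central kernel: `TCen`) gives a section `s`. `L, h` from `TObs` for `p = pr J yc`, `a = q`. `H (t, w) = J (h (1 - 2 t, w))` for `t ≤ 1/2`, `(L w).1.2 (2 t - 1)` for `t ≥ 1/2`; at `t = 1/2` both are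
`J (pr (L w)) = (L w).1.2 0`. `H (0, w) = J (h (1, w)) = J (g w)`, `H (1, w) = (L w).1.2 1 = yc`. Continuity on `univ ×ˢ body 𝒞`: `ContinuousOn.if'` or restrict to the two closed sets `t ≤ 1/2`, `t ≥ 1/2`; the evaluation `C(unitInterval, Y) × unitInterval → Y` is continuous. -/
def TNV : Prop :=
  ∀ (X Y : Type) [TopologicalSpace X] [TopologicalSpace Y] (J : C(X, Y)) (yc : Y),
    (∀ a b : FundamentalGroup Y yc, a * b = b * a) → PathConnectedSpace X → Ext 3 X → ∀ q : HF J yc,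
    Splits (FundamentalGroup X (pr J yc q)) → Perf (FundamentalGroup X (pr J yc q)) →
    ∀ (B : Type) [Fintype B] (𝒞 : Finset (Finset B)), DownC 𝒞 → (∀ σ ∈ 𝒞, σ.card ≤ 3) →
    ∀ g : (B → ℝ) → X, ContinuousOn g (body 𝒞) → ∃ H : unitInterval × (B → ℝ) → Y,
      ContinuousOn H (Set.univ ×ˢ body 𝒞) ∧ ∀ w ∈ body 𝒞, H (0, w) = J (g w) ∧ H (1, w) = yc

/-- **Free unit** (from `TSq1`; 120 lines). PROOF. `x₁ = μ (x₀, x₀)`, `ρ s = φ (s, x₀)`, `ρ' s = ψ (s, x₀)` are paths from `x₁` to `x₀`. For a loop `a` at `x₀` let `a₁ u = μ (a u, x₀)`, for a loop `b` let `b₁ v = μ (x₀, b v)`, loops at `x₁`. `TSq1` for `Q (u, v) = μ (a u, b v)`: `a₁.trans b₁ ~ b₁.trans a₁`. `TSq1` for `Q (u, s) = φ (s, a u)`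
(bottom `a₁`, left and right `ρ`, top `a`): `a₁.trans ρ ~ ρ.trans a`. The same for `ψ`: `b₁.trans ρ' ~ ρ'.trans b`. In `Path.Homotopic.Quotient` (a groupoid; write the composition as a product): `a₁ = ρ a ρ⁻¹`, `b₁ = ρ' b ρ'⁻¹`, so with the loop `c = ρ⁻¹ ρ'` at `x₀` the relation `a₁ b₁ = b₁ a₁` says that `a` commutes with `c b c⁻¹`, for all `b`.
Replace `b` by `c⁻¹ b c`. -/
def TEH : Prop :=
  ∀ (X : Type) [TopologicalSpace X] (x₀ : X) (μ : C(X × X, X)) (φ ψ : C(unitInterval × X, X)),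
    (∀ x, φ (0, x) = μ (x, x₀)) → (∀ x, φ (1, x) = x) → (∀ x, ψ (0, x) = μ (x₀, x)) → (∀ x, ψ (1, x) = x) →
    ∀ a b : FundamentalGroup X x₀, a * b = b * a

/-- **Commutativity** (from `TEH`; 250 lines). PROOF. Write `d[t]` for `Function.update d 0 t` and `t = d 0`, `ω = yc`. `μ (p, r) d = p (d[3 t + 2])` for `t ≤ -1/3`, `ω (d[-3 t])` for `-1/3 ≤ t ≤ 1/3`, `r (d[3 t - 2])` for `1/3 ≤ t` (all values `k` at `t = ±1/3`, because then the argument of `p, ω, r` has a coordinate `±1`; the same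
for `|t| ≥ 1`, and if `|d j| ≥ 1` for some `j ≠ 0`; `1 ≤ ‖d‖` iff some `1 ≤ |d j|`). Continuity in all variables (`Continuous.if_le`, evaluation is continuous, then curry). FIRST HOMOTOPY: `μ (p, ω) d = p (d[3 t + 2])` for `t ≤ -1/3`, `ω (d[|3 t - 1| - 1])` for `t ≥ -1/3`. `φ₁ (s, p) d = p (d[3 t + 2])` for `t ≤ -1/3`,
`ω (d[max (|3 t - 1| - 1) (2 s - 1)])` for `t ≥ -1/3`; `φ₁ (1, p) d = p (d[3 t + 2])` for all `t` (both are `k` for `t ≥ -1/3`). `φ₂ (s, p) d = p (d[(3 - 2 s) t + 2 - 2 s])`, `φ₂ (1, p) = p`. `φ` = first `φ₁` (`2 s`), then `φ₂` (`2 s - 1`) (or `ContinuousMap.Homotopy.trans` for maps `LY → LY`). SECOND: `μ (ω, r) d = ω (d[1 - |3 t + 1|])` for `t ≤ 1/3`,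
`r (d[3 t - 2])` for `t ≥ 1/3`; `ψ₁ (s, r) d = ω (d[min (1 - |3 t + 1|) (1 - 2 s)])` for `t ≤ 1/3`, `r (d[3 t - 2])` for `t ≥ 1/3`; `ψ₂ (s, r) d = r (d[(3 - 2 s) t - 2 + 2 s])`. (All of them have the value `k` for `1 ≤ ‖d‖`.) `TEH`. -/
def TCom : Prop :=
  ∀ (K : Type) [TopologicalSpace K] (k : K) (yc : LY K k) (a b : FundamentalGroup (LY K k) yc), a * b = b * a

/-! ## Algebra -/

/-- **The binary icosahedral group splits central extensions** (200 lines). PROOF. PERFECT: in a commutative group the relations give `s = t ^ 2` (`s ^ 3 = s ^ 2 t ^ 2`) and `t ^ 3 = s ^ 2 = t ^ 4`, so `t = 1`, `s = 1`; the kernel of `φ` contains `s, t`, so it is everything. CENTRAL EXTENSION `π : E →* G`: choose `S₀, T₀` with `π S₀ = s`, `π T₀ = t`. `m₁ = S₀ ^ 3 ((S₀ T₀) ^ 2)⁻¹`,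
`m₂ = T₀ ^ 5 ((S₀ T₀) ^ 2)⁻¹` are in the kernel, hence central. `b = m₁ ^ 2 m₂`, `a = m₁ ^ 3 m₂ ^ 2`, `S = a S₀`, `T = b T₀` satisfy `S ^ 3 = (S T) ^ 2 = T ^ 5` (all factors `a, b, m₁, m₂` are central: `S ^ 3 = a ^ 3 m₁ (S₀ T₀) ^ 2`, `(S T) ^ 2 = a ^ 2 b ^ 2 (S₀ T₀) ^ 2`, `T ^ 5 = b ^ 5 m₂ (S₀ T₀) ^ 2`, and `a m₁ = b ^ 2`, `b ^ 3 m₂ = a ^ 2`). Put `Z = S ^ 3`.
RELATIONS: (1) `T S T = S ^ 2` and `S T S = T ^ 4` (cancel in `S T S T = S ^ 3 = T ^ 5`); `Z` commutes with `S` and `T`. (2) `S T ^ 2 S = (S T) (T S) = (T⁻¹ S ^ 2) (S ^ 2 T⁻¹) = Z T⁻¹ S T⁻¹`. (3) `S T ^ 4 S = S (S T S) S = S ^ 2 T S ^ 2 = (T S T) T (T S T) = T (S T ^ 3 S) T`. TABLE, with `A_k = S T ^ k`, `B_k = S T ^ 3 S T ^ k`, `C = B_4 S`: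
`A_0 S = T A_1`, `A_1 S = T ^ 4`, `A_2 S = Z T⁻¹ S T⁻¹ = T⁻¹ A_4` (`Z T⁻¹ = T ^ 4`, `S T⁻¹ = Z⁻¹ A_4`), `A_3 S = B_0`, `A_4 S = T B_1`, `B_0 S = S T ^ 3 (T S T) = (S T ^ 4 S) T = T B_2`, `B_1 S = S T ^ 3 (S T S) = S T ^ 7 = Z A_2`, `B_2 S = S T ^ 3 (S T ^ 2 S) = Z (S T ^ 2 S) T⁻¹ = Z ^ 2 T⁻¹ S T⁻² = Z T⁻¹ A_3` (`T⁻² = Z⁻¹ T ^ 3`),
`B_3 S = S T ^ 3 S T ^ 3 S`: from `C T = T⁻¹ C`-type computations: `(B_3 S) T = S T ^ 3 S T ^ 3 (S T) = S T ^ 3 S T ^ 2 S ^ 2 = S T ^ 3 (S T ^ 2 S) S = Z (S T ^ 2 S) T⁻¹ S = Z ^ 2 T⁻¹ S T⁻² S = Z T⁻¹ S T ^ 3 S = Z T⁻¹ B_0`, so `B_3 S = Z T⁻¹ B_0 T⁻¹ = T⁻¹ B_4`. `B_4 S = C`. `C S = B_4 S ^ 2 = B_4 T S T = Z B_0 S T = Z T B_2 T = Z T B_3`. `C T = T⁻¹ C`: by (3)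
`C = S T ^ 3 (S T ^ 4 S) = S T ^ 3 T (S T ^ 3 S) T = (S T ^ 4 S) T ^ 3 S T = T (S T ^ 3 S) T T ^ 3 S T = T C T`. (4) `C T ^ 5 = T⁻⁵ C` gives `Z = Z⁻¹`, `Z ^ 2 = 1`, `T ^ 10 = 1`, `T⁻¹ = T ^ 9`. So the set `{T ^ k * wd S T j | k < 10, j}` contains `1` and is closed under right multiplication by `S` and `T`, hence by `S⁻¹ = S ^ 5`, `T⁻¹ = T ^ 9`
(`S ^ 6 = 1`), so it is the subgroup `H` generated by `S, T`. `π` restricted to `H` is surjective (the image contains `s, t`) and injective: `π (T ^ k * wd S T j) = t ^ k * wd s t j = 1` implies `k = 0`, `j = 0` (hypothesis), and the element is `1`. `s` = the inverse of this isomorphism, composed with the inclusion of `H`. -/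
def TSpl : Prop :=
  ∀ (G : Type) [Group G] (s t : G), s ^ 3 = (s * t) ^ 2 → t ^ 5 = (s * t) ^ 2 → Subgroup.closure {s, t} = ⊤ →
    (∀ k : ℕ, k < 10 → ∀ j : Fin 12, t ^ k * wd s t j = 1 → k = 0 ∧ j = 0) → Splits G ∧ Perf G

/-- **Two elements** (200 lines). PROOF. Quaternions `(re, imI, imJ, imK)`: `sq = (1/2, 1/2, 1/2, 1/2)`, `tq = ((1 + √5)/4, 1/2, (√5 - 1)/4, 0)`, `tq' = ((1 - √5)/4, 1/2, -(1 + √5)/4, 0)`, all of norm one. `s = (sq, sq)`, `t = (tq, tq')`. Coordinate computations (`Quaternion.ext`, `simp`, `ring_nf`, `√5 ^ 2 = 5`): `sq⁻¹ * v0 i * sq = v0 (σ i)` with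
`σ = (0, 1, 2, 3, 4 ↦ 0, 1, 4, 2, 3)`, `tq⁻¹ * v0 i * tq' = v0 (τ i)` with `τ = (0, 1, 2, 3, 4 ↦ 3, 2, 0, 4, 1)` (for unit quaternions the inverse is `star`); `sq ^ 3 = -1`, `(sq tq) ^ 2 = -1`, `tq ^ 5 = -1`, `(sq tq') ^ 2 = -1`, `tq' ^ 5 = -1`. INJECTIVITY: `v0` is injective, so for `e ∈ Gm` the permutation `π e` with `e.1⁻¹ v0 i e.2 = v0 (π e i)` is unique,
`π (e f) = π f * π e`. If `t ^ k * wd s t j = 1` then the product of the permutations, `(π (wd s t j)) * τ ^ k`, is `1`; by `decide` over `k < 10`, `j` (write out the twelve permutations, `wd` for the opposite group or with reversed products) this implies `j = 0` and `k ∈ {0, 5}`; and `t ^ 5 = -1 ≠ 1`. -/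
def TGa1 : Prop :=
  ∃ s t : Gm, s ^ 3 = (s * t) ^ 2 ∧ t ^ 5 = (s * t) ^ 2 ∧
    (∀ i, (((s : EE).1⁻¹ : S3) : ℍ[ℝ]) * v0 i * ((s : EE).2 : ℍ[ℝ]) = v0 (![0, 1, 4, 2, 3] i)) ∧
    (∀ i, (((t : EE).1⁻¹ : S3) : ℍ[ℝ]) * v0 i * ((t : EE).2 : ℍ[ℝ]) = v0 (![3, 2, 0, 4, 1] i)) ∧
    (((s ^ 3 : Gm) : EE).1 : ℍ[ℝ]) = -1 ∧ (((s ^ 3 : Gm) : EE).2 : ℍ[ℝ]) = -1 ∧
    ∀ k : ℕ, k < 10 → ∀ j : Fin 12, t ^ k * wd s t j = 1 → k = 0 ∧ j = 0

/-- **Rigidity** (120 lines). PROOF. Write `a = e.1⁻¹`, `b = e.2` as quaternions, `a v_i b = v_(σ i)`. (i) `σ = 1`: `i = 0` (`v_0 = 1`) gives `a b = 1`, so `a v_i = v_i a` for all `i`; `v_1, ..., v_4` and `1` span the quaternions (or: commuting with `v_1, v_2, v_3` and reading off the coordinates), so `a` is real, `a = ±1`, `b = a⁻¹ = a`. (ii) Suppose `σ = swap 3 4`: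
again `a b = 1` and `a` commutes with `v_1`, `v_2`: the imaginary parts `(-1, -1, -1)` and `(-1, 1, 1)` are linearly independent, so the imaginary part of `a` (proportional to both: two quaternions commute iff the cross product of the imaginary parts is zero) is zero: `a` is real, `a v_3 b = v_3 ≠ v_4`, a contradiction. -/
def TRig : Prop :=
  ∀ (e : EE) (σ : Equiv.Perm (Fin 5)), (∀ i, ((e.1⁻¹ : S3) : ℍ[ℝ]) * v0 i * (e.2 : ℍ[ℝ]) = v0 (σ i)) →
    (σ = 1 → ((e.1 : ℍ[ℝ]) = 1 ∧ (e.2 : ℍ[ℝ]) = 1) ∨ ((e.1 : ℍ[ℝ]) = -1 ∧ (e.2 : ℍ[ℝ]) = -1)) ∧ σ ≠ Equiv.swap 3 4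

/-- **The group of the simplex** (from `TSpl`, `TGa1`, `TRig`; 120 lines). PROOF. `s, t` from `TGa1`. GENERATION: let `H = Subgroup.closure {s, t}`, `e ∈ Gm` with permutation `σ`. For `f ∈ H` with permutation `ρ` the element `e * f` has the permutation `ρ * σ` (`(e f).1⁻¹ v_i (e f).2 = f.1⁻¹ v_(σ i) f.2 = v_(ρ (σ i))`). The set of the permutations of elements of `H` is
closed under products and contains `σ_s = ![0,1,4,2,3]`, `σ_t = ![3,2,0,4,1]`; by `decide`: (a) every point is moved to `0` by some product of `σ_s`, `σ_t` (powers of `σ_t`, which is a 5-cycle: `0 ↦ 3 ↦ 4 ↦ 1 ↦ 2 ↦ 0`); (b) the products fixing `0` move every point of `{1, 2, 3, 4}` to `1`; (c) the powers of `σ_s` fix `0, 1` and move `2, 3, 4` to `2`. So for some `f ∈ H` the permutation of `e * f` fixes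
`0, 1, 2`: it is `1` or `swap 3 4`, the latter is impossible (`TRig`), and if it is `1` then `e * f = ±1 ∈ {1, s ^ 3}` (`TRig`). (For (b): elements of `H` fixing `0` and moving `1, 2, 3, 4` to `1`: search words of length `≤ 6`.) So `H = ⊤`; `TSpl`. -/
def TGam : Prop := Splits Gm ∧ Perf Gm

/-! ## The covering -/

/-- **Isometries of the quaternions** (120 lines). PROOF. `LinearIsometryEquiv.reflections_generate`: the group of all isometries is generated by the reflections in `(ℝ ∙ v)ᗮ`. The set of the `R` of the stated form is closed under products (`a (c x d) b`, `a (star (c x d)) b = (a (star d)) (star x) ((star c) b)`, ...; for unit quaternions `star c = c⁻¹` is in `S3`) and inverses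
(`x ↦ a x b` has the inverse `x ↦ a⁻¹ x b⁻¹`, `x ↦ a (star x) b` has the inverse `x ↦ b (star x) a`). The reflection for `v = 0` is the identity; for `v ≠ 0`, `u = v / ‖v‖`, it is `x ↦ x - 2 ⟪u, x⟫ u = - u (star x) u` (`x (star u) + u (star x) = 2 ⟪u, x⟫`, multiply by `u` from the right, `(star u) u = 1`), of the second form with `a = -u`, `b = u`. `Subgroup.closure_induction`. -/
def TRef : Prop :=
  ∀ R : ℍ[ℝ] ≃ₗᵢ[ℝ] ℍ[ℝ], ∃ a b : S3, (∀ x, R x = (a : ℍ[ℝ]) * x * (b : ℍ[ℝ])) ∨ ∀ x, R x = (a : ℍ[ℝ]) * star x * (b : ℍ[ℝ])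

/-- **Every simplex is an image of `v0`** (from `TRef`; 180 lines). PROOF. Let `v : RS`, `y i : ℍ` the quaternion with `linearIsometryEquivTuple (y i) = v i`: `⟪y i, y j⟫ = -1/4` for `i ≠ j`, `1` for `i = j` (also for `y = v0`: `v0_inner`). (1) `∑ y i = 0` (its square norm is `5 - 20/4 = 0`). (2) For `y = v0`: `∑ i, ⟪x, v0 i⟫ • v0 i = (5/4) • x` (coordinates: bilinear
computation). (3) `R x = (4/5) • ∑ i, ⟪x, v0 i⟫ • y i` is linear, `R (v0 j) = (4/5) (y j - (1/4) ∑_(i ≠ j) y i) = y j`, and `‖R x‖ ^ 2 = (16/25) ∑_(i, j) ⟪x, v0 i⟫ ⟪x, v0 j⟫ ⟪y i, y j⟫` does not depend on `y` (only on the Gram matrix), so it is `‖x‖ ^ 2` by (2). So `R` is a linear isometry of a finite dimensional space, hence an isometry equivalence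
(`LinearIsometry.toLinearIsometryEquiv`). (4) `TRef`: if `R x = a x b` then `fr (a⁻¹, b) = v`. If `R x = a (star x) b`: let `u = (v0 0 - v0 1) / ‖v0 0 - v0 1‖`, `S x = - u (star x) u` the reflection, which exchanges `v0 0` and `v0 1` and fixes `v0 2, v0 3, v0 4` (they are orthogonal to `u`); `R (S x) = a (star (- u (star x) u)) b = (- a (star u)) x ((star u) b)` and
`R (S (v0 i)) = y (swap 0 1 i)`: so `fr (e) = (swap 0 1) • v` for `e = ((- a (star u))⁻¹, (star u) b)`, the same class. (`Quotient.eq`, `MulAction.orbitRel_apply`.) -/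
def TTh1 : Prop := Function.Surjective th

/-- **Covering** (from `TTh1`, `TRig`; 200 lines). PROOF. `Topology.IsQuotientMap.isQuotientCoveringMap_of_subgroup`. (1) `fr`, hence `th` is continuous (coordinates are products of continuous functions; `continuous_quot_mk`). (2) `RSq` is Hausdorff: `t2Space_of_properlyDiscontinuousSMul_of_t2Space` (the finite group `Perm (Fin 5)` acts continuously on the compact Hausdorff space `RS`;
compact: closed subset of `Fin 5 → Sph 3`), so the continuous surjection `th` from the compact `EE` is closed and a quotient map. (3) `th e = th e'` iff for some `σ`: `e.1⁻¹ v_i e.2 = e'.1⁻¹ v_(σ i) e'.2` for all `i` (with `σ` or `σ⁻¹`, `linearIsometryEquivTuple` is injective), i.e. `(e'.1 e.1⁻¹) v_i (e.2 e'.2⁻¹) = v_(σ i)`, i.e. `e' * e⁻¹` has the inverse in `GmS` ... precisely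
with `g = e * e'⁻¹`: `g.1⁻¹ v_i g.2 = v_(σ i)`, `g ∈ Gm` iff `g⁻¹ = e' * e⁻¹ ∈ Gm`. (4) `Gm` is finite, hence discrete: two elements `e, f` with the same permutation have `e * f⁻¹` with permutation `1` (or `f⁻¹`-version), so `e = f` or `e = - f` (`TRig`): `Gm → Perm (Fin 5)` has fibres with at most two elements. -/
def TCov : Prop := IsQuotientCoveringMap th Gm

/-- **Extension from null-homotopy** (60 lines). PROOF. `H` a homotopy from `f` to the constant `y`. `F x = y` for `‖x‖ ≤ 1/2`, `F x = H (min 1 (2 - 2 ‖x‖) , x / ‖x‖)` for `1/2 ≤ ‖x‖` (first argument projected to `[0, 1]`): for `‖x‖ = 1/2` it is `H (1, ·) = y`, for `‖x‖ = 1` it is `H (0, x) = f x` (`continuous_if_le`; replace `x / ‖x‖` by a point of `CSph d` only for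
`x ≠ 0`: work on the closed set `{1/2 ≤ ‖x‖}`, `ContinuousOn.if'` or `IsClosed` gluing). Conversely an extension `F` gives the homotopy `(t, x) ↦ F ((1 - t) x)` to the constant `F 0`. -/
def TNE : Prop :=
  ∀ (d : ℕ) (X : Type) [TopologicalSpace X], (∀ f : C(CSph d, X), ∃ y : X, f.Homotopic (ContinuousMap.const _ y)) ↔ Ext d X

/-- **Spheres in `S3 × S3`** (from `SNH`, `TNE`; 120 lines). PROOF. `PathConnectedSpace S3`: `isPathConnected_sphere` (the rank of `ℍ[ℝ]` is `4 > 1`), `isPathConnected_iff_pathConnectedSpace`; products. Let `d = 2` or `3` and `f : C(CSph d, S3)`; `h x` = the four coordinates of `f x` (continuous linear equivalence `ℍ[ℝ] ≃ Fin 4 → ℝ`), nonzero. `SNH` with `D = 4`, `k = d - 1`,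
`k + 2 ≤ 4`, gives a nonzero homotopy to a constant; go back to `ℍ[ℝ]` and normalise. For `EE` use the two components (the homotopies at the same time). `TNE`. -/
def TExE : Prop := PathConnectedSpace EE ∧ Ext 2 EE ∧ Ext 3 EE

/-- **Simply connected** (from `TSq1`; 80 lines). PROOF. `simply_connected_iff_paths_homotopic`-type criterion: every loop `l` at `x` is homotopic to the constant loop (then two paths `p, q` with the same ends are homotopic: `p.trans q.symm` is a loop; Mathlib may have `SimplyConnectedSpace.ofLoops...`). Define `f : C(CSph 2, X)` by `f y = l ((y 0 + 1) / 2)` if `y 1 = -1`, else `x`: on the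
closed sets `{y 1 = -1}` and `{y 1 ≠ -1}`'s closure, i.e. `{y 1 ≥ -1 and (y 1 = 1 or |y 0| = 1)}`: for `y 1 > -1` the value is `x`, and at the two corners `y = (±1, -1)` the value `l 0 = l 1 = x` (`f y = l (clamp ...)` with: `f y = l ((y 0 + 1)/2)` if `y 1 ≤ -|y 0|`, else `x`; continuous by `Continuous.if_le`, since `y 1 = - |y 0|` on the sphere means `|y 0| = 1`). `Ext 2 X` gives `F`;
`Q (s, t) = F ![2 s - 1, 2 t - 1]` has bottom `l`, the other sides constant `x`: `TSq1`. -/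
def TSim : Prop := ∀ (X : Type) [TopologicalSpace X], PathConnectedSpace X → Ext 2 X → SimplyConnectedSpace X

/-- **Fundamental group** (from `TGam`, `TCov`, `TExE`, `TSim`; 80 lines). PROOF. `e ∈ th ⁻¹' {x}` exists (the covering map is surjective). Mathlib: `IsQuotientCoveringMap.fundamentalGroupEquiv : FundamentalGroup RSq x ≃* Gmᵐᵒᵖ` for the simply connected `EE` (`TSim`, `TExE`). `Gmᵐᵒᵖ ≃* Gm` by the inverse (`MulEquiv.inv'`). `Splits` and `Perf` are invariant under group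
isomorphisms (compose with the isomorphism). `RSq` is path connected as the image of `EE`. -/
def TGrp : Prop :=
  PathConnectedSpace RSq ∧ ∀ x : RSq, Splits (FundamentalGroup RSq x) ∧ Perf (FundamentalGroup RSq x)

/-- **Second homotopy group** (from `SCube`, `SNul`, `TCov`, `TExE`, `TNE`; 150 lines). PROOF. By `TNE` and `SNul` (`d = 2`) it is enough that `HomotopyGroup.Pi 2 RSq x` is trivial for all `x`. Let `f` be a `GenLoop (Fin 2) RSq x`, regarded as a map `I × I → RSq`. Choose `e` with `th e = x`. Lift the path `t ↦ f (0, t)` (constant: the constant lift `e`) and then `f`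
(`IsCoveringMap.liftHomotopy`) to `f' : C(I × I, EE)` with `th ∘ f' = f`, `f' (0, t) = e`. On the boundary of the square `f = x`; the four sides are preconnected and each one meets another one, so `f' = e` there (`IsCoveringMap.constOn_of_comp` for each side, or `eqOn_of_comp_eqOn`). So `f'` is a `GenLoop (Fin 2) EE e`. `HomotopyGroup.Pi 2 EE e` is trivial: `SCube` with `i = 2` and `Ext 3 EE`
(`TNE`). So `f'` is homotopic to the constant relative to the boundary; apply `th`. -/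
def TPi2 : Prop := Ext 3 RSq

/-! ## Factorization through the nerve -/

/-- **Local lifts** (from `TCov`; 60 lines). PROOF. For `e : EE` the set `O e = g ⁻¹' (th '' Metric.ball e (r / 2))` is open (`th` is an open map: `IsCoveringMap.isOpenMap`), and these sets cover the compact `U` (`th` is surjective). `lebesgue_number_lemma_of_metric` gives `η`. Let `dist z z' < η`, `ball z η ⊆ O e₀`: `g z = th u`, `g z' = th u'` with `dist u u' < r`. If `th e = g z` then
`e = γ u` with `γ ∈ Gm` (`apply_eq_iff_mem_orbit`), `e' = γ u'`; multiplication by `γ` is an isometry of `EE` (norms of quaternions are multiplicative: `‖γ x - γ y‖ = ‖x - y‖` for `‖γ‖ = 1`, both components). -/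
def TLoc : Prop :=
  ∀ (U : Type) [MetricSpace U] [CompactSpace U] (g : C(U, RSq)) (r : ℝ), 0 < r → ∃ η : ℝ, 0 < η ∧
    ∀ z z' : U, dist z z' < η → ∀ e : EE, th e = g z → ∃ e' : EE, th e' = g z' ∧ dist e e' < r

/-- **Factorization through the nerve** (from `TCov`, `TLoc`; 300 lines). PROOF. `Gm` is discrete in the topological group `EE`, so there is `r₀ > 0` with `dist γ 1 ≥ r₀` for `1 ≠ γ ∈ Gm`; let `r > 0`, `8 r < r₀`, `8 r < 1`, `η` from `TLoc` for `r`. Elements of `EE` are also regarded as elements of the normed space `W = ℍ[ℝ] × ℍ[ℝ]` (maximum norm), on which `γ ∈ EE` acts by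
`γ w = (γ.1 w.1, γ.2 w.2)`, linear and isometric; `‖γ e - e‖ = ‖γ - 1‖` for `e ∈ EE`. `nm w = (w.1 / ‖w.1‖, w.2 / ‖w.2‖) ∈ EE` for `w.1, w.2 ≠ 0`, continuous there, `nm (γ w) = γ (nm w)`, `nm e = e` for `e ∈ EE`. For `b : B` such that some `x_b : U'` has `0 < β b x_b` choose it and `e b : EE` with `th (e b) = g (ι x_b)`; other `b`: `e b = 1`.
LOCAL LIFT: for `x` with `0 < β b x` there is exactly one `y = y_b x : EE` with `th y = g (ι x)` and `dist (e b) y < r` (existence: `TLoc`; uniqueness: two such differ by `γ ∈ Gm`, `‖γ - 1‖ = ‖γ y - y‖ < 2 r`). It is continuous on the open set `{0 < β b x}`: `th` is injective on `ball (e b) r` and open, so `th` restricted to the ball is an open embedding and `y_b = (its inverse) ∘ g ∘ ι`.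
TRANSITION: for `b, c` let `γ b c` be the element of `Gm` with `‖e b - γ (e c)‖ < 2 r` if there is one (it is unique: `4 r < r₀`), `1` otherwise. If `0 < β b x`, `0 < β c x` then `y_b x = γ (y_c x)` for some `γ ∈ Gm` and `‖e b - γ (e c)‖ < 2 r`, so `γ = γ b c`. COCYCLE: if `0 < β b x, β c x, β d x` for one `x` then `γ b c * γ c d = γ b d` (from `y_b = γ b c y_c`, ..., freeness).
MAP `g'`: for `w` and `b` with `0 < w b` let `A_b w = ∑ c, w c • γ b c (e c)` (sum over all `c`; `w c = 0` outside the support); `g' w = th (nm (A_b w))` for any `b` with `0 < w b` (choose one; if there is none `g' w = th 1`). For `w ∈ body (nrv β)`: the support `{c | 0 < w c}` is in `nrv β` (contained in a member, nonempty), so there is `x` with `0 < β c x` for all `c` in it;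
`A_b w = ∑ w c • γ b c (e c)` is a convex combination of points at distance `< 2 r < 1` from `e b`, so both components are nonzero; `A_b w = γ b d (A_d w)` for `b, d` in the support (cocycle), so `g' w` does not depend on the choice. CONTINUITY of `g'` on `body (nrv β)` at `w₀`: fix `b` with `0 < w₀ b`; near `w₀` in `body (nrv β)` one has `0 < w b`, `g' w = th (nm (A_b w))`.
HOMOTOPY: `H (s, x) = th (nm ((1 - s) • y_b x + s • A_b (β · x)))` for any `b` with `0 < β b x` (exists, the sum is one); independent of `b`: `y_b = γ b c y_c`, `A_b = γ b c A_c`; in the ball of radius `2 r` around `e b`, continuous on the open sets `{0 < β b x}`, which cover `U'` (`continuous_iff_continuousAt`). `H (0, x) = th (y_b x) = g (ι x)`, `H (1, x) = g' (β · x)`. -/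
def TNer : Prop :=
  ∀ (U : Type) [MetricSpace U] [CompactSpace U] (g : C(U, RSq)), ∃ η : ℝ, 0 < η ∧
    ∀ (U' : Type) [TopologicalSpace U'] (ι : C(U', U)) (B : Type) [Fintype B] (β : B → U' → ℝ),
      (∀ b, Continuous (β b)) → (∀ b x, 0 ≤ β b x) → (∀ x, ∑ b, β b x = 1) →
      (∀ b x x', 0 < β b x → 0 < β b x' → dist (ι x) (ι x') < η) →
      ∃ (g' : (B → ℝ) → RSq) (H : C(unitInterval × U', RSq)), ContinuousOn g' (body (nrv β)) ∧
        (∀ x, H (0, x) = g (ι x)) ∧ ∀ x, H (1, x) = g' (fun b => β b x)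

/-- The space has fine partitions of unity with at most `m` positive functions at every point. -/
def FineP (m : ℕ) (Z : Type) [MetricSpace Z] : Prop :=
  ∀ η : ℝ, 0 < η → ∃ (A : Type) (_ : Fintype A) (ψ : A → Z → ℝ), (∀ a, Continuous (ψ a)) ∧ (∀ a z, 0 ≤ ψ a z) ∧
    (∀ z, ∑ a, ψ a z = 1) ∧ (∀ a z z', 0 < ψ a z → 0 < ψ a z' → dist z z' < η) ∧ ∀ z, (sp (fun a => ψ a z)).card ≤ m

/-- **Reduction to dimension two** (from `SLay`, `SGenV`; 200 lines). PROOF. `η' ≤ η` with `dist z z' < η' → ‖D z - D z'‖ < δ / 2` (compactness). `A, ψ` from `FineP` for `η'`. `h a = D z_a` for some `z_a` with `0 < ψ a z_a` (`0` if there is none), `w` from `SGenV` (`D = 13`) with `dist (w a) (h a) < δ / 2`. `D' z = ∑ a, ψ a z • w a`, `‖D' z - D z‖ ≤ ∑ ψ a z ‖w a - D z‖ < δ`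
(`Z` empty: everything is vacuous). CONSTANTS: there are `κ ∈ (0, 1/4]`, `θ > 0` such that `‖D' z‖ ≤ κ` implies `14 ≤ (up θ (ψ · z)).card`. Otherwise for every `n` there is `z_n` with `‖D' z_n‖ ≤ 1 / (n + 4)` and `(up (1 / (n + 1)) (ψ · z_n)).card ≤ 13`; let `z` be a cluster point (subsequence limit): `D' z = 0`; every `a` with `0 < ψ a z` has `ψ a z_n ≥ 1 / (n + 1)` for large
`n` of the subsequence, so `(sp (ψ · z)).card ≤ 13` and `∑ ψ a z • w a = 0` contradicts the linear independence of the at most 13 vectors `w a`, `0 < ψ a z` (the coefficients are not all zero). LAYERS: `β₀` from `SLay` for `θ`; `B = Finset A`, `β L z = β₀ L (ψ · z) / ∑ L', β₀ L' (ψ · z)` on `{‖D' z‖ ≤ κ}` (the sum is positive). SMALL SUPPORTS: if `0 < β L z, β L z'` then `L`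
contains all `a` with `θ ≤ ψ a z` (at least 14, so `L` is nonempty); `a ∈ L` has `0 < ψ a z, ψ a z'`. NERVE: if `σ ∈ nrv β` then for some `z` all `L ∈ σ` have `0 < β₀ L (ψ · z)`, so `σ.card + 14 ≤ σ.card + (up θ _).card ≤ (sp _).card + 1 ≤ 17`. -/
def TRed : Prop :=
  ∀ (Z : Type) [MetricSpace Z] [CompactSpace Z], FineP 16 Z → ∀ (D : C(Z, Fin 13 → ℝ)) (δ η : ℝ), 0 < δ → 0 < η →
    ∃ (D' : C(Z, Fin 13 → ℝ)) (κ : ℝ), 0 < κ ∧ κ ≤ 1 / 4 ∧ (∀ z, ‖D' z - D z‖ < δ) ∧
      ∃ (B : Type) (_ : Fintype B) (β : B → {z // ‖D' z‖ ≤ κ} → ℝ), (∀ b, Continuous (β b)) ∧ (∀ b x, 0 ≤ β b x) ∧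
        (∀ x, ∑ b, β b x = 1) ∧ (∀ b x x', 0 < β b x → 0 < β b x' → dist (x : Z) (x' : Z) < η) ∧
        ∀ σ ∈ nrv β, σ.card ≤ 3

/-- **Gluing** (50 lines). PROOF. `F (s, z) = G (s, ⟨z, _⟩)` if `a z ≤ κ`, `k` otherwise. `continuous_iff_continuousAt` or: the sets `{(s, z) | a z ≤ κ}` and `{(s, z) | κ ≤ a z}` are closed and cover the space, `F` is continuous on both (on the first one it is `G` composed with the homeomorphism to `I × {z // a z ≤ κ}`, on the second one constant):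
`ContinuousOn.union_of_isClosed`, `continuousOn_iff_continuous_restrict`. -/
def TGlu : Prop :=
  ∀ (Z K : Type) [TopologicalSpace Z] [TopologicalSpace K] (k : K) (a : C(Z, ℝ)) (κ : ℝ)
    (G : C(unitInterval × {z // a z ≤ κ}, K)), (∀ s (z : {z // a z ≤ κ}), a z = κ → G (s, z) = k) →
    ∃ F : C(unitInterval × Z, K), (∀ s z (h : a z ≤ κ), F (s, z) = G (s, ⟨z, h⟩)) ∧ ∀ s z, κ ≤ a z → F (s, z) = k

/-- **Null-homotopy** (from `TNV`, `TCom`, `TGrp`, `TPi2`, `TNer`, `TRed`, `TGlu`; 250 lines). PROOF. `U = {z // ‖D z‖ ≤ 1}` (compact). `η` from `TNer` for `g`; `D', κ, B, β` from `TRed` for `δ = 1/4`, `η`; `U' = {z // ‖D' z‖ ≤ κ}`, `ι : U' → U` (`‖D z‖ ≤ κ + 1/4 ≤ 1`); `g', H` from `TNer`. `x₁ : RSq` any point (`TGrp`), `Y = LY K k`,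
`J x = ⟨d ↦ Jt (x, d), _⟩` (continuous: curry), `yc = J x₁`, `q = ⟨(x₁, constant path yc), rfl, rfl⟩ : HF J yc`. `TNV` (with `TCom`, `TGrp`, `TPi2`; `DownC (nrv β)` is clear) gives `Hn : I × (B → ℝ) → Y` with `Hn (0, w) = J (g' w)`, `Hn (1, w) = yc` on `body (nrv β)`, which contains `fun b => β b x` for `x ∈ U'` (its support is in `nrv β`).
FOUR HOMOTOPIES, (1)-(3) by `TGlu` (value `k` outside of the sets): (1) `Jt (g z, (1 - s) D z + s κ⁻¹ D' z)` for `‖D z‖ ≤ 1`; if `‖D z‖ = 1` the second argument has norm `≥ 1`: `‖(1 - s) D z + s κ⁻¹ D' z‖ ≥ ‖((1 - s) + s κ⁻¹) D z‖ - s κ⁻¹ ‖D' z - D z‖ ≥ (1 - s) + s κ⁻¹ (3/4) ≥ 1` (`κ⁻¹ ≥ 4`). At `s = 0` it is `f`. At `s = 1`: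
`Jt (g z, κ⁻¹ D' z)` for `‖D z‖ ≤ 1` and `k` for `‖D z‖ ≥ 1`; for `‖D' z‖ ≥ κ` it is `k`, and `‖D' z‖ ≤ κ` implies `‖D z‖ ≤ 1/2`: so it is the map (2) at `s = 0`. (2) `Jt (H (s, z), κ⁻¹ D' z)` for `‖D' z‖ ≤ κ`. At `s = 1`: `Jt (g' (β · z), κ⁻¹ D' z)`. (3) `(Hn (s, β · z)).1 (κ⁻¹ D' z)` for `‖D' z‖ ≤ κ`. At `s = 1`: `Jt (x₁, κ⁻¹ D' z)` for
`‖D' z‖ ≤ κ`, `k` otherwise, i.e. `Jt (x₁, κ⁻¹ D' z)` for all `z`. (4) `Jt (x₁, (1 - s) κ⁻¹ D' z)`: ends at the constant `Jt (x₁, 0)`. (Continuity of (3): `Hn` is continuous on `univ ×ˢ body (nrv β)`, the map `(s, z) ↦ (s, β · z)` has values there: `ContinuousOn.comp_continuous`; evaluation `C(Fin 13 → ℝ, K) × (Fin 13 → ℝ) → K` is continuous.) -/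
def TAs : Prop :=
  ∀ (K : Type) [TopologicalSpace K] (k : K) (Jt : C(RSq × (Fin 13 → ℝ), K)), (∀ x d, 1 ≤ ‖d‖ → Jt (x, d) = k) →
    ∀ (Z : Type) [MetricSpace Z] [CompactSpace Z], FineP 16 Z →
    ∀ (D : C(Z, Fin 13 → ℝ)) (g : C({z // ‖D z‖ ≤ 1}, RSq)) (f : C(Z, K)),
      (∀ (z : Z) (h : ‖D z‖ ≤ 1), f z = Jt (g ⟨z, h⟩, D z)) → (∀ z, 1 ≤ ‖D z‖ → f z = k) →
      ∃ y : K, f.Homotopic (ContinuousMap.const _ y)

/-- **GOAL** (from `TAs`, `SKuhn`; 30 lines): `SA2` (`Lib/MP_aafd8a_gt_D/Frame.lean`). PROOF. `SKuhn (i + 1) η` with `i + 1 ≤ 16` gives `FineP 16 (CSph (i + 1))` (the sphere of `Fin (i + 1) → ℝ` is compact). -/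
def TA2 : Prop := SA2

end Pool.Agent.MPaafd8a.A2
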