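import Pool.Agent.Lib.MP_aafd8a_gt_A2.Spec

/-!
# Square, first half
-/

set_option autoImplicit false

namespace Pool.Agent.MPaafd8a.A2

namespace Sq1M

/-- the projection to the unit interval -/
noncomputable def pj (x : ℝ) : unitInterval := Set.projIcc 0 1 zero_le_one x

theorem pj_cont : Continuous pj := continuous_projIcc (h := zero_le_one)

theorem pj_of {x : ℝ} (h : x ∈ unitInterval) : pj x = ⟨x, h⟩ := Set.projIcc_of_mem zero_le_one h

theorem pj_zero : pj 0 = 0 := pj_of ⟨le_rfl, zero_le_one⟩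

theorem pj_one : pj 1 = 1 := pj_of ⟨zero_le_one, le_rfl⟩

/-- the first coordinate -/
noncomputable def mm (x : ℝ) : ℝ := min 1 (2 * x)

/-- the second coordinate -/
noncomputable def nn (x : ℝ) : ℝ := max 0 (2 * x - 1)

theorem mm_cont : Continuous mm := by
  unfold mm
  fun_prop

theorem nn_cont : Continuous nn := by
  unfold nn
  fun_prop

theorem side (Z : Type) [TopologicalSpace Z] (Q : unitInterval × unitInterval → Z) (a b d : Z)
    (p : Path a b) (q : Path b d) (h0 : ∀ t, Q (t, 0) = p t) (h1 : ∀ t, Q (1, t) = q t)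
    (τ : unitInterval) : Q (pj (mm τ), pj (nn τ)) = (p.trans q) τ := by
  rw [Path.trans_apply]
  split_ifs with h
  · have e1 : mm (τ : ℝ) = 2 * τ := min_eq_right (by linarith)
    have e2 : nn (τ : ℝ) = 0 := max_eq_left (by linarith)
    rw [e1, e2, pj_zero, h0, pj_of]
  · push Not at h
    have e1 : mm (τ : ℝ) = 1 := min_eq_left (by linarith)
    have e2 : nn (τ : ℝ) = 2 * τ - 1 := max_eq_right (by linarith)
    rw [e1, e2, pj_one, h1, pj_of]

end Sq1M

open Sq1M in
theorem pSq1 : TSq1 := by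
  intro Z _ Q a b c d p q r u h1 h2 h3 h4
  have hc : Continuous fun x : unitInterval × unitInterval =>
      Q (pj ((1 - (x.1 : ℝ)) * mm x.2 + x.1 * nn x.2), pj ((1 - (x.1 : ℝ)) * nn x.2 + x.1 * mm x.2)) := by
    have := pj_cont
    have := mm_cont
    have := nn_cont
    fun_prop
  refine ⟨⟨⟨⟨_, hc⟩, fun τ => ?_, fun τ => ?_⟩, fun v τ hτ => ?_⟩⟩
  · change Q (pj ((1 - ((0 : unitInterval) : ℝ)) * mm τ + ((0 : unitInterval) : ℝ) * nn τ),
      pj ((1 - ((0 : unitInterval) : ℝ)) * nn τ + ((0 : unitInterval) : ℝ) * mm τ)) = (p.trans q) τ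
    rw [Set.Icc.coe_zero, sub_zero, one_mul, one_mul, zero_mul, zero_mul, add_zero, add_zero]
    exact side Z Q a b d p q h1 h2 τ
  · change Q (pj ((1 - ((1 : unitInterval) : ℝ)) * mm τ + ((1 : unitInterval) : ℝ) * nn τ),
      pj ((1 - ((1 : unitInterval) : ℝ)) * nn τ + ((1 : unitInterval) : ℝ) * mm τ)) = (r.trans u) τ
    rw [Set.Icc.coe_one, sub_self, zero_mul, zero_mul, one_mul, one_mul, zero_add, zero_add]
    exact side Z (fun x => Q (x.2, x.1)) a c d r u h3 h4 τ
  · change Q (pj ((1 - (v : ℝ)) * mm τ + v * nn τ), pj ((1 - (v : ℝ)) * nn τ + v * mm τ)) =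
      (p.trans q) τ
    rw [← side Z Q a b d p q h1 h2 τ]
    rcases hτ with rfl | hτ
    · have e1 : mm ((0 : unitInterval) : ℝ) = 0 := by
        rw [Set.Icc.coe_zero]
        unfold mm
        norm_num
      have e2 : nn ((0 : unitInterval) : ℝ) = 0 := by
        rw [Set.Icc.coe_zero]
        unfold nn
        norm_num
      rw [e1, e2, mul_zero, mul_zero, add_zero]
    · rw [Set.mem_singleton_iff] at hτ
      subst hτ
      have e1 : mm ((1 : unitInterval) : ℝ) = 1 := by
        rw [Set.Icc.coe_one]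
        unfold mm
        norm_num
      have e2 : nn ((1 : unitInterval) : ℝ) = 1 := by
        rw [Set.Icc.coe_one]
        unfold nn
        norm_num
      rw [e1, e2, mul_one, mul_one, sub_add_cancel]

end Pool.Agent.MPaafd8a.A2
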